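import Pool.Agent.Work.MP_02f065_gt.Toric.Stmts

/-! Bundle of small proof modules (one section per former module). -/

section

/-! Assembly of the toric theorem from the claims. -/

open MeasureTheory Set Filter Topology

noncomputable section

namespace Pool.Agent.Work.MP_02f065_gt.Toric

theorem Dt_neg (G11 G12 G22 : ℝ → ℝ) (s : ℝ) :
    Dt G11 (fun s => -G12 s) G22 s = Dt G11 G12 G22 s := by
  simp [Dt]

theorem CoreData.neg {σ : ℝ} {a G11 G12 G22 : ℝ → ℝ} (h : CoreData σ a G11 G12 G22) :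
    CoreData σ a G11 (fun s => -G12 s) G22 where
  σpos := h.σpos
  ca := h.ca
  c11 := h.c11
  c12 := h.c12.neg
  c22 := h.c22
  apos := h.apos
  pos11 := h.pos11
  posD := fun s hs => by rw [Dt_neg]; exact h.posD s hs
  int := h.int
  intD := by
    have h1 : (fun s => a s * Real.sqrt (Dt G11 (fun s => -G12 s) G22 s)) =
        fun s => a s * Real.sqrt (Dt G11 G12 G22 s) := by
      funext s
      rw [Dt_neg]
    rw [h1]
    exact h.intD
  lim0 := h.lim0
  limσ := h.limσ

theorem main_of (hA6 : claimA6) (hB1 : claimB1) (hB2 : claimB2) (hB7 : claimB7)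
    (hC1 : claimC1) (hC2 : claimC2) (hC3 : claimC3) (hC5 : claimC5) (hC6 : claimC6)
    (hD5 : claimD5) (hE3 : claimE3) : claimMain := by
  intro g hg hconf hvol
  obtain ⟨g₁, u, hg1, ht1, hu, hupos, hgu⟩ := hconf
  obtain ⟨L, hL, hlen, γ, hγ⟩ := hA6 g hg
  set lam : E → ℝ := fun x => Real.sqrt (u x) with hlam
  have hlc : ContinuousOn lam (Metric.sphere (0 : E) 1) := hu.sqrt
  have hlp : ∀ x, ‖x‖ = 1 → 0 < lam x := fun x hx => Real.sqrt_pos.mpr (hupos x hx)
  have hgl : ∀ x v w : E, ‖x‖ = 1 → inner ℝ x v = 0 → inner ℝ x w = 0 →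
      g x v w = (lam x) ^ 2 * g₁ x v w := by
    intro x v w hx hv hw
    rw [hlam]
    simp only
    rw [Real.sq_sqrt (hupos x hx).le]
    exact hgu x v w hx hv hw
  obtain ⟨h2m, h2t⟩ := hB1 g₁ lam hg1 ht1 hlc hlp
  have h2L := hB2 g g₁ lam L hg hg1 ht1 hlc hlp hgl hlen
  have h2v := hB7 g g₁ lam hg hg1 ht1 hlc hlp hgl
  set g₂ : Form := fun x => (avg lam x) ^ 2 • g₁ x with hg2
  have hcore := hC1 g₂ h2m
  obtain ⟨hp1, hp2⟩ := hC2 g₂ L h2m h2t h2L
  obtain ⟨hd1, hd2⟩ := hC3 g₂ L h2m h2t h2L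
  have hi1 := hD5 _ L _ _ _ _ hcore hp1 hd1
  have hi2 := hD5 _ L _ _ _ _ hcore.neg hp2 hd2
  have h3 := hE3 _ L _ _ _ _ hL hcore hi1 hi2
  have h4 := hC5 g₂ h2m h2t
  refine ⟨γ, L, hγ, ?_⟩
  have h5 : vol g₂ ≤ Real.pi ^ 2 := by
    have := h2v.trans hvol
    rwa [hC6] at this
  have hpi : 0 < Real.pi := Real.pi_pos
  have h6 : L ^ 3 ≤ Real.pi ^ 3 := by
    have h7 : L ^ 3 ≤ Real.pi * vol g₂ := by
      rw [h4]
      calc L ^ 3 ≤ _ := h3
        _ = _ := by ring
    calc L ^ 3 ≤ Real.pi * vol g₂ := h7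
      _ ≤ Real.pi * Real.pi ^ 2 := by gcongr
      _ = Real.pi ^ 3 := by ring
  exact le_of_pow_le_pow_left₀ (by norm_num) hpi.le h6

theorem D1_of (h1 : claimD1a) (h2 : claimD1b) : claimD1 := by
  intro σ L a G11 G12 G22 hc hp s1 s2 h0 h12 h2'
  obtain ⟨p, q, h⟩ := h1 σ L a G11 G12 G22 hc hp s1 s2 h0 h12 h2'
  exact ⟨p, q, h2 σ L a G11 G12 G22 hc s1 s2 p q h0 h12 h2' h⟩

end Pool.Agent.Work.MP_02f065_gt.Toric

end
end

section

/-!
MP_02f065_gt, item A1: two-sided bounds of a metric on tangent vectors.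
-/

open MeasureTheory Set Filter Topology

noncomputable section

namespace Pool.Agent.Work.MP_02f065_gt.Toric

theorem itemA1 : claimA1 := by
  intro g hg
  set S : Set (E × E) := {p | ‖p.1‖ = 1 ∧ ‖p.2‖ = 1 ∧ inner ℝ p.1 p.2 = 0} with hS
  have hcl : IsClosed S := by
    have h1 : IsClosed {p : E × E | ‖p.1‖ = 1} := isClosed_eq (by fun_prop) continuous_const
    have h2 : IsClosed {p : E × E | ‖p.2‖ = 1} := isClosed_eq (by fun_prop) continuous_const
    have h3 : IsClosed {p : E × E | inner ℝ p.1 p.2 = 0} :=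
      isClosed_eq (continuous_fst.inner continuous_snd) continuous_const
    have : S = {p : E × E | ‖p.1‖ = 1} ∩ ({p : E × E | ‖p.2‖ = 1} ∩
        {p : E × E | inner ℝ p.1 p.2 = 0}) := by
      ext p; simp [hS]
    rw [this]
    exact h1.inter (h2.inter h3)
  have hbd : Bornology.IsBounded S := by
    refine (Metric.isBounded_closedBall (x := (0 : E × E)) (r := 1)).subset ?_
    rintro p ⟨h1, h2, -⟩
    rw [mem_closedBall_zero_iff, Prod.norm_def, h1, h2]
    simp
  have hK : IsCompact S := Metric.isCompact_of_isClosed_isBounded hcl hbd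
  have hne : S.Nonempty := by
    refine ⟨(EuclideanSpace.single 0 1, EuclideanSpace.single 1 1), ?_, ?_, ?_⟩
    · simp
    · simp
    · change inner ℝ (EuclideanSpace.single (0 : Fin 4) (1 : ℝ))
        (EuclideanSpace.single (1 : Fin 4) (1 : ℝ)) = 0
      rw [EuclideanSpace.inner_single_left]
      simp
  have hf : ContinuousOn (fun p : E × E => g p.1 p.2 p.2) S := by
    have h1 : ContinuousOn (fun p : E × E => g p.1) S := by
      refine hg.cont.comp continuousOn_fst ?_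
      rintro p ⟨h1, -, -⟩
      simpa using h1
    exact (h1.clm_apply continuousOn_snd).clm_apply continuousOn_snd
  obtain ⟨p, hpS, hp⟩ := hK.exists_isMinOn hne hf
  obtain ⟨q, hqS, hq⟩ := hK.exists_isMaxOn hne hf
  have hppos : 0 < g p.1 p.2 p.2 := by
    refine hg.pos p.1 p.2 hpS.1 hpS.2.2 ?_
    intro h0
    have := hpS.2.1
    rw [h0, norm_zero] at this
    exact zero_ne_one this
  have hqpos : 0 < g q.1 q.2 q.2 := by
    refine hg.pos q.1 q.2 hqS.1 hqS.2.2 ?_
    intro h0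
    have := hqS.2.1
    rw [h0, norm_zero] at this
    exact zero_ne_one this
  refine ⟨Real.sqrt (g p.1 p.2 p.2), Real.sqrt (g q.1 q.2 q.2), Real.sqrt_pos.2 hppos,
    Real.sqrt_pos.2 hqpos, ?_⟩
  intro x v hx hxv
  rw [Real.sq_sqrt hppos.le, Real.sq_sqrt hqpos.le]
  by_cases hv : v = 0
  · subst hv
    simp
  · have hn : 0 < ‖v‖ := norm_pos_iff.2 hv
    set w : E := ‖v‖⁻¹ • v with hw
    have hwS : (x, w) ∈ S := by
      refine ⟨hx, ?_, ?_⟩
      · rw [hw]
        simp only [norm_smul, norm_inv, norm_norm]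
        exact inv_mul_cancel₀ hn.ne'
      · change inner ℝ x w = 0
        rw [hw, inner_smul_right, hxv, mul_zero]
    have hvw : v = ‖v‖ • w := by
      rw [hw, smul_smul, mul_inv_cancel₀ hn.ne', one_smul]
    have hval : g x v v = ‖v‖ ^ 2 * g x w w := by
      conv_lhs => rw [hvw]
      simp only [map_smul, smul_apply, smul_eq_mul]
      ring
    have h1 : g p.1 p.2 p.2 ≤ g x w w := hp hwS
    have h2 : g x w w ≤ g q.1 q.2 q.2 := hq hwS
    have h3 : 0 ≤ ‖v‖ ^ 2 := by positivity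
    rw [hval]
    constructor
    · nlinarith
    · nlinarith

end Pool.Agent.Work.MP_02f065_gt.Toric

end
end

section

/-!
MP_02f065_gt, item A2: reparametrisation of arcs.
-/

open MeasureTheory Set Filter Topology

noncomputable section

namespace Pool.Agent.Work.MP_02f065_gt.Toric

namespace IA2

/-- derivative of the smooth transition function -/
def st' (t : ℝ) : ℝ := deriv Real.smoothTransition t

theorem hasDerivAt_st (t : ℝ) : HasDerivAt Real.smoothTransition (st' t) t :=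
  ((Real.smoothTransition.contDiff (n := 1)).differentiable (by simp) t).hasDerivAt

theorem continuous_st' : Continuous st' :=
  (Real.smoothTransition.contDiff (n := 1)).continuous_deriv (by simp)

theorem st'_nonneg (t : ℝ) : 0 ≤ st' t := Real.smoothTransition.monotone.deriv_nonneg

theorem st'_zero {t : ℝ} (ht : t ≤ 0) : st' t = 0 := by
  apply IsLocalMin.deriv_eq_zero
  refine Filter.Eventually.of_forall fun u => ?_
  rw [Real.smoothTransition.zero_of_nonpos ht]
  exact Real.smoothTransition.nonneg u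

theorem st'_one {t : ℝ} (ht : 1 ≤ t) : st' t = 0 := by
  apply IsLocalMax.deriv_eq_zero
  refine Filter.Eventually.of_forall fun u => ?_
  rw [Real.smoothTransition.one_of_one_le ht]
  exact Real.smoothTransition.le_one u

theorem sqrt_smul (g : Form) (x v : E) {r : ℝ} (hr : 0 ≤ r) :
    Real.sqrt (g x (r • v) (r • v)) = Real.sqrt (g x v v) * r := by
  rw [map_smul, map_smul, smul_apply, smul_eq_mul, smul_eq_mul, ← mul_assoc,
    ← pow_two, Real.sqrt_mul (sq_nonneg r), Real.sqrt_sq hr, mul_comm]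

end IA2

open IA2 in
theorem itemA2 : claimA2 := by
  intro g c c' a b hg hab harc
  set h : ℝ → ℝ := fun t => a + (b - a) * Real.smoothTransition t with hh
  set h' : ℝ → ℝ := fun t => (b - a) * st' t with hh'
  have hder : ∀ t, HasDerivAt h (h' t) t := fun t =>
    ((hasDerivAt_st t).const_mul (b - a)).const_add a
  have hba : 0 ≤ b - a := by linarith
  have hmem : ∀ t, h t ∈ Icc a b := by
    intro t
    have h0 := Real.smoothTransition.nonneg t
    have h1 := Real.smoothTransition.le_one t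
    constructor
    · have : 0 ≤ (b - a) * Real.smoothTransition t := mul_nonneg hba h0
      simp only [hh]
      linarith
    · have : (b - a) * Real.smoothTransition t ≤ (b - a) * 1 := by gcongr
      simp only [hh]
      linarith
  have hpos : ∀ t, 0 ≤ h' t := fun t => mul_nonneg hba (st'_nonneg t)
  have hcont : Continuous h :=
    continuous_const.add (continuous_const.mul Real.smoothTransition.continuous)
  have hcont' : Continuous h' := continuous_const.mul continuous_st'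
  have hh0 : h 0 = a := by
    simp only [hh, Real.smoothTransition.zero, mul_zero, add_zero]
  have hh1 : h 1 = b := by
    simp only [hh, Real.smoothTransition.one, mul_one]
    ring
  have hk : ∀ t, HasDerivAt (c ∘ h) (h' t • c' (h t)) t := fun t =>
    (harc.deriv (h t) (hmem t)).scomp_hasDerivAt t (hder t) hmem
  have hkd : deriv (c ∘ h) = fun t => h' t • c' (h t) := funext fun t => (hk t).deriv
  refine ⟨c ∘ h, ⟨?_, ?_, ?_, ?_⟩, ?_⟩
  · rw [contDiff_one_iff_deriv]
    refine ⟨fun t => (hk t).differentiableAt, ?_⟩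
    rw [hkd]
    exact hcont'.smul (harc.cont.comp_continuous hcont hmem)
  · intro t
    exact harc.sphere _ (hmem t)
  · simp only [Function.comp_apply, hh0]
  · simp only [Function.comp_apply, hh1]
  · unfold length arcLength
    have e1 : ∀ t : ℝ, Real.sqrt (g ((c ∘ h) t) (deriv (c ∘ h) t) (deriv (c ∘ h) t)) =
        ((fun u => Real.sqrt (g (c u) (c' u) (c' u))) ∘ h) t * h' t := by
      intro t
      rw [hkd]
      exact sqrt_smul g _ _ (hpos t)
    simp_rw [e1]
    rw [intervalIntegral.integral_comp_mul_deriv_of_deriv_nonneg hcont.continuousOn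
      (fun x _ => hder x) (fun x _ => hpos x), hh0, hh1]

end Pool.Agent.Work.MP_02f065_gt.Toric

end
end

section

/-!
Item A4a: comparison of the Riemannian distance with the Euclidean one.
-/

open MeasureTheory Set Filter Topology

noncomputable section

namespace Pool.Agent.Work.MP_02f065_gt.Toric

theorem a4a_orth {c : ℝ → E} (hc : Differentiable ℝ c) (hs : ∀ t, ‖c t‖ = 1) (t : ℝ) :
    inner ℝ (c t) (deriv c t) = 0 := by
  have h1 : HasDerivAt (fun s => inner ℝ (c s) (c s))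
      (inner ℝ (c t) (deriv c t) + inner ℝ (deriv c t) (c t)) t :=
    (hc t).hasDerivAt.inner ℝ (hc t).hasDerivAt
  have h2 : (fun s => inner ℝ (c s) (c s)) = fun _ : ℝ => (1 : ℝ) := by
    funext s
    rw [real_inner_self_eq_norm_sq, hs, one_pow]
  rw [h2] at h1
  have h3 := h1.unique (hasDerivAt_const t (1 : ℝ))
  rw [real_inner_comm (c t) (deriv c t)] at h3
  linarith

theorem a4a_cont {g : Form} (hg : IsMetric g) {c : ℝ → E} (hc : ContDiff ℝ 1 c)
    (hs : ∀ t, ‖c t‖ = 1) :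
    Continuous (fun t => Real.sqrt (g (c t) (deriv c t) (deriv c t))) := by
  have h1 : Continuous (fun t => g (c t)) :=
    hg.cont.comp_continuous hc.continuous (fun t => by simp [hs])
  have h2 : Continuous (deriv c) := hc.continuous_deriv le_rfl
  exact Real.continuous_sqrt.comp ((h1.clm_apply h2).clm_apply h2)

theorem a4a_lower {g : Form} (hg : IsMetric g) {m : ℝ} (hm : 0 < m)
    (h : ∀ x v : E, ‖x‖ = 1 → inner ℝ x v = 0 → m ^ 2 * ‖v‖ ^ 2 ≤ g x v v)
    {x y : E} {c : ℝ → E} (hc : IsCurve c x y) : m * ‖x - y‖ ≤ length g c := by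
  have hd : Differentiable ℝ c := hc.smooth.differentiable one_ne_zero
  have hdc : Continuous (deriv c) := hc.smooth.continuous_deriv le_rfl
  have h1 : ∫ t in (0 : ℝ)..1, deriv c t = c 1 - c 0 := by
    apply intervalIntegral.integral_deriv_eq_sub (fun t _ => hd t)
    exact hdc.intervalIntegrable _ _
  have h2 : ‖x - y‖ ≤ ∫ t in (0 : ℝ)..1, ‖deriv c t‖ := by
    have h3 := intervalIntegral.norm_integral_le_integral_norm (f := deriv c) (μ := volume)
      (zero_le_one (α := ℝ))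
    rw [h1, hc.left, hc.right, norm_sub_rev] at h3
    exact h3
  have h4 : ∫ t in (0 : ℝ)..1, m * ‖deriv c t‖ ≤ length g c := by
    unfold length
    apply intervalIntegral.integral_mono_on zero_le_one
    · exact (continuous_const.mul hdc.norm).intervalIntegrable _ _
    · exact (a4a_cont hg hc.smooth hc.sphere).intervalIntegrable _ _
    · intro t _
      apply Real.le_sqrt_of_sq_le
      rw [mul_pow]
      exact h _ _ (hc.sphere t) (a4a_orth hd hc.sphere t)
  rw [intervalIntegral.integral_const_mul] at h4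
  exact (mul_le_mul_of_nonneg_left h2 hm.le).trans h4

theorem a4a_unit (x : E) (hx : ‖x‖ = 1) : ∃ n : E, ‖n‖ = 1 ∧ inner ℝ x n = 0 := by
  refine ⟨!₂[-x 1, x 0, -x 3, x 2], ?_, ?_⟩
  · rw [← hx, EuclideanSpace.norm_eq, EuclideanSpace.norm_eq]
    congr 1
    simp [Fin.sum_univ_four]
    ring
  · simp [PiLp.inner_apply, Fin.sum_univ_four]
    ring

theorem a4a_polar (x y : E) (hx : ‖x‖ = 1) (hy : ‖y‖ = 1) : ∃ (n : E) (w : ℝ), ‖n‖ = 1 ∧
    inner ℝ x n = 0 ∧ 0 ≤ w ∧ w ≤ Real.pi ∧ y = Real.cos w • x + Real.sin w • n := by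
  have hb : |inner ℝ x y| ≤ 1 := by
    have := abs_real_inner_le_norm x y
    rwa [hx, hy, mul_one] at this
  have hb1 := (abs_le.mp hb).1
  have hb2 := (abs_le.mp hb).2
  have hcos : Real.cos (Real.arccos (inner ℝ x y)) = inner ℝ x y := Real.cos_arccos hb1 hb2
  have hsin : Real.sin (Real.arccos (inner ℝ x y)) = Real.sqrt (1 - (inner ℝ x y) ^ 2) :=
    Real.sin_arccos _
  have hxx : inner ℝ x x = (1 : ℝ) := by rw [real_inner_self_eq_norm_sq, hx, one_pow]
  have hyy : inner ℝ y y = (1 : ℝ) := by rw [real_inner_self_eq_norm_sq, hy, one_pow]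
  by_cases hs : 1 - (inner ℝ x y) ^ 2 ≤ 0
  · obtain ⟨n, hn1, hn2⟩ := a4a_unit x hx
    refine ⟨n, Real.arccos (inner ℝ x y), hn1, hn2, Real.arccos_nonneg _, Real.arccos_le_pi _, ?_⟩
    rw [hcos, hsin, Real.sqrt_eq_zero_of_nonpos hs, zero_smul, add_zero]
    have h1 : ‖y - (inner ℝ x y) • x‖ ^ 2 = 1 - (inner ℝ x y) ^ 2 := by
      rw [← real_inner_self_eq_norm_sq, inner_sub_left, inner_sub_right, inner_sub_right,
        real_inner_smul_left, real_inner_smul_left, real_inner_smul_right, real_inner_smul_right,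
        hxx, hyy, real_inner_comm x y]
      ring
    have h2 : ‖y - (inner ℝ x y) • x‖ = 0 := by
      have h3 : ‖y - (inner ℝ x y) • x‖ ^ 2 ≤ 0 := by rw [h1]; exact hs
      have h4 := sq_nonneg ‖y - (inner ℝ x y) • x‖
      have h5 : ‖y - (inner ℝ x y) • x‖ ^ 2 = 0 := le_antisymm h3 h4
      exact pow_eq_zero_iff two_ne_zero |>.mp h5
    exact sub_eq_zero.mp (norm_eq_zero.mp h2)
  · push Not at hs
    set s := Real.sqrt (1 - (inner ℝ x y) ^ 2) with hsdef
    have hspos : 0 < s := Real.sqrt_pos.mpr hs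
    have hs2 : s ^ 2 = 1 - (inner ℝ x y) ^ 2 := Real.sq_sqrt hs.le
    refine ⟨s⁻¹ • (y - (inner ℝ x y) • x), Real.arccos (inner ℝ x y), ?_, ?_,
      Real.arccos_nonneg _, Real.arccos_le_pi _, ?_⟩
    · have h1 : ‖y - (inner ℝ x y) • x‖ ^ 2 = s ^ 2 := by
        rw [hs2, ← real_inner_self_eq_norm_sq, inner_sub_left, inner_sub_right, inner_sub_right,
          real_inner_smul_left, real_inner_smul_left, real_inner_smul_right, real_inner_smul_right,
          hxx, hyy, real_inner_comm x y]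
        ring
      have h2 : ‖y - (inner ℝ x y) • x‖ = s := by
        have := (sq_eq_sq₀ (norm_nonneg _) hspos.le).mp h1
        exact this
      rw [norm_smul, h2, norm_inv, Real.norm_of_nonneg hspos.le]
      field_simp
    · rw [real_inner_smul_right, inner_sub_right, real_inner_smul_right, hxx]
      ring
    · rw [hcos, hsin, smul_smul, mul_inv_cancel₀ hspos.ne', one_smul]
      abel

theorem a4a_norm {x n : E} (hx : ‖x‖ = 1) (hn : ‖n‖ = 1) (ho : inner ℝ x n = 0) (a b : ℝ) :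
    ‖a • x + b • n‖ ^ 2 = a ^ 2 + b ^ 2 := by
  have hxx : inner ℝ x x = (1 : ℝ) := by rw [real_inner_self_eq_norm_sq, hx, one_pow]
  have hnn : inner ℝ n n = (1 : ℝ) := by rw [real_inner_self_eq_norm_sq, hn, one_pow]
  have ho' : inner ℝ n x = 0 := by rw [real_inner_comm]; exact ho
  rw [← real_inner_self_eq_norm_sq, inner_add_left, inner_add_right, inner_add_right,
    real_inner_smul_left, real_inner_smul_left, real_inner_smul_left, real_inner_smul_left,
    real_inner_smul_right, real_inner_smul_right, real_inner_smul_right, real_inner_smul_right,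
    hxx, hnn, ho, ho']
  ring

theorem a4a_upper {g : Form} {M : ℝ} (hM : 0 < M)
    (h : ∀ x v : E, ‖x‖ = 1 → inner ℝ x v = 0 → g x v v ≤ M ^ 2 * ‖v‖ ^ 2)
    {x y : E} (hx : ‖x‖ = 1) (hy : ‖y‖ = 1) :
    ∃ c, IsCurve c x y ∧ length g c ≤ 2 * M * ‖x - y‖ := by
  obtain ⟨n, w, hn, ho, hw0, hwp, hyw⟩ := a4a_polar x y hx hy
  set c : ℝ → E := fun t => Real.cos (w * t) • x + Real.sin (w * t) • n with hcdef
  have hnorm : ∀ t, ‖c t‖ = 1 := by
    intro t
    have h1 := a4a_norm hx hn ho (Real.cos (w * t)) (Real.sin (w * t))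
    rw [Real.cos_sq_add_sin_sq] at h1
    exact (pow_eq_one_iff_of_nonneg (norm_nonneg _) two_ne_zero).mp h1
  have hder : ∀ t, HasDerivAt c ((-Real.sin (w * t) * w) • x + (Real.cos (w * t) * w) • n) t := by
    intro t
    have hl : HasDerivAt (fun s : ℝ => w * s) w t := by
      simpa using (hasDerivAt_id t).const_mul w
    have h1 : HasDerivAt (fun s : ℝ => Real.cos (w * s)) (-Real.sin (w * t) * w) t := hl.cos
    have h2 : HasDerivAt (fun s : ℝ => Real.sin (w * s)) (Real.cos (w * t) * w) t := hl.sin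
    exact (h1.smul_const x).add (h2.smul_const n)
  have hsm : ContDiff ℝ 1 c := by
    apply ContDiff.add
    · exact (Real.contDiff_cos.comp (contDiff_const.mul contDiff_id)).smul contDiff_const
    · exact (Real.contDiff_sin.comp (contDiff_const.mul contDiff_id)).smul contDiff_const
  have hcurve : IsCurve c x y := by
    refine ⟨hsm, hnorm, ?_, ?_⟩
    · simp [hcdef]
    · simp [hcdef, ← hyw]
  refine ⟨c, hcurve, ?_⟩
  have hdn : ∀ t, ‖deriv c t‖ = w := by
    intro t
    rw [(hder t).deriv]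
    have h1 := a4a_norm hx hn ho (-Real.sin (w * t) * w) (Real.cos (w * t) * w)
    have h2 : (-Real.sin (w * t) * w) ^ 2 + (Real.cos (w * t) * w) ^ 2 = w ^ 2 := by
      have := Real.sin_sq_add_cos_sq (w * t)
      linear_combination w ^ 2 * this
    rw [h2] at h1
    exact (sq_eq_sq₀ (norm_nonneg _) hw0).mp h1
  have hlen : length g c ≤ M * w := by
    have h1 := intervalIntegral.norm_integral_le_of_norm_le_const (a := (0 : ℝ)) (b := 1)
      (f := fun t => Real.sqrt (g (c t) (deriv c t) (deriv c t))) (C := M * w) (by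
        intro t _
        rw [Real.norm_of_nonneg (Real.sqrt_nonneg _)]
        apply Real.sqrt_le_iff.mpr
        refine ⟨by positivity, ?_⟩
        have h2 := h (c t) (deriv c t) (hnorm t)
          (a4a_orth (hsm.differentiable one_ne_zero) hnorm t)
        rw [hdn t] at h2
        rw [mul_pow]
        exact h2)
    rw [sub_zero, abs_one, mul_one] at h1
    exact (Real.le_norm_self _).trans h1
  have hw : w ≤ 2 * ‖x - y‖ := by
    have h1 : ‖x - y‖ ^ 2 = (2 * Real.sin (w / 2)) ^ 2 := by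
      have h2 : x - y = (1 - Real.cos w) • x + (-Real.sin w) • n := by
        rw [hyw]
        module
      rw [h2, a4a_norm hx hn ho]
      have h3 : Real.cos w = 1 - 2 * Real.sin (w / 2) ^ 2 := by
        have := Real.cos_two_mul (w / 2)
        rw [mul_div_cancel₀ w two_ne_zero] at this
        have h4 := Real.sin_sq_add_cos_sq (w / 2)
        rw [this]
        linear_combination 2 * h4
      have h5 := Real.sin_sq_add_cos_sq w
      have h6 : (1 - Real.cos w) ^ 2 + (-Real.sin w) ^ 2 = 2 * (1 - Real.cos w) := by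
        linear_combination h5
      rw [h6, h3]
      ring
    have h7 : 0 ≤ Real.sin (w / 2) :=
      Real.sin_nonneg_of_nonneg_of_le_pi (by linarith) (by linarith)
    have h8 : ‖x - y‖ = 2 * Real.sin (w / 2) := (sq_eq_sq₀ (norm_nonneg _) (by linarith)).mp h1
    have h9 := Real.mul_le_sin (x := w / 2) (by linarith) (by linarith)
    have h10 : 1 / 2 * (w / 2) ≤ 2 / Real.pi * (w / 2) := by
      apply mul_le_mul_of_nonneg_right _ (by linarith)
      rw [div_le_div_iff₀ two_pos Real.pi_pos]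
      linarith [Real.pi_le_four]
    rw [h8]
    linarith
  calc length g c ≤ M * w := hlen
    _ ≤ M * (2 * ‖x - y‖) := mul_le_mul_of_nonneg_left hw hM.le
    _ = 2 * M * ‖x - y‖ := by ring

theorem itemA4a (h1 : claimA1) : claimA4a := by
  intro g hg
  obtain ⟨m, M, hm, hM, h⟩ := h1 g hg
  refine ⟨m, 2 * M, hm, by positivity, ?_⟩
  intro x y hx hy
  obtain ⟨c, hc, hl⟩ := a4a_upper hM (fun x v hx hv => (h x v hx hv).2) hx hy
  have hlow : ∀ l ∈ {l | ∃ c, IsCurve c x y ∧ length g c = l}, m * ‖x - y‖ ≤ l := by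
    rintro l ⟨c', hc', rfl⟩
    exact a4a_lower hg hm (fun x v hx hv => (h x v hx hv).1) hc'
  refine ⟨⟨c, hc⟩, ?_, ?_⟩
  · exact le_csInf ⟨_, c, hc, rfl⟩ hlow
  · exact (csInf_le ⟨_, hlow⟩ ⟨c, hc, rfl⟩).trans hl

end Pool.Agent.Work.MP_02f065_gt.Toric

end
end

section

/-!
MP_02f065_gt, item A4b: basic properties of the Riemannian distance.
-/

open MeasureTheory Set Filter Topology

noncomputable section

namespace Pool.Agent.Work.MP_02f065_gt.Toric

private theorem a4b_len_nonneg (g : Form) (c : ℝ → E) : 0 ≤ length g c :=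
  intervalIntegral.integral_nonneg (by norm_num) fun _ _ => Real.sqrt_nonneg _

private theorem a4b_bdd (g : Form) (x y : E) :
    BddBelow {l | ∃ c, IsCurve c x y ∧ length g c = l} := by
  refine ⟨0, ?_⟩
  rintro l ⟨c, -, rfl⟩
  exact a4b_len_nonneg g c

private theorem a4b_le (g : Form) {x y : E} {c : ℝ → E} (hc : IsCurve c x y) :
    rdist g x y ≤ length g c :=
  csInf_le (a4b_bdd g x y) ⟨c, hc, rfl⟩

private theorem a4b_tangent {c : ℝ → E} {x y : E} (hc : IsCurve c x y) (t : ℝ) :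
    inner ℝ (c t) (deriv c t) = 0 := by
  have hd : HasDerivAt c (deriv c t) t :=
    (hc.smooth.differentiable (by norm_num)).differentiableAt.hasDerivAt
  have h1 : HasDerivAt (fun s => inner ℝ (c s) (c s))
      (inner ℝ (c t) (deriv c t) + inner ℝ (deriv c t) (c t)) t := hd.inner ℝ hd
  have h2 : (fun s => inner ℝ (c s) (c s)) = fun _ => (1 : ℝ) := by
    funext s
    rw [real_inner_self_eq_norm_sq, hc.sphere s, one_pow]
  rw [h2] at h1
  have h3 := h1.unique (hasDerivAt_const t (1 : ℝ))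
  rw [real_inner_comm (c t) (deriv c t)] at h3
  linarith

private theorem a4b_rev {g : Form} {c : ℝ → E} {x y : E} (hc : IsCurve c x y) :
    ∃ k, IsCurve k y x ∧ length g k = length g c := by
  refine ⟨fun t => c (1 - t), ⟨?_, fun t => hc.sphere _, ?_, ?_⟩, ?_⟩
  · exact hc.smooth.comp (contDiff_const.sub contDiff_id)
  · simpa using hc.right
  · simpa using hc.left
  · have h1 : ∀ t : ℝ, deriv (fun t => c (1 - t)) t = -deriv c (1 - t) := by
      intro t
      exact deriv_comp_const_sub (f := c) 1 t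
    unfold length
    have h2 : (fun t : ℝ => Real.sqrt (g (c (1 - t)) (deriv (fun t => c (1 - t)) t)
        (deriv (fun t => c (1 - t)) t))) =
        fun t : ℝ => (fun s => Real.sqrt (g (c s) (deriv c s) (deriv c s))) (1 - t) := by
      funext t
      rw [h1 t]
      simp
    rw [h2, intervalIntegral.integral_comp_sub_left
      (fun s => Real.sqrt (g (c s) (deriv c s) (deriv c s))) 1]
    norm_num

private theorem a4b_neg {g : Form} (hg : IsMetric g) {c : ℝ → E} {x y : E}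
    (hc : IsCurve c x y) :
    ∃ k, IsCurve k (-x) (-y) ∧ length g k = length g c := by
  refine ⟨fun t => -c t, ⟨hc.smooth.neg, fun t => ?_, ?_, ?_⟩, ?_⟩
  · rw [norm_neg]; exact hc.sphere t
  · simp [hc.left]
  · simp [hc.right]
  · unfold length
    congr 1
    funext t
    have h1 : deriv (fun t => -c t) t = -deriv c t := deriv.fun_neg
    have h2 := a4b_tangent hc t
    have h3 := hg.even (c t) (deriv c t) (deriv c t) (hc.sphere t) h2 h2
    rw [h1]
    simp only [map_neg, neg_apply, neg_neg]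
    rw [h3]

theorem itemA4b (hA3 : claimA3) (hA4a : claimA4a) : claimA4b := by
  intro g hg
  refine ⟨fun x y c hc => a4b_le g hc, ?_⟩
  intro x y z hx hy hz
  obtain ⟨m, M, hm, hM, hex⟩ := hA4a g hg
  have hne : ∀ x y : E, ‖x‖ = 1 → ‖y‖ = 1 →
      {l | ∃ c, IsCurve c x y ∧ length g c = l}.Nonempty := by
    intro x y hx hy
    obtain ⟨⟨c, hc⟩, -⟩ := hex x y hx hy
    exact ⟨_, c, hc, rfl⟩
  refine ⟨?_, ?_, ?_⟩
  · unfold rdist
    congr 1
    ext l
    constructor
    · rintro ⟨c, hc, rfl⟩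
      exact a4b_rev hc
    · rintro ⟨c, hc, rfl⟩
      exact a4b_rev hc
  · unfold rdist
    congr 1
    ext l
    constructor
    · rintro ⟨c, hc, rfl⟩
      obtain ⟨k, hk, hl⟩ := a4b_neg hg hc
      rw [neg_neg, neg_neg] at hk
      exact ⟨k, hk, hl⟩
    · rintro ⟨c, hc, rfl⟩
      exact a4b_neg hg hc
  · refine le_of_forall_pos_le_add ?_
    intro ε hε
    obtain ⟨_, ⟨c, hc, rfl⟩, hc2⟩ := exists_lt_of_csInf_lt (hne x y hx hy)
      (show sInf {l | ∃ c, IsCurve c x y ∧ length g c = l} < rdist g x y + ε / 2 by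
        change rdist g x y < _; linarith)
    obtain ⟨_, ⟨d, hd, rfl⟩, hd2⟩ := exists_lt_of_csInf_lt (hne y z hy hz)
      (show sInf {l | ∃ c, IsCurve c y z ∧ length g c = l} < rdist g y z + ε / 2 by
        change rdist g y z < _; linarith)
    obtain ⟨k, hk, hkl⟩ := hA3 g c d x y z hg hc hd
    have := a4b_le g hk
    linarith

end Pool.Agent.Work.MP_02f065_gt.Toric

end
end

section

/-! Item A6: the systole and its closed geodesic. -/

open MeasureTheory Set Filter Topology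

noncomputable section

namespace Pool.Agent.Work.MP_02f065_gt.Toric

/-- the two-sided periodic extension of a path from `x` to `-x` -/
def a6ext (c : ℝ → E) (L : ℝ) (t : ℝ) : E :=
  ((-1 : ℝ) ^ ⌊t / L⌋) • c (t - ⌊t / L⌋ * L)

theorem a6_sign_abs (k : ℤ) : |(-1 : ℝ) ^ k| = 1 := by
  rw [abs_zpow, abs_neg, abs_one, one_zpow]

theorem a6_sign_cases (k : ℤ) : (-1 : ℝ) ^ k = 1 ∨ (-1 : ℝ) ^ k = -1 := by
  have h := a6_sign_abs k
  rcases abs_eq (zero_le_one' ℝ) |>.1 h with h | h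
  · exact Or.inl h
  · exact Or.inr h

theorem a6_sign_succ (k : ℤ) : (-1 : ℝ) ^ (k + 1) = -(-1 : ℝ) ^ k := by
  rw [zpow_add_one₀ (by norm_num)]
  ring

theorem a6ext_norm {c : ℝ → E} {L : ℝ} (hc : ∀ t, ‖c t‖ = 1) (t : ℝ) : ‖a6ext c L t‖ = 1 := by
  unfold a6ext
  rw [norm_smul, hc, Real.norm_eq_abs, a6_sign_abs, mul_one]

theorem a6ext_eq {c : ℝ → E} {L : ℝ} (hL : 0 < L) {t : ℝ} {k : ℤ} (h1 : (k : ℝ) * L ≤ t)
    (h2 : t < ((k : ℝ) + 1) * L) : a6ext c L t = ((-1 : ℝ) ^ k) • c (t - k * L) := by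
  have : ⌊t / L⌋ = k := by
    rw [Int.floor_eq_iff]
    constructor
    · rw [le_div_iff₀ hL]; exact h1
    · rw [div_lt_iff₀ hL]; exact h2
  unfold a6ext
  rw [this]

theorem a6ext_add {c : ℝ → E} {L : ℝ} (hL : 0 < L) (t : ℝ) : a6ext c L (t + L) = -a6ext c L t := by
  have e1 : (t + L) / L = t / L + 1 := by
    rw [add_div, div_self hL.ne']
  have e2 : ⌊(t + L) / L⌋ = ⌊t / L⌋ + 1 := by rw [e1, Int.floor_add_one]
  unfold a6ext
  rw [e2, a6_sign_succ, neg_smul]
  congr 3
  push_cast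
  ring

theorem a6_core (ρ : E → E → ℝ) (m M : ℝ) (hm : 0 < m) (hM : 0 < M)
    (hb : ∀ x y : E, ‖x‖ = 1 → ‖y‖ = 1 → m * ‖x - y‖ ≤ ρ x y ∧ ρ x y ≤ M * ‖x - y‖)
    (hsym : ∀ x y : E, ‖x‖ = 1 → ‖y‖ = 1 → ρ y x = ρ x y)
    (hant : ∀ x y : E, ‖x‖ = 1 → ‖y‖ = 1 → ρ (-x) (-y) = ρ x y)
    (htri : ∀ x y z : E, ‖x‖ = 1 → ‖y‖ = 1 → ‖z‖ = 1 → ρ x z ≤ ρ x y + ρ y z)
    (h5 : ∀ x y : E, ‖x‖ = 1 → ‖y‖ = 1 → ∃ c : ℝ → E, (∀ t, ‖c t‖ = 1) ∧ c 0 = x ∧
      c (ρ x y) = y ∧ ∀ s ∈ Icc 0 (ρ x y), ∀ t ∈ Icc 0 (ρ x y), ρ (c s) (c t) = |s - t|) :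
    ∃ (L : ℝ) (γ : ℝ → E), 0 < L ∧ (∀ x : E, ‖x‖ = 1 → L ≤ ρ x (-x)) ∧ Continuous γ ∧
      (∀ t, ‖γ t‖ = 1) ∧ (∀ s t, |s - t| ≤ L / 2 → min (ρ (γ s) (γ t)) (ρ (γ s) (-γ t)) = |s - t|) ∧
      ∀ t, γ (t + L) = -γ t := by
  -- the minimum
  have hcont : ContinuousOn (fun x : E => ρ x (-x)) (Metric.sphere (0 : E) 1) := by
    have hlip : ∀ x ∈ Metric.sphere (0 : E) 1, ∀ y ∈ Metric.sphere (0 : E) 1,
        |ρ x (-x) - ρ y (-y)| ≤ 2 * M * ‖x - y‖ := by
      intro x hx y hy
      have hx1 : ‖x‖ = 1 := by simpa using hx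
      have hy1 : ‖y‖ = 1 := by simpa using hy
      have hx2 : ‖-x‖ = 1 := by rw [norm_neg]; exact hx1
      have hy2 : ‖-y‖ = 1 := by rw [norm_neg]; exact hy1
      have a1 := htri x y (-x) hx1 hy1 hx2
      have a2 := htri y (-y) (-x) hy1 hy2 hx2
      have a3 := htri y x (-y) hy1 hx1 hy2
      have a4 := htri x (-x) (-y) hx1 hx2 hy2
      have a5 := hsym x y hx1 hy1
      have a6 := hant x y hx1 hy1
      have a7 := hsym (-x) (-y) hx2 hy2
      have a8 := (hb x y hx1 hy1).2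
      rw [abs_le]
      constructor <;> linarith
    refine Metric.continuousOn_iff.2 ?_
    intro x hx ε hε
    refine ⟨ε / (2 * M), by positivity, ?_⟩
    intro y hy hxy
    rw [Real.dist_eq]
    refine lt_of_le_of_lt (hlip y hy x hx) ?_
    rw [dist_eq_norm] at hxy
    calc 2 * M * ‖y - x‖ < 2 * M * (ε / (2 * M)) := by
          exact mul_lt_mul_of_pos_left hxy (by positivity)
      _ = ε := by field_simp
  have hne : (Metric.sphere (0 : E) 1).Nonempty := by
    refine ⟨EuclideanSpace.single 0 1, ?_⟩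
    simp
  obtain ⟨x0, hx0, hmin⟩ := (isCompact_sphere (0 : E) 1).exists_isMinOn hne hcont
  have hx01 : ‖x0‖ = 1 := by simpa using hx0
  have hx02 : ‖-x0‖ = 1 := by rw [norm_neg]; exact hx01
  obtain ⟨L, hL⟩ : ∃ L, L = ρ x0 (-x0) := ⟨_, rfl⟩
  have hLmin : ∀ x : E, ‖x‖ = 1 → L ≤ ρ x (-x) := by
    intro x hx
    rw [hL]
    have hx' : x ∈ Metric.sphere (0 : E) 1 := by simpa using hx
    exact isMinOn_iff.1 hmin x hx'
  have hLpos : 0 < L := by
    have h1 := (hb x0 (-x0) hx01 hx02).1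
    have h2 : x0 - -x0 = (2 : ℝ) • x0 := by rw [two_smul]; abel
    rw [h2, norm_smul, hx01, ← hL] at h1
    have h3 : (0 : ℝ) < m * (‖(2 : ℝ)‖ * 1) := by
      rw [Real.norm_eq_abs, abs_two]; linarith
    linarith
  obtain ⟨c, hc1, hc0, hcL, hcd⟩ := h5 x0 (-x0) hx01 hx02
  rw [← hL] at hcL hcd
  have hnorm := fun t => a6ext_norm (L := L) hc1 t
  -- distances of points with the same sign
  have hsign : ∀ (k : ℤ) (x y : E), ‖x‖ = 1 → ‖y‖ = 1 →
      ρ (((-1 : ℝ) ^ k) • x) (((-1 : ℝ) ^ k) • y) = ρ x y := by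
    intro k x y hx hy
    rcases a6_sign_cases k with h | h
    · rw [h, one_smul, one_smul]
    · rw [h, neg_one_smul, neg_one_smul]; exact hant x y hx hy
  -- upper bound
  have hup : ∀ s t : ℝ, s ≤ t → t ≤ s + L → ρ (a6ext c L s) (a6ext c L t) ≤ t - s := by
    intro s t hst htL
    obtain ⟨k, hk⟩ : ∃ k : ℤ, k = ⌊s / L⌋ := ⟨_, rfl⟩
    have hk1 : (k : ℝ) * L ≤ s := by
      have := Int.floor_le (s / L)
      rw [← hk, le_div_iff₀ hLpos] at this
      exact this
    have hk2 : s < ((k : ℝ) + 1) * L := by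
      have := Int.lt_floor_add_one (s / L)
      rw [← hk, div_lt_iff₀ hLpos] at this
      exact this
    have es := a6ext_eq (c := c) hLpos hk1 hk2
    have ms : s - k * L ∈ Icc 0 L := ⟨by linarith, by linarith⟩
    rcases lt_or_ge t (((k : ℝ) + 1) * L) with ht | ht
    · have et := a6ext_eq (c := c) hLpos (hk1.trans hst) ht
      have mt : t - k * L ∈ Icc 0 L := ⟨by linarith, by linarith⟩
      rw [es, et, hsign k _ _ (hc1 _) (hc1 _), hcd _ ms _ mt, abs_of_nonpos (by linarith)]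
      linarith
    · have et := a6ext_eq (c := c) (k := k + 1) hLpos (by push_cast; exact ht)
        (by push_cast; linarith)
      have mt : t - ((k + 1 : ℤ) : ℝ) * L ∈ Icc 0 L := by
        push_cast
        exact ⟨by linarith, by linarith⟩
      have m0 : (0 : ℝ) ∈ Icc 0 L := ⟨le_rfl, hLpos.le⟩
      have mL : L ∈ Icc 0 L := ⟨hLpos.le, le_rfl⟩
      obtain ⟨p, hp⟩ : ∃ p : E, p = ((-1 : ℝ) ^ k) • c L := ⟨_, rfl⟩
      have hp2 : p = ((-1 : ℝ) ^ (k + 1)) • c 0 := by
        rw [hp, hcL, hc0, a6_sign_succ, smul_neg, neg_smul]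
      have hpn : ‖p‖ = 1 := by
        rw [hp, norm_smul, hc1, Real.norm_eq_abs, a6_sign_abs, mul_one]
      have d1 : ρ (a6ext c L s) p = L - (s - k * L) := by
        rw [es, hp, hsign k _ _ (hc1 _) (hc1 _), hcd _ ms _ mL, abs_of_nonpos (by linarith [ms.2])]
        ring
      have d2 : ρ p (a6ext c L t) = t - ((k + 1 : ℤ) : ℝ) * L := by
        rw [et, hp2, hsign (k + 1) _ _ (hc1 _) (hc1 _), hcd _ m0 _ mt,
          abs_of_nonpos (by linarith [mt.1])]
        ring
      have d3 := htri _ _ _ (hnorm s) hpn (hnorm t)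
      rw [d1, d2] at d3
      refine d3.trans (le_of_eq ?_)
      push_cast
      ring
  have hneg : ∀ t, ‖-a6ext c L t‖ = 1 := fun t => by rw [norm_neg]; exact hnorm t
  -- exact distance, ordered
  have hex : ∀ s t : ℝ, s ≤ t → t ≤ s + L → ρ (a6ext c L s) (a6ext c L t) = t - s := by
    intro s t hst htL
    refine le_antisymm (hup s t hst htL) ?_
    have h1 := hLmin _ (hnorm s)
    rw [← a6ext_add hLpos s] at h1
    have h2 := htri _ _ _ (hnorm s) (hnorm t) (hnorm (s + L))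
    have h3 := hup t (s + L) htL (by linarith)
    linarith
  have habs : ∀ s t : ℝ, |s - t| ≤ L → ρ (a6ext c L s) (a6ext c L t) = |s - t| := by
    intro s t h
    rcases le_total s t with hst | hst
    · rw [abs_of_nonpos (by linarith)] at h ⊢
      rw [hex s t hst (by linarith)]
      ring
    · rw [abs_of_nonneg (by linarith)] at h ⊢
      rw [hsym _ _ (hnorm t) (hnorm s), hex t s hst (by linarith)]
  refine ⟨L, a6ext c L, hLpos, hLmin, ?_, hnorm, ?_, a6ext_add hLpos⟩
  · -- continuity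
    rw [Metric.continuous_iff]
    intro t ε hε
    refine ⟨min L (m * ε), lt_min hLpos (by positivity), ?_⟩
    intro s hst
    rw [Real.dist_eq] at hst
    have h1 := habs s t (hst.le.trans (min_le_left _ _))
    have h2 := (hb _ _ (hnorm s) (hnorm t)).1
    rw [h1] at h2
    have h3 : m * ‖a6ext c L s - a6ext c L t‖ < m * ε :=
      lt_of_le_of_lt h2 (lt_of_lt_of_le hst (min_le_right _ _))
    rw [dist_eq_norm]
    exact lt_of_mul_lt_mul_left h3 hm.le
  · intro s t hst
    have h1 := habs s t (by linarith)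
    have h2 := hLmin _ (hnorm t)
    have h3 := htri _ _ _ (hnorm t) (hnorm s) (hneg t)
    rw [hsym _ _ (hnorm s) (hnorm t), h1] at h3
    rw [h1, min_eq_left]
    linarith

theorem itemA6 (h4a : claimA4a) (h4b : claimA4b) (h5 : claimA5) : claimA6 := by
  intro g hg
  obtain ⟨m, M, hm, hM, hb⟩ := h4a g hg
  obtain ⟨hlen, hprop⟩ := h4b g hg
  obtain ⟨L, γ, hL, hmin, hc, hn, hgeo, hper⟩ := a6_core (rdist g) m M hm hM
    (fun x y hx hy => (hb x y hx hy).2) (fun x y hx hy => (hprop x y y hx hy hy).1)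
    (fun x y hx hy => (hprop x y y hx hy hy).2.1) (fun x y z hx hy hz => (hprop x y z hx hy hz).2.2)
    (fun x y hx hy => h5 g x y hg hx hy)
  refine ⟨L, hL, ?_, γ, ?_⟩
  · intro x c hx hcur
    exact (hmin x hx).trans (hlen x (-x) c hcur)
  · exact ⟨hc, hn, ⟨L / 2, by linarith, fun s t hst => hgeo s t hst⟩, hL, Or.inr hper⟩

end Pool.Agent.Work.MP_02f065_gt.Toric

end
end

section

/-!
MP_02f065_gt, item B1: the averaged conformal factor gives a toric metric.
-/

open MeasureTheory Set Filter Topology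

noncomputable section

namespace Pool.Agent.Work.MP_02f065_gt.Toric

namespace IB1

theorem rot_per1 (θ φ : ℝ) (x : E) : rot (θ + 2 * Real.pi) φ x = rot θ φ x := by
  unfold rot
  rw [Real.cos_add_two_pi, Real.sin_add_two_pi]

theorem rot_per2 (θ φ : ℝ) (x : E) : rot θ (φ + 2 * Real.pi) x = rot θ φ x := by
  unfold rot
  rw [Real.cos_add_two_pi, Real.sin_add_two_pi]

theorem smul_form (r : ℝ) (A : E →L[ℝ] E →L[ℝ] ℝ) (v w : E) : (r • A) v w = r * A v w := rfl

/-- the average is invariant -/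
theorem avg_rot (h1 : claimR1) (lam : E → ℝ) (a b : ℝ) (x : E) :
    avg lam (rot a b x) = avg lam x := by
  unfold avg
  congr 1
  have e1 : ∀ θ φ : ℝ, rot θ φ (rot a b x) = rot (θ + a) (φ + b) x := fun θ φ =>
    (h1 θ φ x x 0).2.2.2.2.1 a b
  have e2 : ∀ θ : ℝ, ∫ φ in (0 : ℝ)..(2 * Real.pi), lam (rot θ φ (rot a b x)) =
      ∫ φ in (0 : ℝ)..(2 * Real.pi), lam (rot (θ + a) φ x) := by
    intro θ
    simp_rw [e1]
    rw [intervalIntegral.integral_comp_add_right (fun φ => lam (rot (θ + a) φ x))]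
    have hper : Function.Periodic (fun φ => lam (rot (θ + a) φ x)) (2 * Real.pi) := fun φ => by
      simp only [rot_per2]
    have := hper.intervalIntegral_add_eq b 0
    rw [zero_add, add_comm b] at this
    rw [zero_add]
    exact this
  simp_rw [e2]
  rw [intervalIntegral.integral_comp_add_right
    (fun θ => ∫ φ in (0 : ℝ)..(2 * Real.pi), lam (rot θ φ x))]
  have hper : Function.Periodic (fun θ => ∫ φ in (0 : ℝ)..(2 * Real.pi), lam (rot θ φ x))
      (2 * Real.pi) := fun θ => by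
    simp only [rot_per1]
  have := hper.intervalIntegral_add_eq a 0
  rw [zero_add, add_comm a] at this
  rw [zero_add]
  exact this

theorem cont_uncurry (h1 : claimR1) (h2 : claimR2) {lam : E → ℝ}
    (hlam : ContinuousOn lam (Metric.sphere (0 : E) 1)) :
    Continuous (fun p : (Metric.sphere (0 : E) 1 × ℝ) × ℝ => lam (rot p.1.2 p.2 p.1.1)) := by
  have hm : ∀ p : (Metric.sphere (0 : E) 1 × ℝ) × ℝ,
      rot p.1.2 p.2 (p.1.1 : E) ∈ Metric.sphere (0 : E) 1 := by
    intro p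
    rw [mem_sphere_zero_iff_norm, (h1 _ _ _ 0 0).2.2.2.1]
    exact norm_eq_of_mem_sphere p.1.1
  have hc : Continuous (fun p : (Metric.sphere (0 : E) 1 × ℝ) × ℝ =>
      rot p.1.2 p.2 (p.1.1 : E)) := by
    have h3 : Continuous (fun p : (Metric.sphere (0 : E) 1 × ℝ) × ℝ =>
        ((p.1.2, p.2, (p.1.1 : E)) : ℝ × ℝ × E)) := by fun_prop
    exact h2.comp h3
  exact hlam.comp_continuous hc hm

theorem avg_cont (h1 : claimR1) (h2 : claimR2) {lam : E → ℝ}
    (hlam : ContinuousOn lam (Metric.sphere (0 : E) 1)) :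
    ContinuousOn (avg lam) (Metric.sphere (0 : E) 1) := by
  rw [continuousOn_iff_continuous_domRestrict]
  have hc := cont_uncurry h1 h2 hlam
  have hin : Continuous (fun q : Metric.sphere (0 : E) 1 × ℝ =>
      ∫ φ in (0 : ℝ)..(2 * Real.pi), lam (rot q.2 φ q.1)) :=
    intervalIntegral.continuous_parametric_intervalIntegral_of_continuous'
      (f := fun (q : Metric.sphere (0 : E) 1 × ℝ) (φ : ℝ) => lam (rot q.2 φ q.1)) hc 0
      (2 * Real.pi)
  have hout : Continuous (fun x : Metric.sphere (0 : E) 1 =>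
      ∫ θ in (0 : ℝ)..(2 * Real.pi), ∫ φ in (0 : ℝ)..(2 * Real.pi), lam (rot θ φ x)) :=
    intervalIntegral.continuous_parametric_intervalIntegral_of_continuous'
      (f := fun (x : Metric.sphere (0 : E) 1) (θ : ℝ) =>
        ∫ φ in (0 : ℝ)..(2 * Real.pi), lam (rot θ φ x)) hin 0 (2 * Real.pi)
  exact continuous_const.mul hout

theorem avg_pos_sphere (h1 : claimR1) (h2 : claimR2) {lam : E → ℝ}
    (hlam : ContinuousOn lam (Metric.sphere (0 : E) 1)) (hpos : ∀ x, ‖x‖ = 1 → 0 < lam x)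
    (y : Metric.sphere (0 : E) 1) : 0 < avg lam y := by
  have h2pi : (0 : ℝ) < 2 * Real.pi := Real.two_pi_pos
  have hc := cont_uncurry h1 h2 hlam
  have hin : Continuous (fun q : Metric.sphere (0 : E) 1 × ℝ =>
      ∫ φ in (0 : ℝ)..(2 * Real.pi), lam (rot q.2 φ q.1)) :=
    intervalIntegral.continuous_parametric_intervalIntegral_of_continuous'
      (f := fun (q : Metric.sphere (0 : E) 1 × ℝ) (φ : ℝ) => lam (rot q.2 φ q.1)) hc 0
      (2 * Real.pi)
  have hlp : ∀ θ φ : ℝ, 0 < lam (rot θ φ y) := by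
    intro θ φ
    apply hpos
    rw [(h1 θ φ y 0 0).2.2.2.1]
    exact norm_eq_of_mem_sphere y
  have hc1 : ∀ θ : ℝ, Continuous (fun φ : ℝ => lam (rot θ φ y)) := by
    intro θ
    have h3 : Continuous (fun φ : ℝ => (((y, θ), φ) : (Metric.sphere (0 : E) 1 × ℝ) × ℝ)) := by
      fun_prop
    have h4 := hc.comp h3
    simpa only [Function.comp_def] using h4
  have hin1 : Continuous (fun θ : ℝ => ∫ φ in (0 : ℝ)..(2 * Real.pi), lam (rot θ φ y)) := by
    have h3 : Continuous (fun θ : ℝ => ((y, θ) : Metric.sphere (0 : E) 1 × ℝ)) := by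
      fun_prop
    have h4 := hin.comp h3
    simpa only [Function.comp_def] using h4
  unfold avg
  apply mul_pos
  · have := Real.pi_pos
    positivity
  · apply intervalIntegral.intervalIntegral_pos_of_pos (hin1.intervalIntegrable _ _) _ h2pi
    intro θ
    exact intervalIntegral.intervalIntegral_pos_of_pos ((hc1 θ).intervalIntegrable _ _)
      (fun φ => hlp θ φ) h2pi

theorem avg_pos (h1 : claimR1) (h2 : claimR2) {lam : E → ℝ}
    (hlam : ContinuousOn lam (Metric.sphere (0 : E) 1)) (hpos : ∀ x, ‖x‖ = 1 → 0 < lam x)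
    {x : E} (hx : ‖x‖ = 1) : 0 < avg lam x := by
  have hx' : x ∈ Metric.sphere (0 : E) 1 := by
    rw [mem_sphere_zero_iff_norm]
    exact hx
  exact avg_pos_sphere h1 h2 hlam hpos ⟨x, hx'⟩

end IB1

open IB1 in
theorem itemB1 (h1 : claimR1) (h2 : claimR2) : claimB1 := by
  intro g₁ lam hg ht hlam hpos
  have hrpi : ∀ x : E, rot Real.pi Real.pi x = -x := fun x => (h1 0 0 x x 0).2.2.2.2.2.2.1
  refine ⟨⟨?_, ?_, ?_, ?_⟩, ?_⟩
  · exact ((avg_cont h1 h2 hlam).pow 2).smul hg.cont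
  · intro x v w hx hv hw
    rw [smul_form, smul_form, hg.symm x v w hx hv hw]
  · intro x v hx hv hv0
    rw [smul_form]
    exact mul_pos (pow_pos (avg_pos h1 h2 hlam hpos hx) 2) (hg.pos x v hx hv hv0)
  · intro x v w hx hv hw
    rw [smul_form, smul_form, hg.even x v w hx hv hw, ← hrpi x, avg_rot h1]
  · intro θ φ x v w hx hv hw
    rw [smul_form, smul_form, ht θ φ x v w hx hv hw, avg_rot h1]

end Pool.Agent.Work.MP_02f065_gt.Toric

end
end

section

/-!
MP_02f065_gt, item B2: lengths for the averaged metric are averages of lengths.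
-/

open MeasureTheory Set Filter Topology

noncomputable section

namespace Pool.Agent.Work.MP_02f065_gt.Toric

namespace B2

lemma swap_cont (F : ℝ → ℝ → ℝ) (hF : Continuous F.uncurry) (a b c d : ℝ) :
    ∫ x in a..b, ∫ y in c..d, F x y = ∫ y in c..d, ∫ x in a..b, F x y := by
  apply MeasureTheory.intervalIntegral_intervalIntegral_swap
  refine IntegrableOn.mono_set (t := uIcc a b ×ˢ uIcc c d) ?_ ?_
  · exact hF.continuousOn.integrableOn_compact (isCompact_uIcc.prod isCompact_uIcc)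
  · exact Set.prod_mono uIoc_subset_uIcc uIoc_subset_uIcc

/-- Tangency of the derivative. -/
lemma inner_deriv {c : ℝ → E} {x y : E} (hc : IsCurve c x y) (t : ℝ) :
    inner ℝ (c t) (deriv c t) = 0 := by
  have hd : HasDerivAt c (deriv c t) t :=
    (hc.smooth.differentiable one_ne_zero).differentiableAt.hasDerivAt
  have h1 := hd.inner ℝ hd
  have h2 : (fun t => inner ℝ (c t) (c t)) = fun _ => (1 : ℝ) := by
    funext s
    rw [real_inner_self_eq_norm_sq, hc.sphere s]; norm_num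
  rw [h2] at h1
  have h3 := h1.unique (hasDerivAt_const t (1 : ℝ))
  rw [real_inner_comm (c t) (deriv c t)] at h3
  have h4 : inner ℝ (c t) (deriv c t) = inner ℝ (deriv c t) (c t) := real_inner_comm _ _
  rw [h4] at h3 ⊢
  linarith

lemma continuous_comp_sphere {Y : Type*} [TopologicalSpace Y] {X : Type*} [TopologicalSpace X]
    {g : E → Y} (hg : ContinuousOn g (Metric.sphere (0 : E) 1)) {f : X → E}
    (hf : Continuous f) (hs : ∀ t, ‖f t‖ = 1) : Continuous (fun t => g (f t)) := by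
  rw [continuous_iff_continuousAt]
  intro t
  have hcs : ∀ t, f t ∈ Metric.sphere (0 : E) 1 := fun t => by simp [hs t]
  have h4 : Tendsto f (𝓝 t) (𝓝[Metric.sphere (0 : E) 1] (f t)) :=
    tendsto_nhdsWithin_iff.2 ⟨hf.continuousAt, Eventually.of_forall hcs⟩
  exact Tendsto.comp (hg (f t) (hcs t)) h4

lemma rot_cont (hR2 : claimR2) (θ φ : ℝ) : Continuous (fun x : E => rot θ φ x) := by
  have h : Continuous (fun x : E => ((θ, φ, x) : ℝ × ℝ × E)) := by fun_prop
  have h2 := Continuous.comp hR2 h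
  simpa only [Function.comp_def] using h2

lemma rot_cont3 (hR2 : claimR2) {c : ℝ → E} (hc : Continuous c) :
    Continuous (fun p : ℝ × ℝ × ℝ => rot p.1 p.2.1 (c p.2.2)) := by
  have h : Continuous (fun p : ℝ × ℝ × ℝ => ((p.1, p.2.1, c p.2.2) : ℝ × ℝ × E)) := by
    fun_prop
  have h2 := Continuous.comp hR2 h
  simpa only [Function.comp_def] using h2

/-- The rotation as a continuous linear map. -/
def rotL (hR1 : claimR1) (hR2 : claimR2) (θ φ : ℝ) : E →L[ℝ] E where
  toFun := rot θ φ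
  map_add' x y := (hR1 θ φ x y 0).1
  map_smul' t x := (hR1 θ φ x x t).2.1
  cont := rot_cont hR2 θ φ

lemma rot_curve (hR1 : claimR1) (hR2 : claimR2) {c : ℝ → E} {x : E}
    (hc : IsCurve c x (-x)) (θ φ : ℝ) :
    IsCurve (fun t => rot θ φ (c t)) (rot θ φ x) (-(rot θ φ x)) ∧
    ∀ t, deriv (fun t => rot θ φ (c t)) t = rot θ φ (deriv c t) := by
  have hL : ∀ v, rotL hR1 hR2 θ φ v = rot θ φ v := fun _ => rfl
  refine ⟨⟨?_, ?_, ?_, ?_⟩, ?_⟩
  · exact (rotL hR1 hR2 θ φ).contDiff.comp hc.smooth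
  · intro t
    rw [(hR1 θ φ (c t) (c t) 0).2.2.2.1, hc.sphere t]
  · simp only [hc.left]
  · simp only [hc.right]
    have := (rotL hR1 hR2 θ φ).map_neg x
    rwa [hL, hL] at this
  · intro t
    have hd : HasDerivAt c (deriv c t) t :=
      (hc.smooth.differentiable one_ne_zero).differentiableAt.hasDerivAt
    have h := (rotL hR1 hR2 θ φ).hasFDerivAt.comp_hasDerivAt t hd
    exact h.deriv

/-- Integration over the torus of a family of inequalities. -/
lemma triple (F : ℝ → ℝ → ℝ → ℝ) (hF : Continuous (fun p : ℝ × ℝ × ℝ => F p.1 p.2.1 p.2.2))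
    (L P : ℝ) (hP : 0 ≤ P) (h : ∀ θ φ, L ≤ ∫ t in (0 : ℝ)..1, F θ φ t) :
    P * (P * L) ≤ ∫ t in (0 : ℝ)..1, ∫ θ in (0 : ℝ)..P, ∫ φ in (0 : ℝ)..P, F θ φ t := by
  have hsw1 : ∀ θ : ℝ, ∫ φ in (0 : ℝ)..P, ∫ t in (0 : ℝ)..1, F θ φ t =
      ∫ t in (0 : ℝ)..1, ∫ φ in (0 : ℝ)..P, F θ φ t := by
    intro θ
    apply swap_cont (fun φ t => F θ φ t)
    have h1 : Continuous (fun p : ℝ × ℝ => ((θ, p.1, p.2) : ℝ × ℝ × ℝ)) := by fun_prop
    exact hF.comp h1
  have hcont2 : Continuous (fun p : ℝ × ℝ => ∫ φ in (0 : ℝ)..P, F p.1 φ p.2) := by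
    have h1 : Continuous (fun q : (ℝ × ℝ) × ℝ => ((q.1.1, q.2, q.1.2) : ℝ × ℝ × ℝ)) := by
      fun_prop
    have h2 : Continuous (Function.uncurry (fun (p : ℝ × ℝ) (φ : ℝ) => F p.1 φ p.2)) :=
      hF.comp h1
    exact intervalIntegral.continuous_parametric_intervalIntegral_of_continuous' h2 _ _
  have hsw2 : ∫ θ in (0 : ℝ)..P, ∫ t in (0 : ℝ)..1, ∫ φ in (0 : ℝ)..P, F θ φ t =
      ∫ t in (0 : ℝ)..1, ∫ θ in (0 : ℝ)..P, ∫ φ in (0 : ℝ)..P, F θ φ t :=
    swap_cont (fun θ t => ∫ φ in (0 : ℝ)..P, F θ φ t) hcont2 _ _ _ _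
  have hcont3 : Continuous (fun p : ℝ × ℝ => ∫ t in (0 : ℝ)..1, F p.1 p.2 t) := by
    have h1 : Continuous (fun q : (ℝ × ℝ) × ℝ => ((q.1.1, q.1.2, q.2) : ℝ × ℝ × ℝ)) := by
      fun_prop
    have h2 : Continuous (Function.uncurry (fun (p : ℝ × ℝ) (t : ℝ) => F p.1 p.2 t)) :=
      hF.comp h1
    exact intervalIntegral.continuous_parametric_intervalIntegral_of_continuous' h2 _ _
  have hcont4 : Continuous (fun θ : ℝ => ∫ φ in (0 : ℝ)..P, ∫ t in (0 : ℝ)..1, F θ φ t) := by
    have h2 : Continuous (Function.uncurry (fun (θ φ : ℝ) => ∫ t in (0 : ℝ)..1, F θ φ t)) :=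
      hcont3
    exact intervalIntegral.continuous_parametric_intervalIntegral_of_continuous' h2 _ _
  rw [← hsw2]
  have hcongr : ∫ θ in (0 : ℝ)..P, ∫ t in (0 : ℝ)..1, ∫ φ in (0 : ℝ)..P, F θ φ t =
      ∫ θ in (0 : ℝ)..P, ∫ φ in (0 : ℝ)..P, ∫ t in (0 : ℝ)..1, F θ φ t := by
    apply intervalIntegral.integral_congr
    intro θ _
    exact (hsw1 θ).symm
  rw [hcongr]
  have h1 : ∀ θ : ℝ, P * L ≤ ∫ φ in (0 : ℝ)..P, ∫ t in (0 : ℝ)..1, F θ φ t := by
    intro θ
    have h2 : ∫ _φ in (0 : ℝ)..P, L = P * L := by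
      rw [intervalIntegral.integral_const]; simp
    rw [← h2]
    have h3 : Continuous (fun φ : ℝ => ((θ, φ) : ℝ × ℝ)) := by fun_prop
    apply intervalIntegral.integral_mono_on hP
    · exact (continuous_const).intervalIntegrable _ _
    · exact (hcont3.comp h3).intervalIntegrable _ _
    · intro φ _
      exact h θ φ
  have h2 : ∫ _θ in (0 : ℝ)..P, (P * L) = P * (P * L) := by
    rw [intervalIntegral.integral_const]; simp
  rw [← h2]
  apply intervalIntegral.integral_mono_on hP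
  · exact (continuous_const).intervalIntegrable _ _
  · exact hcont4.intervalIntegrable _ _
  · intro θ _
    exact h1 θ

end B2

open B2

theorem itemB2 (hR1 : claimR1) (hR2 : claimR2) : claimB2 := by
  intro g g₁ lam L hg hg₁ htor hlam hpos hconf hL x c hx hc
  -- continuity facts
  have hcc : Continuous c := hc.smooth.continuous
  have hcd : Continuous (deriv c) := hc.smooth.continuous_deriv le_rfl
  set I : ℝ → ℝ := fun t => Real.sqrt (g₁ (c t) (deriv c t) (deriv c t)) with hI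
  have hIc : Continuous I := by
    have h3 := continuous_comp_sphere hg₁.cont hcc hc.sphere
    exact Real.continuous_sqrt.comp ((h3.clm_apply hcd).clm_apply hcd)
  set K : ℝ → ℝ → ℝ → ℝ := fun θ φ t => lam (rot θ φ (c t)) with hK
  have hKc : Continuous (fun p : ℝ × ℝ × ℝ => K p.1 p.2.1 p.2.2) := by
    refine continuous_comp_sphere hlam ?_ ?_
    · exact rot_cont3 hR2 hcc
    · intro p
      rw [(hR1 p.1 p.2.1 (c p.2.2) (c p.2.2) 0).2.2.2.1, hc.sphere]
  have hKpos : ∀ θ φ t, 0 < K θ φ t := by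
    intro θ φ t
    apply hpos
    rw [(hR1 θ φ (c t) (c t) 0).2.2.2.1, hc.sphere]
  -- the length of the rotated curves
  have hrot : ∀ θ φ, L ≤ ∫ t in (0 : ℝ)..1, K θ φ t * I t := by
    intro θ φ
    obtain ⟨h1, h2⟩ := rot_curve hR1 hR2 hc θ φ
    have hn : ‖rot θ φ x‖ = 1 := by rw [(hR1 θ φ x x 0).2.2.2.1, hx]
    have h3 := hL (rot θ φ x) _ hn h1
    have h4 : length g (fun t => rot θ φ (c t)) = ∫ t in (0 : ℝ)..1, K θ φ t * I t := by
      unfold length
      apply intervalIntegral.integral_congr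
      intro t _
      simp only [h2 t]
      have hnt : ‖rot θ φ (c t)‖ = 1 := h1.sphere t
      have htan : inner ℝ (c t) (deriv c t) = 0 := inner_deriv hc t
      have htan' : inner ℝ (rot θ φ (c t)) (rot θ φ (deriv c t)) = 0 := by
        rw [(hR1 θ φ (c t) (deriv c t) 0).2.2.1, htan]
      rw [hconf _ _ _ hnt htan' htan', htor θ φ (c t) _ _ (hc.sphere t) htan htan,
        Real.sqrt_mul (sq_nonneg _), Real.sqrt_sq (hpos _ hnt).le]
    rwa [h4] at h3
  -- the length of the averaged metric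
  have hpi : (0 : ℝ) ≤ 2 * Real.pi := by positivity
  have havg : ∀ t, avg lam (c t) = (1 / (4 * Real.pi ^ 2)) *
      ∫ θ in (0 : ℝ)..(2 * Real.pi), ∫ φ in (0 : ℝ)..(2 * Real.pi), K θ φ t := fun _ => rfl
  have havg0 : ∀ t, 0 ≤ avg lam (c t) := by
    intro t
    rw [havg]
    apply mul_nonneg (by positivity)
    apply intervalIntegral.integral_nonneg hpi
    intro θ _
    apply intervalIntegral.integral_nonneg hpi
    intro φ _
    exact (hKpos θ φ t).le
  have hlen : length (fun x => (avg lam x) ^ 2 • g₁ x) c =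
      ∫ t in (0 : ℝ)..1, avg lam (c t) * I t := by
    unfold length
    apply intervalIntegral.integral_congr
    intro t _
    simp only [_root_.smul_apply, smul_eq_mul]
    rw [Real.sqrt_mul (sq_nonneg _), Real.sqrt_sq (havg0 t)]
  rw [hlen]
  -- exchange of the integrals
  have hKI : Continuous (fun p : ℝ × ℝ × ℝ => K p.1 p.2.1 p.2.2 * I p.2.2) :=
    hKc.mul (hIc.comp (continuous_snd.comp continuous_snd))
  have hint := triple (fun θ φ t => K θ φ t * I t) hKI L (2 * Real.pi) hpi hrot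
  have hfin : ∫ t in (0 : ℝ)..1, avg lam (c t) * I t = (1 / (4 * Real.pi ^ 2)) *
      ∫ t in (0 : ℝ)..1, ∫ θ in (0 : ℝ)..(2 * Real.pi), ∫ φ in (0 : ℝ)..(2 * Real.pi),
        K θ φ t * I t := by
    rw [← intervalIntegral.integral_const_mul]
    apply intervalIntegral.integral_congr
    intro t _
    simp only [intervalIntegral.integral_mul_const]
    rw [havg t, mul_assoc]
  rw [hfin]
  have hpos4 : (0 : ℝ) < 4 * Real.pi ^ 2 := by positivity
  rw [one_div, inv_mul_eq_div, le_div_iff₀ hpos4]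
  calc L * (4 * Real.pi ^ 2) = (2 * Real.pi) * ((2 * Real.pi) * L) := by ring
    _ ≤ _ := hint

end Pool.Agent.Work.MP_02f065_gt.Toric

end
end

section

/-!
B3: scaling of the volume density.
-/

open MeasureTheory Set Filter Topology

noncomputable section

namespace Pool.Agent.Work.MP_02f065_gt.Toric

lemma b3_inner_tang {x : E} (hx : ‖x‖ = 1) (v : E) : inner ℝ x (tang x v) = 0 := by
  unfold tang
  rw [inner_sub_right, inner_smul_right, real_inner_self_eq_norm_sq, hx]
  ring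

lemma b3_sum {x : E} : x = ∑ i : Fin 4, x i • (EuclideanSpace.single i (1 : ℝ) : E) := by
  ext j
  rw [Fin.sum_univ_four]
  fin_cases j <;> simp

lemma b3_tang_sum {x : E} (hx : ‖x‖ = 1) :
    ∑ i : Fin 4, x i • tang x (EuclideanSpace.single i (1 : ℝ)) = 0 := by
  have h1 : ∑ i : Fin 4, x i • tang x (EuclideanSpace.single i (1 : ℝ)) =
      tang x (∑ i : Fin 4, x i • (EuclideanSpace.single i (1 : ℝ) : E)) := by
    unfold tang
    rw [inner_sum, Finset.sum_smul, ← Finset.sum_sub_distrib]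
    refine Finset.sum_congr rfl fun i _ => ?_
    rw [inner_smul_right, smul_sub, smul_smul]
  rw [h1, ← b3_sum]
  unfold tang
  rw [real_inner_self_eq_norm_sq, hx]
  simp

lemma b3_sq {x : E} (hx : ‖x‖ = 1) : ∑ i : Fin 4, x i * x i = 1 := by
  have h := real_inner_self_eq_norm_sq x
  rw [hx, PiLp.inner_apply] at h
  simpa [← sq] using h

theorem itemB3 : claimB3 := by
  intro g g' x r hx hr hg
  set A : Matrix (Fin 4) (Fin 4) ℝ := Matrix.of fun i j : Fin 4 =>
    g x (tang x (EuclideanSpace.single i 1)) (tang x (EuclideanSpace.single j 1)) with hA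
  set u : Fin 4 → ℝ := fun i => x i with hu
  have hM : (Matrix.of fun i j : Fin 4 =>
      g x (tang x (EuclideanSpace.single i 1)) (tang x (EuclideanSpace.single j 1)) + x i * x j)
      = A + Matrix.vecMulVec u u := by
    ext i j
    simp [hA, hu, Matrix.vecMulVec_apply]
  have hM' : (Matrix.of fun i j : Fin 4 =>
      g' x (tang x (EuclideanSpace.single i 1)) (tang x (EuclideanSpace.single j 1)) + x i * x j)
      = r ^ 2 • A + Matrix.vecMulVec u u := by
    ext i j
    simp only [hA, hu, Matrix.vecMulVec_apply, Matrix.of_apply, Matrix.add_apply,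
      Matrix.smul_apply, smul_eq_mul]
    rw [hg _ _ (b3_inner_tang hx _) (b3_inner_tang hx _)]
  have hAu : Matrix.mulVec A u = 0 := by
    funext i
    have h1 := congrArg (fun v => g x (tang x (EuclideanSpace.single i 1)) v) (b3_tang_sum hx)
    simp only [map_sum, map_smul, smul_eq_mul, map_zero] at h1
    rw [Matrix.mulVec, dotProduct, Pi.zero_apply, ← h1]
    refine Finset.sum_congr rfl fun j _ => ?_
    simp [hA, hu]
    ring
  have huu : dotProduct u u = 1 := b3_sq hx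
  have hprod : r ^ 2 • A + Matrix.vecMulVec u u =
      (A + Matrix.vecMulVec u u) * (r ^ 2 • (1 : Matrix (Fin 4) (Fin 4) ℝ) +
        (1 - r ^ 2) • Matrix.vecMulVec u u) := by
    rw [Matrix.add_mul, Matrix.mul_add, Matrix.mul_add, Matrix.mul_smul, Matrix.mul_smul,
      Matrix.mul_smul, Matrix.mul_smul, Matrix.mul_one, Matrix.mul_one,
      Matrix.mul_vecMulVec, hAu, Matrix.vecMulVec_mul_vecMulVec, huu]
    ext i j
    simp [Matrix.vecMulVec_apply]
  have hdet : (r ^ 2 • (1 : Matrix (Fin 4) (Fin 4) ℝ) +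
        (1 - r ^ 2) • Matrix.vecMulVec u u).det = r ^ 6 := by
    have h1 : r ^ 2 • (1 : Matrix (Fin 4) (Fin 4) ℝ) + (1 - r ^ 2) • Matrix.vecMulVec u u =
        r ^ 2 • (1 + Matrix.replicateCol Unit (((1 - r ^ 2) / r ^ 2) • u) *
          Matrix.replicateRow Unit u) := by
      ext i j
      simp [Matrix.vecMulVec_apply, Matrix.mul_apply]
      field_simp
    rw [h1, Matrix.det_smul, Matrix.det_one_add_replicateCol_mul_replicateRow,
      dotProduct_smul, huu]
    simp only [Fintype.card_fin, smul_eq_mul, mul_one]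
    field_simp
    ring
  unfold volDensity
  rw [hM, hM', hprod, Matrix.det_mul, hdet, mul_comm, show r ^ 6 = (r ^ 3) ^ 2 by ring,
    Real.sqrt_mul (sq_nonneg _), Real.sqrt_sq (by positivity)]

end Pool.Agent.Work.MP_02f065_gt.Toric

end
end

section

/-!
B4: invariance of the volume density.
-/

open MeasureTheory Set Filter Topology

noncomputable section

namespace Pool.Agent.Work.MP_02f065_gt.Toric

lemma b4_inner_tang {x : E} (hx : ‖x‖ = 1) (v : E) : inner ℝ x (tang x v) = 0 := by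
  unfold tang
  rw [inner_sub_right, inner_smul_right, real_inner_self_eq_norm_sq, hx]
  ring

lemma b4_sum (x : E) : x = ∑ i : Fin 4, x i • (EuclideanSpace.single i (1 : ℝ) : E) := by
  ext j
  rw [Fin.sum_univ_four]
  fin_cases j <;> simp

lemma b4_tang_sum (x v : E) :
    tang x v = ∑ i : Fin 4, v i • tang x (EuclideanSpace.single i (1 : ℝ)) := by
  have h1 : ∑ i : Fin 4, v i • tang x (EuclideanSpace.single i (1 : ℝ)) =
      tang x (∑ i : Fin 4, v i • (EuclideanSpace.single i (1 : ℝ) : E)) := by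
    unfold tang
    rw [inner_sum, Finset.sum_smul, ← Finset.sum_sub_distrib]
    refine Finset.sum_congr rfl fun i _ => ?_
    rw [inner_smul_right, smul_sub, smul_smul]
  rw [h1, ← b4_sum]

lemma b4_inner (x y : E) : inner ℝ x y = ∑ i : Fin 4, x i * y i := by
  rw [PiLp.inner_apply]
  refine Finset.sum_congr rfl fun i _ => ?_
  simp [mul_comm]

theorem itemB4 (hR1 : claimR1) : claimB4 := by
  intro g θ φ x hg hx
  -- the inverse images of the basis vectors
  set u : Fin 4 → E := fun i => rot (-θ) (-φ) (EuclideanSpace.single i (1 : ℝ)) with hu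
  have hru : ∀ i, rot θ φ (u i) = EuclideanSpace.single i (1 : ℝ) := by
    intro i
    rw [hu, (hR1 θ φ (EuclideanSpace.single i (1 : ℝ)) 0 0).2.2.2.2.1, add_neg_cancel,
      add_neg_cancel, (hR1 θ φ (EuclideanSpace.single i (1 : ℝ)) 0 0).2.2.2.2.2.1]
  have hin : ∀ y z : E, inner ℝ (rot θ φ y) (rot θ φ z) = inner ℝ y z :=
    fun y z => (hR1 θ φ y z 0).2.2.1
  have hnx : ‖rot θ φ x‖ = 1 := by rw [(hR1 θ φ x 0 0).2.2.2.1, hx]
  have hsub : ∀ y z : E, rot θ φ (y - z) = rot θ φ y - rot θ φ z := by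
    intro y z
    have h1 := (hR1 θ φ (y - z) z 0).1
    rw [sub_add_cancel] at h1
    rw [h1]
    abel
  have htang : ∀ i, tang (rot θ φ x) (EuclideanSpace.single i (1 : ℝ)) =
      rot θ φ (tang x (u i)) := by
    intro i
    unfold tang
    rw [← hru i, hin, hsub, (hR1 θ φ x 0 (inner ℝ x (u i))).2.1]
  have hcoord : ∀ i, (rot θ φ x) i = inner ℝ x (u i) := by
    intro i
    rw [← hin, hru i, EuclideanSpace.inner_single_right]
    simp
  set R : Matrix (Fin 4) (Fin 4) ℝ := Matrix.of fun i k => u i k with hR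
  set M : Matrix (Fin 4) (Fin 4) ℝ := Matrix.of fun i j : Fin 4 =>
    g x (tang x (EuclideanSpace.single i 1)) (tang x (EuclideanSpace.single j 1)) + x i * x j
    with hM
  have hRR : R * R.transpose = 1 := by
    ext i j
    have h1 : inner ℝ (u i) (u j) = if i = j then (1 : ℝ) else 0 := by
      rw [← hin, hru, hru]
      simp [EuclideanSpace.inner_single_left]
    rw [Matrix.mul_apply, Matrix.one_apply, ← h1, b4_inner]
    rfl
  have hprod : (Matrix.of fun i j : Fin 4 =>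
      g (rot θ φ x) (tang (rot θ φ x) (EuclideanSpace.single i 1))
        (tang (rot θ φ x) (EuclideanSpace.single j 1)) + (rot θ φ x) i * (rot θ φ x) j)
      = R * M * R.transpose := by
    ext i j
    rw [Matrix.of_apply, htang, htang, hg θ φ x _ _ hx (b4_inner_tang hx _) (b4_inner_tang hx _),
      hcoord, hcoord, b4_inner, b4_inner, b4_tang_sum x (u i), b4_tang_sum x (u j)]
    simp only [Fin.sum_univ_four, map_add, map_smul, add_apply, smul_apply, smul_eq_mul,
      Matrix.mul_apply, Matrix.transpose_apply, hR, hM, Matrix.of_apply]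
    ring
  have hdet : R.det * R.det = 1 := by
    have h1 := congrArg Matrix.det hRR
    rw [Matrix.det_mul, Matrix.det_transpose, Matrix.det_one] at h1
    exact h1
  unfold volDensity
  rw [hprod, Matrix.det_mul, Matrix.det_mul, Matrix.det_transpose,
    show R.det * M.det * R.det = (R.det * R.det) * M.det by ring, hdet, one_mul]

end Pool.Agent.Work.MP_02f065_gt.Toric

end
end

section

/-! Item B5: integration over the sphere in torus coordinates (helper18). -/

open MeasureTheory Set Filter Topology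

noncomputable section

namespace Pool.Agent.Work.MP_02f065_gt.Toric

namespace B5

theorem continuous_pt : Continuous pt := by
  unfold pt
  refine (PiLp.continuous_toLp 2 _).comp (continuous_pi fun i => ?_)
  fin_cases i
  · exact Real.continuous_cos
  · exact continuous_const
  · exact Real.continuous_sin
  · exact continuous_const

theorem norm_pt (s : ℝ) : ‖pt s‖ = 1 := by
  rw [EuclideanSpace.norm_eq, Fin.sum_univ_four]
  have h : ‖pt s 0‖ ^ 2 + ‖pt s 1‖ ^ 2 + ‖pt s 2‖ ^ 2 + ‖pt s 3‖ ^ 2 =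
      Real.cos s ^ 2 + Real.sin s ^ 2 := by
    simp [pt]
  rw [h, Real.cos_sq_add_sin_sq, Real.sqrt_one]

theorem continuous_orbInt (hR1 : claimR1) (hR2 : claimR2) (F : E → ℝ)
    (hF : ContinuousOn F (Metric.sphere (0 : E) 1)) : Continuous (orbInt F) := by
  have h1 : Continuous fun q : (ℝ × ℝ) × ℝ => rot q.1.2 q.2 (pt q.1.1) := by
    have h2 : Continuous fun q : (ℝ × ℝ) × ℝ => ((q.1.2, q.2, pt q.1.1) : ℝ × ℝ × E) :=
      (continuous_fst.snd).prodMk (continuous_snd.prodMk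
        (continuous_pt.comp continuous_fst.fst))
    exact Continuous.comp (g := fun p : ℝ × ℝ × E => rot p.1 p.2.1 p.2.2)
      (f := fun q : (ℝ × ℝ) × ℝ => ((q.1.2, q.2, pt q.1.1) : ℝ × ℝ × E)) hR2 h2
  have h3 : Continuous fun q : (ℝ × ℝ) × ℝ => F (rot q.1.2 q.2 (pt q.1.1)) := by
    refine hF.comp_continuous h1 fun q => ?_
    rw [mem_sphere_zero_iff_norm]
    have h4 := (hR1 q.1.2 q.2 (pt q.1.1) 0 0).2.2.2.1
    rw [h4, norm_pt]
  have h5 : Continuous fun p : ℝ × ℝ =>
      ∫ φ in (0 : ℝ)..(2 * Real.pi), F (rot p.2 φ (pt p.1)) :=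
    intervalIntegral.continuous_parametric_intervalIntegral_of_continuous'
      (f := fun (p : ℝ × ℝ) (φ : ℝ) => F (rot p.2 φ (pt p.1))) h3 _ _
  exact intervalIntegral.continuous_parametric_intervalIntegral_of_continuous'
    (f := fun (s : ℝ) (θ : ℝ) => ∫ φ in (0 : ℝ)..(2 * Real.pi), F (rot θ φ (pt s))) h5 _ _

end B5

theorem itemB5 (hR1 : claimR1) (hR2 : claimR2) (hB5a : claimB5a) (hB5b : claimB5b)
    (hB5c : claimB5c) : claimB5 := by
  intro F hF
  have h1 := hB5a F hF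
  have h2 := hB5b F hF
  have h3 := hB5c (orbInt F) (B5.continuous_orbInt hR1 hR2 F hF).continuousOn
  rw [h2, h3] at h1
  have h4 : ∫ x : Metric.sphere (0 : E) 1, F x ∂((volume : Measure E).toSphere) =
      ∫ s in (0 : ℝ)..(Real.pi / 2), orbInt F s * (Real.cos s * Real.sin s) := by
    linarith
  rw [h4]
  rfl

end Pool.Agent.Work.MP_02f065_gt.Toric

end
end

section

/-!
MP_02f065_gt, item B5a: Gaussian integral over R^4 in spherical coordinates.
-/

open MeasureTheory Set Filter Topology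

noncomputable section

namespace Pool.Agent.Work.MP_02f065_gt.Toric

namespace B5a

lemma radial : ∫ y in Ioi (0 : ℝ), y ^ 3 * Real.exp (-y ^ 2) = 1 / 2 := by
  have h := integral_rpow_mul_exp_neg_rpow (p := 2) (q := 3) (by norm_num) (by norm_num)
  have h2 : ∫ y in Ioi (0 : ℝ), y ^ 3 * Real.exp (-y ^ 2) =
      ∫ x in Ioi (0 : ℝ), x ^ (3 : ℝ) * Real.exp (-x ^ (2 : ℝ)) := by
    refine setIntegral_congr_fun measurableSet_Ioi fun x hx => ?_
    have e3 : x ^ (3 : ℝ) = x ^ 3 := by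
      rw [show (3 : ℝ) = ((3 : ℕ) : ℝ) by norm_num, Real.rpow_natCast]
    have e2 : x ^ (2 : ℝ) = x ^ 2 := by
      rw [show (2 : ℝ) = ((2 : ℕ) : ℝ) by norm_num, Real.rpow_natCast]
    simp only [e3, e2]
  rw [h2, h]
  have : ((3 : ℝ) + 1) / 2 = 2 := by norm_num
  rw [this, Real.Gamma_two]
  norm_num

lemma radial' : ∫ r : Ioi (0 : ℝ), Real.exp (-(r : ℝ) ^ 2) ∂(Measure.volumeIoiPow 3) = 1 / 2 := by
  simp only [Measure.volumeIoiPow, ENNReal.ofReal]
  rw [integral_withDensity_eq_integral_smul,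
    integral_subtype_comap measurableSet_Ioi fun a : ℝ => Real.toNNReal (a ^ 3) • Real.exp (-a ^ 2),
    ← radial]
  · refine setIntegral_congr_fun measurableSet_Ioi fun x hx => ?_
    rw [NNReal.smul_def, Real.coe_toNNReal _ (pow_nonneg (le_of_lt hx) _), smul_eq_mul]
  · exact (measurable_subtype_coe.pow_const _).real_toNNReal

end B5a

open B5a in
theorem itemB5a : claimB5a := by
  intro F hF
  have hdim : Module.finrank ℝ E - 1 = 3 := by
    simp [E]
  calc ∫ x : E, F (‖x‖⁻¹ • x) * Real.exp (-‖x‖ ^ 2)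
      = ∫ x : ({(0 : E)}ᶜ : Set E), F (‖(x : E)‖⁻¹ • (x : E)) * Real.exp (-‖(x : E)‖ ^ 2)
          ∂((volume : Measure E).comap (↑)) := by
        rw [integral_subtype_comap (measurableSet_singleton _).compl
          fun x : E => F (‖x‖⁻¹ • x) * Real.exp (-‖x‖ ^ 2), restrict_compl_singleton]
    _ = ∫ z, F (z.1 : E) * Real.exp (-(z.2 : ℝ) ^ 2)
          ∂((volume : Measure E).toSphere.prod (Measure.volumeIoiPow (Module.finrank ℝ E - 1))) := by
        have := (volume : Measure E).measurePreserving_homeomorphUnitSphereProd.integral_comp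
          (Homeomorph.measurableEmbedding _)
          (fun z : Metric.sphere (0 : E) 1 × Ioi (0 : ℝ) =>
            F (z.1 : E) * Real.exp (-(z.2 : ℝ) ^ 2))
        rw [← this]
        simp
    _ = (∫ x : Metric.sphere (0 : E) 1, F x ∂((volume : Measure E).toSphere)) *
          ∫ r : Ioi (0 : ℝ), Real.exp (-(r : ℝ) ^ 2)
            ∂(Measure.volumeIoiPow (Module.finrank ℝ E - 1)) :=
        integral_prod_mul (fun x : Metric.sphere (0 : E) 1 => F (x : E))
          (fun r : Ioi (0 : ℝ) => Real.exp (-(r : ℝ) ^ 2))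
    _ = (1 / 2) * ∫ x : Metric.sphere (0 : E) 1, F x ∂((volume : Measure E).toSphere) := by
        rw [hdim, radial']
        ring

end Pool.Agent.Work.MP_02f065_gt.Toric

end
end

section

open MeasureTheory Set Filter Topology

noncomputable section

namespace Pool.Agent.Work.MP_02f065_gt.Toric

/-- Four coordinates as two pairs. -/
theorem B5b_e4 : ∃ e : (ℝ × ℝ) × (ℝ × ℝ) ≃ᵐ E, MeasurePreserving e ∧
    ∀ u, e u = !₂[u.1.1, u.1.2, u.2.1, u.2.2] := by
  let e1 : (ℝ × ℝ) × (ℝ × ℝ) ≃ᵐ (Fin 2 → ℝ) × (Fin 2 → ℝ) :=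
    MeasurableEquiv.prodCongr MeasurableEquiv.finTwoArrow.symm MeasurableEquiv.finTwoArrow.symm
  let e2 : (Fin 2 → ℝ) × (Fin 2 → ℝ) ≃ᵐ (Fin 2 ⊕ Fin 2 → ℝ) :=
    (MeasurableEquiv.sumPiEquivProdPi (fun _ : Fin 2 ⊕ Fin 2 => ℝ)).symm
  let e3 : (Fin 2 ⊕ Fin 2 → ℝ) ≃ᵐ (Fin 4 → ℝ) :=
    MeasurableEquiv.piCongrLeft (fun _ : Fin 4 => ℝ) (finSumFinEquiv (m := 2) (n := 2))
  let e4 : (Fin 4 → ℝ) ≃ᵐ E := MeasurableEquiv.toLp 2 (Fin 4 → ℝ)
  have h1 : MeasurePreserving e1 :=
    (volume_preserving_finTwoArrow ℝ).symm.prod (volume_preserving_finTwoArrow ℝ).symm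
  have h2 : MeasurePreserving e2 :=
    (volume_measurePreserving_sumPiEquivProdPi (fun _ : Fin 2 ⊕ Fin 2 => ℝ)).symm
  have h3 : MeasurePreserving e3 :=
    volume_measurePreserving_piCongrLeft (fun _ : Fin 4 => ℝ) (finSumFinEquiv (m := 2) (n := 2))
  have h4 : MeasurePreserving e4 :=
    (EuclideanSpace.volume_preserving_symm_measurableEquiv_toLp (Fin 4)).symm
  refine ⟨((e1.trans e2).trans e3).trans e4, ((h1.trans h2).trans h3).trans h4, ?_⟩
  intro u
  ext i
  fin_cases i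
  · rfl
  · rfl
  · rfl
  · rfl

/-- Exchange of the two middle coordinates. -/
theorem B5b_swap : ∃ P : (ℝ × ℝ) × (ℝ × ℝ) ≃ᵐ (ℝ × ℝ) × (ℝ × ℝ), MeasurePreserving P ∧
    ∀ a b c d : ℝ, P ((a, b), (c, d)) = ((a, c), (b, d)) := by
  let e1 : (ℝ × ℝ) × (ℝ × ℝ) ≃ᵐ (Fin 2 → ℝ) × (Fin 2 → ℝ) :=
    MeasurableEquiv.prodCongr MeasurableEquiv.finTwoArrow.symm MeasurableEquiv.finTwoArrow.symm
  let e2 : (Fin 2 → ℝ) × (Fin 2 → ℝ) ≃ᵐ (Fin 2 → ℝ × ℝ) :=
    (MeasurableEquiv.arrowProdEquivProdArrow ℝ ℝ (Fin 2)).symm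
  let e3 : (Fin 2 → ℝ × ℝ) ≃ᵐ (ℝ × ℝ) × (ℝ × ℝ) := MeasurableEquiv.finTwoArrow
  have h1 : MeasurePreserving e1 :=
    (volume_preserving_finTwoArrow ℝ).symm.prod (volume_preserving_finTwoArrow ℝ).symm
  have h2 : MeasurePreserving e2 :=
    (volume_measurePreserving_arrowProdEquivProdArrow ℝ ℝ (Fin 2)).symm
  have h3 : MeasurePreserving e3 := volume_preserving_finTwoArrow (ℝ × ℝ)
  refine ⟨(e1.trans e2).trans e3, (h1.trans h2).trans h3, ?_⟩
  intro a b c d
  rfl

theorem B5b_normsq (a b c d : ℝ) : ‖(!₂[a, b, c, d] : E)‖ ^ 2 = a ^ 2 + b ^ 2 + (c ^ 2 + d ^ 2) := by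
  rw [EuclideanSpace.norm_sq_eq]
  simp [Fin.sum_univ_four]
  ring

theorem B5b_unit (r1 r2 θ φ : ℝ) (h1 : 0 < r1) (h2 : 0 < r2) :
    ‖(!₂[r1 * Real.cos θ, r1 * Real.sin θ, r2 * Real.cos φ, r2 * Real.sin φ] : E)‖ ^ 2 =
      r1 ^ 2 + r2 ^ 2 ∧
    ‖(!₂[r1 * Real.cos θ, r1 * Real.sin θ, r2 * Real.cos φ, r2 * Real.sin φ] : E)‖⁻¹ •
      (!₂[r1 * Real.cos θ, r1 * Real.sin θ, r2 * Real.cos φ, r2 * Real.sin φ] : E) =
      rot θ φ (pt (Real.arctan (r2 / r1))) := by
  have hn : ‖(!₂[r1 * Real.cos θ, r1 * Real.sin θ, r2 * Real.cos φ, r2 * Real.sin φ] : E)‖ ^ 2 =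
      r1 ^ 2 + r2 ^ 2 := by
    rw [B5b_normsq]
    have e1 := Real.cos_sq_add_sin_sq θ
    have e2 := Real.cos_sq_add_sin_sq φ
    calc (r1 * Real.cos θ) ^ 2 + (r1 * Real.sin θ) ^ 2 +
        ((r2 * Real.cos φ) ^ 2 + (r2 * Real.sin φ) ^ 2) =
        r1 ^ 2 * (Real.cos θ ^ 2 + Real.sin θ ^ 2) +
        r2 ^ 2 * (Real.cos φ ^ 2 + Real.sin φ ^ 2) := by ring
      _ = r1 ^ 2 + r2 ^ 2 := by rw [e1, e2]; ring
  refine ⟨hn, ?_⟩
  set N := ‖(!₂[r1 * Real.cos θ, r1 * Real.sin θ, r2 * Real.cos φ, r2 * Real.sin φ] : E)‖ with hN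
  have hN0 : 0 ≤ N := norm_nonneg _
  have hNpos : 0 < N := by
    rcases hN0.lt_or_eq with h | h
    · exact h
    · exfalso
      rw [← h] at hn
      nlinarith
  have hsq : Real.sqrt (1 + (r2 / r1) ^ 2) = N / r1 := by
    rw [Real.sqrt_eq_iff_mul_self_eq (by positivity) (by positivity)]
    field_simp
    nlinarith
  have hc : Real.cos (Real.arctan (r2 / r1)) = r1 / N := by
    rw [Real.cos_arctan, hsq]
    field_simp
  have hs : Real.sin (Real.arctan (r2 / r1)) = r2 / N := by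
    rw [Real.sin_arctan, hsq]
    field_simp
  ext i
  fin_cases i <;> simp [rot, pt, hc, hs] <;> ring

theorem B5b_rot_periodic1 (F : E → ℝ) (φ : ℝ) (x : E) :
    Function.Periodic (fun θ => F (rot θ φ x)) (2 * Real.pi) := by
  intro θ
  simp [rot, Real.cos_add_two_pi, Real.sin_add_two_pi]

theorem B5b_rot_periodic2 (F : E → ℝ) (θ : ℝ) (x : E) :
    Function.Periodic (fun φ => F (rot θ φ x)) (2 * Real.pi) := by
  intro φ
  simp [rot, Real.cos_add_two_pi, Real.sin_add_two_pi]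

/-- The orbit integral over a symmetric interval. -/
theorem B5b_orb (F : E → ℝ) (s : ℝ) :
    orbInt F s = ∫ θ in Ioo (-Real.pi) Real.pi, ∫ φ in Ioo (-Real.pi) Real.pi,
      F (rot θ φ (pt s)) := by
  have hpi := Real.pi_pos
  have h1 : ∀ f : ℝ → ℝ, Function.Periodic f (2 * Real.pi) →
      ∫ θ in (0 : ℝ)..(2 * Real.pi), f θ = ∫ θ in Ioo (-Real.pi) Real.pi, f θ := by
    intro f hf
    have h2 := hf.intervalIntegral_add_eq 0 (-Real.pi)
    rw [zero_add] at h2
    rw [h2, show -Real.pi + 2 * Real.pi = Real.pi by ring,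
      intervalIntegral.integral_of_le (by linarith), integral_Ioc_eq_integral_Ioo]
  unfold orbInt
  rw [h1]
  · congr 1
    funext θ
    exact h1 _ (B5b_rot_periodic2 F θ (pt s))
  · intro θ
    simp only
    congr 1
    funext φ
    exact B5b_rot_periodic1 F φ (pt s) θ

/-- The integrand in double polar coordinates. -/
def B5bK (F : E → ℝ) (w : (ℝ × ℝ) × (ℝ × ℝ)) : ℝ :=
  w.1.1 * (w.2.1 * (F (rot w.1.2 w.2.2 (pt (Real.arctan (w.2.1 / w.1.1)))) *
    Real.exp (-(w.1.1 ^ 2 + w.2.1 ^ 2))))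

theorem B5b_rotm : Measurable fun p : ℝ × ℝ × E => rot p.1 p.2.1 p.2.2 := by
  apply Continuous.measurable
  unfold rot
  apply (PiLp.continuous_toLp 2 (fun _ : Fin 4 => ℝ)).comp
  apply continuous_pi
  intro i
  fin_cases i <;> simp <;> fun_prop

theorem B5b_ptm : Measurable pt := by
  apply Continuous.measurable
  unfold pt
  apply (PiLp.continuous_toLp 2 (fun _ : Fin 4 => ℝ)).comp
  apply continuous_pi
  intro i
  fin_cases i <;> simp <;> fun_prop

attribute [local irreducible] rot pt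

theorem B5b_rot_meas {X : Type*} [MeasurableSpace X] {f g : X → ℝ} {h : X → E}
    (hf : Measurable f) (hg : Measurable g) (hh : Measurable h) :
    Measurable (fun x => rot (f x) (g x) (h x)) := by
  have h1 : Measurable (fun x => (f x, g x, h x)) := hf.prodMk (hg.prodMk hh)
  have h2 := B5b_rotm.comp h1
  exact h2

theorem B5b_pt_meas {X : Type*} [MeasurableSpace X] {f : X → ℝ} (hf : Measurable f) :
    Measurable (fun x => pt (f x)) :=
  B5b_ptm.comp hf

theorem B5bK_meas (F : E → ℝ) (hF : Measurable F) : Measurable (B5bK F) := by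
  have a1 : Measurable fun w : (ℝ × ℝ) × (ℝ × ℝ) => w.1.1 := measurable_fst.comp measurable_fst
  have a2 : Measurable fun w : (ℝ × ℝ) × (ℝ × ℝ) => w.1.2 := measurable_snd.comp measurable_fst
  have a3 : Measurable fun w : (ℝ × ℝ) × (ℝ × ℝ) => w.2.1 := measurable_fst.comp measurable_snd
  have a4 : Measurable fun w : (ℝ × ℝ) × (ℝ × ℝ) => w.2.2 := measurable_snd.comp measurable_snd
  have h1 : Measurable fun w : (ℝ × ℝ) × (ℝ × ℝ) =>
      rot w.1.2 w.2.2 (pt (Real.arctan (w.2.1 / w.1.1))) :=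
    B5b_rot_meas a2 a4 (B5b_pt_meas (Real.measurable_arctan.comp (a3.div a1)))
  have h4 : Measurable fun w : (ℝ × ℝ) × (ℝ × ℝ) =>
      F (rot w.1.2 w.2.2 (pt (Real.arctan (w.2.1 / w.1.1)))) := hF.comp h1
  have h5 : Measurable fun w : (ℝ × ℝ) × (ℝ × ℝ) => Real.exp (-(w.1.1 ^ 2 + w.2.1 ^ 2)) :=
    Real.measurable_exp.comp (((a1.pow_const 2).add (a3.pow_const 2)).neg)
  exact a1.mul (a3.mul (h4.mul h5))

theorem B5bK_int (F : E → ℝ) (hF : Measurable F) (C : ℝ) (hC : ∀ x, |F x| ≤ C) :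
    IntegrableOn (B5bK F)
      ((Ioi 0 ×ˢ Ioo (-Real.pi) Real.pi) ×ˢ (Ioi 0 ×ˢ Ioo (-Real.pi) Real.pi)) := by
  have h0 : IntegrableOn (fun x : ℝ => x * Real.exp (-x ^ 2)) (Ioi 0) := by
    have := integrable_mul_exp_neg_mul_sq (b := 1) one_pos
    have h1 : (fun x : ℝ => x * Real.exp (-x ^ 2)) = fun x : ℝ => x * Real.exp (-1 * x ^ 2) := by
      funext x
      congr 2
      ring
    rw [h1]
    exact this.integrableOn
  have h1 : IntegrableOn (fun p : ℝ × ℝ => (p.1 * Real.exp (-p.1 ^ 2)) * (1 : ℝ))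
      (Ioi 0 ×ˢ Ioo (-Real.pi) Real.pi) := by
    have hc : IntegrableOn (fun _ : ℝ => (1 : ℝ)) (Ioo (-Real.pi) Real.pi) :=
      (continuous_const.integrableOn_Icc (a := -Real.pi) (b := Real.pi)).mono_set
        Ioo_subset_Icc_self
    have := Integrable.mul_prod (μ := volume.restrict (Ioi (0 : ℝ)))
      (ν := volume.restrict (Ioo (-Real.pi) Real.pi)) h0 hc
    rw [Measure.prod_restrict] at this
    exact this
  have h2 : IntegrableOn (fun w : (ℝ × ℝ) × (ℝ × ℝ) =>
      ((w.1.1 * Real.exp (-w.1.1 ^ 2)) * (1 : ℝ)) * ((w.2.1 * Real.exp (-w.2.1 ^ 2)) * (1 : ℝ)))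
      ((Ioi 0 ×ˢ Ioo (-Real.pi) Real.pi) ×ˢ (Ioi 0 ×ˢ Ioo (-Real.pi) Real.pi)) := by
    have := Integrable.mul_prod (μ := volume.restrict (Ioi (0 : ℝ) ×ˢ Ioo (-Real.pi) Real.pi))
      (ν := volume.restrict (Ioi (0 : ℝ) ×ˢ Ioo (-Real.pi) Real.pi)) h1 h1
    rw [Measure.prod_restrict] at this
    exact this
  have h3 := h2.const_mul C
  refine Integrable.mono' h3 (B5bK_meas F hF).aestronglyMeasurable ?_
  have hm : MeasurableSet ((Ioi (0 : ℝ) ×ˢ Ioo (-Real.pi) Real.pi) ×ˢ
      (Ioi (0 : ℝ) ×ˢ Ioo (-Real.pi) Real.pi)) :=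
    (measurableSet_Ioi.prod measurableSet_Ioo).prod (measurableSet_Ioi.prod measurableSet_Ioo)
  refine (ae_restrict_iff' hm).mpr (Eventually.of_forall fun w hw => ?_)
  have hp : 0 < w.1.1 := hw.1.1
  have hq : 0 < w.2.1 := hw.2.1
  rw [Real.norm_eq_abs]
  unfold B5bK
  rw [abs_mul, abs_mul, abs_mul, abs_of_pos hp, abs_of_pos hq, abs_of_pos (Real.exp_pos _)]
  have h4 := hC (rot w.1.2 w.2.2 (pt (Real.arctan (w.2.1 / w.1.1))))
  have h5 : Real.exp (-(w.1.1 ^ 2 + w.2.1 ^ 2)) =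
      Real.exp (-w.1.1 ^ 2) * Real.exp (-w.2.1 ^ 2) := by
    rw [← Real.exp_add]
    congr 1
    ring
  rw [h5]
  calc w.1.1 * (w.2.1 * (|F (rot w.1.2 w.2.2 (pt (Real.arctan (w.2.1 / w.1.1))))| *
        (Real.exp (-w.1.1 ^ 2) * Real.exp (-w.2.1 ^ 2)))) ≤
      w.1.1 * (w.2.1 * (C * (Real.exp (-w.1.1 ^ 2) * Real.exp (-w.2.1 ^ 2)))) := by gcongr
    _ = _ := by ring

theorem B5b_gauss : Integrable (fun u : (ℝ × ℝ) × (ℝ × ℝ) =>
    Real.exp (-(u.1.1 ^ 2 + u.1.2 ^ 2 + (u.2.1 ^ 2 + u.2.2 ^ 2)))) := by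
  have h0 : Integrable (fun x : ℝ => Real.exp (-x ^ 2)) := by
    have := integrable_exp_neg_mul_sq (b := 1) one_pos
    simpa using this
  have h1 : Integrable (fun p : ℝ × ℝ => Real.exp (-p.1 ^ 2) * Real.exp (-p.2 ^ 2)) :=
    h0.mul_prod h0
  have h2 : Integrable (fun u : (ℝ × ℝ) × (ℝ × ℝ) =>
      (Real.exp (-u.1.1 ^ 2) * Real.exp (-u.1.2 ^ 2)) *
      (Real.exp (-u.2.1 ^ 2) * Real.exp (-u.2.2 ^ 2))) := h1.mul_prod h1
  refine h2.congr (Eventually.of_forall fun u => ?_)
  simp only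
  rw [← Real.exp_add, ← Real.exp_add, ← Real.exp_add]
  congr 1
  ring

/-- The integrand on E. -/
def B5bh (F : E → ℝ) (x : E) : ℝ := F (‖x‖⁻¹ • x) * Real.exp (-‖x‖ ^ 2)

theorem B5bh_meas (F : E → ℝ) (hF : Measurable F) : Measurable (B5bh F) := by
  have h1 : Measurable fun x : E => ‖x‖⁻¹ • x := by
    have a1 : Measurable fun x : E => ‖x‖⁻¹ := measurable_norm.inv
    have a2 : Measurable fun x : E => x := measurable_id
    exact a1.smul a2
  have h2 : Measurable fun x : E => F (‖x‖⁻¹ • x) := hF.comp h1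
  have h3 : Measurable fun x : E => Real.exp (-‖x‖ ^ 2) :=
    Real.measurable_exp.comp ((measurable_norm.pow_const 2).neg)
  exact h2.mul h3

theorem B5b_main (F : E → ℝ) (hF : Measurable F) (C : ℝ) (hC : ∀ x, |F x| ≤ C) :
    ∫ x : E, B5bh F x =
    ∫ z in (Ioi (0 : ℝ) ×ˢ Ioi (0 : ℝ)),
      orbInt F (Real.arctan (z.2 / z.1)) * (z.1 * z.2 * Real.exp (-(z.1 ^ 2 + z.2 ^ 2))) := by
  obtain ⟨e, he, heq⟩ := B5b_e4
  obtain ⟨P, hP, hPeq⟩ := B5b_swap
  set T : Set (ℝ × ℝ) := Ioi 0 ×ˢ Ioo (-Real.pi) Real.pi with hT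
  have hTm : MeasurableSet T := measurableSet_Ioi.prod measurableSet_Ioo
  set Q : Set (ℝ × ℝ) := Ioi (0 : ℝ) ×ˢ Ioi (0 : ℝ) with hQ
  have hQm : MeasurableSet Q := measurableSet_Ioi.prod measurableSet_Ioi
  set A : Set (ℝ × ℝ) := Ioo (-Real.pi) Real.pi ×ˢ Ioo (-Real.pi) Real.pi with hA
  have hAm : MeasurableSet A := measurableSet_Ioo.prod measurableSet_Ioo
  have h1 : ∫ x : E, B5bh F x = ∫ u, B5bh F (e u) := (he.integral_comp' (B5bh F)).symm
  have hint : Integrable (fun u : (ℝ × ℝ) × (ℝ × ℝ) => B5bh F (e u)) := by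
    refine Integrable.mono' (B5b_gauss.const_mul C)
      ((B5bh_meas F hF).comp e.measurable).aestronglyMeasurable (Eventually.of_forall fun u => ?_)
    unfold B5bh
    rw [Real.norm_eq_abs, abs_mul, abs_of_pos (Real.exp_pos _)]
    have hn : ‖e u‖ ^ 2 = u.1.1 ^ 2 + u.1.2 ^ 2 + (u.2.1 ^ 2 + u.2.2 ^ 2) := by
      rw [heq, B5b_normsq]
    rw [hn]
    exact mul_le_mul_of_nonneg_right (hC _) (Real.exp_pos _).le
  have h2 : ∫ u, B5bh F (e u) = ∫ a : ℝ × ℝ, ∫ b : ℝ × ℝ, B5bh F (e (a, b)) :=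
    integral_prod _ hint
  have h3 : ∀ a : ℝ × ℝ, ∫ b : ℝ × ℝ, B5bh F (e (a, b)) =
      ∫ q in T, q.1 • B5bh F (e (a, polarCoord.symm q)) := fun a =>
    (integral_comp_polarCoord_symm (fun b => B5bh F (e (a, b)))).symm
  have h4 : ∫ a : ℝ × ℝ, ∫ b : ℝ × ℝ, B5bh F (e (a, b)) =
      ∫ p in T, p.1 • ∫ q in T, q.1 • B5bh F (e (polarCoord.symm p, polarCoord.symm q)) := by
    simp_rw [h3]
    exact (integral_comp_polarCoord_symm
      (fun a => ∫ q in T, q.1 • B5bh F (e (a, polarCoord.symm q)))).symm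
  have h5 : ∫ p in T, p.1 • ∫ q in T, q.1 • B5bh F (e (polarCoord.symm p, polarCoord.symm q)) =
      ∫ p in T, ∫ q in T, B5bK F (p, q) := by
    apply setIntegral_congr_fun hTm
    intro p hp
    simp only
    rw [← integral_smul]
    apply setIntegral_congr_fun hTm
    intro q hq
    have hp1 : 0 < p.1 := hp.1
    have hq1 : 0 < q.1 := hq.1
    obtain ⟨e1, e2⟩ := B5b_unit p.1 q.1 p.2 q.2 hp1 hq1
    simp only [smul_eq_mul, B5bK, B5bh]
    rw [heq]
    simp only [polarCoord_symm_apply]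
    rw [e2, e1]
  have hK := B5bK_int F hF C hC
  have h6 : ∫ p in T, ∫ q in T, B5bK F (p, q) = ∫ w in T ×ˢ T, B5bK F w :=
    (setIntegral_prod _ hK).symm
  have hpre : P ⁻¹' (T ×ˢ T) = Q ×ˢ A := by
    ext ⟨⟨a, b⟩, ⟨c, d⟩⟩
    simp only [mem_preimage, hPeq, hT, hQ, hA, mem_prod]
    tauto
  have h7 : ∫ w in T ×ˢ T, B5bK F w = ∫ w in Q ×ˢ A, B5bK F (P w) := by
    rw [← hpre]
    exact (hP.setIntegral_preimage_emb P.measurableEmbedding (B5bK F) (T ×ˢ T)).symm
  have hK2 : IntegrableOn (fun w => B5bK F (P w)) (Q ×ˢ A) := by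
    rw [← hpre]
    exact (hP.integrableOn_comp_preimage P.measurableEmbedding).mpr hK
  have h8 : ∫ w in Q ×ˢ A, B5bK F (P w) = ∫ z in Q, ∫ a in A, B5bK F (P (z, a)) :=
    setIntegral_prod _ hK2
  rw [h1, h2, h4, h5, h6, h7, h8]
  apply setIntegral_congr_fun hQm
  intro z hz
  simp only
  have h9 : ∀ a : ℝ × ℝ, B5bK F (P (z, a)) =
      (z.1 * z.2 * Real.exp (-(z.1 ^ 2 + z.2 ^ 2))) *
        F (rot a.1 a.2 (pt (Real.arctan (z.2 / z.1)))) := by
    rintro ⟨a, b⟩
    obtain ⟨c, d⟩ := z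
    rw [hPeq]
    simp only [B5bK]
    ring
  simp_rw [h9]
  rw [integral_const_mul, mul_comm]
  congr 1
  rw [B5b_orb]
  apply setIntegral_prod
  have hmes : Measurable fun a : ℝ × ℝ => F (rot a.1 a.2 (pt (Real.arctan (z.2 / z.1)))) :=
    hF.comp (B5b_rot_meas measurable_fst measurable_snd measurable_const)
  have hc : IntegrableOn (fun _ : ℝ × ℝ => C) A := by
    have hc1 : IntegrableOn (fun _ : ℝ => (1 : ℝ)) (Ioo (-Real.pi) Real.pi) :=
      (continuous_const.integrableOn_Icc (a := -Real.pi) (b := Real.pi)).mono_set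
        Ioo_subset_Icc_self
    have hc2 := Integrable.mul_prod (μ := volume.restrict (Ioo (-Real.pi) Real.pi))
      (ν := volume.restrict (Ioo (-Real.pi) Real.pi)) hc1 hc1
    rw [Measure.prod_restrict] at hc2
    have hc3 := hc2.const_mul C
    refine hc3.congr (Eventually.of_forall fun a => ?_)
    simp
  exact Integrable.mono' hc hmes.aestronglyMeasurable (Eventually.of_forall fun a => hC _)

theorem itemB5b : claimB5b := by
  intro F hF
  classical
  obtain ⟨C, hC⟩ := (isCompact_sphere (0 : E) 1).exists_bound_of_continuousOn hF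
  have hC0 : 0 ≤ max C 0 := le_max_right _ _
  set G : E → ℝ := (Metric.sphere (0 : E) 1).piecewise F (fun _ => 0) with hG
  have hGm : Measurable G :=
    ContinuousOn.measurable_piecewise hF continuousOn_const Metric.isClosed_sphere.measurableSet
  have hGF : ∀ x, ‖x‖ = 1 → G x = F x := by
    intro x hx
    rw [hG]
    exact piecewise_eq_of_mem _ _ _ (by simpa using hx)
  have hGC : ∀ x, |G x| ≤ max C 0 := by
    intro x
    by_cases hx : x ∈ Metric.sphere (0 : E) 1
    · rw [hG, piecewise_eq_of_mem _ _ _ hx]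
      exact (hC x hx).trans (le_max_left _ _)
    · rw [hG, piecewise_eq_of_notMem _ _ _ hx]
      simp
  have hmain := B5b_main G hGm _ hGC
  have e1 : ∫ x : E, B5bh G x = ∫ x : E, F (‖x‖⁻¹ • x) * Real.exp (-‖x‖ ^ 2) := by
    apply integral_congr_ae
    have h0 : ∀ᵐ x : E, x ≠ 0 := by
      have : (volume : Measure E) {(0 : E)} = 0 := measure_singleton 0
      exact (measure_eq_zero_iff_ae_notMem.mp this).mono fun x hx => by simpa using hx
    filter_upwards [h0] with x hx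
    unfold B5bh
    rw [hGF]
    rw [norm_smul, norm_inv, norm_norm]
    exact inv_mul_cancel₀ (norm_ne_zero_iff.mpr hx)
  have e2 : ∀ s, orbInt G s = orbInt F s := by
    intro s
    have e3 : ∀ θ φ, G (rot θ φ (pt s)) = F (rot θ φ (pt s)) := by
      intro θ φ
      apply hGF
      have h1 : ‖rot θ φ (pt s)‖ ^ 2 = 1 := by
        unfold rot pt
        rw [B5b_normsq]
        have a1 := Real.cos_sq_add_sin_sq θ
        have a2 := Real.cos_sq_add_sin_sq φ
        have a3 := Real.cos_sq_add_sin_sq s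
        simp
        calc (Real.cos θ * Real.cos s) ^ 2 + (Real.sin θ * Real.cos s) ^ 2 +
            ((Real.cos φ * Real.sin s) ^ 2 + (Real.sin φ * Real.sin s) ^ 2) =
            (Real.cos θ ^ 2 + Real.sin θ ^ 2) * Real.cos s ^ 2 +
            (Real.cos φ ^ 2 + Real.sin φ ^ 2) * Real.sin s ^ 2 := by ring
          _ = 1 := by rw [a1, a2]; linarith
      have h2 := norm_nonneg (rot θ φ (pt s))
      nlinarith
    unfold orbInt
    simp_rw [e3]
  rw [← e1, hmain]
  simp_rw [e2]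

end Pool.Agent.Work.MP_02f065_gt.Toric

end
end

section

/-!
B5c: polar coordinates in the quadrant.
-/

open MeasureTheory Set Filter Topology

namespace Pool.Agent.Work.MP_02f065_gt.Toric

theorem b5c_radial : ∫ r in Ioi (0 : ℝ), r ^ 3 * Real.exp (-r ^ 2) = 1 / 2 := by
  have h := integral_rpow_mul_exp_neg_rpow (p := 2) (q := 3) (by norm_num) (by norm_num)
  have h2 : Real.Gamma (((3 : ℝ) + 1) / 2) = 1 := by
    rw [show ((3 : ℝ) + 1) / 2 = 2 by norm_num]
    exact Real.Gamma_two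
  rw [h2, mul_one] at h
  rw [← h]
  refine setIntegral_congr_fun measurableSet_Ioi ?_
  intro r hr
  simp only
  norm_cast

theorem b5c_mem {r s : ℝ} (hr : 0 < r) (hs : s ∈ Ioo (-Real.pi) Real.pi) :
    (r * Real.cos s, r * Real.sin s) ∈ (Ioi (0 : ℝ) ×ˢ Ioi (0 : ℝ)) ↔
      s ∈ Ioo 0 (Real.pi / 2) := by
  rw [Set.mem_prod, Set.mem_Ioi, Set.mem_Ioi, mul_pos_iff_of_pos_left hr,
    mul_pos_iff_of_pos_left hr]
  constructor
  · rintro ⟨hc, hsn⟩
    have h0 : 0 < s := by
      by_contra hcon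
      push Not at hcon
      have := Real.sin_nonpos_of_nonpos_of_neg_pi_le hcon hs.1.le
      linarith
    refine ⟨h0, ?_⟩
    by_contra hcon
    push Not at hcon
    have := Real.cos_nonpos_of_pi_div_two_le_of_le hcon (by linarith [hs.2, Real.pi_pos])
    linarith
  · rintro ⟨h0, h1⟩
    exact ⟨Real.cos_pos_of_mem_Ioo ⟨by linarith [Real.pi_pos], h1⟩,
      Real.sin_pos_of_pos_of_lt_pi h0 (by linarith [Real.pi_pos])⟩

theorem itemB5c : claimB5c := by
  intro Φ _
  set h : ℝ × ℝ → ℝ := fun z =>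
    Φ (Real.arctan (z.2 / z.1)) * (z.1 * z.2 * Real.exp (-(z.1 ^ 2 + z.2 ^ 2))) with hh
  have hmQ : MeasurableSet (Ioi (0 : ℝ) ×ˢ Ioi (0 : ℝ)) := measurableSet_Ioi.prod measurableSet_Ioi
  have e1 : ∫ z in (Ioi (0 : ℝ) ×ˢ Ioi (0 : ℝ)), h z =
      ∫ p in polarCoord.target,
        p.1 • (Ioi (0 : ℝ) ×ˢ Ioi (0 : ℝ)).indicator h (polarCoord.symm p) := by
    rw [integral_comp_polarCoord_symm, integral_indicator hmQ]
  have e2 : ∫ p in polarCoord.target,
        p.1 • (Ioi (0 : ℝ) ×ˢ Ioi (0 : ℝ)).indicator h (polarCoord.symm p) =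
      ∫ p in (Ioi (0 : ℝ) ×ˢ Ioo (-Real.pi) Real.pi), (p.1 ^ 3 * Real.exp (-p.1 ^ 2)) *
        (Ioo 0 (Real.pi / 2)).indicator (fun s => Φ s * (Real.cos s * Real.sin s)) p.2 := by
    rw [polarCoord_target]
    refine setIntegral_congr_fun (measurableSet_Ioi.prod measurableSet_Ioo) ?_
    rintro ⟨r, s⟩ ⟨hr, hs⟩
    simp only [Set.mem_Ioi] at hr
    simp only [polarCoord_symm_apply, smul_eq_mul]
    by_cases hin : s ∈ Ioo 0 (Real.pi / 2)
    · rw [indicator_of_mem ((b5c_mem hr hs).2 hin), indicator_of_mem hin, hh]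
      simp only
      have hat : Real.arctan (r * Real.sin s / (r * Real.cos s)) = s := by
        rw [mul_div_mul_left _ _ hr.ne', ← Real.tan_eq_sin_div_cos]
        exact Real.arctan_tan (by linarith [hin.1, Real.pi_pos]) hin.2
      have hn : (r * Real.cos s) ^ 2 + (r * Real.sin s) ^ 2 = r ^ 2 := by
        have := Real.sin_sq_add_cos_sq s
        calc (r * Real.cos s) ^ 2 + (r * Real.sin s) ^ 2 =
            r ^ 2 * (Real.sin s ^ 2 + Real.cos s ^ 2) := by ring
          _ = r ^ 2 := by rw [this, mul_one]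
      rw [hat, hn]
      ring
    · rw [indicator_of_notMem (fun hc => hin ((b5c_mem hr hs).1 hc)), indicator_of_notMem hin]
      simp
  have e3 : ∫ p in (Ioi (0 : ℝ) ×ˢ Ioo (-Real.pi) Real.pi), (p.1 ^ 3 * Real.exp (-p.1 ^ 2)) *
        (Ioo 0 (Real.pi / 2)).indicator (fun s => Φ s * (Real.cos s * Real.sin s)) p.2 =
      (∫ r in Ioi (0 : ℝ), r ^ 3 * Real.exp (-r ^ 2)) * ∫ s in Ioo (-Real.pi) Real.pi,
        (Ioo 0 (Real.pi / 2)).indicator (fun s => Φ s * (Real.cos s * Real.sin s)) s :=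
    setIntegral_prod_mul (μ := volume) (ν := volume) (fun r : ℝ => r ^ 3 * Real.exp (-r ^ 2))
      ((Ioo 0 (Real.pi / 2)).indicator (fun s => Φ s * (Real.cos s * Real.sin s))) _ _
  have e4 : ∫ s in Ioo (-Real.pi) Real.pi,
        (Ioo 0 (Real.pi / 2)).indicator (fun s => Φ s * (Real.cos s * Real.sin s)) s =
      ∫ s in (0 : ℝ)..(Real.pi / 2), Φ s * (Real.cos s * Real.sin s) := by
    rw [setIntegral_indicator measurableSet_Ioo,
      intervalIntegral.integral_of_le (by linarith [Real.pi_pos]), integral_Ioc_eq_integral_Ioo]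
    congr 2
    ext s
    simp only [Set.mem_inter_iff, Set.mem_Ioo]
    constructor
    · exact fun hs => hs.2
    · intro hs
      exact ⟨⟨by linarith [hs.1, Real.pi_pos], by linarith [hs.2, Real.pi_pos]⟩, hs⟩
  calc _ = _ := e1
    _ = _ := e2
    _ = _ := e3
    _ = _ := by rw [e4, b5c_radial]

end Pool.Agent.Work.MP_02f065_gt.Toric

end

section

/-! The volume density is continuous on the sphere. -/

open Set

noncomputable section

namespace Pool.Agent.Work.MP_02f065_gt.Toric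

theorem b6_tang (v : E) : Continuous fun x : E => tang x v := by
  unfold tang
  fun_prop

theorem itemB6 : claimB6 := by
  intro g hg
  unfold volDensity
  apply ContinuousOn.sqrt
  rw [continuousOn_iff_continuous_domRestrict]
  apply Continuous.matrix_det
  apply continuous_matrix
  intro i j
  simp only [Matrix.of_apply]
  have h1 : ContinuousOn (fun x : E => g x (tang x (EuclideanSpace.single i 1))
      (tang x (EuclideanSpace.single j 1)) + x i * x j) (Metric.sphere (0 : E) 1) := by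
    refine ContinuousOn.add ?_ (by fun_prop)
    exact (hg.cont.clm_apply (b6_tang _).continuousOn).clm_apply (b6_tang _).continuousOn
  exact continuousOn_iff_continuous_domRestrict.1 h1

end Pool.Agent.Work.MP_02f065_gt.Toric

end
end

section

/-!
B7: volume of the averaged metric.
-/

open MeasureTheory Set Filter Topology

namespace Pool.Agent.Work.MP_02f065_gt.Toric

theorem b7_norm_pt (s : ℝ) : ‖pt s‖ = 1 := by
  rw [EuclideanSpace.norm_eq, pt]
  simp [Fin.sum_univ_four]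

theorem b7_cont_pt : Continuous pt := by
  unfold pt
  apply (PiLp.continuous_toLp 2 _).comp
  refine continuous_pi fun i => ?_
  fin_cases i <;> simp <;> fun_prop

/-- the functions of the torus angles are continuous -/
theorem b7_cont2 (h1 : claimR1) (h2 : claimR2) (F : E → ℝ)
    (hF : ContinuousOn F (Metric.sphere (0 : E) 1)) (x : E) (hx : ‖x‖ = 1) :
    Continuous fun p : ℝ × ℝ => F (rot p.1 p.2 x) := by
  refine hF.comp_continuous ?_ ?_
  · have h3 : Continuous fun p : ℝ × ℝ => ((p.1, p.2, x) : ℝ × ℝ × E) := by fun_prop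
    have h4 := Continuous.comp h2 h3
    simpa only [Function.comp_def] using h4
  · intro p
    rw [mem_sphere_zero_iff_norm]
    obtain ⟨-, -, -, h, -⟩ := h1 p.1 p.2 x x 0
    rw [h, hx]

theorem b7_cont3 (h1 : claimR1) (h2 : claimR2) (F : E → ℝ)
    (hF : ContinuousOn F (Metric.sphere (0 : E) 1)) :
    Continuous fun p : ℝ × ℝ × ℝ => F (rot p.2.1 p.2.2 (pt p.1)) := by
  refine hF.comp_continuous ?_ ?_
  · have h3 : Continuous fun p : ℝ × ℝ × ℝ => ((p.2.1, p.2.2, pt p.1) : ℝ × ℝ × E) :=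
      (continuous_fst.comp continuous_snd).prodMk
        ((continuous_snd.comp continuous_snd).prodMk (b7_cont_pt.comp continuous_fst))
    have h4 := Continuous.comp h2 h3
    simpa only [Function.comp_def] using h4
  · intro p
    rw [mem_sphere_zero_iff_norm]
    obtain ⟨-, -, -, h, -⟩ := h1 p.2.1 p.2.2 (pt p.1) (pt p.1) 0
    rw [h, b7_norm_pt]

theorem b7_inner (h1 : claimR1) (h2 : claimR2) (F : E → ℝ)
    (hF : ContinuousOn F (Metric.sphere (0 : E) 1)) (x : E) (hx : ‖x‖ = 1) :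
    Continuous fun θ : ℝ => ∫ φ in (0 : ℝ)..(2 * Real.pi), F (rot θ φ x) := by
  have h := b7_cont2 h1 h2 F hF x hx
  exact intervalIntegral.continuous_parametric_intervalIntegral_of_continuous'
    (f := fun θ φ => F (rot θ φ x)) h 0 (2 * Real.pi)

theorem b7_outer (h1 : claimR1) (h2 : claimR2) (F : E → ℝ)
    (hF : ContinuousOn F (Metric.sphere (0 : E) 1)) :
    Continuous fun s : ℝ => ∫ θ in (0 : ℝ)..(2 * Real.pi), ∫ φ in (0 : ℝ)..(2 * Real.pi),
      F (rot θ φ (pt s)) := by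
  have h := b7_cont3 h1 h2 F hF
  have h3 : Continuous fun q : ℝ × ℝ => ∫ φ in (0 : ℝ)..(2 * Real.pi),
      F (rot q.2 φ (pt q.1)) := by
    refine intervalIntegral.continuous_parametric_intervalIntegral_of_continuous'
      (f := fun (q : ℝ × ℝ) φ => F (rot q.2 φ (pt q.1))) ?_ 0 (2 * Real.pi)
    have h5 : Continuous fun q : (ℝ × ℝ) × ℝ => ((q.1.1, q.1.2, q.2) : ℝ × ℝ × ℝ) := by fun_prop
    have h6 := h.comp h5
    simpa only [Function.comp_def, Function.uncurry_def] using h6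
  exact intervalIntegral.continuous_parametric_intervalIntegral_of_continuous'
    (f := fun s θ => ∫ φ in (0 : ℝ)..(2 * Real.pi), F (rot θ φ (pt s))) h3 0 (2 * Real.pi)

theorem b7_rot_period1 (θ φ : ℝ) (x : E) : rot (θ + 2 * Real.pi) φ x = rot θ φ x := by
  unfold rot
  rw [Real.cos_add_two_pi, Real.sin_add_two_pi]

theorem b7_rot_period2 (θ φ : ℝ) (x : E) : rot θ (φ + 2 * Real.pi) x = rot θ φ x := by
  unfold rot
  rw [Real.cos_add_two_pi, Real.sin_add_two_pi]

theorem b7_shift {f : ℝ → ℝ} (hf : ∀ x, f (x + 2 * Real.pi) = f x) (a : ℝ) :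
    ∫ x in (0 : ℝ)..(2 * Real.pi), f (x + a) = ∫ x in (0 : ℝ)..(2 * Real.pi), f x := by
  have hp : Function.Periodic f (2 * Real.pi) := hf
  rw [intervalIntegral.integral_comp_add_right]
  have h := hp.intervalIntegral_add_eq (0 + a) 0
  rw [zero_add (2 * Real.pi)] at h
  rw [add_comm (2 * Real.pi) a, ← zero_add a]
  rw [← h]
  simp

theorem b7_avg_inv (h1 : claimR1) (lam : E → ℝ) (a b : ℝ) (x : E) :
    avg lam (rot a b x) = avg lam x := by
  unfold avg
  congr 1
  have e1 : ∀ θ φ : ℝ, rot θ φ (rot a b x) = rot (θ + a) (φ + b) x := by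
    intro θ φ
    obtain ⟨-, -, -, -, h, -⟩ := h1 θ φ x x 0
    exact h a b
  simp_rw [e1]
  have e2 : ∀ θ : ℝ, ∫ φ in (0 : ℝ)..(2 * Real.pi), lam (rot (θ + a) (φ + b) x) =
      ∫ φ in (0 : ℝ)..(2 * Real.pi), lam (rot (θ + a) φ x) := fun θ =>
    b7_shift (f := fun φ => lam (rot (θ + a) φ x)) (fun φ => by rw [b7_rot_period2]) b
  simp_rw [e2]
  exact b7_shift (f := fun θ => ∫ φ in (0 : ℝ)..(2 * Real.pi), lam (rot θ φ x))
    (fun θ => by simp_rw [b7_rot_period1]) a

theorem b7_avg_pos (h1 : claimR1) (h2 : claimR2) (lam : E → ℝ)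
    (hc : ContinuousOn lam (Metric.sphere (0 : E) 1)) (hp : ∀ x, ‖x‖ = 1 → 0 < lam x) (x : E)
    (hx : ‖x‖ = 1) : 0 < avg lam x := by
  have hpi := Real.pi_pos
  have hn : ∀ θ φ : ℝ, ‖rot θ φ x‖ = 1 := by
    intro θ φ
    obtain ⟨-, -, -, h, -⟩ := h1 θ φ x x 0
    rw [h, hx]
  unfold avg
  refine mul_pos (by positivity) ?_
  refine intervalIntegral.intervalIntegral_pos_of_pos
    ((b7_inner h1 h2 lam hc x hx).intervalIntegrable _ _) ?_ (by positivity)
  intro θ
  refine intervalIntegral.intervalIntegral_pos_of_pos (Continuous.intervalIntegrable ?_ _ _)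
    (fun φ => hp _ (hn θ φ)) (by positivity)
  have h3 : Continuous fun φ : ℝ => ((θ, φ) : ℝ × ℝ) := by fun_prop
  have h4 := (b7_cont2 h1 h2 lam hc x hx).comp h3
  simpa only [Function.comp_def] using h4

/-- the inequality on one orbit -/
theorem b7_orbit (h1 : claimR1) (h2 : claimR2) (lam : E → ℝ)
    (hc : ContinuousOn lam (Metric.sphere (0 : E) 1)) (hp : ∀ x, ‖x‖ = 1 → 0 < lam x) (x : E)
    (hx : ‖x‖ = 1) (D : ℝ) (hD : 0 ≤ D) :
    ∫ _θ in (0 : ℝ)..(2 * Real.pi), ∫ _φ in (0 : ℝ)..(2 * Real.pi), (avg lam x) ^ 3 * D ≤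
      ∫ θ in (0 : ℝ)..(2 * Real.pi), ∫ φ in (0 : ℝ)..(2 * Real.pi),
        (lam (rot θ φ x)) ^ 3 * D := by
  have hpi := Real.pi_pos
  set m := avg lam x with hm
  have hm0 : 0 < m := b7_avg_pos h1 h2 lam hc hp x hx
  have hn : ∀ θ φ : ℝ, ‖rot θ φ x‖ = 1 := by
    intro θ φ
    obtain ⟨-, -, -, h, -⟩ := h1 θ φ x x 0
    rw [h, hx]
  have hsum : ∫ θ in (0 : ℝ)..(2 * Real.pi), ∫ φ in (0 : ℝ)..(2 * Real.pi), lam (rot θ φ x) =
      4 * Real.pi ^ 2 * m := by
    rw [hm]
    unfold avg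
    field_simp
  have hlc : Continuous fun p : ℝ × ℝ => lam (rot p.1 p.2 x) := b7_cont2 h1 h2 lam hc x hx
  have hlθ : ∀ θ : ℝ, Continuous fun φ : ℝ => lam (rot θ φ x) := by
    intro θ
    have h3 : Continuous fun φ : ℝ => ((θ, φ) : ℝ × ℝ) := by fun_prop
    have h4 := hlc.comp h3
    simpa only [Function.comp_def] using h4
  -- the tangent inequality integrated
  have hlin : ∫ θ in (0 : ℝ)..(2 * Real.pi), ∫ φ in (0 : ℝ)..(2 * Real.pi),
      (m ^ 3 + 3 * m ^ 2 * (lam (rot θ φ x) - m)) * D =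
      ∫ _θ in (0 : ℝ)..(2 * Real.pi), ∫ _φ in (0 : ℝ)..(2 * Real.pi), m ^ 3 * D := by
    have e1 : ∀ θ : ℝ, ∫ φ in (0 : ℝ)..(2 * Real.pi),
        (m ^ 3 + 3 * m ^ 2 * (lam (rot θ φ x) - m)) * D =
        (3 * m ^ 2 * D) * (∫ φ in (0 : ℝ)..(2 * Real.pi), lam (rot θ φ x)) -
          2 * m ^ 3 * D * (2 * Real.pi) := by
      intro θ
      have e2 : ∀ φ : ℝ, (m ^ 3 + 3 * m ^ 2 * (lam (rot θ φ x) - m)) * D =
          (3 * m ^ 2 * D) * lam (rot θ φ x) - 2 * m ^ 3 * D := by
        intro φ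
        ring
      simp_rw [e2]
      rw [intervalIntegral.integral_sub (((hlθ θ).const_mul _).intervalIntegrable _ _)
        intervalIntegrable_const, intervalIntegral.integral_const_mul,
        intervalIntegral.integral_const, smul_eq_mul]
      ring
    simp_rw [e1]
    rw [intervalIntegral.integral_sub
      (((b7_inner h1 h2 lam hc x hx).const_mul _).intervalIntegrable _ _)
      intervalIntegrable_const, intervalIntegral.integral_const_mul, hsum]
    simp only [intervalIntegral.integral_const, smul_eq_mul]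
    ring
  rw [← hlin]
  have hc1 : Continuous fun p : ℝ × ℝ => (m ^ 3 + 3 * m ^ 2 * (lam (rot p.1 p.2 x) - m)) * D :=
    (continuous_const.add (continuous_const.mul (hlc.sub continuous_const))).mul continuous_const
  have hc2 : Continuous fun p : ℝ × ℝ => (lam (rot p.1 p.2 x)) ^ 3 * D :=
    (hlc.pow 3).mul continuous_const
  refine intervalIntegral.integral_mono (by positivity) ?_ ?_ ?_
  · refine Continuous.intervalIntegrable ?_ _ _
    exact intervalIntegral.continuous_parametric_intervalIntegral_of_continuous'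
      (f := fun θ φ => (m ^ 3 + 3 * m ^ 2 * (lam (rot θ φ x) - m)) * D) hc1 0 (2 * Real.pi)
  · refine Continuous.intervalIntegrable ?_ _ _
    exact intervalIntegral.continuous_parametric_intervalIntegral_of_continuous'
      (f := fun θ φ => (lam (rot θ φ x)) ^ 3 * D) hc2 0 (2 * Real.pi)
  · intro θ
    refine intervalIntegral.integral_mono (by positivity) ?_ ?_ ?_
    · exact ((continuous_const.add (continuous_const.mul
        ((hlθ θ).sub continuous_const))).mul continuous_const).intervalIntegrable _ _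
    · exact (((hlθ θ).pow 3).mul continuous_const).intervalIntegrable _ _
    · intro φ
      simp only
      refine mul_le_mul_of_nonneg_right ?_ hD
      have hl := hp _ (hn θ φ)
      set u := lam (rot θ φ x) with hu
      nlinarith [mul_nonneg (sq_nonneg (u - m)) (by linarith : (0 : ℝ) ≤ u + 2 * m)]

theorem itemB7 (h1 : claimR1) (h2 : claimR2) (hB1 : claimB1) (hB3 : claimB3) (hB4 : claimB4)
    (hB5 : claimB5) (hB6 : claimB6) : claimB7 := by
  intro g g₁ lam hg hg₁ hT hc hp hconf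
  have hpi := Real.pi_pos
  set g₂ : Form := fun x => (avg lam x) ^ 2 • g₁ x with hg₂
  obtain ⟨hm2, -⟩ := hB1 g₁ lam hg₁ hT hc hp
  have hn : ∀ (θ φ : ℝ) (x : E), ‖x‖ = 1 → ‖rot θ φ x‖ = 1 := by
    intro θ φ x hx
    obtain ⟨-, -, -, h, -⟩ := h1 θ φ x x 0
    rw [h, hx]
  have d1 : ∀ x, ‖x‖ = 1 → volDensity g x = (lam x) ^ 3 * volDensity g₁ x := fun x hx =>
    hB3 g₁ g x (lam x) hx (hp x hx) (fun v w hv hw => hconf x v w hx hv hw)
  have d2 : ∀ x, ‖x‖ = 1 → volDensity g₂ x = (avg lam x) ^ 3 * volDensity g₁ x := fun x hx =>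
    hB3 g₁ g₂ x (avg lam x) hx (b7_avg_pos h1 h2 lam hc hp x hx) (fun v w _ _ => by
      rw [hg₂]
      simp)
  have c1 := hB6 g hg
  have c2 := hB6 g₂ hm2
  show vol g₂ ≤ vol g
  unfold vol
  refine mul_le_mul_of_nonneg_left ?_ (by norm_num)
  rw [hB5 _ c1, hB5 _ c2]
  refine intervalIntegral.integral_mono_on (by positivity) ?_ ?_ ?_
  · exact ((b7_outer h1 h2 _ c2).mul (Real.continuous_cos.mul
      Real.continuous_sin)).intervalIntegrable _ _
  · exact ((b7_outer h1 h2 _ c1).mul (Real.continuous_cos.mul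
      Real.continuous_sin)).intervalIntegrable _ _
  · intro s hs
    have hcs : 0 ≤ Real.cos s * Real.sin s :=
      mul_nonneg (Real.cos_nonneg_of_mem_Icc ⟨by linarith [hs.1], hs.2⟩)
        (Real.sin_nonneg_of_nonneg_of_le_pi hs.1 (by linarith [hs.2]))
    refine mul_le_mul_of_nonneg_right ?_ hcs
    have hD0 : 0 ≤ volDensity g₁ (pt s) := Real.sqrt_nonneg _
    have e1 : ∀ θ φ : ℝ, volDensity g (rot θ φ (pt s)) =
        (lam (rot θ φ (pt s))) ^ 3 * volDensity g₁ (pt s) := by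
      intro θ φ
      rw [d1 _ (hn θ φ _ (b7_norm_pt s)), hB4 g₁ θ φ (pt s) hT (b7_norm_pt s)]
    have e2 : ∀ θ φ : ℝ, volDensity g₂ (rot θ φ (pt s)) =
        (avg lam (pt s)) ^ 3 * volDensity g₁ (pt s) := by
      intro θ φ
      rw [d2 _ (hn θ φ _ (b7_norm_pt s)), hB4 g₁ θ φ (pt s) hT (b7_norm_pt s),
        b7_avg_inv h1]
    simp_rw [e1, e2]
    exact b7_orbit h1 h2 lam hc hp (pt s) (b7_norm_pt s) _ hD0

end Pool.Agent.Work.MP_02f065_gt.Toric

end
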