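import Pool.Agent.Work.MP_02f065_gt.Toric.Stmts
import Pool.Agent.Work.MP_476501_co.Brouwer

/-! Bundle of small proof modules (one section per former module). -/

section

open MeasureTheory Set Filter Topology

noncomputable section

namespace Pool.Agent.Work.MP_02f065_gt.Toric

theorem sl_cont_pt : Continuous pt := by
  unfold pt
  refine (PiLp.continuous_toLp 2 _).comp (continuous_pi fun i => ?_)
  fin_cases i <;> simp <;> fun_prop

theorem sl_cont_dpt : Continuous dpt := by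
  unfold dpt
  refine (PiLp.continuous_toLp 2 _).comp (continuous_pi fun i => ?_)
  fin_cases i <;> simp <;> fun_prop

theorem sl_cont_X1 : Continuous X1 := by
  unfold X1
  refine (PiLp.continuous_toLp 2 _).comp (continuous_pi fun i => ?_)
  fin_cases i <;> simp <;> fun_prop

theorem sl_cont_X2 : Continuous X2 := by
  unfold X2
  refine (PiLp.continuous_toLp 2 _).comp (continuous_pi fun i => ?_)
  fin_cases i <;> simp <;> fun_prop

theorem sl_inner (x y : E) : inner ℝ x y = x 0 * y 0 + x 1 * y 1 + x 2 * y 2 + x 3 * y 3 := by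
  rw [PiLp.inner_apply, Fin.sum_univ_four]
  simp [mul_comm]

theorem sl_normsq (x : E) : ‖x‖ ^ 2 = x 0 ^ 2 + x 1 ^ 2 + x 2 ^ 2 + x 3 ^ 2 := by
  rw [← real_inner_self_eq_norm_sq, sl_inner]; ring

theorem sl_norm_pt (s : ℝ) : ‖pt s‖ = 1 := by
  have h : ‖pt s‖ ^ 2 = 1 := by
    rw [sl_normsq]; simp [pt, Real.cos_sq_add_sin_sq]
  have h0 := norm_nonneg (pt s)
  nlinarith

theorem sl_normsq_dpt (s : ℝ) : ‖dpt s‖ ^ 2 = 1 := by
  rw [sl_normsq]; simp [dpt, Real.sin_sq_add_cos_sq]

theorem sl_normsq_X1 (s : ℝ) : ‖X1 s‖ ^ 2 = Real.cos s ^ 2 := by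
  rw [sl_normsq]; simp [X1]

theorem sl_normsq_X2 (s : ℝ) : ‖X2 s‖ ^ 2 = Real.sin s ^ 2 := by
  rw [sl_normsq]; simp [X2]

theorem sl_tan_dpt (s : ℝ) : inner ℝ (pt s) (dpt s) = 0 := by
  rw [sl_inner]; simp [pt, dpt]; ring

theorem sl_tan_X1 (s : ℝ) : inner ℝ (pt s) (X1 s) = 0 := by
  rw [sl_inner]; simp [pt, X1]

theorem sl_tan_X2 (s : ℝ) : inner ℝ (pt s) (X2 s) = 0 := by
  rw [sl_inner]; simp [pt, X2]

theorem sl_cont_g (g : Form) (hg : IsMetric g) : Continuous fun s => g (pt s) := by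
  rw [← continuousOn_univ]
  refine hg.cont.comp sl_cont_pt.continuousOn fun s _ => ?_
  simp [sl_norm_pt]

theorem sl_cont_gen (g : Form) (hg : IsMetric g) (u v : ℝ → E) (hu : Continuous u)
    (hv : Continuous v) : Continuous fun s => g (pt s) (u s) (v s) :=
  ((sl_cont_g g hg).clm_apply hu).clm_apply hv

theorem sl_cont_mA (g : Form) (hg : IsMetric g) : Continuous (mA g) :=
  sl_cont_gen g hg _ _ sl_cont_dpt sl_cont_dpt
theorem sl_cont_mB1 (g : Form) (hg : IsMetric g) : Continuous (mB1 g) :=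
  sl_cont_gen g hg _ _ sl_cont_dpt sl_cont_X1
theorem sl_cont_mB2 (g : Form) (hg : IsMetric g) : Continuous (mB2 g) :=
  sl_cont_gen g hg _ _ sl_cont_dpt sl_cont_X2
theorem sl_cont_mG11 (g : Form) (hg : IsMetric g) : Continuous (mG11 g) :=
  sl_cont_gen g hg _ _ sl_cont_X1 sl_cont_X1
theorem sl_cont_mG12 (g : Form) (hg : IsMetric g) : Continuous (mG12 g) :=
  sl_cont_gen g hg _ _ sl_cont_X1 sl_cont_X2
theorem sl_cont_mG22 (g : Form) (hg : IsMetric g) : Continuous (mG22 g) :=
  sl_cont_gen g hg _ _ sl_cont_X2 sl_cont_X2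

theorem sl_cont_Dt (g : Form) (hg : IsMetric g) :
    Continuous (Dt (mG11 g) (mG12 g) (mG22 g)) :=
  ((sl_cont_mG11 g hg).mul (sl_cont_mG22 g hg)).sub ((sl_cont_mG12 g hg).pow 2)

theorem sl_cont_mb1 (hC1a : claimC1a) (g : Form) (hg : IsMetric g) :
    ContinuousOn (mb1 g) (Ioo 0 (Real.pi / 2)) := by
  unfold mb1
  refine ContinuousOn.div ?_ (sl_cont_Dt g hg).continuousOn fun s hs => ?_
  · exact (((sl_cont_mG22 g hg).mul (sl_cont_mB1 g hg)).sub
      ((sl_cont_mG12 g hg).mul (sl_cont_mB2 g hg))).continuousOn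
  · exact (hC1a g s hg hs).2.1.ne'

theorem sl_cont_mb2 (hC1a : claimC1a) (g : Form) (hg : IsMetric g) :
    ContinuousOn (mb2 g) (Ioo 0 (Real.pi / 2)) := by
  unfold mb2
  refine ContinuousOn.div ?_ (sl_cont_Dt g hg).continuousOn fun s hs => ?_
  · exact (((sl_cont_mG11 g hg).mul (sl_cont_mB2 g hg)).sub
      ((sl_cont_mG12 g hg).mul (sl_cont_mB1 g hg))).continuousOn
  · exact (hC1a g s hg hs).2.1.ne'

theorem sl_cont_ma (hC1a : claimC1a) (g : Form) (hg : IsMetric g) :
    ContinuousOn (ma g) (Ioo 0 (Real.pi / 2)) := by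
  unfold ma
  refine ContinuousOn.sqrt ?_
  exact ((sl_cont_mA g hg).continuousOn.sub
    ((sl_cont_mb1 hC1a g hg).mul (sl_cont_mB1 g hg).continuousOn)).sub
    ((sl_cont_mb2 hC1a g hg).mul (sl_cont_mB2 g hg).continuousOn)

theorem sl_quad_nonneg (A B C p q : ℝ) (hA : 0 < A) (hD : 0 < A * C - B ^ 2) :
    0 ≤ C * p ^ 2 - 2 * B * p * q + A * q ^ 2 := by
  have h : A * (C * p ^ 2 - 2 * B * p * q + A * q ^ 2) =
      (A * q - B * p) ^ 2 + (A * C - B ^ 2) * p ^ 2 := by ring
  have h2 : 0 ≤ A * (C * p ^ 2 - 2 * B * p * q + A * q ^ 2) := by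
    rw [h]; positivity
  exact nonneg_of_mul_nonneg_right h2 hA

theorem sl_ma_sq_le (hC1a : claimC1a) (g : Form) (hg : IsMetric g) (s : ℝ)
    (hs : s ∈ Ioo 0 (Real.pi / 2)) : ma g s ^ 2 ≤ mA g s := by
  obtain ⟨h1, h2, h3⟩ := hC1a g s hg hs
  unfold ma
  rw [Real.sq_sqrt h3.le]
  have h2' := h2
  unfold Dt at h2'
  have hq := sl_quad_nonneg (mG11 g s) (mG12 g s) (mG22 g s) (mB1 g s) (mB2 g s) h1 h2'
  have e : mb1 g s * mB1 g s + mb2 g s * mB2 g s =
      (mG22 g s * mB1 g s ^ 2 - 2 * mG12 g s * mB1 g s * mB2 g s + mG11 g s * mB2 g s ^ 2) /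
        Dt (mG11 g) (mG12 g) (mG22 g) s := by
    unfold mb1 mb2
    rw [div_mul_eq_mul_div, div_mul_eq_mul_div, ← add_div]
    congr 1
    ring
  have e2 : 0 ≤ mb1 g s * mB1 g s + mb2 g s * mB2 g s := by
    rw [e]; exact div_nonneg hq h2.le
  linarith

theorem sl_intervalIntegrable (f : ℝ → ℝ) (σ C : ℝ) (hσ : 0 < σ)
    (hf : ContinuousOn f (Ioo 0 σ)) (hb : ∀ s ∈ Ioo 0 σ, |f s| ≤ C) :
    IntervalIntegrable f volume 0 σ := by
  rw [intervalIntegrable_iff_integrableOn_Ioo_of_le hσ.le]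
  refine IntegrableOn.of_bound (C := C) (by simp) (hf.aestronglyMeasurable measurableSet_Ioo) ?_
  refine (ae_restrict_iff' measurableSet_Ioo).2 (Eventually.of_forall fun s hs => ?_)
  simpa [Real.norm_eq_abs] using hb s hs

theorem itemC1 (hA1 : claimA1) (hC1a : claimC1a) : claimC1 := by
  intro g hg
  have hpi : (0 : ℝ) < Real.pi / 2 := by positivity
  obtain ⟨m, M, hm, hM, hmM⟩ := hA1 g hg
  have hcma := sl_cont_ma hC1a g hg
  have bA : ∀ s, mA g s ≤ M ^ 2 := by
    intro s
    have := (hmM (pt s) (dpt s) (sl_norm_pt s) (sl_tan_dpt s)).2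
    rw [sl_normsq_dpt] at this
    simpa [mA] using this
  have b11 : ∀ s, mG11 g s ≤ M ^ 2 * Real.cos s ^ 2 := by
    intro s
    have := (hmM (pt s) (X1 s) (sl_norm_pt s) (sl_tan_X1 s)).2
    rwa [sl_normsq_X1] at this
  have b22 : ∀ s, mG22 g s ≤ M ^ 2 * Real.sin s ^ 2 := by
    intro s
    have := (hmM (pt s) (X2 s) (sl_norm_pt s) (sl_tan_X2 s)).2
    rwa [sl_normsq_X2] at this
  have n11 : ∀ s, 0 ≤ mG11 g s := by
    intro s
    have := (hmM (pt s) (X1 s) (sl_norm_pt s) (sl_tan_X1 s)).1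
    exact le_trans (by positivity) this
  have n22 : ∀ s, 0 ≤ mG22 g s := by
    intro s
    have := (hmM (pt s) (X2 s) (sl_norm_pt s) (sl_tan_X2 s)).1
    exact le_trans (by positivity) this
  have bma : ∀ s ∈ Ioo 0 (Real.pi / 2), ma g s ≤ M := by
    intro s hs
    have h := (sl_ma_sq_le hC1a g hg s hs).trans (bA s)
    exact abs_le_of_sq_le_sq' h hM.le |>.2
  have nma : ∀ s, 0 ≤ ma g s := fun s => Real.sqrt_nonneg _
  refine ⟨hpi, hcma, (sl_cont_mG11 g hg).continuousOn, (sl_cont_mG12 g hg).continuousOn,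
    (sl_cont_mG22 g hg).continuousOn, ?_, ?_, ?_, ?_, ?_, ?_, ?_⟩
  · intro s hs
    exact Real.sqrt_pos.2 (hC1a g s hg hs).2.2
  · intro s hs
    exact (hC1a g s hg hs).1
  · intro s hs
    exact (hC1a g s hg hs).2.1
  · refine sl_intervalIntegrable _ _ M hpi hcma fun s hs => ?_
    rw [abs_of_nonneg (nma s)]
    exact bma s hs
  · refine sl_intervalIntegrable _ _ (M * M ^ 2) hpi
      (hcma.mul (sl_cont_Dt g hg).continuousOn.sqrt) fun s hs => ?_
    rw [abs_of_nonneg (mul_nonneg (nma s) (Real.sqrt_nonneg _))]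
    refine mul_le_mul (bma s hs) ?_ (Real.sqrt_nonneg _) hM.le
    rw [Real.sqrt_le_left (by positivity)]
    have hc : Real.cos s ^ 2 ≤ 1 := Real.cos_sq_le_one s
    have hsn : Real.sin s ^ 2 ≤ 1 := Real.sin_sq_le_one s
    have h1 : mG11 g s ≤ M ^ 2 := (b11 s).trans (by nlinarith [sq_nonneg M])
    have h2 : mG22 g s ≤ M ^ 2 := (b22 s).trans (by nlinarith [sq_nonneg M])
    unfold Dt
    have h3 : mG11 g s * mG22 g s ≤ M ^ 2 * M ^ 2 :=
      mul_le_mul h1 h2 (n22 s) (sq_nonneg M)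
    nlinarith [sq_nonneg (mG12 g s)]
  · have h0 : Tendsto (fun s => M ^ 2 * Real.sin s ^ 2) (𝓝[>] 0) (𝓝 0) := by
      have hc : Continuous fun s : ℝ => M ^ 2 * Real.sin s ^ 2 := by fun_prop
      have := hc.tendsto 0
      simp at this
      exact this.mono_left nhdsWithin_le_nhds
    exact squeeze_zero n22 b22 h0
  · have h0 : Tendsto (fun s => M ^ 2 * Real.cos s ^ 2) (𝓝[<] (Real.pi / 2)) (𝓝 0) := by
      have hc : Continuous fun s : ℝ => M ^ 2 * Real.cos s ^ 2 := by fun_prop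
      have := hc.tendsto (Real.pi / 2)
      simp at this
      exact this.mono_left nhdsWithin_le_nhds
    exact squeeze_zero n11 b11 h0

end Pool.Agent.Work.MP_02f065_gt.Toric

end
end

section

/-!
C1a: positivity of the slice data.
-/

open MeasureTheory Set Filter Topology

noncomputable section

namespace Pool.Agent.Work.MP_02f065_gt.Toric

lemma c1a_norm (s : ℝ) : ‖pt s‖ = 1 := by
  rw [EuclideanSpace.norm_eq, Fin.sum_univ_four]
  simp [pt]

lemma c1a_d (s : ℝ) : inner ℝ (pt s) (dpt s) = 0 := by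
  simp [pt, dpt, PiLp.inner_apply, Fin.sum_univ_four]
  ring

lemma c1a_1 (s : ℝ) : inner ℝ (pt s) (X1 s) = 0 := by
  simp [pt, X1, PiLp.inner_apply, Fin.sum_univ_four]

lemma c1a_2 (s : ℝ) : inner ℝ (pt s) (X2 s) = 0 := by
  simp [pt, X2, PiLp.inner_apply, Fin.sum_univ_four]

theorem itemC1a : claimC1a := by
  intro g s hg hs
  have hc : 0 < Real.cos s := Real.cos_pos_of_mem_Ioo ⟨by linarith [hs.1, Real.pi_pos], hs.2⟩
  have hσ : 0 < Real.sin s := Real.sin_pos_of_pos_of_lt_pi hs.1 (by linarith [hs.2, Real.pi_pos])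
  have hx := c1a_norm s
  have hd := c1a_d s
  have h1 := c1a_1 s
  have h2 := c1a_2 s
  have hG : 0 < mG11 g s := by
    unfold mG11
    refine hg.pos _ _ hx h1 ?_
    intro h
    have := congrArg (fun v : E => v 1) h
    simp [X1] at this
    exact hc.ne' this
  have hsym : g (pt s) (X2 s) (X1 s) = mG12 g s := hg.symm _ _ _ hx h2 h1
  have hsd1 : g (pt s) (X1 s) (dpt s) = mB1 g s := hg.symm _ _ _ hx h1 hd
  have hsd2 : g (pt s) (X2 s) (dpt s) = mB2 g s := hg.symm _ _ _ hx h2 hd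
  have hD : 0 < Dt (mG11 g) (mG12 g) (mG22 g) s := by
    have hw := hg.pos (pt s) (mG11 g s • X2 s - mG12 g s • X1 s) hx
      (by rw [inner_sub_right, inner_smul_right, inner_smul_right, h1, h2]; ring) (by
        intro h
        have := congrArg (fun v : E => v 3) h
        simp [X1, X2] at this
        rcases this with h3 | h3
        · exact hG.ne' h3
        · exact hσ.ne' h3)
    simp only [map_sub, map_smul, sub_apply, smul_apply,
      smul_eq_mul, hsym] at hw
    change 0 < mG11 g s * (mG11 g s * mG22 g s - mG12 g s * mG12 g s) -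
      mG12 g s * (mG11 g s * mG12 g s - mG12 g s * mG11 g s) at hw
    unfold Dt
    have h3 : 0 < mG11 g s * (mG11 g s * mG22 g s - mG12 g s ^ 2) := by nlinarith
    exact (mul_pos_iff_of_pos_left hG).1 h3
  refine ⟨hG, hD, ?_⟩
  have hw := hg.pos (pt s) (dpt s - mb1 g s • X1 s - mb2 g s • X2 s) hx
      (by rw [inner_sub_right, inner_sub_right, inner_smul_right, inner_smul_right, h1, h2, hd]
          ring) (by
        intro h
        have := congrArg (fun v : E => v 0) h
        simp [dpt, X1, X2] at this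
        exact hσ.ne' this)
  simp only [map_sub, map_smul, sub_apply, smul_apply,
      smul_eq_mul, hsym, hsd1, hsd2] at hw
  change 0 < mA g s - mb1 g s * mB1 g s - mb2 g s * mB2 g s -
    mb1 g s * (mB1 g s - mb1 g s * mG11 g s - mb2 g s * mG12 g s) -
    mb2 g s * (mB2 g s - mb1 g s * mG12 g s - mb2 g s * mG22 g s) at hw
  have e1 : mb1 g s * mG11 g s + mb2 g s * mG12 g s = mB1 g s := by
    unfold mb1 mb2
    field_simp
    unfold Dt
    ring
  have e2 : mb1 g s * mG12 g s + mb2 g s * mG22 g s = mB2 g s := by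
    unfold mb1 mb2
    field_simp
    unfold Dt
    ring
  have e3 : mB1 g s - mb1 g s * mG11 g s - mb2 g s * mG12 g s = 0 := by linarith
  have e4 : mB2 g s - mb1 g s * mG12 g s - mb2 g s * mG22 g s = 0 := by linarith
  rw [e3, e4] at hw
  linarith

end Pool.Agent.Work.MP_02f065_gt.Toric

end
end

section

/-!
MP_02f065_gt, item C2a: going out along the slice while turning.
-/

open MeasureTheory Set Filter Topology

noncomputable section

namespace Pool.Agent.Work.MP_02f065_gt.Toric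

namespace C2aAux

theorem norm_pt (s : ℝ) : ‖pt s‖ = 1 := by
  rw [EuclideanSpace.norm_eq, Fin.sum_univ_four]
  simp [pt]

theorem inner_dpt (s : ℝ) : inner ℝ (pt s) (dpt s) = 0 := by
  rw [PiLp.inner_apply, Fin.sum_univ_four]
  simp [pt, dpt]
  ring

theorem inner_X1 (s : ℝ) : inner ℝ (pt s) (X1 s) = 0 := by
  rw [PiLp.inner_apply, Fin.sum_univ_four]
  simp [pt, X1]

theorem inner_X2 (s : ℝ) : inner ℝ (pt s) (X2 s) = 0 := by
  rw [PiLp.inner_apply, Fin.sum_univ_four]
  simp [pt, X2]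

theorem cont_vec (f : Fin 4 → ℝ → ℝ) (h : ∀ i, Continuous (f i)) :
    Continuous (fun s => (!₂[f 0 s, f 1 s, f 2 s, f 3 s] : E)) := by
  refine (PiLp.continuous_toLp 2 _).comp (continuous_pi fun i => ?_)
  fin_cases i
  · exact h 0
  · exact h 1
  · exact h 2
  · exact h 3

theorem cont_pt : Continuous pt := by
  have := cont_vec ![Real.cos, fun _ => 0, Real.sin, fun _ => 0] (by
    intro i
    fin_cases i
    · exact Real.continuous_cos
    · exact continuous_const
    · exact Real.continuous_sin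
    · exact continuous_const)
  exact this

theorem cont_dpt : Continuous dpt := by
  have := cont_vec ![fun s => -Real.sin s, fun _ => 0, Real.cos, fun _ => 0] (by
    intro i
    fin_cases i
    · exact Real.continuous_sin.neg
    · exact continuous_const
    · exact Real.continuous_cos
    · exact continuous_const)
  exact this

theorem cont_X1 : Continuous X1 := by
  have := cont_vec ![fun _ => 0, Real.cos, fun _ => 0, fun _ => 0] (by
    intro i
    fin_cases i
    · exact continuous_const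
    · exact Real.continuous_cos
    · exact continuous_const
    · exact continuous_const)
  exact this

theorem cont_X2 : Continuous X2 := by
  have := cont_vec ![fun _ => 0, fun _ => 0, fun _ => 0, Real.sin] (by
    intro i
    fin_cases i
    · exact continuous_const
    · exact continuous_const
    · exact continuous_const
    · exact Real.continuous_sin)
  exact this

theorem cont_gpt {g : Form} (hg : IsMetric g) {u v : ℝ → E} (hu : Continuous u)
    (hv : Continuous v) : Continuous (fun s => g (pt s) (u s) (v s)) := by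
  have h1 : Continuous (fun s => g (pt s)) := by
    rw [← continuousOn_univ]
    exact hg.cont.comp cont_pt.continuousOn (fun s _ => by simp [norm_pt])
  exact (h1.clm_apply hu).clm_apply hv

theorem cont_Dt {g : Form} (hg : IsMetric g) : Continuous (Dt (mG11 g) (mG12 g) (mG22 g)) := by
  unfold Dt mG11 mG12 mG22
  exact ((cont_gpt hg cont_X1 cont_X1).mul (cont_gpt hg cont_X2 cont_X2)).sub
    ((cont_gpt hg cont_X1 cont_X2).pow 2)

theorem cont_mb1 {g : Form} (hC : claimC1a) (hg : IsMetric g) :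
    ContinuousOn (mb1 g) (Ioo 0 (Real.pi / 2)) := by
  unfold mb1
  refine ContinuousOn.div ?_ (cont_Dt hg).continuousOn (fun s hs => (hC g s hg hs).2.1.ne')
  exact (((cont_gpt hg cont_X2 cont_X2).mul (cont_gpt hg cont_dpt cont_X1)).sub
    ((cont_gpt hg cont_X1 cont_X2).mul (cont_gpt hg cont_dpt cont_X2))).continuousOn

theorem cont_mb2 {g : Form} (hC : claimC1a) (hg : IsMetric g) :
    ContinuousOn (mb2 g) (Ioo 0 (Real.pi / 2)) := by
  unfold mb2
  refine ContinuousOn.div ?_ (cont_Dt hg).continuousOn (fun s hs => (hC g s hg hs).2.1.ne')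
  exact (((cont_gpt hg cont_X1 cont_X1).mul (cont_gpt hg cont_dpt cont_X2)).sub
    ((cont_gpt hg cont_X1 cont_X2).mul (cont_gpt hg cont_dpt cont_X1))).continuousOn

/-- continuous extension -/
theorem exists_ext {a b : ℝ} (hab : a ≤ b) {f : ℝ → ℝ} (hf : ContinuousOn f (Icc a b)) :
    ∃ F : ℝ → ℝ, Continuous F ∧ ∀ s ∈ Icc a b, F s = f s := by
  refine ⟨IccExtend hab ((Icc a b).domRestrict f),
    (continuousOn_iff_continuous_domRestrict.1 hf).Icc_extend', fun s hs => ?_⟩
  rw [IccExtend_of_mem hab _ hs]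
  rfl

/-- the square of the speed -/
theorem speed {g : Form} (hg : IsMetric g) (s e p q : ℝ) :
    g (pt s) (e • dpt s + p • X1 s + q • X2 s) (e • dpt s + p • X1 s + q • X2 s) =
      e ^ 2 * mA g s + 2 * e * (p * mB1 g s + q * mB2 g s) +
        Qf (mG11 g) (mG12 g) (mG22 g) s p q := by
  have h1 := hg.symm (pt s) (X1 s) (dpt s) (norm_pt s) (inner_X1 s) (inner_dpt s)
  have h2 := hg.symm (pt s) (X2 s) (dpt s) (norm_pt s) (inner_X2 s) (inner_dpt s)
  have h3 := hg.symm (pt s) (X2 s) (X1 s) (norm_pt s) (inner_X2 s) (inner_X1 s)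
  simp only [map_add, map_smul, _root_.add_apply, _root_.smul_apply,
    smul_eq_mul, h1, h2, h3]
  unfold mA mB1 mB2 Qf mG11 mG12 mG22
  ring

/-- the key identity -/
theorem ident {g : Form} (hC : claimC1a) (hg : IsMetric g) {s : ℝ} (hs : s ∈ Ioo 0 (Real.pi / 2))
    (y1 y2 : ℝ) :
    (1 : ℝ) ^ 2 * mA g s + 2 * 1 * ((y1 - mb1 g s) * mB1 g s + (y2 - mb2 g s) * mB2 g s) +
        Qf (mG11 g) (mG12 g) (mG22 g) s (y1 - mb1 g s) (y2 - mb2 g s) =
      ma g s ^ 2 + Qf (mG11 g) (mG12 g) (mG22 g) s y1 y2 := by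
  obtain ⟨_, hD, hpos⟩ := hC g s hg hs
  have e1 : mG11 g s * mb1 g s + mG12 g s * mb2 g s = mB1 g s := by
    unfold mb1 mb2
    field_simp
    unfold Dt
    ring
  have e2 : mG12 g s * mb1 g s + mG22 g s * mb2 g s = mB2 g s := by
    unfold mb1 mb2
    field_simp
    unfold Dt
    ring
  unfold ma
  rw [Real.sq_sqrt hpos.le]
  unfold Qf
  linear_combination (mb1 g s - 2 * y1) * e1 + (mb2 g s - 2 * y2) * e2

end C2aAux

open C2aAux in
theorem itemC2a (hA2 : claimA2) (hR1 : claimR1) (hR2 : claimR2) (hR3 : claimR3)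
    (hC1a : claimC1a) : claimC2a := by
  intro g hg ht s1 s2 θ φ h0 h12 h2 y1 y2 hy1 hy2
  have hsub : Icc s1 s2 ⊆ Ioo 0 (Real.pi / 2) := fun s hs =>
    ⟨lt_of_lt_of_le h0 hs.1, lt_of_le_of_lt hs.2 h2⟩
  obtain ⟨F1, hF1, hF1''⟩ := exists_ext h12.le (hy1.sub ((cont_mb1 hC1a hg).mono hsub))
  obtain ⟨F2, hF2, hF2''⟩ := exists_ext h12.le (hy2.sub ((cont_mb2 hC1a hg).mono hsub))
  have hF1' : ∀ s ∈ Icc s1 s2, F1 s = y1 s - mb1 g s := hF1''
  have hF2' : ∀ s ∈ Icc s1 s2, F2 s = y2 s - mb2 g s := hF2''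
  set α : ℝ → ℝ := fun s => θ + ∫ x in s1..s, F1 x with hα
  set β : ℝ → ℝ := fun s => φ + ∫ x in s1..s, F2 x with hβ
  have hdα : ∀ s, HasDerivAt α (F1 s) s := fun s =>
    (intervalIntegral.integral_hasDerivAt_right (hF1.intervalIntegrable _ _)
      hF1.aestronglyMeasurable.stronglyMeasurableAtFilter hF1.continuousAt).const_add θ
  have hdβ : ∀ s, HasDerivAt β (F2 s) s := fun s =>
    (intervalIntegral.integral_hasDerivAt_right (hF2.intervalIntegrable _ _)
      hF2.aestronglyMeasurable.stronglyMeasurableAtFilter hF2.continuousAt).const_add φ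
  have hcα : Continuous α := continuous_iff_continuousAt.2 fun s => (hdα s).continuousAt
  have hcβ : Continuous β := continuous_iff_continuousAt.2 fun s => (hdβ s).continuousAt
  set c : ℝ → E := fun s => rot (α s) (β s) (pt s) with hc
  set c' : ℝ → E := fun s => rot (α s) (β s)
    ((1 : ℝ) • dpt s + F1 s • X1 s + F2 s • X2 s) with hc'
  have harc : IsArc c c' s1 s2 := by
    refine ⟨fun s _ => ?_, ?_, fun s _ => ?_⟩
    · exact hR3 α β (fun t => t) F1 F2 (fun _ => 1) (Icc s1 s2) s (hdα s).hasDerivWithinAt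
        (hdβ s).hasDerivWithinAt (hasDerivAt_id s).hasDerivWithinAt
    · have h0 : Continuous (fun s : ℝ => (1 : ℝ) • dpt s + F1 s • X1 s + F2 s • X2 s) := by
        have e1 : Continuous (fun s : ℝ => (1 : ℝ) • dpt s) := cont_dpt.const_smul (1 : ℝ)
        have e2 : Continuous (fun s : ℝ => F1 s • X1 s) := hF1.smul cont_X1
        have e3 : Continuous (fun s : ℝ => F2 s • X2 s) := hF2.smul cont_X2
        exact (e1.add e2).add e3
      have h1 : Continuous (fun s : ℝ => (α s, β s, (1 : ℝ) • dpt s + F1 s • X1 s + F2 s • X2 s)) :=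
        hcα.prodMk (hcβ.prodMk h0)
      exact (Continuous.comp hR2 h1).continuousOn
    · rw [hc]
      simp only
      rw [(hR1 (α s) (β s) (pt s) 0 0).2.2.2.1, norm_pt]
  obtain ⟨k, hk, hlen⟩ := hA2 g c c' s1 s2 hg h12 harc
  refine ⟨k, ?_, ?_⟩
  · have e1 : c s1 = rot θ φ (pt s1) := by
      rw [hc, hα, hβ]
      simp
    have e2 : c s2 = rot (θ + ∫ s in s1..s2, (y1 s - mb1 g s))
        (φ + ∫ s in s1..s2, (y2 s - mb2 g s)) (pt s2) := by
      rw [hc, hα, hβ]
      simp only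
      rw [intervalIntegral.integral_congr (f := F1) (g := fun s => y1 s - mb1 g s) (fun s hs => by
        rw [uIcc_of_le h12.le] at hs
        exact hF1' s hs), intervalIntegral.integral_congr (f := F2) (g := fun s => y2 s - mb2 g s)
          (fun s hs => by
        rw [uIcc_of_le h12.le] at hs
        exact hF2' s hs)]
    rw [e1, e2] at hk
    exact hk
  · rw [hlen]
    unfold arcLength
    apply intervalIntegral.integral_congr
    intro s hs
    rw [uIcc_of_le h12.le] at hs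
    simp only
    congr 1
    rw [hc, hc']
    simp only
    have hw : inner ℝ (pt s) ((1 : ℝ) • dpt s + F1 s • X1 s + F2 s • X2 s) = 0 := by
      rw [inner_add_right, inner_add_right, inner_smul_right, inner_smul_right, inner_smul_right,
        inner_dpt, inner_X1, inner_X2]
      simp
    rw [ht (α s) (β s) (pt s) _ _ (norm_pt s) hw hw, speed hg, hF1' s hs, hF2' s hs]
    exact ident hC1a hg (hsub hs) (y1 s) (y2 s)

end Pool.Agent.Work.MP_02f065_gt.Toric

end
end

section

/-!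
Item C3: the orbit hypothesis for a toric metric.
-/

open MeasureTheory Set Filter Topology

noncomputable section

namespace Pool.Agent.Work.MP_02f065_gt.Toric

theorem c3_norm_pt (s : ℝ) : ‖pt s‖ = 1 := by
  rw [EuclideanSpace.norm_eq, Fin.sum_univ_four]
  simp [pt]

theorem c3_inner_X1 (s : ℝ) : inner ℝ (pt s) (X1 s) = 0 := by
  rw [PiLp.inner_apply, Fin.sum_univ_four]
  simp [pt, X1]

theorem c3_inner_X2 (s : ℝ) : inner ℝ (pt s) (X2 s) = 0 := by
  rw [PiLp.inner_apply, Fin.sum_univ_four]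
  simp [pt, X2]

theorem c3_aux (hA2 : claimA2) (hR1 : claimR1) (hR2 : claimR2) (hR3 : claimR3) (g : Form) (L : ℝ)
    (hg : IsMetric g) (ht : IsToric g)
    (hL : ∀ (x : E) (c : ℝ → E), ‖x‖ = 1 → IsCurve c x (-x) → L ≤ length g c)
    (ε : ℝ) (hε : ε = 1 ∨ ε = -1) (s : ℝ) :
    L ≤ Real.pi * Real.sqrt (mG11 g s + 2 * (ε * mG12 g s) + mG22 g s) := by
  have hε2 : ε ^ 2 = 1 := by rcases hε with h | h <;> rw [h] <;> norm_num
  set v : E := Real.pi • X1 s + (ε * Real.pi) • X2 s with hv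
  set c : ℝ → E := fun t => rot (Real.pi * t) (ε * Real.pi * t) (pt s) with hc
  set c' : ℝ → E := fun t => rot (Real.pi * t) (ε * Real.pi * t) v with hc'
  have hderiv : ∀ t ∈ Icc (0 : ℝ) 1, HasDerivWithinAt c (c' t) (Icc 0 1) t := by
    intro t _
    have h := hR3 (fun t => Real.pi * t) (fun t => ε * Real.pi * t) (fun _ => s)
      (fun _ => Real.pi) (fun _ => ε * Real.pi) (fun _ => 0) (Icc 0 1) t
      (by simpa using (hasDerivWithinAt_id t (Icc (0 : ℝ) 1)).const_mul Real.pi)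
      (by simpa using (hasDerivWithinAt_id t (Icc (0 : ℝ) 1)).const_mul (ε * Real.pi))
      (hasDerivWithinAt_const t _ s)
    simp only [zero_smul, zero_add] at h
    exact h
  have hcont : Continuous c' := by
    have h1 : Continuous fun t : ℝ => ((Real.pi * t, ε * Real.pi * t, v) : ℝ × ℝ × E) := by
      fun_prop
    exact hR2.comp h1
  have harc : IsArc c c' 0 1 :=
    ⟨hderiv, hcont.continuousOn, fun t _ => by
      simp only [hc]
      rw [(hR1 _ _ (pt s) (pt s) 0).2.2.2.1, c3_norm_pt]⟩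
  obtain ⟨k, hk, hlen⟩ := hA2 g c c' 0 1 hg zero_lt_one harc
  have hc0 : c 0 = pt s := by
    simp only [hc, mul_zero]
    exact (hR1 0 0 (pt s) (pt s) 0).2.2.2.2.2.1
  have hc1 : c 1 = -pt s := by
    simp only [hc, mul_one]
    rcases hε with h | h
    · rw [h, one_mul]
      exact (hR1 0 0 (pt s) (pt s) 0).2.2.2.2.2.2.1
    · rw [h, neg_one_mul]
      exact (hR1 0 0 (pt s) (pt s) 0).2.2.2.2.2.2.2
  rw [hc0, hc1] at hk
  have h1 := hL (pt s) k (c3_norm_pt s) hk
  rw [hlen] at h1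
  refine h1.trans (le_of_eq ?_)
  have htan : inner ℝ (pt s) v = 0 := by
    rw [hv, inner_add_right, inner_smul_right, inner_smul_right, c3_inner_X1, c3_inner_X2]
    simp
  have hval : ∀ t : ℝ, g (c t) (c' t) (c' t) =
      Real.pi ^ 2 * (mG11 g s + 2 * (ε * mG12 g s) + mG22 g s) := by
    intro t
    simp only [hc, hc']
    rw [ht _ _ (pt s) v v (c3_norm_pt s) htan htan, hv]
    have hs := hg.symm (pt s) (X1 s) (X2 s) (c3_norm_pt s) (c3_inner_X1 s) (c3_inner_X2 s)
    simp only [map_add, map_smul, ContinuousLinearMap.add_apply, ContinuousLinearMap.smul_apply,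
      smul_eq_mul]
    unfold mG11 mG12 mG22
    rw [← hs]
    linear_combination (Real.pi ^ 2 * (g (pt s) (X2 s) (X2 s))) * hε2
  unfold arcLength
  simp only [hval]
  rw [intervalIntegral.integral_const, sub_zero, one_smul, Real.sqrt_mul (by positivity),
    Real.sqrt_sq Real.pi_pos.le]

theorem itemC3 (hA2 : claimA2) (hR1 : claimR1) (hR2 : claimR2) (hR3 : claimR3) : claimC3 := by
  intro g L hg ht hL
  constructor
  · intro s _
    have h := c3_aux hA2 hR1 hR2 hR3 g L hg ht hL 1 (Or.inl rfl) s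
    rw [one_mul] at h
    exact h
  · intro s _
    have h := c3_aux hA2 hR1 hR2 hR3 g L hg ht hL (-1) (Or.inr rfl) s
    rw [neg_one_mul] at h
    exact h

end Pool.Agent.Work.MP_02f065_gt.Toric

end
end

section

/-!
C4: volume density on the slice.
-/

open MeasureTheory Set Filter Topology

noncomputable section

namespace Pool.Agent.Work.MP_02f065_gt.Toric

/-- the second and fourth basis vectors -/
def c4e1 : E := EuclideanSpace.single 1 1
def c4e3 : E := EuclideanSpace.single 3 1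

lemma c4_norm (s : ℝ) : ‖pt s‖ = 1 := by
  rw [EuclideanSpace.norm_eq, Fin.sum_univ_four]
  simp [pt]

lemma c4_inner (x y : E) : inner ℝ x y = x 0 * y 0 + x 1 * y 1 + x 2 * y 2 + x 3 * y 3 := by
  rw [PiLp.inner_apply, Fin.sum_univ_four]
  simp [mul_comm]

lemma c4_t0 (s : ℝ) : tang (pt s) (EuclideanSpace.single 0 1) = (-Real.sin s) • dpt s := by
  have h := Real.cos_sq_add_sin_sq s
  unfold tang
  rw [c4_inner]
  ext i
  fin_cases i <;> simp [pt, dpt]
  · linear_combination -h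
  · ring

lemma c4_t2 (s : ℝ) : tang (pt s) (EuclideanSpace.single 2 1) = Real.cos s • dpt s := by
  have h := Real.cos_sq_add_sin_sq s
  unfold tang
  rw [c4_inner]
  ext i
  fin_cases i <;> simp [pt, dpt]
  · ring
  · linear_combination -h

lemma c4_t1 (s : ℝ) : tang (pt s) (EuclideanSpace.single 1 1) = c4e1 := by
  unfold tang
  rw [c4_inner]
  simp [pt, c4e1]

lemma c4_t3 (s : ℝ) : tang (pt s) (EuclideanSpace.single 3 1) = c4e3 := by
  unfold tang
  rw [c4_inner]
  simp [pt, c4e3]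

lemma c4_X1 (s : ℝ) : X1 s = Real.cos s • c4e1 := by
  ext i
  fin_cases i <;> simp [X1, c4e1]

lemma c4_X2 (s : ℝ) : X2 s = Real.sin s • c4e3 := by
  ext i
  fin_cases i <;> simp [X2, c4e3]

/-- the determinant -/
lemma c4_det (c σ D p q u v w : ℝ) :
    (Matrix.of ![![σ ^ 2 * D + c * c, -σ * p, -σ * (c * D) + c * σ, -σ * q],
      ![-σ * p, u, c * p, v], ![-σ * (c * D) + σ * c, c * p, c ^ 2 * D + σ * σ, c * q],
      ![-σ * q, v, c * q, w]]).det =
    (c ^ 2 + σ ^ 2) ^ 2 * (D * (u * w - v ^ 2) - p * (p * w - v * q) + q * (p * v - u * q)) := by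
  simp [Matrix.det_succ_row_zero, Fin.sum_univ_succ, Fin.succAbove]
  ring

theorem itemC4 (hC : claimC1a) : claimC4 := by
  intro g s hg hs
  have hc : 0 < Real.cos s := Real.cos_pos_of_mem_Ioo ⟨by linarith [hs.1, Real.pi_pos], hs.2⟩
  have hσ : 0 < Real.sin s := Real.sin_pos_of_pos_of_lt_pi hs.1 (by linarith [hs.2, Real.pi_pos])
  obtain ⟨hG, hD, hpos⟩ := hC g s hg hs
  have hcs := Real.cos_sq_add_sin_sq s
  have hx := c4_norm s
  have td : inner ℝ (pt s) (dpt s) = 0 := by
    rw [c4_inner]; simp [pt, dpt]; ring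
  have t1 : inner ℝ (pt s) c4e1 = 0 := by
    rw [c4_inner]; simp [pt, c4e1]
  have t3 : inner ℝ (pt s) c4e3 = 0 := by
    rw [c4_inner]; simp [pt, c4e3]
  set c := Real.cos s with hcdef
  set σ := Real.sin s with hσdef
  set D := g (pt s) (dpt s) (dpt s) with hDd
  set p := g (pt s) (dpt s) c4e1 with hp
  set q := g (pt s) (dpt s) c4e3 with hq
  set u := g (pt s) c4e1 c4e1 with hu
  set v := g (pt s) c4e1 c4e3 with hv
  set w := g (pt s) c4e3 c4e3 with hw
  have s1 : g (pt s) c4e1 (dpt s) = p := hg.symm _ _ _ hx t1 td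
  have s2 : g (pt s) c4e3 (dpt s) = q := hg.symm _ _ _ hx t3 td
  have s3 : g (pt s) c4e3 c4e1 = v := hg.symm _ _ _ hx t3 t1
  have m11 : mG11 g s = c ^ 2 * u := by
    unfold mG11; rw [c4_X1]
    simp only [map_smul, smul_apply, smul_eq_mul]; rw [← hu]; ring
  have m12 : mG12 g s = c * σ * v := by
    unfold mG12; rw [c4_X1, c4_X2]
    simp only [map_smul, smul_apply, smul_eq_mul]; rw [← hv]; ring
  have m22 : mG22 g s = σ ^ 2 * w := by
    unfold mG22; rw [c4_X2]
    simp only [map_smul, smul_apply, smul_eq_mul]; rw [← hw]; ring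
  have mb1' : mB1 g s = c * p := by
    unfold mB1; rw [c4_X1]
    simp only [map_smul, smul_eq_mul]; rw [← hp]
  have mb2' : mB2 g s = σ * q := by
    unfold mB2; rw [c4_X2]
    simp only [map_smul, smul_eq_mul]; rw [← hq]
  have mA' : mA g s = D := rfl
  set G3 := D * (u * w - v ^ 2) - p * (p * w - v * q) + q * (p * v - u * q) with hG3
  have hdet : volDensity g (pt s) = Real.sqrt G3 := by
    unfold volDensity
    congr 1
    have hmat : (Matrix.of fun i j : Fin 4 =>
      g (pt s) (tang (pt s) (EuclideanSpace.single i 1))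
        (tang (pt s) (EuclideanSpace.single j 1)) + (pt s) i * (pt s) j) =
      Matrix.of ![![σ ^ 2 * D + c * c, -σ * p, -σ * (c * D) + c * σ, -σ * q],
      ![-σ * p, u, c * p, v], ![-σ * (c * D) + σ * c, c * p, c ^ 2 * D + σ * σ, c * q],
      ![-σ * q, v, c * q, w]] := by
      ext i j
      rw [Matrix.of_apply, Matrix.of_apply]
      fin_cases i <;> fin_cases j
      · change g (pt s) (tang (pt s) (EuclideanSpace.single 0 1))
          (tang (pt s) (EuclideanSpace.single 0 1)) + c * c = σ ^ 2 * D + c * c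
        rw [c4_t0]; simp only [map_smul, smul_apply, smul_eq_mul]; rw [← hDd]; ring
      · change g (pt s) (tang (pt s) (EuclideanSpace.single 0 1))
          (tang (pt s) (EuclideanSpace.single 1 1)) + c * 0 = -σ * p
        rw [c4_t0, c4_t1]; simp only [map_smul, smul_apply, smul_eq_mul]; rw [← hp]; ring
      · change g (pt s) (tang (pt s) (EuclideanSpace.single 0 1))
          (tang (pt s) (EuclideanSpace.single 2 1)) + c * σ = -σ * (c * D) + c * σ
        rw [c4_t0, c4_t2]; simp only [map_smul, smul_apply, smul_eq_mul]; rw [← hDd]; ring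
      · change g (pt s) (tang (pt s) (EuclideanSpace.single 0 1))
          (tang (pt s) (EuclideanSpace.single 3 1)) + c * 0 = -σ * q
        rw [c4_t0, c4_t3]; simp only [map_smul, smul_apply, smul_eq_mul]; rw [← hq]; ring
      · change g (pt s) (tang (pt s) (EuclideanSpace.single 1 1))
          (tang (pt s) (EuclideanSpace.single 0 1)) + 0 * c = -σ * p
        rw [c4_t0, c4_t1]; simp only [map_smul, smul_apply, smul_eq_mul]; rw [s1]; ring
      · change g (pt s) (tang (pt s) (EuclideanSpace.single 1 1))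
          (tang (pt s) (EuclideanSpace.single 1 1)) + 0 * 0 = u
        rw [c4_t1, ← hu]; ring
      · change g (pt s) (tang (pt s) (EuclideanSpace.single 1 1))
          (tang (pt s) (EuclideanSpace.single 2 1)) + 0 * σ = c * p
        rw [c4_t1, c4_t2]; simp only [map_smul, smul_apply, smul_eq_mul]; rw [s1]; ring
      · change g (pt s) (tang (pt s) (EuclideanSpace.single 1 1))
          (tang (pt s) (EuclideanSpace.single 3 1)) + 0 * 0 = v
        rw [c4_t1, c4_t3, ← hv]; ring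
      · change g (pt s) (tang (pt s) (EuclideanSpace.single 2 1))
          (tang (pt s) (EuclideanSpace.single 0 1)) + σ * c = -σ * (c * D) + σ * c
        rw [c4_t0, c4_t2]; simp only [map_smul, smul_apply, smul_eq_mul]; rw [← hDd]
      · change g (pt s) (tang (pt s) (EuclideanSpace.single 2 1))
          (tang (pt s) (EuclideanSpace.single 1 1)) + σ * 0 = c * p
        rw [c4_t1, c4_t2]; simp only [map_smul, smul_apply, smul_eq_mul]; rw [← hp]; ring
      · change g (pt s) (tang (pt s) (EuclideanSpace.single 2 1))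
          (tang (pt s) (EuclideanSpace.single 2 1)) + σ * σ = c ^ 2 * D + σ * σ
        rw [c4_t2]; simp only [map_smul, smul_apply, smul_eq_mul]; rw [← hDd]; ring
      · change g (pt s) (tang (pt s) (EuclideanSpace.single 2 1))
          (tang (pt s) (EuclideanSpace.single 3 1)) + σ * 0 = c * q
        rw [c4_t3, c4_t2]; simp only [map_smul, smul_apply, smul_eq_mul]; rw [← hq]; ring
      · change g (pt s) (tang (pt s) (EuclideanSpace.single 3 1))
          (tang (pt s) (EuclideanSpace.single 0 1)) + 0 * c = -σ * q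
        rw [c4_t0, c4_t3]; simp only [map_smul, smul_apply, smul_eq_mul]; rw [s2]; ring
      · change g (pt s) (tang (pt s) (EuclideanSpace.single 3 1))
          (tang (pt s) (EuclideanSpace.single 1 1)) + 0 * 0 = v
        rw [c4_t1, c4_t3, s3]; ring
      · change g (pt s) (tang (pt s) (EuclideanSpace.single 3 1))
          (tang (pt s) (EuclideanSpace.single 2 1)) + 0 * σ = c * q
        rw [c4_t3, c4_t2]; simp only [map_smul, smul_apply, smul_eq_mul]; rw [s2]; ring
      · change g (pt s) (tang (pt s) (EuclideanSpace.single 3 1))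
          (tang (pt s) (EuclideanSpace.single 3 1)) + 0 * 0 = w
        rw [c4_t3, ← hw]; ring
    rw [hmat, c4_det, hcs, one_pow, one_mul]
  have hkey : (mA g s - mb1 g s * mB1 g s - mb2 g s * mB2 g s) *
      Dt (mG11 g) (mG12 g) (mG22 g) s = (c * σ) ^ 2 * G3 := by
    unfold mb1 mb2
    rw [sub_mul, sub_mul]
    have hDne := hD.ne'
    have e1 : (mG22 g s * mB1 g s - mG12 g s * mB2 g s) / Dt (mG11 g) (mG12 g) (mG22 g) s *
        mB1 g s * Dt (mG11 g) (mG12 g) (mG22 g) s =
        (mG22 g s * mB1 g s - mG12 g s * mB2 g s) * mB1 g s := by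
      field_simp
    have e2 : (mG11 g s * mB2 g s - mG12 g s * mB1 g s) / Dt (mG11 g) (mG12 g) (mG22 g) s *
        mB2 g s * Dt (mG11 g) (mG12 g) (mG22 g) s =
        (mG11 g s * mB2 g s - mG12 g s * mB1 g s) * mB2 g s := by
      field_simp
    rw [e1, e2]
    unfold Dt
    rw [m11, m12, m22, mb1', mb2', mA', hG3]
    ring
  have hG3pos : 0 ≤ G3 := by
    have h1 : 0 < (c * σ) ^ 2 * G3 := by rw [← hkey]; exact mul_pos hpos hD
    have h2 : 0 < (c * σ) ^ 2 := by positivity
    exact ((mul_pos_iff_of_pos_left h2).1 h1).le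
  rw [hdet]
  unfold ma
  rw [← Real.sqrt_mul hpos.le, hkey, Real.sqrt_mul (sq_nonneg _),
    Real.sqrt_sq (mul_pos hc hσ).le]
  ring

end Pool.Agent.Work.MP_02f065_gt.Toric

end
end

section

/-!
MP_02f065_gt, item C5: the volume of a toric metric.
-/

open MeasureTheory Set Filter Topology

noncomputable section

namespace Pool.Agent.Work.MP_02f065_gt.Toric

theorem c5_norm_pt (s : ℝ) : ‖pt s‖ = 1 := by
  have h : ‖pt s‖ ^ 2 = 1 := by
    unfold pt
    rw [EuclideanSpace.norm_sq_eq]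
    simp [Fin.sum_univ_four]
  have h0 : 0 ≤ ‖pt s‖ := norm_nonneg _
  nlinarith

/-- C5. volume of a toric metric -/
theorem itemC5 (hB4 : claimB4) (hB5 : claimB5) (hB6 : claimB6) (hC4 : claimC4) : claimC5 := by
  intro g hg ht
  have h1 := hB5 (volDensity g) (hB6 g hg)
  have hconst : ∀ s : ℝ, (∫ θ in (0 : ℝ)..(2 * Real.pi), ∫ φ in (0 : ℝ)..(2 * Real.pi),
      volDensity g (rot θ φ (pt s))) = (2 * Real.pi) * ((2 * Real.pi) * volDensity g (pt s)) := by
    intro s
    have e : ∀ θ φ : ℝ, volDensity g (rot θ φ (pt s)) = volDensity g (pt s) := fun θ φ =>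
      hB4 g θ φ (pt s) ht (c5_norm_pt s)
    simp only [e]
    rw [intervalIntegral.integral_const, intervalIntegral.integral_const]
    simp only [smul_eq_mul, sub_zero]
  simp only [hconst] at h1
  have hpi : (0 : ℝ) ≤ Real.pi / 2 := by positivity
  have h2 : ∫ s in (0 : ℝ)..(Real.pi / 2),
      (2 * Real.pi) * ((2 * Real.pi) * volDensity g (pt s)) * (Real.cos s * Real.sin s) =
      ∫ s in (0 : ℝ)..(Real.pi / 2), (4 * Real.pi ^ 2) *
        (ma g s * Real.sqrt (Dt (mG11 g) (mG12 g) (mG22 g) s)) := by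
    rw [intervalIntegral.integral_of_le hpi, intervalIntegral.integral_of_le hpi,
      integral_Ioc_eq_integral_Ioo, integral_Ioc_eq_integral_Ioo]
    apply setIntegral_congr_fun measurableSet_Ioo
    intro s hs
    simp only
    rw [← hC4 g s hg hs]
    ring
  unfold vol
  rw [h1, h2, intervalIntegral.integral_const_mul]
  ring

end Pool.Agent.Work.MP_02f065_gt.Toric

end
end

section

/-!
MP_02f065_gt, item C6: the round volume.
-/

open MeasureTheory Set Filter Topology

noncomputable section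

namespace Pool.Agent.Work.MP_02f065_gt.Toric

private theorem c6_round (x v w : E) : round x v w = inner ℝ v w := rfl

private theorem c6_metric : IsMetric round where
  cont := continuousOn_const
  symm := fun x v w _ _ _ => by
    rw [c6_round, c6_round, real_inner_comm]
  pos := fun x v _ _ hv => by
    rw [c6_round, real_inner_self_eq_norm_sq]
    have := norm_pos_iff.2 hv
    positivity
  even := fun x v w _ _ _ => rfl

private theorem c6_toric (hR1 : claimR1) : IsToric round := by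
  intro θ φ x v w _ _ _
  rw [c6_round, c6_round]
  exact (hR1 θ φ v w 0).2.2.1

private theorem c6_A (s : ℝ) : mA round s = 1 := by
  rw [mA, c6_round, PiLp.inner_apply, Fin.sum_univ_four]
  simp [dpt]

private theorem c6_B1 (s : ℝ) : mB1 round s = 0 := by
  rw [mB1, c6_round, PiLp.inner_apply, Fin.sum_univ_four]
  simp [dpt, X1]

private theorem c6_B2 (s : ℝ) : mB2 round s = 0 := by
  rw [mB2, c6_round, PiLp.inner_apply, Fin.sum_univ_four]
  simp [dpt, X2]

private theorem c6_G11 (s : ℝ) : mG11 round s = Real.cos s ^ 2 := by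
  rw [mG11, c6_round, PiLp.inner_apply, Fin.sum_univ_four]
  simp [X1]

private theorem c6_G12 (s : ℝ) : mG12 round s = 0 := by
  rw [mG12, c6_round, PiLp.inner_apply, Fin.sum_univ_four]
  simp [X1, X2]

private theorem c6_G22 (s : ℝ) : mG22 round s = Real.sin s ^ 2 := by
  rw [mG22, c6_round, PiLp.inner_apply, Fin.sum_univ_four]
  simp [X2]

private theorem c6_ma (s : ℝ) : ma round s = 1 := by
  rw [ma, c6_A, c6_B1, c6_B2]
  simp

/-- C6. The volume of the round metric. -/
theorem itemC6 (hR1 : claimR1) (hC5 : claimC5) : claimC6 := by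
  unfold claimC6
  rw [hC5 round c6_metric (c6_toric hR1)]
  have h1 : ∫ s in (0 : ℝ)..(Real.pi / 2),
      ma round s * Real.sqrt (Dt (mG11 round) (mG12 round) (mG22 round) s) =
      ∫ s in (0 : ℝ)..(Real.pi / 2), Real.sin s * Real.cos s := by
    apply intervalIntegral.integral_congr
    intro s hs
    rw [uIcc_of_le (by positivity)] at hs
    have hs1 : 0 ≤ Real.sin s := Real.sin_nonneg_of_nonneg_of_le_pi hs.1
      (hs.2.trans (by linarith [Real.pi_pos]))
    have hs2 : 0 ≤ Real.cos s := Real.cos_nonneg_of_neg_pi_div_two_le_of_le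
      (by linarith [hs.1, Real.pi_pos]) hs.2
    simp only [Dt, c6_ma, c6_G11, c6_G12, c6_G22]
    have : Real.cos s ^ 2 * Real.sin s ^ 2 - 0 ^ 2 = (Real.sin s * Real.cos s) ^ 2 := by ring
    rw [this, Real.sqrt_sq (mul_nonneg hs1 hs2), one_mul]
  rw [h1, integral_sin_mul_cos₁]
  simp
  ring

end Pool.Agent.Work.MP_02f065_gt.Toric

end
end

section

/-!
MP_02f065_gt, item D1a: separation (Hahn-Banach) in the space of displacements and lengths.
-/

open MeasureTheory Set Filter Topology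

noncomputable section

namespace Pool.Agent.Work.MP_02f065_gt.Toric

namespace D1a

/-- the norm inequality -/
lemma norm_ineq {a A B C y1 y2 z1 z2 α β : ℝ} (hA : 0 < A) (hD : 0 < A * C - B ^ 2)
    (hα : 0 ≤ α) (hβ : 0 ≤ β) (hab : α + β = 1) :
    Real.sqrt (a ^ 2 + (A * (α * y1 + β * z1) ^ 2 + 2 * B * (α * y1 + β * z1) * (α * y2 + β * z2) +
      C * (α * y2 + β * z2) ^ 2)) ≤
    α * Real.sqrt (a ^ 2 + (A * y1 ^ 2 + 2 * B * y1 * y2 + C * y2 ^ 2)) +
      β * Real.sqrt (a ^ 2 + (A * z1 ^ 2 + 2 * B * z1 * z2 + C * z2 ^ 2)) := by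
  have hQ : ∀ u v : ℝ, 0 ≤ A * u ^ 2 + 2 * B * u * v + C * v ^ 2 := by
    intro u v
    have h1 : 0 ≤ A * (A * u ^ 2 + 2 * B * u * v + C * v ^ 2) := by
      have : A * (A * u ^ 2 + 2 * B * u * v + C * v ^ 2) =
        (A * u + B * v) ^ 2 + (A * C - B ^ 2) * v ^ 2 := by ring
      rw [this]
      positivity
    exact nonneg_of_mul_nonneg_right h1 hA
  set Y : ℝ := a ^ 2 + (A * y1 ^ 2 + 2 * B * y1 * y2 + C * y2 ^ 2) with hY
  set Z : ℝ := a ^ 2 + (A * z1 ^ 2 + 2 * B * z1 * z2 + C * z2 ^ 2) with hZ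
  have hY0 : 0 ≤ Y := add_nonneg (sq_nonneg _) (hQ _ _)
  have hZ0 : 0 ≤ Z := add_nonneg (sq_nonneg _) (hQ _ _)
  set b : ℝ := A * y1 * z1 + B * (y1 * z2 + y2 * z1) + C * y2 * z2 with hb
  have hcs : (a ^ 2 + b) ^ 2 ≤ Y * Z := by
    have h1 : Y * Z - (a ^ 2 + b) ^ 2 = a ^ 2 * (A * (y1 - z1) ^ 2 +
        2 * B * (y1 - z1) * (y2 - z2) + C * (y2 - z2) ^ 2) +
        (A * C - B ^ 2) * (y1 * z2 - y2 * z1) ^ 2 := by
      rw [hY, hZ, hb]
      ring
    have h2 := hQ (y1 - z1) (y2 - z2)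
    have h3 : 0 ≤ Y * Z - (a ^ 2 + b) ^ 2 := by
      rw [h1]
      positivity
    linarith
  have hcs2 : a ^ 2 + b ≤ Real.sqrt Y * Real.sqrt Z := by
    rw [← Real.sqrt_mul hY0]
    exact (le_abs_self _).trans (Real.abs_le_sqrt hcs)
  have sY := Real.sq_sqrt hY0
  have sZ := Real.sq_sqrt hZ0
  rw [Real.sqrt_le_left (by positivity)]
  have h4 : (α * Real.sqrt Y + β * Real.sqrt Z) ^ 2 =
      α ^ 2 * Y + β ^ 2 * Z + 2 * (α * β) * (Real.sqrt Y * Real.sqrt Z) := by
    have : (α * Real.sqrt Y + β * Real.sqrt Z) ^ 2 = α ^ 2 * Real.sqrt Y ^ 2 +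
      β ^ 2 * Real.sqrt Z ^ 2 + 2 * (α * β) * (Real.sqrt Y * Real.sqrt Z) := by ring
    rw [this, sY, sZ]
  rw [h4]
  have h5 : a ^ 2 + (A * (α * y1 + β * z1) ^ 2 + 2 * B * (α * y1 + β * z1) *
      (α * y2 + β * z2) + C * (α * y2 + β * z2) ^ 2) =
      α ^ 2 * Y + β ^ 2 * Z + 2 * (α * β) * (a ^ 2 + b) := by
    have hβ' : β = 1 - α := by linarith
    rw [hY, hZ, hb, hβ']
    ring
  rw [h5]
  have h6 : 0 ≤ 2 * (α * β) := by positivity
  have := mul_le_mul_of_nonneg_left hcs2 h6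
  linarith

end D1a

open D1a in
theorem itemD1a : claimD1a := by
  intro σ L a G11 G12 G22 h hP s1 s2 h1 h12 h2
  have hsub : Icc s1 s2 ⊆ Ioo 0 σ := fun s hs => ⟨h1.trans_le hs.1, hs.2.trans_lt h2⟩
  have ca := h.ca.mono hsub
  have c11 := h.c11.mono hsub
  have c12 := h.c12.mono hsub
  have c22 := h.c22.mono hsub
  have hInt : ∀ f : ℝ → ℝ, ContinuousOn f (Icc s1 s2) → IntervalIntegrable f volume s1 s2 :=
    fun f hf => hf.intervalIntegrable_of_Icc h12.le
  have cF : ∀ y1 y2 : ℝ → ℝ, ContinuousOn y1 (Icc s1 s2) → ContinuousOn y2 (Icc s1 s2) →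
      ContinuousOn (fun s => Real.sqrt (a s ^ 2 + Qf G11 G12 G22 s (y1 s) (y2 s)))
        (Icc s1 s2) := by
    intro y1 y2 hy1 hy2
    unfold Qf
    exact ((ca.pow 2).add (((c11.mul (hy1.pow 2)).add
      (((continuousOn_const.mul c12).mul hy1).mul hy2)).add (c22.mul (hy2.pow 2)))).sqrt
  set D : Set (ℝ × ℝ × ℝ) := {z | ∃ y1 y2 : ℝ → ℝ, ContinuousOn y1 (Icc s1 s2) ∧
    ContinuousOn y2 (Icc s1 s2) ∧ 2 * (∫ s in s1..s2, y1 s) = z.1 ∧
    2 * (∫ s in s1..s2, y2 s) = z.2.1 ∧
    2 * (∫ s in s1..s2, Real.sqrt (a s ^ 2 + Qf G11 G12 G22 s (y1 s) (y2 s))) < z.2.2} with hD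
  -- convexity
  have hconv : Convex ℝ D := by
    rintro z ⟨y1, y2, cy1, cy2, e1, e2, e3⟩ w ⟨v1, v2, cv1, cv2, f1, f2, f3⟩ α β hα hβ hab
    refine ⟨fun s => α * y1 s + β * v1 s, fun s => α * y2 s + β * v2 s,
      (continuousOn_const.mul cy1).add (continuousOn_const.mul cv1),
      (continuousOn_const.mul cy2).add (continuousOn_const.mul cv2), ?_, ?_, ?_⟩
    · rw [intervalIntegral.integral_add ((hInt _ cy1).const_mul _) ((hInt _ cv1).const_mul _),
        intervalIntegral.integral_const_mul, intervalIntegral.integral_const_mul]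
      simp only [Prod.fst_add, Prod.smul_fst, smul_eq_mul, ← e1, ← f1]
      ring
    · rw [intervalIntegral.integral_add ((hInt _ cy2).const_mul _) ((hInt _ cv2).const_mul _),
        intervalIntegral.integral_const_mul, intervalIntegral.integral_const_mul]
      simp only [Prod.snd_add, Prod.smul_snd, Prod.fst_add, Prod.smul_fst, smul_eq_mul,
        ← e2, ← f2]
      ring
    · have k1 := cF y1 y2 cy1 cy2
      have k2 := cF v1 v2 cv1 cv2
      have k3 := cF (fun s => α * y1 s + β * v1 s) (fun s => α * y2 s + β * v2 s)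
        ((continuousOn_const.mul cy1).add (continuousOn_const.mul cv1))
        ((continuousOn_const.mul cy2).add (continuousOn_const.mul cv2))
      have e4 : ∫ s in s1..s2, Real.sqrt (a s ^ 2 + Qf G11 G12 G22 s (α * y1 s + β * v1 s)
          (α * y2 s + β * v2 s)) ≤
          α * (∫ s in s1..s2, Real.sqrt (a s ^ 2 + Qf G11 G12 G22 s (y1 s) (y2 s))) +
          β * ∫ s in s1..s2, Real.sqrt (a s ^ 2 + Qf G11 G12 G22 s (v1 s) (v2 s)) := by
        rw [← intervalIntegral.integral_const_mul, ← intervalIntegral.integral_const_mul,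
          ← intervalIntegral.integral_add ((hInt _ k1).const_mul _) ((hInt _ k2).const_mul _)]
        apply intervalIntegral.integral_mono_on h12.le (hInt _ k3)
          (((hInt _ k1).const_mul _).add ((hInt _ k2).const_mul _))
        intro s hs
        have hs' := hsub hs
        have hd := h.posD s hs'
        unfold Dt at hd
        exact norm_ineq (h.pos11 s hs') hd hα hβ hab
      simp only [Prod.snd_add, Prod.smul_snd, smul_eq_mul]
      have e5 : α * (2 * ∫ s in s1..s2, Real.sqrt (a s ^ 2 + Qf G11 G12 G22 s (y1 s) (y2 s))) +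
          β * (2 * ∫ s in s1..s2, Real.sqrt (a s ^ 2 + Qf G11 G12 G22 s (v1 s) (v2 s))) <
          α * z.2.2 + β * w.2.2 := by
        rcases hα.eq_or_lt with hα0 | hα0
        · rw [← hα0] at hab ⊢
          have : β = 1 := by linarith
          rw [this]
          linarith
        · have g1 := mul_lt_mul_of_pos_left e3 hα0
          have g2 := mul_le_mul_of_nonneg_left f3.le hβ
          linarith
      linarith
  -- points with large length
  set W : ℝ → ℝ → ℝ := fun d1 d2 => 2 * ∫ s in s1..s2, Real.sqrt (a s ^ 2 + Qf G11 G12 G22 s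
    (d1 / (2 * (s2 - s1))) (d2 / (2 * (s2 - s1)))) with hW
  have hs21 : 0 < s2 - s1 := by linarith
  have hmem : ∀ d1 d2 l : ℝ, W d1 d2 < l → (d1, d2, l) ∈ D := by
    intro d1 d2 l hl
    refine ⟨fun _ => d1 / (2 * (s2 - s1)), fun _ => d2 / (2 * (s2 - s1)), continuousOn_const,
      continuousOn_const, ?_, ?_, hl⟩
    · rw [intervalIntegral.integral_const, smul_eq_mul]
      field_simp
    · rw [intervalIntegral.integral_const, smul_eq_mul]
      field_simp
  -- an open subset of `D`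
  have hbd : ∃ K : ℝ, ∀ d1 d2 : ℝ, |d1| < 1 → |d2| < 1 → W d1 d2 ≤ K := by
    set k : ℝ := 1 / (2 * (s2 - s1)) with hk
    refine ⟨2 * ∫ s in s1..s2, Real.sqrt (a s ^ 2 + (|G11 s| * k ^ 2 + 2 * |G12 s| * k ^ 2 +
      |G22 s| * k ^ 2)), fun d1 d2 hd1 hd2 => ?_⟩
    have hk0 : 0 < k := by positivity
    apply mul_le_mul_of_nonneg_left _ (by norm_num)
    apply intervalIntegral.integral_mono_on h12.le
    · exact hInt _ (cF (fun _ => d1 / (2 * (s2 - s1))) (fun _ => d2 / (2 * (s2 - s1)))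
        continuousOn_const continuousOn_const)
    · apply hInt
      exact ((ca.pow 2).add (((c11.abs.mul continuousOn_const).add
        ((continuousOn_const.mul c12.abs).mul continuousOn_const)).add
        (c22.abs.mul continuousOn_const))).sqrt
    · intro s hs
      apply Real.sqrt_le_sqrt
      apply add_le_add le_rfl
      have e1 : d1 / (2 * (s2 - s1)) = d1 * k := by rw [hk]; ring
      have e2 : d2 / (2 * (s2 - s1)) = d2 * k := by rw [hk]; ring
      rw [e1, e2]
      unfold Qf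
      have q1 : (d1 * k) ^ 2 ≤ k ^ 2 := by
        rw [mul_pow]
        have : d1 ^ 2 ≤ 1 := by
          rw [← sq_abs]
          have := abs_nonneg d1
          nlinarith
        nlinarith [sq_nonneg k]
      have q2 : (d2 * k) ^ 2 ≤ k ^ 2 := by
        rw [mul_pow]
        have : d2 ^ 2 ≤ 1 := by
          rw [← sq_abs]
          have := abs_nonneg d2
          nlinarith
        nlinarith [sq_nonneg k]
      have q3 : |(d1 * k) * (d2 * k)| ≤ k ^ 2 := by
        rw [abs_le]
        constructor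
        · nlinarith [sq_nonneg (d1 * k + d2 * k)]
        · nlinarith [sq_nonneg (d1 * k - d2 * k)]
      have r1 : G11 s * (d1 * k) ^ 2 ≤ |G11 s| * k ^ 2 :=
        mul_le_mul (le_abs_self _) q1 (sq_nonneg _) (abs_nonneg _)
      have r2 : G22 s * (d2 * k) ^ 2 ≤ |G22 s| * k ^ 2 :=
        mul_le_mul (le_abs_self _) q2 (sq_nonneg _) (abs_nonneg _)
      have r3 : 2 * G12 s * (d1 * k) * (d2 * k) ≤ 2 * |G12 s| * k ^ 2 := by
        have t1 : G12 s * ((d1 * k) * (d2 * k)) ≤ |G12 s| * k ^ 2 := by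
          refine (le_abs_self _).trans ?_
          rw [abs_mul]
          exact mul_le_mul_of_nonneg_left q3 (abs_nonneg _)
        linarith
      linarith
  obtain ⟨K, hK⟩ := hbd
  have hopen : IsOpen ((Ioo (-1 : ℝ) 1) ×ˢ ((Ioo (-1 : ℝ) 1) ×ˢ (Ioi K))) :=
    isOpen_Ioo.prod (isOpen_Ioo.prod isOpen_Ioi)
  have hsubD : (Ioo (-1 : ℝ) 1) ×ˢ ((Ioo (-1 : ℝ) 1) ×ˢ (Ioi K)) ⊆ D := by
    rintro ⟨d1, d2, l⟩ ⟨k1, k2, k3⟩
    exact hmem d1 d2 l ((hK d1 d2 (abs_lt.mpr k1) (abs_lt.mpr k2)).trans_lt k3)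
  have hne : (interior D).Nonempty := by
    refine ⟨(0, 0, K + 1), interior_maximal hsubD hopen ?_⟩
    exact ⟨by constructor <;> norm_num, by constructor <;> norm_num, by simp⟩
  have hx0 : (Real.pi, Real.pi, L) ∉ interior D := by
    intro hx
    obtain ⟨y1, y2, cy1, cy2, e1, e2, e3⟩ := interior_subset hx
    have := hP s1 s2 h1 h12 h2 y1 y2 cy1 cy2 e1 e2
    simp only at e3
    linarith
  obtain ⟨f, hf⟩ := geometric_hahn_banach_open_point hconv.interior isOpen_interior hx0
  have hfD : ∀ z ∈ D, f z ≤ f (Real.pi, Real.pi, L) := by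
    intro z hz
    have hcl : z ∈ closure (interior D) := by
      rw [hconv.closure_interior_eq_closure_of_nonempty_interior hne]
      exact subset_closure hz
    have hclosed : IsClosed {z | f z ≤ f (Real.pi, Real.pi, L)} :=
      isClosed_le f.continuous continuous_const
    exact closure_minimal (fun w hw => (hf w hw).le) hclosed hcl
  set p' : ℝ := f (1, 0, 0) with hp'
  set q' : ℝ := f (0, 1, 0) with hq'
  set r : ℝ := f (0, 0, 1) with hr
  have hfe : ∀ d1 d2 l : ℝ, f (d1, d2, l) = p' * d1 + q' * d2 + r * l := by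
    intro d1 d2 l
    have : ((d1, d2, l) : ℝ × ℝ × ℝ) = d1 • ((1, 0, 0) : ℝ × ℝ × ℝ) +
      d2 • ((0, 1, 0) : ℝ × ℝ × ℝ) + l • ((0, 0, 1) : ℝ × ℝ × ℝ) := by
      simp
    rw [this, map_add, map_add, map_smul, map_smul, map_smul, hp', hq', hr]
    simp only [smul_eq_mul]
    ring
  have hr0 : r ≤ 0 := by
    by_contra hcon
    push Not at hcon
    set l : ℝ := max (W 0 0 + 1) ((|f (Real.pi, Real.pi, L)| + 1) / r) with hl
    have m1 : ((0 : ℝ), (0 : ℝ), l) ∈ D := hmem 0 0 l (by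
      have := le_max_left (W 0 0 + 1) ((|f (Real.pi, Real.pi, L)| + 1) / r)
      rw [hl]
      linarith)
    have m2 := hfD _ m1
    rw [hfe 0 0 l] at m2
    have m3 : |f (Real.pi, Real.pi, L)| + 1 ≤ r * l := by
      have := le_max_right (W 0 0 + 1) ((|f (Real.pi, Real.pi, L)| + 1) / r)
      rw [← hl, div_le_iff₀ hcon] at this
      linarith
    have m4 := le_abs_self (f (Real.pi, Real.pi, L))
    linarith
  have hrne : r ≠ 0 := by
    intro hr00
    have hall : ∀ d1 d2 : ℝ, p' * d1 + q' * d2 ≤ f (Real.pi, Real.pi, L) := by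
      intro d1 d2
      have m1 := hfD _ (hmem d1 d2 (W d1 d2 + 1) (by linarith))
      rw [hfe, hr00] at m1
      linarith
    have hp0 : p' = 0 := by
      by_contra hne0
      have m1 := hall ((|f (Real.pi, Real.pi, L)| + 1) / p') 0
      have m2 : p' * ((|f (Real.pi, Real.pi, L)| + 1) / p') =
        |f (Real.pi, Real.pi, L)| + 1 := by field_simp
      have m4 := le_abs_self (f (Real.pi, Real.pi, L))
      linarith
    have hq0 : q' = 0 := by
      by_contra hne0
      have m1 := hall 0 ((|f (Real.pi, Real.pi, L)| + 1) / q')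
      have m2 : q' * ((|f (Real.pi, Real.pi, L)| + 1) / q') =
        |f (Real.pi, Real.pi, L)| + 1 := by field_simp
      have m4 := le_abs_self (f (Real.pi, Real.pi, L))
      linarith
    obtain ⟨⟨d1, d2, l⟩, hz⟩ := hne
    have m1 := hf _ hz
    rw [hfe, hfe, hp0, hq0, hr00] at m1
    simp at m1
  have hrneg : r < 0 := lt_of_le_of_ne hr0 hrne
  refine ⟨p' / (-r), q' / (-r), fun y1 y2 cy1 cy2 => ?_⟩
  have hrp : 0 < -r := by linarith
  have e1 : 2 * (∫ s in s1..s2, (p' / (-r) * y1 s + q' / (-r) * y2 s)) =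
      p' / (-r) * (2 * ∫ s in s1..s2, y1 s) + q' / (-r) * (2 * ∫ s in s1..s2, y2 s) := by
    rw [intervalIntegral.integral_add ((hInt _ cy1).const_mul _) ((hInt _ cy2).const_mul _),
      intervalIntegral.integral_const_mul, intervalIntegral.integral_const_mul]
    ring
  rw [e1]
  apply le_of_forall_pos_le_add
  intro ε hε
  have m1 := hfD (2 * ∫ s in s1..s2, y1 s, 2 * ∫ s in s1..s2, y2 s,
    2 * (∫ s in s1..s2, Real.sqrt (a s ^ 2 + Qf G11 G12 G22 s (y1 s) (y2 s))) + ε)
    ⟨y1, y2, cy1, cy2, rfl, rfl, by simp only; linarith⟩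
  rw [hfe, hfe] at m1
  set I1 : ℝ := 2 * ∫ s in s1..s2, y1 s
  set I2 : ℝ := 2 * ∫ s in s1..s2, y2 s
  set I3 : ℝ := 2 * ∫ s in s1..s2, Real.sqrt (a s ^ 2 + Qf G11 G12 G22 s (y1 s) (y2 s))
  have m2 : p' * I1 + q' * I2 + (-r) * L ≤ p' * Real.pi + q' * Real.pi + (-r) * (I3 + ε) := by
    linarith
  have m3 := div_le_div_of_nonneg_right m2 hrp.le
  have m4 : (p' * I1 + q' * I2 + (-r) * L) / (-r) = p' / (-r) * I1 + q' / (-r) * I2 + L := by
    rw [add_div, add_div, mul_div_cancel_left₀ _ hrp.ne']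
    ring
  have m5 : (p' * Real.pi + q' * Real.pi + (-r) * (I3 + ε)) / (-r) =
      Real.pi * (p' / (-r) + q' / (-r)) + I3 + ε := by
    field_simp
    ring
  rw [m4, m5] at m3
  exact m3

end Pool.Agent.Work.MP_02f065_gt.Toric

end
end

section

/-!
MP_02f065_gt, item D1b: pointwise optimisation.
-/

open MeasureTheory Set Filter Topology

noncomputable section

namespace Pool.Agent.Work.MP_02f065_gt.Toric

namespace D1b

/-- first component of the dual vector -/
def w1 (G11 G12 G22 : ℝ → ℝ) (p q s : ℝ) : ℝ := (G22 s * p - G12 s * q) / Dt G11 G12 G22 s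
/-- second component of the dual vector -/
def w2 (G11 G12 G22 : ℝ → ℝ) (p q s : ℝ) : ℝ := (G11 s * q - G12 s * p) / Dt G11 G12 G22 s

lemma pair_eq (G11 G12 G22 : ℝ → ℝ) (p q s : ℝ) (hD : 0 < Dt G11 G12 G22 s) :
    p * w1 G11 G12 G22 p q s + q * w2 G11 G12 G22 p q s = Nf G11 G12 G22 s p q := by
  unfold w1 w2 Nf
  field_simp
  ring

lemma Q_eq (G11 G12 G22 : ℝ → ℝ) (p q s μ : ℝ) (hD : 0 < Dt G11 G12 G22 s) :
    Qf G11 G12 G22 s (μ * w1 G11 G12 G22 p q s) (μ * w2 G11 G12 G22 p q s) =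
      μ ^ 2 * Nf G11 G12 G22 s p q := by
  unfold w1 w2 Nf Qf
  have hD' := hD.ne'
  have e : (G22 s * p - G12 s * q) * (G11 s * (G22 s * p - G12 s * q)) +
      2 * G12 s * (G22 s * p - G12 s * q) * (G11 s * q - G12 s * p) +
      G22 s * (G11 s * q - G12 s * p) ^ 2 =
      Dt G11 G12 G22 s * (G22 s * p ^ 2 - 2 * G12 s * p * q + G11 s * q ^ 2) := by
    unfold Dt
    ring
  generalize Dt G11 G12 G22 s = D at *
  field_simp
  linear_combination μ ^ 2 * e

/-- the elementary estimate behind the limit `t → 1` -/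
lemma key_ineq {N t : ℝ} (hN : N ≤ 1) (ht0 : 0 < t) (ht1 : t < 1) :
    (1 - t * N) / Real.sqrt (1 - t ^ 2 * N) ≤
      Real.sqrt (1 - N) + Real.sqrt ((1 - t) / (1 + t)) := by
  have h1 : 0 < 1 - t ^ 2 * N := by nlinarith
  have h2 : 0 < 1 - t * N := by nlinarith
  have hs : 0 < Real.sqrt (1 - t ^ 2 * N) := Real.sqrt_pos.mpr h1
  have h3 : (1 - t * N) / Real.sqrt (1 - t ^ 2 * N) =
      Real.sqrt ((1 - t * N) ^ 2 / (1 - t ^ 2 * N)) := by
    rw [Real.sqrt_div' _ h1.le, Real.sqrt_sq h2.le]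
  have h4 : (1 - t * N) ^ 2 / (1 - t ^ 2 * N) ≤ (1 - N) + (1 - t) / (1 + t) := by
    rw [div_le_iff₀ h1, ← sub_nonneg]
    have h5 : ((1 - N) + (1 - t) / (1 + t)) * (1 - t ^ 2 * N) - (1 - t * N) ^ 2 =
        (1 - t) / (1 + t) * ((1 - t ^ 2 * N) - N * (1 - t) * (1 + t)) := by
      field_simp
      ring
    rw [h5]
    have h6 : (1 - t ^ 2 * N) - N * (1 - t) * (1 + t) = 1 - N := by ring
    rw [h6]
    have h7 : 0 ≤ (1 - t) / (1 + t) := div_nonneg (by linarith) (by linarith)
    exact mul_nonneg h7 (by linarith)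
  rw [h3]
  refine (Real.sqrt_le_sqrt h4).trans ?_
  have h7 : 0 ≤ (1 - t) / (1 + t) := div_nonneg (by linarith) (by linarith)
  rw [Real.sqrt_le_left (by positivity)]
  have e1 := Real.sq_sqrt (show 0 ≤ 1 - N by linarith)
  have e2 := Real.sq_sqrt h7
  have e3 : 0 ≤ Real.sqrt (1 - N) * Real.sqrt ((1 - t) / (1 + t)) := by positivity
  nlinarith

end D1b

open D1b in
theorem itemD1b : claimD1b := by
  intro σ L a G11 G12 G22 h s1 s2 p q h1 h12 h2 H
  have hsub : Icc s1 s2 ⊆ Ioo 0 σ := fun s hs => ⟨h1.trans_le hs.1, hs.2.trans_lt h2⟩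
  have ca := h.ca.mono hsub
  have c11 := h.c11.mono hsub
  have c12 := h.c12.mono hsub
  have c22 := h.c22.mono hsub
  have hD : ∀ s ∈ Icc s1 s2, 0 < Dt G11 G12 G22 s := fun s hs => h.posD s (hsub hs)
  have ha : ∀ s ∈ Icc s1 s2, 0 < a s := fun s hs => h.apos s (hsub hs)
  have cD : ContinuousOn (Dt G11 G12 G22) (Icc s1 s2) := by
    unfold Dt
    exact (c11.mul c22).sub (c12.pow 2)
  have cw1 : ContinuousOn (w1 G11 G12 G22 p q) (Icc s1 s2) :=
    ((c22.mul continuousOn_const).sub (c12.mul continuousOn_const)).div cD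
      (fun s hs => (hD s hs).ne')
  have cw2 : ContinuousOn (w2 G11 G12 G22 p q) (Icc s1 s2) :=
    ((c11.mul continuousOn_const).sub (c12.mul continuousOn_const)).div cD
      (fun s hs => (hD s hs).ne')
  set N : ℝ → ℝ := fun s => Nf G11 G12 G22 s p q with hNdef
  have cN : ContinuousOn N (Icc s1 s2) := by
    refine ((continuousOn_const.mul cw1).add (continuousOn_const.mul cw2)).congr
      (f := fun s => p * w1 G11 G12 G22 p q s + q * w2 G11 G12 G22 p q s) fun s hs => ?_
    exact (pair_eq G11 G12 G22 p q s (hD s hs)).symm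
  have hInt : ∀ f : ℝ → ℝ, ContinuousOn f (Icc s1 s2) → IntervalIntegrable f volume s1 s2 :=
    fun f hf => hf.intervalIntegrable_of_Icc h12.le
  have hK : InK G11 G12 G22 s1 s2 p q := by
    intro s0 hs0
    by_contra hcon
    push Not at hcon
    set χ : ℝ → ℝ := fun s => max 0 (N s - 1) with hχ
    have cχ : ContinuousOn χ (Icc s1 s2) :=
      continuousOn_const.sup (cN.sub continuousOn_const)
    have hχ0 : ∀ s, 0 ≤ χ s := fun s => le_max_left _ _
    have cF : ContinuousOn (fun s => χ s * (N s - Real.sqrt (N s))) (Icc s1 s2) :=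
      cχ.mul (cN.sub cN.sqrt)
    have hF0 : ∀ s, 0 ≤ χ s * (N s - Real.sqrt (N s)) := by
      intro s
      rcases le_or_gt (N s) 1 with hN | hN
      · have : χ s = 0 := max_eq_left (by linarith)
        rw [this, zero_mul]
      · apply mul_nonneg (hχ0 s)
        have : Real.sqrt (N s) ≤ N s := by
          rw [Real.sqrt_le_left (by linarith)]
          nlinarith
        linarith
    have hFpos : 0 < χ s0 * (N s0 - Real.sqrt (N s0)) := by
      have hN : 1 < N s0 := hcon
      have e1 : 0 < χ s0 := lt_of_lt_of_le (by linarith) (le_max_right _ _)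
      have e2 : Real.sqrt (N s0) < N s0 := by
        rw [Real.sqrt_lt' (by linarith)]
        nlinarith
      exact mul_pos e1 (by linarith)
    have hIpos : 0 < ∫ s in s1..s2, χ s * (N s - Real.sqrt (N s)) :=
      intervalIntegral.integral_pos h12 cF (fun s _ => hF0 s) ⟨s0, hs0, hFpos⟩
    set I : ℝ := ∫ s in s1..s2, χ s * (N s - Real.sqrt (N s)) with hI
    set Aa : ℝ := ∫ s in s1..s2, a s with hAa
    have hbound : ∀ μ : ℝ, 0 ≤ μ → 2 * (μ * I) ≤ Real.pi * (p + q) + 2 * Aa - L := by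
      intro μ hμ
      have hH := H (fun s => μ * χ s * w1 G11 G12 G22 p q s)
        (fun s => μ * χ s * w2 G11 G12 G22 p q s)
        ((continuousOn_const.mul cχ).mul cw1) ((continuousOn_const.mul cχ).mul cw2)
      have e1 : ∫ s in s1..s2, (p * (μ * χ s * w1 G11 G12 G22 p q s) +
          q * (μ * χ s * w2 G11 G12 G22 p q s)) = ∫ s in s1..s2, μ * χ s * N s := by
        apply intervalIntegral.integral_congr
        intro s hs
        rw [uIcc_of_le h12.le] at hs
        have := pair_eq G11 G12 G22 p q s (hD s hs)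
        simp only [hNdef]
        rw [← this]
        ring
      have e2 : ∫ s in s1..s2, Real.sqrt (a s ^ 2 + Qf G11 G12 G22 s
          (μ * χ s * w1 G11 G12 G22 p q s) (μ * χ s * w2 G11 G12 G22 p q s)) ≤
          ∫ s in s1..s2, (a s + μ * χ s * Real.sqrt (N s)) := by
        have e3 : ∫ s in s1..s2, Real.sqrt (a s ^ 2 + Qf G11 G12 G22 s
          (μ * χ s * w1 G11 G12 G22 p q s) (μ * χ s * w2 G11 G12 G22 p q s)) =
          ∫ s in s1..s2, Real.sqrt (a s ^ 2 + (μ * χ s) ^ 2 * N s) := by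
          apply intervalIntegral.integral_congr
          intro s hs
          rw [uIcc_of_le h12.le] at hs
          simp only
          rw [Q_eq G11 G12 G22 p q s _ (hD s hs)]
        rw [e3]
        apply intervalIntegral.integral_mono_on h12.le
        · apply hInt
          exact ((ca.pow 2).add (((continuousOn_const.mul cχ).pow 2).mul cN)).sqrt
        · apply hInt
          exact ca.add ((continuousOn_const.mul cχ).mul cN.sqrt)
        · intro s hs
          have ha' := ha s hs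
          rcases le_or_gt (N s) 1 with hN | hN
          · have : χ s = 0 := max_eq_left (by linarith)
            rw [this]
            simp [Real.sqrt_sq ha'.le]
          · have hχs := hχ0 s
            have hsq := Real.sq_sqrt (show 0 ≤ N s by linarith)
            have hs0 := Real.sqrt_nonneg (N s)
            rw [Real.sqrt_le_left (by positivity)]
            have e5 : 0 ≤ a s * (μ * χ s) * Real.sqrt (N s) := by positivity
            have e6 : (a s + μ * χ s * Real.sqrt (N s)) ^ 2 = a s ^ 2 +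
              (μ * χ s) ^ 2 * (Real.sqrt (N s)) ^ 2 + 2 * (a s * (μ * χ s) * Real.sqrt (N s)) := by
              ring
            rw [e6, hsq]
            linarith
      have k1 : ContinuousOn (fun s => μ * χ s * Real.sqrt (N s)) (Icc s1 s2) :=
        (continuousOn_const.mul cχ).mul cN.sqrt
      have k2 : ContinuousOn (fun s => μ * χ s * N s) (Icc s1 s2) :=
        (continuousOn_const.mul cχ).mul cN
      have e7 : ∫ s in s1..s2, (a s + μ * χ s * Real.sqrt (N s)) =
          Aa + ∫ s in s1..s2, μ * χ s * Real.sqrt (N s) := by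
        rw [intervalIntegral.integral_add (hInt _ ca) (hInt _ k1)]
      have e8 : μ * I = (∫ s in s1..s2, μ * χ s * N s) -
          ∫ s in s1..s2, μ * χ s * Real.sqrt (N s) := by
        rw [← intervalIntegral.integral_sub (hInt _ k2) (hInt _ k1), hI,
          ← intervalIntegral.integral_const_mul]
        apply intervalIntegral.integral_congr
        intro s _
        simp only
        ring
      rw [e1] at hH
      rw [e7] at e2
      linarith
    have h5 := hbound ((|Real.pi * (p + q) + 2 * Aa - L| + 1) / I) (by positivity)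
    have h6 : 2 * ((|Real.pi * (p + q) + 2 * Aa - L| + 1) / I * I) =
        2 * (|Real.pi * (p + q) + 2 * Aa - L| + 1) := by
      field_simp
    rw [h6] at h5
    have h7 := le_abs_self (Real.pi * (p + q) + 2 * Aa - L)
    have h8 := abs_nonneg (Real.pi * (p + q) + 2 * Aa - L)
    linarith
  refine ⟨hK, ?_⟩
  have hN1 : ∀ s ∈ Icc s1 s2, N s ≤ 1 := hK
  set Aa : ℝ := ∫ s in s1..s2, a s with hAa
  have hAa0 : 0 ≤ Aa := intervalIntegral.integral_nonneg h12.le fun s hs => (ha s hs).le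
  have hbound : ∀ t : ℝ, 0 < t → t < 1 →
      L ≤ Lam a G11 G12 G22 s1 s2 p q + 2 * (Real.sqrt ((1 - t) / (1 + t)) * Aa) := by
    intro t ht0 ht1
    have hden : ∀ s ∈ Icc s1 s2, 0 < 1 - t ^ 2 * N s := by
      intro s hs
      have := hN1 s hs
      nlinarith
    have cden : ContinuousOn (fun s => Real.sqrt (1 - t ^ 2 * N s)) (Icc s1 s2) :=
      (continuousOn_const.sub (continuousOn_const.mul cN)).sqrt
    have hdenpos : ∀ s ∈ Icc s1 s2, 0 < Real.sqrt (1 - t ^ 2 * N s) :=
      fun s hs => Real.sqrt_pos.mpr (hden s hs)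
    set m : ℝ → ℝ := fun s => a s * t / Real.sqrt (1 - t ^ 2 * N s) with hm
    have cm : ContinuousOn m (Icc s1 s2) :=
      (ca.mul continuousOn_const).div cden (fun s hs => (hdenpos s hs).ne')
    have hH := H (fun s => m s * w1 G11 G12 G22 p q s) (fun s => m s * w2 G11 G12 G22 p q s)
      (cm.mul cw1) (cm.mul cw2)
    have e1 : ∫ s in s1..s2, (p * (m s * w1 G11 G12 G22 p q s) +
        q * (m s * w2 G11 G12 G22 p q s)) = ∫ s in s1..s2, m s * N s := by
      apply intervalIntegral.integral_congr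
      intro s hs
      rw [uIcc_of_le h12.le] at hs
      have := pair_eq G11 G12 G22 p q s (hD s hs)
      simp only [hNdef]
      rw [← this]
      ring
    have e2 : ∫ s in s1..s2, Real.sqrt (a s ^ 2 + Qf G11 G12 G22 s
        (m s * w1 G11 G12 G22 p q s) (m s * w2 G11 G12 G22 p q s)) =
        ∫ s in s1..s2, a s / Real.sqrt (1 - t ^ 2 * N s) := by
      apply intervalIntegral.integral_congr
      intro s hs
      rw [uIcc_of_le h12.le] at hs
      simp only
      rw [Q_eq G11 G12 G22 p q s _ (hD s hs)]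
      have hd := hden s hs
      have hds := hdenpos s hs
      have hsq := Real.sq_sqrt hd.le
      have ha' := ha s hs
      have e3 : a s ^ 2 + m s ^ 2 * Nf G11 G12 G22 s p q =
          (a s / Real.sqrt (1 - t ^ 2 * N s)) ^ 2 := by
        simp only [hm]
        change a s ^ 2 + (a s * t / Real.sqrt (1 - t ^ 2 * N s)) ^ 2 * N s = _
        rw [div_pow, div_pow, hsq]
        field_simp
        ring
      rw [e3, Real.sqrt_sq (by positivity)]
    rw [e1, e2] at hH
    have e4 : ∫ s in s1..s2, a s / Real.sqrt (1 - t ^ 2 * N s) ≤ (∫ s in s1..s2, m s * N s) +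
        ((∫ s in s1..s2, a s * Real.sqrt (1 - N s)) + Real.sqrt ((1 - t) / (1 + t)) * Aa) := by
      have e5 : (∫ s in s1..s2, m s * N s) +
        ((∫ s in s1..s2, a s * Real.sqrt (1 - N s)) + Real.sqrt ((1 - t) / (1 + t)) * Aa) =
          ∫ s in s1..s2, (m s * N s + (a s * Real.sqrt (1 - N s) +
            Real.sqrt ((1 - t) / (1 + t)) * a s)) := by
        have k1 : ContinuousOn (fun s => m s * N s) (Icc s1 s2) := cm.mul cN
        have k2 : ContinuousOn (fun s => a s * Real.sqrt (1 - N s)) (Icc s1 s2) :=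
          ca.mul (continuousOn_const.sub cN).sqrt
        have k3 : ContinuousOn (fun s => Real.sqrt ((1 - t) / (1 + t)) * a s) (Icc s1 s2) :=
          continuousOn_const.mul ca
        have k4 : ContinuousOn (fun s => a s * Real.sqrt (1 - N s) +
            Real.sqrt ((1 - t) / (1 + t)) * a s) (Icc s1 s2) := k2.add k3
        rw [intervalIntegral.integral_add (hInt _ k1) (hInt _ k4),
          intervalIntegral.integral_add (hInt _ k2) (hInt _ k3),
          intervalIntegral.integral_const_mul]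
      rw [e5]
      apply intervalIntegral.integral_mono_on h12.le
      · apply hInt
        exact ca.div cden (fun s hs => (hdenpos s hs).ne')
      · apply hInt
        exact (cm.mul cN).add ((ca.mul (continuousOn_const.sub cN).sqrt).add
          (continuousOn_const.mul ca))
      · intro s hs
        have ha' := ha s hs
        have hk := key_ineq (hN1 s hs) ht0 ht1
        have hds := hdenpos s hs
        have e6 : a s / Real.sqrt (1 - t ^ 2 * N s) - m s * N s =
            a s * ((1 - t * N s) / Real.sqrt (1 - t ^ 2 * N s)) := by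
          simp only [hm]
          field_simp
        have e7 := mul_le_mul_of_nonneg_left hk ha'.le
        have e8 : a s * (Real.sqrt (1 - N s) + Real.sqrt ((1 - t) / (1 + t))) =
            a s * Real.sqrt (1 - N s) + Real.sqrt ((1 - t) / (1 + t)) * a s := by ring
        linarith
    have e9 : Lam a G11 G12 G22 s1 s2 p q = Real.pi * (p + q) +
        2 * ∫ s in s1..s2, a s * Real.sqrt (1 - N s) := rfl
    rw [e9]
    linarith
  have hlim : Tendsto (fun t : ℝ => Lam a G11 G12 G22 s1 s2 p q +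
      2 * (Real.sqrt ((1 - t) / (1 + t)) * Aa)) (𝓝[<] 1) (𝓝 (Lam a G11 G12 G22 s1 s2 p q)) := by
    have hc : ContinuousAt (fun t : ℝ => Lam a G11 G12 G22 s1 s2 p q +
      2 * (Real.sqrt ((1 - t) / (1 + t)) * Aa)) 1 := by
      apply ContinuousAt.add continuousAt_const
      apply ContinuousAt.mul continuousAt_const
      apply ContinuousAt.mul _ continuousAt_const
      apply ContinuousAt.comp Real.continuous_sqrt.continuousAt
      apply ContinuousAt.div (by fun_prop) (by fun_prop) (by norm_num)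
    have h3 := hc.tendsto.mono_left (nhdsWithin_le_nhds (s := Iio (1 : ℝ)))
    simpa using h3
  refine ge_of_tendsto hlim ?_
  have : Ioo (0 : ℝ) 1 ∈ 𝓝[<] (1 : ℝ) := Ioo_mem_nhdsLT (by norm_num)
  filter_upwards [this] with t ht
  exact hbound t ht.1 ht.2

end Pool.Agent.Work.MP_02f065_gt.Toric

end
end

section

open MeasureTheory Set Filter Topology

noncomputable section

namespace Pool.Agent.Work.MP_02f065_gt.Toric

theorem itemD2a (hc : claimD2c) : claimD2a := by
  intro σ a G11 G12 G22 hd s1 s2 h1 h12 h2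
  have hs : s1 ∈ Ioo 0 σ := ⟨h1, lt_of_le_of_lt h12 h2⟩
  have hG11 := hd.pos11 s1 hs
  have hD := hd.posD s1 hs
  have hD' : 0 < G11 s1 * G22 s1 - G12 s1 ^ 2 := hD
  have hG22 : 0 < G22 s1 := by
    by_contra hcon
    push Not at hcon
    have : G11 s1 * G22 s1 ≤ 0 := mul_nonpos_of_nonneg_of_nonpos hG11.le hcon
    nlinarith [sq_nonneg (G12 s1)]
  let K : Set (ℝ × ℝ) := {z | InK G11 G12 G22 s1 s2 z.1 z.2}
  have hcl : IsClosed K := by
    have : K = ⋂ s ∈ Icc s1 s2, {z : ℝ × ℝ | Nf G11 G12 G22 s z.1 z.2 ≤ 1} := by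
      ext z
      simp only [K, InK, mem_setOf_eq, mem_iInter]
    rw [this]
    refine isClosed_biInter fun s _ => isClosed_le ?_ continuous_const
    unfold Nf
    fun_prop
  have hsub : K ⊆ Icc (-Real.sqrt (G11 s1)) (Real.sqrt (G11 s1)) ×ˢ
      Icc (-Real.sqrt (G22 s1)) (Real.sqrt (G22 s1)) := by
    intro z hz
    have hN := hz s1 (left_mem_Icc.2 h12)
    unfold Nf at hN
    rw [div_le_one hD] at hN
    unfold Dt at hN
    have e1 : z.1 ^ 2 ≤ G11 s1 := by
      have : (G11 s1 * G22 s1 - G12 s1 ^ 2) * z.1 ^ 2 ≤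
          (G11 s1 * G22 s1 - G12 s1 ^ 2) * G11 s1 := by
        nlinarith [sq_nonneg (G12 s1 * z.1 - G11 s1 * z.2), mul_le_mul_of_nonneg_left hN hG11.le]
      exact le_of_mul_le_mul_left this hD'
    have e2 : z.2 ^ 2 ≤ G22 s1 := by
      have : (G11 s1 * G22 s1 - G12 s1 ^ 2) * z.2 ^ 2 ≤
          (G11 s1 * G22 s1 - G12 s1 ^ 2) * G22 s1 := by
        nlinarith [sq_nonneg (G22 s1 * z.1 - G12 s1 * z.2), mul_le_mul_of_nonneg_left hN hG22.le]
      exact le_of_mul_le_mul_left this hD'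
    refine ⟨abs_le.1 (Real.abs_le_sqrt e1), abs_le.1 (Real.abs_le_sqrt e2)⟩
  have hK : IsCompact K := (isCompact_Icc.prod isCompact_Icc).of_isClosed_subset hcl hsub
  have hne : K.Nonempty := by
    refine ⟨(0, 0), fun s _ => ?_⟩
    simp [Nf]
  have hcont : ContinuousOn (fun z : ℝ × ℝ => Lam a G11 G12 G22 s1 s2 z.1 z.2) K := by
    have h3 := hc σ a G11 G12 G22 hd
    have h4 : ContinuousOn (fun z : ℝ × ℝ => (((s1, s2), z) : (ℝ × ℝ) × (ℝ × ℝ))) K := by
      fun_prop
    exact h3.comp h4 fun z _ => ⟨h1, h12, h2⟩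
  obtain ⟨z, hz, hmax⟩ := hK.exists_isMaxOn hne hcont
  exact ⟨z, hz, fun p' q' h => hmax (show ((p', q') : ℝ × ℝ) ∈ K from h)⟩

end Pool.Agent.Work.MP_02f065_gt.Toric

end
end

section

open MeasureTheory Set Filter Topology

noncomputable section

namespace Pool.Agent.Work.MP_02f065_gt.Toric

namespace ID2b

theorem nf_par (G11 G12 G22 : ℝ → ℝ) (s : ℝ) (z w : ℝ × ℝ) :
    Nf G11 G12 G22 s ((z.1 + w.1) / 2) ((z.2 + w.2) / 2) +
      Nf G11 G12 G22 s ((z.1 - w.1) / 2) ((z.2 - w.2) / 2) =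
    (Nf G11 G12 G22 s z.1 z.2 + Nf G11 G12 G22 s w.1 w.2) / 2 := by
  unfold Nf
  ring

theorem nf_pos {G11 G12 G22 : ℝ → ℝ} {s : ℝ} (h11 : 0 < G11 s) (hD : 0 < Dt G11 G12 G22 s)
    {p q : ℝ} (h : p ≠ 0 ∨ q ≠ 0) : 0 < Nf G11 G12 G22 s p q := by
  unfold Nf
  refine div_pos ?_ hD
  have hD' : 0 < G11 s * G22 s - G12 s ^ 2 := hD
  have key : 0 < G11 s * (G22 s * p ^ 2 - 2 * G12 s * p * q + G11 s * q ^ 2) := by
    have e : G11 s * (G22 s * p ^ 2 - 2 * G12 s * p * q + G11 s * q ^ 2) =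
        (G12 s * p - G11 s * q) ^ 2 + (G11 s * G22 s - G12 s ^ 2) * p ^ 2 := by ring
    rw [e]
    by_cases hp : p = 0
    · have hq : q ≠ 0 := by
        rcases h with h | h
        · exact absurd hp h
        · exact h
      subst hp
      have : 0 < (G11 s * q) ^ 2 := by positivity
      nlinarith
    · have : 0 < (G11 s * G22 s - G12 s ^ 2) * p ^ 2 := by positivity
      nlinarith [sq_nonneg (G12 s * p - G11 s * q)]
  exact (mul_pos_iff_of_pos_left h11).1 key

end ID2b

open ID2b in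
theorem itemD2b : claimD2b := by
  intro σ a G11 G12 G22 hd s1 s2 h1 h12 h2 z w hz hw
  by_contra hne
  have hsub : Icc s1 s2 ⊆ Ioo 0 σ := fun s hs =>
    ⟨lt_of_lt_of_le h1 hs.1, lt_of_le_of_lt hs.2 h2⟩
  have hzw : (z.1 - w.1) / 2 ≠ 0 ∨ (z.2 - w.2) / 2 ≠ 0 := by
    by_contra hcon
    push Not at hcon
    apply hne
    refine Prod.ext ?_ ?_
    · linarith [hcon.1]
    · linarith [hcon.2]
  have hNm : ∀ s ∈ Icc s1 s2, Nf G11 G12 G22 s ((z.1 + w.1) / 2) ((z.2 + w.2) / 2) < 1 := by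
    intro s hs
    have h3 := nf_par G11 G12 G22 s z w
    have h4 := nf_pos (hd.pos11 s (hsub hs)) (hd.posD s (hsub hs)) hzw
    have h5 := hz.1 s hs
    have h6 := hw.1 s hs
    linarith
  have heq : Lam a G11 G12 G22 s1 s2 z.1 z.2 = Lam a G11 G12 G22 s1 s2 w.1 w.2 :=
    le_antisymm (hw.2 _ _ hz.1) (hz.2 _ _ hw.1)
  rcases h12.eq_or_lt with h | h
  · -- one point interval
    subst h
    have hcont : Continuous fun η : ℝ =>
        Nf G11 G12 G22 s1 ((z.1 + w.1) / 2 + η) ((z.2 + w.2) / 2 + η) := by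
      unfold Nf
      fun_prop
    have h0 : Nf G11 G12 G22 s1 ((z.1 + w.1) / 2 + 0) ((z.2 + w.2) / 2 + 0) < 1 := by
      simpa using hNm s1 (left_mem_Icc.2 le_rfl)
    have hev : ∀ᶠ η : ℝ in 𝓝 0,
        Nf G11 G12 G22 s1 ((z.1 + w.1) / 2 + η) ((z.2 + w.2) / 2 + η) < 1 :=
      hcont.continuousAt.eventually (gt_mem_nhds h0)
    obtain ⟨δ, hδ, hball⟩ := Metric.eventually_nhds_iff.1 hev
    have hη : Nf G11 G12 G22 s1 ((z.1 + w.1) / 2 + δ / 2) ((z.2 + w.2) / 2 + δ / 2) < 1 := by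
      apply hball
      rw [Real.dist_eq, sub_zero, abs_of_pos (by positivity)]
      linarith
    have hin : InK G11 G12 G22 s1 s1 ((z.1 + w.1) / 2 + δ / 2) ((z.2 + w.2) / 2 + δ / 2) := by
      intro s hs
      have : s = s1 := le_antisymm hs.2 hs.1
      rw [this]
      exact hη.le
    have h7 := hz.2 _ _ hin
    unfold Lam at h7 heq
    simp only [intervalIntegral.integral_same, mul_zero, add_zero] at h7 heq
    have hpi := Real.pi_pos
    nlinarith
  · -- proper interval
    have hcf : ∀ p q : ℝ, ContinuousOn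
        (fun s => a s * Real.sqrt (1 - Nf G11 G12 G22 s p q)) (Icc s1 s2) := by
      intro p q
      refine (hd.ca.mono hsub).mul (ContinuousOn.sqrt ?_)
      refine continuousOn_const.sub ?_
      unfold Nf Dt
      refine ContinuousOn.div ?_ ?_ ?_
      · exact (((hd.c22.mono hsub).mul continuousOn_const).sub
          (((continuousOn_const.mul (hd.c12.mono hsub)).mul continuousOn_const).mul
            continuousOn_const)).add ((hd.c11.mono hsub).mul continuousOn_const)
      · exact ((hd.c11.mono hsub).mul (hd.c22.mono hsub)).sub ((hd.c12.mono hsub).pow 2)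
      · intro s hs
        exact (hd.posD s (hsub hs)).ne'
    have hpt : ∀ s ∈ Icc s1 s2,
        (a s * Real.sqrt (1 - Nf G11 G12 G22 s z.1 z.2) +
          a s * Real.sqrt (1 - Nf G11 G12 G22 s w.1 w.2)) / 2 <
        a s * Real.sqrt (1 - Nf G11 G12 G22 s ((z.1 + w.1) / 2) ((z.2 + w.2) / 2)) := by
      intro s hs
      have ha := hd.apos s (hsub hs)
      have h3 := nf_par G11 G12 G22 s z w
      have h4 := nf_pos (hd.pos11 s (hsub hs)) (hd.posD s (hsub hs)) hzw
      have h5 := hz.1 s hs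
      have h6 := hw.1 s hs
      set r := Real.sqrt (1 - Nf G11 G12 G22 s z.1 z.2) with hr
      set r' := Real.sqrt (1 - Nf G11 G12 G22 s w.1 w.2) with hr'
      have hr2 : r ^ 2 = 1 - Nf G11 G12 G22 s z.1 z.2 := Real.sq_sqrt (by linarith)
      have hr2' : r' ^ 2 = 1 - Nf G11 G12 G22 s w.1 w.2 := Real.sq_sqrt (by linarith)
      have hlt : (r + r') / 2 <
          Real.sqrt (1 - Nf G11 G12 G22 s ((z.1 + w.1) / 2) ((z.2 + w.2) / 2)) := by
        apply Real.lt_sqrt_of_sq_lt
        nlinarith [sq_nonneg (r - r')]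
      have : (a s * r + a s * r') / 2 = a s * ((r + r') / 2) := by ring
      rw [this]
      exact mul_lt_mul_of_pos_left hlt ha
    have hint : ∀ p q : ℝ, IntervalIntegrable
        (fun s => a s * Real.sqrt (1 - Nf G11 G12 G22 s p q)) volume s1 s2 := by
      intro p q
      refine ContinuousOn.intervalIntegrable ?_
      rw [uIcc_of_le h12]
      exact hcf p q
    have hlt := intervalIntegral.integral_lt_integral_of_continuousOn_of_le_of_exists_lt h
      (((hcf z.1 z.2).add (hcf w.1 w.2)).div_const 2)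
      (hcf ((z.1 + w.1) / 2) ((z.2 + w.2) / 2))
      (fun s hs => (hpt s (Ioc_subset_Icc_self hs)).le)
      ⟨s1, left_mem_Icc.2 h12, hpt s1 (left_mem_Icc.2 h12)⟩
    have hsum : ∫ s in s1..s2, (a s * Real.sqrt (1 - Nf G11 G12 G22 s z.1 z.2) +
          a s * Real.sqrt (1 - Nf G11 G12 G22 s w.1 w.2)) / 2 =
        ((∫ s in s1..s2, a s * Real.sqrt (1 - Nf G11 G12 G22 s z.1 z.2)) +
          ∫ s in s1..s2, a s * Real.sqrt (1 - Nf G11 G12 G22 s w.1 w.2)) / 2 := by
      rw [intervalIntegral.integral_div, intervalIntegral.integral_add (hint _ _) (hint _ _)]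
    have hlt' : ∫ s in s1..s2, (a s * Real.sqrt (1 - Nf G11 G12 G22 s z.1 z.2) +
          a s * Real.sqrt (1 - Nf G11 G12 G22 s w.1 w.2)) / 2 <
        ∫ s in s1..s2, a s *
          Real.sqrt (1 - Nf G11 G12 G22 s ((z.1 + w.1) / 2) ((z.2 + w.2) / 2)) := hlt
    rw [hsum] at hlt'
    have h7 := hz.2 ((z.1 + w.1) / 2) ((z.2 + w.2) / 2) fun s hs => (hNm s hs).le
    unfold Lam at h7 heq
    linarith
end Pool.Agent.Work.MP_02f065_gt.Toric

end
end

section

/-!
MP_02f065_gt, item D2c: joint continuity of `Lam`.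
-/

open MeasureTheory Set Filter Topology

noncomputable section

namespace Pool.Agent.Work.MP_02f065_gt.Toric

namespace D2c

/-- clamp to `[c, d]` -/
def clamp (c d s : ℝ) : ℝ := max c (min d s)

lemma clamp_mem {c d : ℝ} (h : c ≤ d) (s : ℝ) : clamp c d s ∈ Icc c d := by
  unfold clamp
  exact ⟨le_max_left _ _, max_le h (min_le_left _ _)⟩

lemma clamp_eq {c d s : ℝ} (hs : s ∈ Icc c d) : clamp c d s = s := by
  unfold clamp
  rw [min_eq_right hs.2, max_eq_right hs.1]

lemma continuous_clamp (c d : ℝ) : Continuous (clamp c d) := by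
  unfold clamp
  fun_prop

lemma cont_comp {f : ℝ → ℝ} {σ c d : ℝ} (hf : ContinuousOn f (Ioo 0 σ)) (h0 : 0 < c) (h : c ≤ d)
    (hd : d < σ) : Continuous fun s => f (clamp c d s) := by
  apply hf.comp_continuous (continuous_clamp c d)
  intro s
  have := clamp_mem h s
  exact ⟨h0.trans_le this.1, this.2.trans_lt hd⟩

end D2c

open D2c in
theorem itemD2c : claimD2c := by
  intro σ a G11 G12 G22 h w0 hw0
  obtain ⟨h1, h2, h3⟩ := hw0
  obtain ⟨c, hc0, hc⟩ := exists_between h1
  obtain ⟨d, hd, hdσ⟩ := exists_between h3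
  have hcd : c ≤ d := (hc.le.trans h2).trans hd.le
  have hca := cont_comp h.ca hc0 hcd hdσ
  have hc11 := cont_comp h.c11 hc0 hcd hdσ
  have hc12 := cont_comp h.c12 hc0 hcd hdσ
  have hc22 := cont_comp h.c22 hc0 hcd hdσ
  have hD : ∀ s, G11 (clamp c d s) * G22 (clamp c d s) - G12 (clamp c d s) ^ 2 ≠ 0 := by
    intro s
    have h4 := clamp_mem hcd s
    exact (h.posD (clamp c d s) ⟨hc0.trans_le h4.1, h4.2.trans_lt hdσ⟩).ne'
  set f : (ℝ × ℝ) × (ℝ × ℝ) → ℝ → ℝ := fun w s =>
    a (clamp c d s) * Real.sqrt (1 - Nf G11 G12 G22 (clamp c d s) w.2.1 w.2.2) with hf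
  have hfc : Continuous fun z : ((ℝ × ℝ) × (ℝ × ℝ)) × ℝ => f z.1 z.2 := by
    have e11 : Continuous fun z : ((ℝ × ℝ) × (ℝ × ℝ)) × ℝ => G11 (clamp c d z.2) :=
      hc11.comp continuous_snd
    have e12 : Continuous fun z : ((ℝ × ℝ) × (ℝ × ℝ)) × ℝ => G12 (clamp c d z.2) :=
      hc12.comp continuous_snd
    have e22 : Continuous fun z : ((ℝ × ℝ) × (ℝ × ℝ)) × ℝ => G22 (clamp c d z.2) :=
      hc22.comp continuous_snd
    have hp : Continuous fun z : ((ℝ × ℝ) × (ℝ × ℝ)) × ℝ => z.1.2.1 := by fun_prop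
    have hq : Continuous fun z : ((ℝ × ℝ) × (ℝ × ℝ)) × ℝ => z.1.2.2 := by fun_prop
    simp only [hf, Nf, Dt]
    apply Continuous.mul (hca.comp continuous_snd)
    apply Continuous.sqrt
    apply Continuous.sub continuous_const
    apply Continuous.div
    · exact ((e22.mul (hp.pow 2)).sub (((continuous_const.mul e12).mul hp).mul hq)).add
        (e11.mul (hq.pow 2))
    · exact (e11.mul e22).sub (e12.pow 2)
    · intro z
      exact hD z.2
  have hint : ∀ (w : (ℝ × ℝ) × (ℝ × ℝ)) (x y : ℝ), IntervalIntegrable (f w) volume x y := by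
    intro w x y
    apply Continuous.intervalIntegrable
    exact hfc.comp (Continuous.prodMk continuous_const continuous_id)
  have hI1 : Continuous fun w : (ℝ × ℝ) × (ℝ × ℝ) => ∫ s in c..w.1.2, f w s :=
    intervalIntegral.continuous_parametric_intervalIntegral_of_continuous hfc
      (continuous_snd.comp continuous_fst)
  have hI2 : Continuous fun w : (ℝ × ℝ) × (ℝ × ℝ) => ∫ s in c..w.1.1, f w s :=
    intervalIntegral.continuous_parametric_intervalIntegral_of_continuous hfc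
      (continuous_fst.comp continuous_fst)
  have hG : Continuous fun w : (ℝ × ℝ) × (ℝ × ℝ) => Real.pi * (w.2.1 + w.2.2) +
      2 * ((∫ s in c..w.1.2, f w s) - ∫ s in c..w.1.1, f w s) := by
    have e : Continuous fun w : (ℝ × ℝ) × (ℝ × ℝ) => Real.pi * (w.2.1 + w.2.2) := by fun_prop
    exact e.add (continuous_const.mul (hI1.sub hI2))
  refine (hG.continuousAt.congr_of_eventuallyEq ?_).continuousWithinAt
  have hopen : IsOpen {w : (ℝ × ℝ) × (ℝ × ℝ) | c < w.1.1 ∧ w.1.1 < d ∧ c < w.1.2 ∧ w.1.2 < d} := by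
    apply IsOpen.inter
    · exact isOpen_lt continuous_const (continuous_fst.comp continuous_fst)
    apply IsOpen.inter
    · exact isOpen_lt (continuous_fst.comp continuous_fst) continuous_const
    apply IsOpen.inter
    · exact isOpen_lt continuous_const (continuous_snd.comp continuous_fst)
    · exact isOpen_lt (continuous_snd.comp continuous_fst) continuous_const
  have hmem : w0 ∈ {w : (ℝ × ℝ) × (ℝ × ℝ) |
      c < w.1.1 ∧ w.1.1 < d ∧ c < w.1.2 ∧ w.1.2 < d} :=
    ⟨hc, h2.trans_lt hd, hc.trans_le h2, hd⟩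
  filter_upwards [hopen.mem_nhds hmem] with w hw
  obtain ⟨k1, k2, k3, k4⟩ := hw
  rw [intervalIntegral.integral_interval_sub_left (hint w _ _) (hint w _ _)]
  unfold Lam
  congr 2
  apply intervalIntegral.integral_congr
  intro s hs
  have hs' : s ∈ Icc c d := by
    rw [mem_uIcc] at hs
    rcases hs with hs | hs
    · exact ⟨k1.le.trans hs.1, hs.2.trans k4.le⟩
    · exact ⟨k3.le.trans hs.1, hs.2.trans k2.le⟩
  simp only [hf, clamp_eq hs']

end Pool.Agent.Work.MP_02f065_gt.Toric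

end
end

section

/-! Item D3: the maximum point depends continuously on the interval. -/

open MeasureTheory Set Filter Topology

noncomputable section

namespace Pool.Agent.Work.MP_02f065_gt.Toric

namespace D3

variable {σ : ℝ} {a G11 G12 G22 : ℝ → ℝ}

theorem p_le (h : CoreData σ a G11 G12 G22) {s : ℝ} (hs : s ∈ Ioo 0 σ) (p q : ℝ) :
    p ^ 2 ≤ G11 s * Nf G11 G12 G22 s p q := by
  have hD := h.posD s hs
  have h1 : G11 s * Nf G11 G12 G22 s p q =
      (Dt G11 G12 G22 s * p ^ 2 + (G12 s * p - G11 s * q) ^ 2) / Dt G11 G12 G22 s := by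
    unfold Nf
    rw [mul_div_assoc']
    congr 1
    unfold Dt
    ring
  rw [h1, le_div_iff₀ hD]
  nlinarith [sq_nonneg (G12 s * p - G11 s * q)]

theorem q_le (h : CoreData σ a G11 G12 G22) {s : ℝ} (hs : s ∈ Ioo 0 σ) (p q : ℝ) :
    q ^ 2 ≤ G22 s * Nf G11 G12 G22 s p q := by
  have hD := h.posD s hs
  have h1 : G22 s * Nf G11 G12 G22 s p q =
      (Dt G11 G12 G22 s * q ^ 2 + (G22 s * p - G12 s * q) ^ 2) / Dt G11 G12 G22 s := by
    unfold Nf
    rw [mul_div_assoc']
    congr 1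
    unfold Dt
    ring
  rw [h1, le_div_iff₀ hD]
  nlinarith [sq_nonneg (G22 s * p - G12 s * q)]

theorem G22_pos (h : CoreData σ a G11 G12 G22) {s : ℝ} (hs : s ∈ Ioo 0 σ) : 0 < G22 s := by
  have hD := h.posD s hs
  have h11 := h.pos11 s hs
  unfold Dt at hD
  have : 0 < G11 s * G22 s := by nlinarith [sq_nonneg (G12 s)]
  exact (pos_iff_pos_of_mul_pos this).mp h11

theorem Nf_cont (h : CoreData σ a G11 G12 G22) :
    ContinuousOn (fun w : ℝ × (ℝ × ℝ) => Nf G11 G12 G22 w.1 w.2.1 w.2.2)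
      {w | w.1 ∈ Ioo 0 σ} := by
  have hf : ContinuousOn (fun w : ℝ × (ℝ × ℝ) => w.1) {w | w.1 ∈ Ioo 0 σ} :=
    continuous_fst.continuousOn
  have hm : MapsTo (fun w : ℝ × (ℝ × ℝ) => w.1) {w | w.1 ∈ Ioo 0 σ} (Ioo 0 σ) := fun w hw => hw
  have c11 : ContinuousOn (fun w : ℝ × (ℝ × ℝ) => G11 w.1) {w | w.1 ∈ Ioo 0 σ} :=
    h.c11.comp hf hm
  have c12 : ContinuousOn (fun w : ℝ × (ℝ × ℝ) => G12 w.1) {w | w.1 ∈ Ioo 0 σ} :=
    h.c12.comp hf hm
  have c22 : ContinuousOn (fun w : ℝ × (ℝ × ℝ) => G22 w.1) {w | w.1 ∈ Ioo 0 σ} :=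
    h.c22.comp hf hm
  have cp : ContinuousOn (fun w : ℝ × (ℝ × ℝ) => w.2.1) {w | w.1 ∈ Ioo 0 σ} := by fun_prop
  have cq : ContinuousOn (fun w : ℝ × (ℝ × ℝ) => w.2.2) {w | w.1 ∈ Ioo 0 σ} := by fun_prop
  unfold Nf
  refine ContinuousOn.div ?_ ?_ ?_
  · exact ((c22.mul (cp.pow 2)).sub (((continuousOn_const.mul c12).mul cp).mul cq)).add
      (c11.mul (cq.pow 2))
  · unfold Dt
    exact (c11.mul c22).sub (c12.pow 2)
  · intro w hw
    exact (h.posD w.1 hw).ne'

theorem Nf_smul (s t p q : ℝ) :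
    Nf G11 G12 G22 s (t * p) (t * q) = t ^ 2 * Nf G11 G12 G22 s p q := by
  unfold Nf
  rw [mul_div_assoc']
  congr 1
  ring

theorem clamp_mem {x y s : ℝ} (h : x ≤ y) : max x (min s y) ∈ Icc x y :=
  ⟨le_max_left _ _, max_le h (min_le_right _ _)⟩

theorem clamp_dist {x y x' y' s δ : ℝ} (hx : |x' - x| < δ) (hy : |y' - y| < δ)
    (hs : s ∈ Icc x' y') : |s - max x (min s y)| < δ := by
  obtain ⟨h1, h2⟩ := hs
  rw [abs_lt] at hx hy ⊢
  rcases le_total s y with h | h
  · rw [min_eq_left h]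
    rcases le_total x s with h' | h'
    · rw [max_eq_right h']
      constructor <;> linarith
    · rw [max_eq_left h']
      constructor <;> linarith
  · rw [min_eq_right h]
    rcases le_total x y with h' | h'
    · rw [max_eq_right h']
      constructor <;> linarith
    · rw [max_eq_left h']
      constructor <;> linarith

end D3

theorem itemD3 (hD2b : claimD2b) (hD2c : claimD2c) : claimD3 := by
  intro σ a G11 G12 G22 h ε M hε hεM hM m hm
  set T : Set (ℝ × ℝ) := {J : ℝ × ℝ | ε ≤ J.1 ∧ J.1 ≤ J.2 ∧ J.2 ≤ M} with hT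
  have hsub : Icc ε M ⊆ Ioo 0 σ := fun s hs => ⟨hε.trans_le hs.1, hs.2.trans_lt hM⟩
  -- the box
  obtain ⟨C1, hC1⟩ := (isCompact_Icc (a := ε) (b := M)).exists_bound_of_continuousOn
    (h.c11.mono hsub)
  obtain ⟨C2, hC2⟩ := (isCompact_Icc (a := ε) (b := M)).exists_bound_of_continuousOn
    (h.c22.mono hsub)
  set C : ℝ := max (max C1 C2) 0 with hC
  set B : Set (ℝ × ℝ) := Icc (-Real.sqrt C) (Real.sqrt C) ×ˢ Icc (-Real.sqrt C) (Real.sqrt C)
    with hB
  have hBc : IsCompact B := isCompact_Icc.prod isCompact_Icc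
  have hmB : ∀ J ∈ T, m J ∈ B := by
    intro J hJ
    obtain ⟨h1, h2, h3⟩ := hJ
    have hK := (hm J h1 h2 h3).1 J.1 ⟨le_rfl, h2⟩
    have hs : J.1 ∈ Icc ε M := ⟨h1, h2.trans h3⟩
    have hs' := hsub hs
    have hG1 := hC1 _ hs
    have hG2 := hC2 _ hs
    rw [Real.norm_eq_abs] at hG1 hG2
    have e1 : G11 J.1 ≤ C := (le_abs_self _).trans (hG1.trans
      ((le_max_left _ _).trans (le_max_left _ _)))
    have e2 : G22 J.1 ≤ C := (le_abs_self _).trans (hG2.trans
      ((le_max_right _ _).trans (le_max_left _ _)))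
    have f1 : (m J).1 ^ 2 ≤ C := by
      refine (D3.p_le h hs' (m J).1 (m J).2).trans ?_
      calc _ ≤ G11 J.1 * 1 := mul_le_mul_of_nonneg_left hK (h.pos11 _ hs').le
        _ ≤ C := by linarith
    have f2 : (m J).2 ^ 2 ≤ C := by
      refine (D3.q_le h hs' (m J).1 (m J).2).trans ?_
      calc _ ≤ G22 J.1 * 1 := mul_le_mul_of_nonneg_left hK (D3.G22_pos h hs').le
        _ ≤ C := by linarith
    exact ⟨abs_le.mp (Real.abs_le_sqrt f1), abs_le.mp (Real.abs_le_sqrt f2)⟩
  intro J hJ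
  obtain ⟨hJ1, hJ2, hJ3⟩ := hJ
  have hJpos : 0 < J.1 := hε.trans_le hJ1
  have hJσ : J.2 < σ := hJ3.trans_lt hM
  refine Filter.tendsto_of_subseq_tendsto ?_
  intro ns hns
  have hnsT : ∀ᶠ n in atTop, ns n ∈ T := hns.eventually (eventually_mem_nhdsWithin)
  have hnsJ : Tendsto ns atTop (𝓝 J) := tendsto_nhds_of_tendsto_nhdsWithin hns
  have hfr : ∃ᶠ n in atTop, m (ns n) ∈ B :=
    (hnsT.mono fun n hn => hmB _ hn).frequently
  obtain ⟨z, -, φ, hφ, hz⟩ := hBc.tendsto_subseq' (x := fun n => m (ns n)) hfr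
  refine ⟨φ, ?_⟩
  have hφt := hφ.tendsto_atTop
  have hn1 : Tendsto (fun n => ns (φ n)) atTop (𝓝 J) := hnsJ.comp hφt
  have hn2 : ∀ᶠ n in atTop, ns (φ n) ∈ T := hφt.eventually hnsT
  have hz' : Tendsto (fun n => m (ns (φ n))) atTop (𝓝 z) := hz
  have hn11 : Tendsto (fun n => (ns (φ n)).1) atTop (𝓝 J.1) :=
    (continuous_fst.tendsto J).comp hn1
  have hn12 : Tendsto (fun n => (ns (φ n)).2) atTop (𝓝 J.2) :=
    (continuous_snd.tendsto J).comp hn1
  -- the limit is a maximum point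
  have hmax : IsMaxAt a G11 G12 G22 J.1 J.2 z.1 z.2 := by
    constructor
    · intro s hs
      have hs0 : s ∈ Ioo 0 σ := ⟨hJpos.trans_le hs.1, hs.2.trans_lt hJσ⟩
      have hopen : IsOpen {w : ℝ × (ℝ × ℝ) | w.1 ∈ Ioo 0 σ} :=
        isOpen_Ioo.preimage continuous_fst
      have hca : ContinuousAt (fun w : ℝ × (ℝ × ℝ) => Nf G11 G12 G22 w.1 w.2.1 w.2.2) (s, z) :=
        (D3.Nf_cont h).continuousAt (hopen.mem_nhds hs0)
      have hsn : Tendsto (fun n => max (ns (φ n)).1 (min s (ns (φ n)).2)) atTop (𝓝 s) := by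
        have h1 : Tendsto (fun n => max (ns (φ n)).1 (min s (ns (φ n)).2)) atTop
            (𝓝 (max J.1 (min s J.2))) := hn11.max (tendsto_const_nhds.min hn12)
        rw [min_eq_left hs.2, max_eq_right hs.1] at h1
        exact h1
      have hlim : Tendsto (fun n => Nf G11 G12 G22 (max (ns (φ n)).1 (min s (ns (φ n)).2))
          (m (ns (φ n))).1 (m (ns (φ n))).2) atTop (𝓝 (Nf G11 G12 G22 s z.1 z.2)) :=
        hca.tendsto.comp (hsn.prodMk_nhds hz')
      refine le_of_tendsto hlim ?_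
      filter_upwards [hn2] with n hn
      exact (hm _ hn.1 hn.2.1 hn.2.2).1 _ (D3.clamp_mem hn.2.1)
    · intro p' q' hw
      have hLam := hD2c σ a G11 G12 G22 h
      have hstep : ∀ t ∈ Ioo (0 : ℝ) 1, Lam a G11 G12 G22 J.1 J.2 (t * p') (t * q') ≤
          Lam a G11 G12 G22 J.1 J.2 z.1 z.2 := by
        intro t ht
        -- an open set
        have hhc : ContinuousOn (fun s => Nf G11 G12 G22 s (t * p') (t * q')) (Ioo 0 σ) := by
          have := (D3.Nf_cont h).comp (f := fun s : ℝ => (s, (t * p', t * q'))) (s := Ioo 0 σ)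
            (by fun_prop) (fun s hs => hs)
          exact this
        have hU : IsOpen (Ioo 0 σ ∩ (fun s => Nf G11 G12 G22 s (t * p') (t * q')) ⁻¹' (Iio 1)) :=
          hhc.isOpen_inter_preimage isOpen_Ioo isOpen_Iio
        have hKU : Icc J.1 J.2 ⊆
            (Ioo 0 σ ∩ (fun s => Nf G11 G12 G22 s (t * p') (t * q')) ⁻¹' (Iio 1)) := by
          intro s hs
          have hs0 : s ∈ Ioo 0 σ := ⟨hJpos.trans_le hs.1, hs.2.trans_lt hJσ⟩
          refine ⟨hs0, ?_⟩
          have h1 := hw s hs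
          change Nf G11 G12 G22 s (t * p') (t * q') < 1
          rw [D3.Nf_smul]
          have h2 : t ^ 2 < 1 := by nlinarith [ht.1, ht.2]
          have h3 : t ^ 2 * Nf G11 G12 G22 s p' q' ≤ t ^ 2 * 1 :=
            mul_le_mul_of_nonneg_left h1 (sq_nonneg t)
          linarith
        obtain ⟨δ, hδ, hδU⟩ := isCompact_Icc.exists_thickening_subset_open hU hKU
        have hev : ∀ᶠ n in atTop, Lam a G11 G12 G22 (ns (φ n)).1 (ns (φ n)).2 (t * p') (t * q') ≤
            Lam a G11 G12 G22 (ns (φ n)).1 (ns (φ n)).2 (m (ns (φ n))).1 (m (ns (φ n))).2 := by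
          have d1 : ∀ᶠ n in atTop, |(ns (φ n)).1 - J.1| < δ :=
            (Metric.tendsto_nhds.mp hn11 δ hδ).mono fun n hn => by
              rwa [Real.dist_eq] at hn
          have d2 : ∀ᶠ n in atTop, |(ns (φ n)).2 - J.2| < δ :=
            (Metric.tendsto_nhds.mp hn12 δ hδ).mono fun n hn => by
              rwa [Real.dist_eq] at hn
          filter_upwards [hn2, d1, d2] with n hn e1 e2
          refine (hm _ hn.1 hn.2.1 hn.2.2).2 _ _ ?_
          intro s hs
          have hmem : s ∈ Metric.thickening δ (Icc J.1 J.2) := by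
            rw [Metric.mem_thickening_iff]
            refine ⟨max J.1 (min s J.2), D3.clamp_mem hJ2, ?_⟩
            rw [Real.dist_eq]
            exact D3.clamp_dist e1 e2 hs
          exact (hδU hmem).2.le
        have hdom : ∀ v : ℝ × ℝ, (J, v) ∈ {w : (ℝ × ℝ) × (ℝ × ℝ) | 0 < w.1.1 ∧
            w.1.1 ≤ w.1.2 ∧ w.1.2 < σ} := fun v => ⟨hJpos, hJ2, hJσ⟩
        have l1 : Tendsto (fun n => Lam a G11 G12 G22 (ns (φ n)).1 (ns (φ n)).2 (t * p') (t * q'))
            atTop (𝓝 (Lam a G11 G12 G22 J.1 J.2 (t * p') (t * q'))) := by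
          have := (hLam (J, (t * p', t * q')) (hdom _)).tendsto.comp
            (f := fun n => (ns (φ n), (t * p', t * q'))) (x := atTop) (by
              refine tendsto_nhdsWithin_iff.mpr ⟨hn1.prodMk_nhds tendsto_const_nhds, ?_⟩
              filter_upwards [hn2] with n hn
              exact ⟨hε.trans_le hn.1, hn.2.1, hn.2.2.trans_lt hM⟩)
          exact this
        have l2 : Tendsto (fun n => Lam a G11 G12 G22 (ns (φ n)).1 (ns (φ n)).2
            (m (ns (φ n))).1 (m (ns (φ n))).2)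
            atTop (𝓝 (Lam a G11 G12 G22 J.1 J.2 z.1 z.2)) := by
          have := (hLam (J, z) (hdom _)).tendsto.comp
            (f := fun n => (ns (φ n), m (ns (φ n)))) (x := atTop) (by
              refine tendsto_nhdsWithin_iff.mpr ⟨hn1.prodMk_nhds hz', ?_⟩
              filter_upwards [hn2] with n hn
              exact ⟨hε.trans_le hn.1, hn.2.1, hn.2.2.trans_lt hM⟩)
          exact this
        exact le_of_tendsto_of_tendsto l1 l2 hev
      have l3 : Tendsto (fun t : ℝ => Lam a G11 G12 G22 J.1 J.2 (t * p') (t * q')) (𝓝[<] 1)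
          (𝓝 (Lam a G11 G12 G22 J.1 J.2 p' q')) := by
        have hc1 : Tendsto (fun t : ℝ => (J, (t * p', t * q'))) (𝓝[<] 1)
            (𝓝[{w : (ℝ × ℝ) × (ℝ × ℝ) | 0 < w.1.1 ∧ w.1.1 ≤ w.1.2 ∧ w.1.2 < σ}]
              (J, (p', q'))) := by
          refine tendsto_nhdsWithin_iff.mpr ⟨?_, Eventually.of_forall fun t =>
            ⟨hJpos, hJ2, hJσ⟩⟩
          have : Tendsto (fun t : ℝ => (J, (t * p', t * q'))) (𝓝 1)
              (𝓝 (J, (1 * p', 1 * q'))) :=
            (Continuous.tendsto (by fun_prop) 1)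
          rw [one_mul, one_mul] at this
          exact this.mono_left nhdsWithin_le_nhds
        exact (hLam (J, (p', q')) ⟨hJpos, hJ2, hJσ⟩).tendsto.comp hc1
      refine le_of_tendsto l3 ?_
      have : Ioo (0 : ℝ) 1 ∈ 𝓝[<] (1 : ℝ) := Ioo_mem_nhdsLT (by norm_num)
      filter_upwards [this] with t ht
      exact hstep t ht
  have : m J = z := hD2b σ a G11 G12 G22 h J.1 J.2 hJpos hJ2 hJσ (m J) z
    (hm J hJ1 hJ2 hJ3) hmax
  rw [this]
  exact hz'

end Pool.Agent.Work.MP_02f065_gt.Toric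

end
end

section

/-! A Poincare-Miranda theorem for the triangle. -/

open Set

noncomputable section

namespace Pool.Agent.Work.MP_02f065_gt.Toric

/-- The unit square. -/
def d4Sq : Set (ℝ × ℝ) := {z | 0 ≤ z.1 ∧ z.1 ≤ 1 ∧ 0 ≤ z.2 ∧ z.2 ≤ 1}

/-- a fixed point of the clamped displacement is a zero -/
theorem d4_clamp {x h : ℝ} (hx : x = max 0 (min 1 (x - h))) (h0 : x = 0 → h ≤ 0)
    (h1 : x = 1 → 0 ≤ h) : h = 0 := by
  rcases lt_or_ge (x - h) 0 with hlt | hge
  · have h2 : min 1 (x - h) ≤ 0 := (min_le_right _ _).trans hlt.le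
    rw [max_eq_left h2] at hx
    have := h0 hx
    rw [hx] at hlt
    linarith
  · rcases lt_or_ge 1 (x - h) with hgt | hle
    · rw [min_eq_left hgt.le, max_eq_right zero_le_one] at hx
      have := h1 hx
      rw [hx] at hgt
      linarith
    · rw [min_eq_right hle, max_eq_right hge] at hx
      linarith

/-- Poincare-Miranda for the square -/
theorem d4_square (H1 H2 : ℝ × ℝ → ℝ) (c1 : ContinuousOn H1 d4Sq) (c2 : ContinuousOn H2 d4Sq)
    (a1 : ∀ t, 0 ≤ t → t ≤ 1 → H1 (0, t) ≤ 0) (b1 : ∀ t, 0 ≤ t → t ≤ 1 → 0 ≤ H1 (1, t))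
    (a2 : ∀ s, 0 ≤ s → s ≤ 1 → H2 (s, 0) ≤ 0) (b2 : ∀ s, 0 ≤ s → s ≤ 1 → 0 ≤ H2 (s, 1)) :
    ∃ z ∈ d4Sq, H1 z = 0 ∧ H2 z = 0 := by
  have hpt : ∀ x ∈ Icc (0 : Fin 2 → ℝ) 1, (x 0, x 1) ∈ d4Sq := by
    intro x hx
    exact ⟨hx.1 0, hx.2 0, hx.1 1, hx.2 1⟩
  have hcp : ContinuousOn (fun x : Fin 2 → ℝ => (x 0, x 1)) (Icc 0 1) := by
    fun_prop
  have e1 : ContinuousOn (fun x : Fin 2 → ℝ => H1 (x 0, x 1)) (Icc 0 1) :=
    c1.comp hcp hpt
  have e2 : ContinuousOn (fun x : Fin 2 → ℝ => H2 (x 0, x 1)) (Icc 0 1) :=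
    c2.comp hcp hpt
  obtain ⟨x, hx, hfx⟩ := Pool.Agent.Brouwer.brouwer_cube 2
    (fun x => ![max 0 (min 1 (x 0 - H1 (x 0, x 1))), max 0 (min 1 (x 1 - H2 (x 0, x 1)))])
    (by
      rw [continuousOn_pi]
      intro i
      fin_cases i
      · simp only [Fin.zero_eta, Matrix.cons_val_zero]
        have h0 : ContinuousOn (fun x : Fin 2 → ℝ => x 0) (Icc 0 1) := by fun_prop
        exact continuousOn_const.sup (continuousOn_const.inf (h0.sub e1))
      · simp only [Fin.mk_one, Matrix.cons_val_one]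
        have h0 : ContinuousOn (fun x : Fin 2 → ℝ => x 1) (Icc 0 1) := by fun_prop
        exact continuousOn_const.sup (continuousOn_const.inf (h0.sub e2)))
    (by
      intro x hx
      constructor
      · intro i
        fin_cases i <;> simp
      · intro i
        fin_cases i <;> simp)
  have g1 := congrFun hfx 0
  have g2 := congrFun hfx 1
  simp only [Matrix.cons_val_zero, Matrix.cons_val_one] at g1 g2
  refine ⟨(x 0, x 1), hpt x hx, ?_, ?_⟩
  · refine d4_clamp g1.symm ?_ ?_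
    · intro h
      rw [h]
      exact a1 _ (hx.1 1) (hx.2 1)
    · intro h
      rw [h]
      exact b1 _ (hx.1 1) (hx.2 1)
  · refine d4_clamp g2.symm ?_ ?_
    · intro h
      rw [h]
      exact a2 _ (hx.1 0) (hx.2 0)
    · intro h
      rw [h]
      exact b2 _ (hx.1 0) (hx.2 0)

theorem itemD4 : claimD4 := by
  intro ε M F1 F2 hεM hc1 hc2 hb1 hb2 hd
  set D := M - ε with hD
  have hDpos : 0 < D := by rw [hD]; linarith
  let Ψ : ℝ × ℝ → ℝ × ℝ := fun z =>
    (ε + D * z.1 * (1 - z.2 / 2), M - D * z.2 * (1 - z.1 / 2))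
  have hΨc : ContinuousOn Ψ d4Sq := by
    apply Continuous.continuousOn
    fun_prop
  have hΨm : MapsTo Ψ d4Sq {J : ℝ × ℝ | ε ≤ J.1 ∧ J.1 ≤ J.2 ∧ J.2 ≤ M} := by
    rintro ⟨s, t⟩ ⟨hs0, hs1, ht0, ht1⟩
    simp only at hs0 hs1 ht0 ht1
    have p1 : 0 ≤ D * s * (1 - t / 2) := by
      apply mul_nonneg (mul_nonneg hDpos.le hs0)
      linarith
    have p2 : 0 ≤ D * t * (1 - s / 2) := by
      apply mul_nonneg (mul_nonneg hDpos.le ht0)
      linarith
    have p3 : 0 ≤ D * ((1 - s) * (1 - t)) :=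
      mul_nonneg hDpos.le (mul_nonneg (by linarith) (by linarith))
    refine ⟨?_, ?_, ?_⟩
    · change ε ≤ ε + D * s * (1 - t / 2)
      linarith
    · change ε + D * s * (1 - t / 2) ≤ M - D * t * (1 - s / 2)
      nlinarith
    · change M - D * t * (1 - s / 2) ≤ M
      linarith
  have k1 : ContinuousOn (fun z => F1 (Ψ z)) d4Sq := hc1.comp hΨc hΨm
  have k2 : ContinuousOn (fun z => F2 (Ψ z)) d4Sq := hc2.comp hΨc hΨm
  have kf : ContinuousOn (fun z : ℝ × ℝ => z.1) d4Sq := continuous_fst.continuousOn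
  have ks : ContinuousOn (fun z : ℝ × ℝ => z.2) d4Sq := continuous_snd.continuousOn
  obtain ⟨z, hz, hz1, hz2⟩ := d4_square
    (fun z => F1 (Ψ z) + z.1 * max (F2 (Ψ z)) 0) (fun z => F2 (Ψ z) + z.2 * max (F1 (Ψ z)) 0)
    (k1.add (kf.mul (k2.sup continuousOn_const)))
    (k2.add (ks.mul (k1.sup continuousOn_const)))
    (by
      intro t ht0 ht1
      have h1 : Ψ (0, t) = (ε, M - D * t) := by simp [Ψ]
      simp only [h1, zero_mul, add_zero]
      apply hb1
      · nlinarith
      · nlinarith)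
    (by
      intro t ht0 ht1
      have h1 : Ψ (1, t) = (M - D * t / 2, M - D * t / 2) := by
        simp only [Ψ, hD, Prod.mk.injEq]
        constructor <;> ring
      simp only [h1, one_mul]
      have h2 := hd (M - D * t / 2) (by nlinarith) (by nlinarith)
      have h3 := le_max_left (F2 (M - D * t / 2, M - D * t / 2)) 0
      linarith)
    (by
      intro s hs0 hs1
      have h1 : Ψ (s, 0) = (ε + D * s, M) := by simp [Ψ]
      simp only [h1, zero_mul, add_zero]
      apply hb2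
      · nlinarith
      · nlinarith)
    (by
      intro s hs0 hs1
      have h1 : Ψ (s, 1) = (ε + D * s / 2, ε + D * s / 2) := by
        simp only [Ψ, hD, Prod.mk.injEq]
        constructor <;> ring
      simp only [h1, one_mul]
      have h2 := hd (ε + D * s / 2) (by nlinarith) (by nlinarith)
      have h3 := le_max_left (F1 (ε + D * s / 2, ε + D * s / 2)) 0
      linarith)
  have hm := hΨm hz
  obtain ⟨hs0, -, ht0, -⟩ := hz
  have q1 : 0 ≤ z.1 * max (F2 (Ψ z)) 0 := mul_nonneg hs0 (le_max_right _ _)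
  have q2 : 0 ≤ z.2 * max (F1 (Ψ z)) 0 := mul_nonneg ht0 (le_max_right _ _)
  have r1 : F1 (Ψ z) ≤ 0 := by linarith
  have r2 : F2 (Ψ z) ≤ 0 := by linarith
  rw [max_eq_right r2, mul_zero, add_zero] at hz1
  rw [max_eq_right r1, mul_zero, add_zero] at hz2
  exact ⟨Ψ z, hm.1, hm.2.1, hm.2.2, hz1, hz2⟩

end Pool.Agent.Work.MP_02f065_gt.Toric

end
end

section

/-! Item D5: the inequality for every momentum. -/

open MeasureTheory Set Filter Topology

noncomputable section

namespace Pool.Agent.Work.MP_02f065_gt.Toric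

theorem d5_pos22 {σ : ℝ} {a G11 G12 G22 : ℝ → ℝ} (h : CoreData σ a G11 G12 G22) {s : ℝ}
    (hs : s ∈ Ioo 0 σ) : 0 < G22 s := by
  have h1 := h.pos11 s hs
  have h2 := h.posD s hs
  unfold Dt at h2
  by_contra hcon
  push Not at hcon
  nlinarith [sq_nonneg (G12 s)]

theorem d5_num {G11 G12 G22 : ℝ → ℝ} {s p q : ℝ} (hD : 0 < Dt G11 G12 G22 s)
    (hN : Nf G11 G12 G22 s p q ≤ 1) :
    G22 s * p ^ 2 - 2 * G12 s * p * q + G11 s * q ^ 2 ≤ G11 s * G22 s - G12 s ^ 2 := by
  unfold Nf at hN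
  rw [div_le_one hD] at hN
  exact hN

theorem d5_q {G11 G12 G22 : ℝ → ℝ} {s p q : ℝ} (hD : 0 < Dt G11 G12 G22 s) (h22 : 0 < G22 s)
    (hN : Nf G11 G12 G22 s p q ≤ 1) : q ^ 2 ≤ G22 s := by
  have h1 := d5_num hD hN
  have h2 : 0 < G11 s * G22 s - G12 s ^ 2 := hD
  have h3 : (G11 s * G22 s - G12 s ^ 2) * q ^ 2 ≤ (G11 s * G22 s - G12 s ^ 2) * G22 s := by
    nlinarith [sq_nonneg (G22 s * p - G12 s * q)]
  exact le_of_mul_le_mul_left h3 h2

theorem d5_p {G11 G12 G22 : ℝ → ℝ} {s p q : ℝ} (hD : 0 < Dt G11 G12 G22 s) (h11 : 0 < G11 s)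
    (hN : Nf G11 G12 G22 s p q ≤ 1) : p ^ 2 ≤ G11 s := by
  have h1 := d5_num hD hN
  have h2 : 0 < G11 s * G22 s - G12 s ^ 2 := hD
  have h3 : (G11 s * G22 s - G12 s ^ 2) * p ^ 2 ≤ (G11 s * G22 s - G12 s ^ 2) * G11 s := by
    nlinarith [sq_nonneg (G11 s * q - G12 s * p)]
  exact le_of_mul_le_mul_left h3 h2

theorem d5_Nf_nonneg {G11 G12 G22 : ℝ → ℝ} {s : ℝ} (p q : ℝ) (hD : 0 < Dt G11 G12 G22 s)
    (h11 : 0 < G11 s) : 0 ≤ Nf G11 G12 G22 s p q := by
  unfold Nf
  apply div_nonneg _ hD.le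
  have h2 : 0 < G11 s * G22 s - G12 s ^ 2 := hD
  have h3 : 0 ≤ G11 s * (G22 s * p ^ 2 - 2 * G12 s * p * q + G11 s * q ^ 2) := by
    nlinarith [sq_nonneg (G11 s * q - G12 s * p), mul_nonneg h2.le (sq_nonneg p)]
  exact nonneg_of_mul_nonneg_right h3 h11

/-- the value at the diagonal -/
theorem d5_diag {σ L : ℝ} {a G11 G12 G22 : ℝ → ℝ} (h : CoreData σ a G11 G12 G22)
    (hd : DiagHyp σ L G11 G12 G22) {s p q : ℝ} (hs : s ∈ Ioo 0 σ)
    (hm : IsMaxAt a G11 G12 G22 s s p q) : L ≤ Real.pi * (p + q) := by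
  have h11 := h.pos11 s hs
  have hD := h.posD s hs
  have hD' : 0 < G11 s * G22 s - G12 s ^ 2 := hD
  have hS : 0 < G11 s + 2 * G12 s + G22 s := by
    have h1 : 0 < G11 s * (G11 s + 2 * G12 s + G22 s) := by
      nlinarith [sq_nonneg (G11 s + G12 s)]
    exact (mul_pos_iff_of_pos_left h11).mp h1
  set r := Real.sqrt (G11 s + 2 * G12 s + G22 s) with hr
  have hr0 : 0 < r := Real.sqrt_pos.mpr hS
  have hr2 : r ^ 2 = G11 s + 2 * G12 s + G22 s := Real.sq_sqrt hS.le
  have hK : InK G11 G12 G22 s s ((G11 s + G12 s) / r) ((G12 s + G22 s) / r) := by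
    intro t ht
    have hts : t = s := le_antisymm ht.2 ht.1
    subst hts
    unfold Nf
    rw [div_le_one hD]
    have h1 : G22 t * ((G11 t + G12 t) / r) ^ 2
        - 2 * G12 t * ((G11 t + G12 t) / r) * ((G12 t + G22 t) / r)
        + G11 t * ((G12 t + G22 t) / r) ^ 2
        = ((G11 t * G22 t - G12 t ^ 2) * (G11 t + 2 * G12 t + G22 t)) / r ^ 2 := by
      field_simp
      ring
    rw [h1, hr2, mul_div_assoc, div_self hS.ne', mul_one]
    exact le_refl _
  have h1 := hm.2 _ _ hK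
  unfold Lam at h1
  rw [intervalIntegral.integral_same, intervalIntegral.integral_same, mul_zero, add_zero,
    add_zero] at h1
  have h2 := hd s hs
  rw [← hr] at h2
  have h3 : (G11 s + G12 s) / r + (G12 s + G22 s) / r = r := by
    rw [← add_div, div_eq_iff hr0.ne', ← sq, hr2]
    ring
  rw [h3] at h1
  exact h2.trans h1

theorem itemD5 (hD1 : claimD1) (hD2a : claimD2a) (hD3 : claimD3) (hD4 : claimD4) : claimD5 := by
  intro σ L a G11 G12 G22 hc hp hd p0 q0 hp0 hq0 hpq
  have hpi := Real.pi_pos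
  have hσ := hc.σpos
  -- choice of the end points
  obtain ⟨ε, hε0, hεσ, hεG⟩ : ∃ ε, 0 < ε ∧ ε < σ / 2 ∧ G22 ε ≤ q0 ^ 2 := by
    have h1 : ∀ᶠ s in 𝓝[>] (0 : ℝ), G22 s < q0 ^ 2 :=
      hc.lim0.eventually_lt_const (by positivity)
    have h2 : ∀ᶠ s in 𝓝[>] (0 : ℝ), s ∈ Ioo 0 (σ / 2) := Ioo_mem_nhdsGT (by linarith)
    obtain ⟨ε, hε⟩ := (h1.and h2).exists
    exact ⟨ε, hε.2.1, hε.2.2, hε.1.le⟩
  obtain ⟨M, hM1, hM2, hMG⟩ : ∃ M, σ / 2 < M ∧ M < σ ∧ G11 M ≤ p0 ^ 2 := by
    have h1 : ∀ᶠ s in 𝓝[<] σ, G11 s < p0 ^ 2 :=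
      hc.limσ.eventually_lt_const (by positivity)
    have h2 : ∀ᶠ s in 𝓝[<] σ, s ∈ Ioo (σ / 2) σ := Ioo_mem_nhdsLT (by linarith)
    obtain ⟨M, hM⟩ := (h1.and h2).exists
    exact ⟨M, hM.2.1, hM.2.2, hM.1.le⟩
  have hεM : ε < M := by linarith
  -- the maximum point
  have hex : ∀ J : ℝ × ℝ, ∃ z : ℝ × ℝ, ε ≤ J.1 → J.1 ≤ J.2 → J.2 ≤ M →
      IsMaxAt a G11 G12 G22 J.1 J.2 z.1 z.2 := by
    intro J
    by_cases h : ε ≤ J.1 ∧ J.1 ≤ J.2 ∧ J.2 ≤ M
    · obtain ⟨z, hz⟩ := hD2a σ a G11 G12 G22 hc J.1 J.2 (by linarith [h.1]) h.2.1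
        (by linarith [h.2.2])
      exact ⟨z, fun _ _ _ => hz⟩
    · exact ⟨0, fun h1 h2 h3 => absurd ⟨h1, h2, h3⟩ h⟩
  choose m hm using hex
  have hmc := hD3 σ a G11 G12 G22 hc ε M hε0 hεM hM2 m (fun J h1 h2 h3 => hm J h1 h2 h3)
  have hdiag : ∀ x, ε ≤ x → x ≤ M → L ≤ Real.pi * ((m (x, x)).1 + (m (x, x)).2) := by
    intro x hx1 hx2
    exact d5_diag hc hd ⟨by linarith, by linarith⟩ (hm (x, x) hx1 le_rfl hx2)
  obtain ⟨J, hJ1, hJ12, hJ2, hF1, hF2⟩ := hD4 ε M (fun J => (m J).2 - q0) (fun J => (m J).1 - p0)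
    hεM ((continuous_snd.comp_continuousOn hmc).sub continuousOn_const)
    ((continuous_fst.comp_continuousOn hmc).sub continuousOn_const)
    (by
      intro y hy1 hy2
      have h1 := (hm (ε, y) le_rfl hy1 hy2).1 ε ⟨le_rfl, hy1⟩
      have hs : ε ∈ Ioo 0 σ := ⟨hε0, by linarith⟩
      have h2 := d5_q (hc.posD ε hs) (d5_pos22 hc hs) h1
      have h3 : (m (ε, y)).2 ^ 2 ≤ q0 ^ 2 := h2.trans hεG
      have h4 := abs_le_of_sq_le_sq h3 hq0.le
      linarith [(abs_le.mp h4).2])
    (by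
      intro x hx1 hx2
      have h1 := (hm (x, M) hx1 hx2 le_rfl).1 M ⟨hx2, le_rfl⟩
      have hs : M ∈ Ioo 0 σ := ⟨by linarith, hM2⟩
      have h2 := d5_p (hc.posD M hs) (hc.pos11 M hs) h1
      have h3 : (m (x, M)).1 ^ 2 ≤ p0 ^ 2 := h2.trans hMG
      have h4 := abs_le_of_sq_le_sq h3 hp0.le
      linarith [(abs_le.mp h4).2])
    (by
      intro x hx1 hx2
      have h1 := hdiag x hx1 hx2
      have h2 : Real.pi * (p0 + q0) < Real.pi * ((m (x, x)).1 + (m (x, x)).2) := by linarith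
      have h3 := lt_of_mul_lt_mul_left h2 hpi.le
      linarith)
  have hm1 : (m J).1 = p0 := by linarith
  have hm2 : (m J).2 = q0 := by linarith
  have hmax := hm J hJ1 hJ12 hJ2
  rw [hm1, hm2] at hmax
  have hlt : J.1 < J.2 := by
    rcases hJ12.lt_or_eq with h | h
    · exact h
    · exfalso
      have h1 : J = (J.1, J.1) := by
        ext
        · rfl
        · exact h.symm
      have h2 := hdiag J.1 hJ1 (by linarith)
      rw [← h1, hm1, hm2] at h2
      linarith
  obtain ⟨p, q, hK, hLam⟩ := hD1 σ L a G11 G12 G22 hc hp J.1 J.2 (by linarith) hlt (by linarith)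
  have h5 : L ≤ Lam a G11 G12 G22 J.1 J.2 p0 q0 := hLam.trans (hmax.2 p q hK)
  unfold Lam at h5
  refine h5.trans ?_
  -- comparison of the integrals
  set f : ℝ → ℝ := fun s => a s * Real.sqrt (1 - Nf G11 G12 G22 s p0 q0) with hf
  have hfc : ContinuousOn f (Ioo 0 σ) := by
    apply hc.ca.mul
    apply ContinuousOn.sqrt
    apply continuousOn_const.sub
    unfold Nf Dt
    apply ContinuousOn.div
    · exact ((hc.c22.mul continuousOn_const).sub
        (((continuousOn_const.mul hc.c12).mul continuousOn_const).mul continuousOn_const)).add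
        (hc.c11.mul continuousOn_const)
    · exact (hc.c11.mul hc.c22).sub (hc.c12.pow 2)
    · intro s hs
      exact (hc.posD s hs).ne'
  have hf0 : ∀ s ∈ Ioo 0 σ, 0 ≤ f s := fun s hs =>
    mul_nonneg (hc.apos s hs).le (Real.sqrt_nonneg _)
  have hfa : ∀ s ∈ Ioo 0 σ, f s ≤ a s := by
    intro s hs
    have h1 := d5_Nf_nonneg p0 q0 (hc.posD s hs) (hc.pos11 s hs)
    have h2 : Real.sqrt (1 - Nf G11 G12 G22 s p0 q0) ≤ 1 := by
      apply Real.sqrt_le_one.mpr
      linarith
    calc f s = a s * Real.sqrt (1 - Nf G11 G12 G22 s p0 q0) := rfl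
      _ ≤ a s * 1 := mul_le_mul_of_nonneg_left h2 (hc.apos s hs).le
      _ = a s := mul_one _
  have hfi : IntervalIntegrable f volume 0 σ := by
    rw [intervalIntegrable_iff_integrableOn_Ioo_of_le hσ.le]
    have hai : IntegrableOn a (Ioo 0 σ) volume := by
      rw [← intervalIntegrable_iff_integrableOn_Ioo_of_le hσ.le]
      exact hc.int
    refine Integrable.mono' hai (hfc.aestronglyMeasurable measurableSet_Ioo) ?_
    rw [ae_restrict_iff' measurableSet_Ioo]
    refine Filter.Eventually.of_forall fun s hs => ?_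
    rw [Real.norm_eq_abs, abs_of_nonneg (hf0 s hs)]
    exact hfa s hs
  have hint : ∫ s in J.1..J.2, f s ≤ ∫ s in (0 : ℝ)..σ, f s := by
    apply intervalIntegral.integral_mono_interval (by linarith) hJ12 (by linarith) _ hfi
    rw [← Measure.restrict_congr_set Ioo_ae_eq_Ioc]
    rw [Filter.EventuallyLE, ae_restrict_iff' measurableSet_Ioo]
    exact Filter.Eventually.of_forall fun s hs => hf0 s hs
  linarith

end Pool.Agent.Work.MP_02f065_gt.Toric

end
end
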