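import Pool.Agent.Work.MP_02f065_gt.Toric.Stmts
import Pool.Agent.Work.MP_02f065_gt.RPn.Stmts

/-! Bundle of small proof modules (one section per former module). -/

section

open MeasureTheory Set Filter Topology

noncomputable section

namespace Pool.Agent.Work.MP_02f065_gt.Toric

namespace IE1

theorem half (g : ℝ → ℝ) (hg : Integrable g) :
    ∫ x, g x = (∫ x in Ioi (0 : ℝ), g x) + ∫ x in Ioi (0 : ℝ), g (-x) := by
  rw [← intervalIntegral.integral_Iic_add_Ioi (b := (0 : ℝ)) hg.integrableOn hg.integrableOn,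
    add_comm]
  congr 1
  have := integral_comp_neg_Iic (0 : ℝ) (fun x => g (-x))
  simpa using this

/-- the integrand -/
def fB (A B C : ℝ) (z : ℝ × ℝ) : ℝ :=
  Real.sqrt (1 - (C * z.1 ^ 2 - 2 * B * z.1 * z.2 + A * z.2 ^ 2) / (A * C - B ^ 2))

theorem fB_neg (A B C : ℝ) (x y : ℝ) : fB A B C (-x, -y) = fB A B C (x, y) := by
  unfold fB
  congr 3
  ring

theorem fB_neg_right (A B C : ℝ) (x y : ℝ) : fB A B C (x, -y) = fB A (-B) C (x, y) := by
  unfold fB
  simp only [neg_sq, mul_neg, neg_mul]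

end IE1

open IE1 in
theorem itemE1 (h : claimE1b) : claimE1 := by
  intro A B C hA hD
  have hD' : 0 < A * C - (-B) ^ 2 := by rwa [neg_sq]
  obtain ⟨i1, v1⟩ := h A B C hA hD
  obtain ⟨i2, v2⟩ := h A (-B) C hA hD'
  have i1' : Integrable (fB A B C) := i1
  have i2' : Integrable (fB A (-B) C) := i2
  refine ⟨i1'.integrableOn, ?_⟩
  have e2 : ∀ z : ℝ × ℝ, Real.sqrt (1 - (C * z.1 ^ 2 + 2 * B * z.1 * z.2 + A * z.2 ^ 2) /
      (A * C - B ^ 2)) = fB A (-B) C z := by
    intro z
    unfold fB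
    congr 3
    · ring
    · ring
  simp_rw [e2]
  change (∫ z in (Ioi (0 : ℝ) ×ˢ Ioi (0 : ℝ)), fB A B C z) + _ = _
  have v1' : ∫ z, fB A B C z = 2 * Real.pi / 3 * Real.sqrt (A * C - B ^ 2) := v1
  rw [Measure.volume_eq_prod] at i1' i2' v1' ⊢
  rw [integral_prod _ i1', half _ i1'.integral_prod_left] at v1'
  rw [setIntegral_prod _ i1'.integrableOn, setIntegral_prod _ i2'.integrableOn,
    ← integral_add]
  · -- identify
    have hs : ∀ᵐ x : ℝ, Integrable (fun y => fB A B C (x, y)) := i1'.prod_right_ae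
    have key : ∀ᵐ x : ℝ, ∫ y, fB A B C (x, y) =
        (∫ y in Ioi (0 : ℝ), fB A B C (x, y)) + ∫ y in Ioi (0 : ℝ), fB A (-B) C (x, y) := by
      filter_upwards [hs] with x hx
      rw [half _ hx]
      simp_rw [fB_neg_right]
    have hneg : ∀ x : ℝ, ∫ y, fB A B C (-x, y) = ∫ y, fB A B C (x, y) := by
      intro x
      rw [← integral_neg_eq_self]
      simp_rw [fB_neg]
    simp_rw [hneg] at v1'
    have h4 : ∫ x in Ioi (0 : ℝ), ((∫ y in Ioi (0 : ℝ), fB A B C (x, y)) +
        ∫ y in Ioi (0 : ℝ), fB A (-B) C (x, y)) = ∫ x in Ioi (0 : ℝ), ∫ y, fB A B C (x, y) := by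
      apply setIntegral_congr_ae measurableSet_Ioi
      filter_upwards [key] with x hx _
      exact hx.symm
    rw [h4]
    linarith
  · have := (i1'.integrableOn (s := Ioi (0 : ℝ) ×ˢ Ioi (0 : ℝ)))
    rw [IntegrableOn, ← Measure.prod_restrict] at this
    exact this.integral_prod_left
  · have := (i2'.integrableOn (s := Ioi (0 : ℝ) ×ˢ Ioi (0 : ℝ)))
    rw [IntegrableOn, ← Measure.prod_restrict] at this
    exact this.integral_prod_left

end Pool.Agent.Work.MP_02f065_gt.Toric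

end
end

section

open MeasureTheory Set Filter Topology

noncomputable section

namespace Pool.Agent.Work.MP_02f065_gt.Toric

namespace IE1a

theorem radial : ∫ r in Ioi (0 : ℝ), r * Real.sqrt (1 - r ^ 2) = 1 / 3 := by
  have h1 : ∫ r in Ioi (0 : ℝ), r * Real.sqrt (1 - r ^ 2) =
      ∫ r in Ioc (0 : ℝ) 1, r * Real.sqrt (1 - r ^ 2) := by
    rw [← Ioc_union_Ioi_eq_Ioi (zero_le_one : (0 : ℝ) ≤ 1)]
    apply setIntegral_eq_of_subset_of_forall_sdiff_eq_zero
      (measurableSet_Ioc.union measurableSet_Ioi) subset_union_left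
    intro r hr
    have h2 : 1 < r := by
      rcases hr.1 with h | h
      · exact absurd h hr.2
      · exact h
    rw [Real.sqrt_eq_zero_of_nonpos (by nlinarith), mul_zero]
  rw [h1, ← intervalIntegral.integral_of_le zero_le_one]
  have hder : ∀ r ∈ Ioo (0 : ℝ) 1, HasDerivAt
      (fun r : ℝ => -(1 / 3) * ((1 - r ^ 2) * Real.sqrt (1 - r ^ 2)))
      (r * Real.sqrt (1 - r ^ 2)) r := by
    intro r hr
    have hpos : 0 < 1 - r ^ 2 := by nlinarith [hr.1, hr.2]
    have d1 : HasDerivAt (fun r : ℝ => 1 - r ^ 2) (-(2 * r)) r := by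
      have := (hasDerivAt_pow 2 r).const_sub 1
      simpa using this
    have d2 := d1.sqrt hpos.ne'
    have d3 := (d1.mul d2).const_mul (-(1 / 3) : ℝ)
    refine d3.congr_deriv ?_
    have hs : Real.sqrt (1 - r ^ 2) ≠ 0 := (Real.sqrt_pos.2 hpos).ne'
    have hsq : Real.sqrt (1 - r ^ 2) ^ 2 = 1 - r ^ 2 := Real.sq_sqrt hpos.le
    field_simp
    rw [hsq]
    ring
  have hF : ContinuousOn (fun r : ℝ => -(1 / 3) * ((1 - r ^ 2) * Real.sqrt (1 - r ^ 2)))
      (Icc 0 1) := by
    fun_prop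
  have hI : IntervalIntegrable (fun r : ℝ => r * Real.sqrt (1 - r ^ 2)) volume 0 1 := by
    apply Continuous.intervalIntegrable
    fun_prop
  rw [intervalIntegral.integral_eq_sub_of_hasDerivAt_of_le zero_le_one hF hder hI]
  norm_num

end IE1a

open IE1a in
theorem itemE1a : claimE1a := by
  constructor
  · apply Continuous.integrable_of_hasCompactSupport
    · fun_prop
    · apply HasCompactSupport.intro (isCompact_Icc.prod isCompact_Icc : IsCompact
        (Icc (-1 : ℝ) 1 ×ˢ Icc (-1 : ℝ) 1))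
      intro z hz
      apply Real.sqrt_eq_zero_of_nonpos
      by_contra hcon
      push Not at hcon
      apply hz
      refine ⟨abs_le.1 (abs_le_of_sq_le_sq (by nlinarith [sq_nonneg z.2]) zero_le_one),
        abs_le.1 (abs_le_of_sq_le_sq (by nlinarith [sq_nonneg z.1]) zero_le_one)⟩
  · rw [← integral_comp_polarCoord_symm]
    have h1 : ∀ p : ℝ × ℝ, p.1 • Real.sqrt (1 - ((polarCoord.symm p).1 ^ 2 +
        (polarCoord.symm p).2 ^ 2)) = (p.1 * Real.sqrt (1 - p.1 ^ 2)) * 1 := by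
      intro p
      have : (polarCoord.symm p).1 ^ 2 + (polarCoord.symm p).2 ^ 2 = p.1 ^ 2 := by
        simp only [polarCoord_symm_apply]
        nlinarith [Real.sin_sq_add_cos_sq p.2]
      rw [this, smul_eq_mul, mul_one]
    simp_rw [h1]
    rw [polarCoord_target, Measure.volume_eq_prod, setIntegral_prod_mul (μ := volume)
      (ν := volume) (fun r : ℝ => r * Real.sqrt (1 - r ^ 2)) (fun _ => (1 : ℝ)), radial]
    simp only [integral_const, MeasurableSet.univ, measureReal_restrict_apply, univ_inter,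
      Real.volume_real_Ioo, smul_eq_mul, mul_one]
    rw [max_eq_left (by linarith [Real.pi_pos])]
    ring

end Pool.Agent.Work.MP_02f065_gt.Toric

end
end

section

open MeasureTheory Set Filter Topology

noncomputable section

namespace Pool.Agent.Work.MP_02f065_gt.Toric

namespace IE1b

theorem integ {A B C : ℝ} (hA : 0 < A) (hD : 0 < A * C - B ^ 2) :
    Integrable (fun z : ℝ × ℝ =>
      Real.sqrt (1 - (C * z.1 ^ 2 - 2 * B * z.1 * z.2 + A * z.2 ^ 2) / (A * C - B ^ 2))) := by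
  have hC : 0 < C := by
    by_contra hcon
    push Not at hcon
    have : A * C ≤ 0 := mul_nonpos_of_nonneg_of_nonpos hA.le hcon
    nlinarith [sq_nonneg B]
  apply Continuous.integrable_of_hasCompactSupport
  · fun_prop
  · apply HasCompactSupport.intro (isCompact_Icc.prod isCompact_Icc : IsCompact
      (Icc (-Real.sqrt A) (Real.sqrt A) ×ˢ Icc (-Real.sqrt C) (Real.sqrt C)))
    intro z hz
    apply Real.sqrt_eq_zero_of_nonpos
    by_contra hcon
    push Not at hcon
    have hN : C * z.1 ^ 2 - 2 * B * z.1 * z.2 + A * z.2 ^ 2 ≤ A * C - B ^ 2 := by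
      have : (C * z.1 ^ 2 - 2 * B * z.1 * z.2 + A * z.2 ^ 2) / (A * C - B ^ 2) < 1 := by
        linarith
      rw [div_lt_one hD] at this
      exact this.le
    apply hz
    have e1 : z.1 ^ 2 ≤ A := by
      have : (A * C - B ^ 2) * z.1 ^ 2 ≤ (A * C - B ^ 2) * A := by
        nlinarith [sq_nonneg (B * z.1 - A * z.2), mul_le_mul_of_nonneg_left hN hA.le]
      exact le_of_mul_le_mul_left this hD
    have e2 : z.2 ^ 2 ≤ C := by
      have : (A * C - B ^ 2) * z.2 ^ 2 ≤ (A * C - B ^ 2) * C := by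
        nlinarith [sq_nonneg (C * z.1 - B * z.2), mul_le_mul_of_nonneg_left hN hC.le]
      exact le_of_mul_le_mul_left this hD
    exact ⟨abs_le.1 (Real.abs_le_sqrt e1), abs_le.1 (Real.abs_le_sqrt e2)⟩

theorem scale (g : ℝ → ℝ) {k : ℝ} (hk : 0 < k) (c : ℝ) :
    ∫ y, g (k * (y - c)) = k⁻¹ * ∫ y, g y := by
  have h1 := integral_sub_right_eq_self (μ := (volume : Measure ℝ)) (fun y => g (k * y)) c
  rw [h1, Measure.integral_comp_mul_left, smul_eq_mul, abs_of_pos (inv_pos.2 hk)]

end IE1b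

open IE1b in
theorem itemE1b (h : claimE1a) : claimE1b := by
  intro A B C hA hD
  refine ⟨integ hA hD, ?_⟩
  set D := A * C - B ^ 2 with hDdef
  have hsA : 0 < Real.sqrt A := Real.sqrt_pos.2 hA
  have hsD : 0 < Real.sqrt D := Real.sqrt_pos.2 hD
  have hA2 : Real.sqrt A ^ 2 = A := Real.sq_sqrt hA.le
  have hD2 : Real.sqrt D ^ 2 = D := Real.sq_sqrt hD.le
  have h1 := integ hA hD
  rw [Measure.volume_eq_prod] at h1 ⊢
  rw [integral_prod _ h1]
  have hform : ∀ x y : ℝ, (C * x ^ 2 - 2 * B * x * y + A * y ^ 2) / (A * C - B ^ 2) =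
      ((Real.sqrt A)⁻¹ * (x - 0)) ^ 2 +
        ((Real.sqrt A / Real.sqrt D) * (y - (B / A) * x)) ^ 2 := by
    intro x y
    rw [mul_pow, mul_pow, inv_pow, div_pow, hA2, hD2, ← hDdef]
    have hD0 : D ≠ 0 := hD.ne'
    have hA0 : A ≠ 0 := hA.ne'
    have hC : C = (D + B ^ 2) / A := by
      rw [eq_div_iff hA0, hDdef]
      ring
    clear_value D
    subst hC
    field_simp
    ring
  have hinner : ∀ x : ℝ, ∫ y, Real.sqrt (1 - (C * x ^ 2 - 2 * B * x * y + A * y ^ 2) /
      (A * C - B ^ 2)) = (Real.sqrt A / Real.sqrt D)⁻¹ *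
      (fun u => ∫ v, Real.sqrt (1 - (u ^ 2 + v ^ 2))) ((Real.sqrt A)⁻¹ * (x - 0)) := by
    intro x
    simp_rw [hform x]
    exact scale (fun v => Real.sqrt (1 - (((Real.sqrt A)⁻¹ * (x - 0)) ^ 2 + v ^ 2)))
      (div_pos hsA hsD) ((B / A) * x)
  simp only [hinner]
  rw [integral_const_mul, scale (fun u => ∫ v, Real.sqrt (1 - (u ^ 2 + v ^ 2)))
    (inv_pos.2 hsA) 0]
  obtain ⟨h2, h3⟩ := h
  rw [Measure.volume_eq_prod] at h2 h3
  rw [integral_prod _ h2] at h3
  simp only at h3
  rw [h3]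
  field_simp

end Pool.Agent.Work.MP_02f065_gt.Toric

end
end

section

open MeasureTheory Set Filter Topology

noncomputable section

namespace Pool.Agent.Work.MP_02f065_gt.Toric

theorem itemE2 : claimE2 := by
  intro L hL
  have hpi := Real.pi_pos
  set R := L / Real.pi with hR
  have hRL : Real.pi * R = L := by
    rw [hR]
    field_simp
  have hR0 : 0 < R := div_pos hL hpi
  set S : Set (ℝ × ℝ) := {z : ℝ × ℝ | 0 < z.1 ∧ 0 < z.2 ∧ Real.pi * (z.1 + z.2) < L} with hS
  have hSm : MeasurableSet S := by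
    refine (measurableSet_lt measurable_const measurable_fst).inter
      ((measurableSet_lt measurable_const measurable_snd).inter ?_)
    exact measurableSet_lt (f := fun z : ℝ × ℝ => Real.pi * (z.1 + z.2)) (by fun_prop)
      measurable_const
  have hSsub : S ⊆ Icc 0 R ×ˢ Icc 0 R := by
    rintro z ⟨h1, h2, h3⟩
    have h4 : z.1 + z.2 < R := by
      rw [← hRL] at h3
      exact lt_of_mul_lt_mul_left h3 hpi.le
    exact ⟨⟨h1.le, by linarith⟩, ⟨h2.le, by linarith⟩⟩
  have hint : IntegrableOn (fun z : ℝ × ℝ => L - Real.pi * (z.1 + z.2)) S := by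
    refine IntegrableOn.mono_set ?_ hSsub
    exact (by fun_prop : Continuous fun z : ℝ × ℝ => L - Real.pi * (z.1 + z.2)).continuousOn
      |>.integrableOn_compact (isCompact_Icc.prod isCompact_Icc)
  rw [← integral_indicator hSm, Measure.volume_eq_prod,
    integral_prod _ ((integrable_indicator_iff hSm).2 hint)]
  have hinner : ∀ x : ℝ, ∫ y, S.indicator (fun z : ℝ × ℝ => L - Real.pi * (z.1 + z.2)) (x, y) =
      (Ioc 0 R).indicator (fun x => Real.pi * (R - x) ^ 2 / 2) x := by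
    intro x
    by_cases hx : x ∈ Ioc 0 R
    · rw [indicator_of_mem hx]
      have h1 : (fun y => S.indicator (fun z : ℝ × ℝ => L - Real.pi * (z.1 + z.2)) (x, y)) =
          (Ioo 0 (R - x)).indicator (fun y => L - Real.pi * (x + y)) := by
        funext y
        by_cases hy : y ∈ Ioo 0 (R - x)
        · rw [indicator_of_mem hy, indicator_of_mem]
          refine ⟨hx.1, hy.1, ?_⟩
          change Real.pi * (x + y) < L
          rw [← hRL]
          exact mul_lt_mul_of_pos_left (by linarith [hy.2]) hpi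
        · rw [indicator_of_notMem hy, indicator_of_notMem]
          rintro ⟨_, h2, h3⟩
          change Real.pi * (x + y) < L at h3
          rw [← hRL] at h3
          have := lt_of_mul_lt_mul_left h3 hpi.le
          exact hy ⟨h2, by linarith⟩
      rw [h1, integral_indicator measurableSet_Ioo, ← integral_Ioc_eq_integral_Ioo,
        ← intervalIntegral.integral_of_le (by linarith [hx.2])]
      have hder : ∀ y ∈ uIcc 0 (R - x), HasDerivAt
          (fun y : ℝ => L * y - Real.pi * (x * y + y ^ 2 / 2)) (L - Real.pi * (x + y)) y := by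
        intro y _
        have d1 : HasDerivAt (fun y : ℝ => L * y) L y := by
          simpa using (hasDerivAt_id y).const_mul L
        have d2 : HasDerivAt (fun y : ℝ => x * y + y ^ 2 / 2) (x + y) y := by
          have e1 : HasDerivAt (fun y : ℝ => x * y) x y := by
            simpa using (hasDerivAt_id y).const_mul x
          have e2 : HasDerivAt (fun y : ℝ => y ^ 2 / 2) y y := by
            have := (hasDerivAt_pow 2 y).div_const 2
            refine this.congr_deriv ?_
            simp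
          exact e1.add e2
        exact d1.sub (d2.const_mul Real.pi)
      rw [intervalIntegral.integral_eq_sub_of_hasDerivAt hder
        ((by fun_prop : Continuous fun y : ℝ => L - Real.pi * (x + y)).intervalIntegrable _ _)]
      rw [← hRL]
      ring
    · rw [indicator_of_notMem hx]
      have h1 : (fun y => S.indicator (fun z : ℝ × ℝ => L - Real.pi * (z.1 + z.2)) (x, y)) =
          fun _ => 0 := by
        funext y
        apply indicator_of_notMem
        rintro ⟨h1, h2, h3⟩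
        change 0 < x at h1
        change 0 < y at h2
        change Real.pi * (x + y) < L at h3
        rw [← hRL] at h3
        have := lt_of_mul_lt_mul_left h3 hpi.le
        exact hx ⟨h1, by linarith⟩
      rw [h1, integral_zero]
  simp_rw [hinner]
  rw [integral_indicator measurableSet_Ioc, ← intervalIntegral.integral_of_le hR0.le]
  have hder : ∀ x ∈ uIcc 0 R, HasDerivAt
      (fun x : ℝ => -(Real.pi * (R - x) ^ 3 / 6)) (Real.pi * (R - x) ^ 2 / 2) x := by
    intro x _
    have d1 : HasDerivAt (fun x : ℝ => R - x) (-1) x := by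
      simpa using (hasDerivAt_id x).const_sub R
    have d2 := (((d1.pow 3).const_mul Real.pi).div_const 6).neg
    refine d2.congr_deriv ?_
    norm_num
    ring
  rw [intervalIntegral.integral_eq_sub_of_hasDerivAt hder
    ((by fun_prop : Continuous fun x : ℝ => Real.pi * (R - x) ^ 2 / 2).intervalIntegrable _ _)]
  rw [hR]
  field_simp
  ring

end Pool.Agent.Work.MP_02f065_gt.Toric

end
end

section

open MeasureTheory Set Filter Topology

noncomputable section

namespace Pool.Agent.Work.MP_02f065_gt.Toric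

theorem E3_Nf_nonneg {σ : ℝ} {a G11 G12 G22 : ℝ → ℝ} (h : CoreData σ a G11 G12 G22)
    {s : ℝ} (hs : s ∈ Ioo 0 σ) (p q : ℝ) : 0 ≤ Nf G11 G12 G22 s p q := by
  have h1 := h.pos11 s hs
  have h2 := h.posD s hs
  unfold Nf
  apply div_nonneg _ h2.le
  have h3 : 0 ≤ G11 s * (G22 s * p ^ 2 - 2 * G12 s * p * q + G11 s * q ^ 2) := by
    have h4 : G11 s * (G22 s * p ^ 2 - 2 * G12 s * p * q + G11 s * q ^ 2) =
        (G11 s * G22 s - G12 s ^ 2) * p ^ 2 + (G12 s * p - G11 s * q) ^ 2 := by ring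
    rw [h4]
    unfold Dt at h2
    positivity
  exact nonneg_of_mul_nonneg_right h3 h1

/-- The integrand. -/
def E3F (a G11 G12 G22 : ℝ → ℝ) (w : ℝ × (ℝ × ℝ)) : ℝ :=
  a w.1 * Real.sqrt (1 - Nf G11 G12 G22 w.1 w.2.1 w.2.2)

theorem E3F_cont {σ : ℝ} {a G11 G12 G22 : ℝ → ℝ} (h : CoreData σ a G11 G12 G22) :
    ContinuousOn (E3F a G11 G12 G22) (Ioo 0 σ ×ˢ (univ : Set (ℝ × ℝ))) := by
  have hf : ContinuousOn (fun w : ℝ × (ℝ × ℝ) => w.1) (Ioo 0 σ ×ˢ (univ : Set (ℝ × ℝ))) :=
    continuous_fst.continuousOn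
  have hm : MapsTo (fun w : ℝ × (ℝ × ℝ) => w.1) (Ioo 0 σ ×ˢ (univ : Set (ℝ × ℝ))) (Ioo 0 σ) :=
    fun w hw => hw.1
  have ha : ContinuousOn (fun w : ℝ × (ℝ × ℝ) => a w.1) (Ioo 0 σ ×ˢ (univ : Set (ℝ × ℝ))) :=
    h.ca.comp hf hm
  have h11 : ContinuousOn (fun w : ℝ × (ℝ × ℝ) => G11 w.1) (Ioo 0 σ ×ˢ (univ : Set (ℝ × ℝ))) :=
    h.c11.comp hf hm
  have h12 : ContinuousOn (fun w : ℝ × (ℝ × ℝ) => G12 w.1) (Ioo 0 σ ×ˢ (univ : Set (ℝ × ℝ))) :=
    h.c12.comp hf hm
  have h22 : ContinuousOn (fun w : ℝ × (ℝ × ℝ) => G22 w.1) (Ioo 0 σ ×ˢ (univ : Set (ℝ × ℝ))) :=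
    h.c22.comp hf hm
  have hp : ContinuousOn (fun w : ℝ × (ℝ × ℝ) => w.2.1) (Ioo 0 σ ×ˢ (univ : Set (ℝ × ℝ))) :=
    (continuous_fst.comp continuous_snd).continuousOn
  have hq : ContinuousOn (fun w : ℝ × (ℝ × ℝ) => w.2.2) (Ioo 0 σ ×ˢ (univ : Set (ℝ × ℝ))) :=
    (continuous_snd.comp continuous_snd).continuousOn
  unfold E3F
  refine ha.mul (ContinuousOn.sqrt (continuousOn_const.sub ?_))
  unfold Nf
  refine ContinuousOn.div ?_ ?_ ?_
  · exact ((h22.mul (hp.pow 2)).sub (((continuousOn_const.mul h12).mul hp).mul hq)).add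
      (h11.mul (hq.pow 2))
  · unfold Dt
    exact (h11.mul h22).sub (h12.pow 2)
  · intro w hw
    exact (h.posD w.1 hw.1).ne'

theorem E3F_nonneg {σ : ℝ} {a G11 G12 G22 : ℝ → ℝ} (h : CoreData σ a G11 G12 G22)
    {s : ℝ} (hs : s ∈ Ioo 0 σ) (z : ℝ × ℝ) : 0 ≤ E3F a G11 G12 G22 (s, z) :=
  mul_nonneg (h.apos s hs).le (Real.sqrt_nonneg _)

theorem E3F_le {σ : ℝ} {a G11 G12 G22 : ℝ → ℝ} (h : CoreData σ a G11 G12 G22)
    {s : ℝ} (hs : s ∈ Ioo 0 σ) (z : ℝ × ℝ) : E3F a G11 G12 G22 (s, z) ≤ a s := by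
  have h1 := E3_Nf_nonneg h hs z.1 z.2
  have h2 : Real.sqrt (1 - Nf G11 G12 G22 s z.1 z.2) ≤ 1 := by
    rw [Real.sqrt_le_one]
    linarith
  calc E3F a G11 G12 G22 (s, z) = a s * Real.sqrt (1 - Nf G11 G12 G22 s z.1 z.2) := rfl
    _ ≤ a s * 1 := mul_le_mul_of_nonneg_left h2 (h.apos s hs).le
    _ = a s := mul_one _

theorem E3_int_s {σ : ℝ} {a G11 G12 G22 : ℝ → ℝ} (h : CoreData σ a G11 G12 G22) (z : ℝ × ℝ) :
    IntegrableOn (fun s => E3F a G11 G12 G22 (s, z)) (Ioo 0 σ) := by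
  have h1 : IntegrableOn a (Ioo 0 σ) := by
    have := h.int
    rw [intervalIntegrable_iff_integrableOn_Ioc_of_le h.σpos.le] at this
    exact this.mono_set Ioo_subset_Ioc_self
  refine Integrable.mono' h1 ?_ ?_
  · apply ContinuousOn.aestronglyMeasurable _ measurableSet_Ioo
    have h2 : ContinuousOn (fun s : ℝ => (s, z)) (Ioo 0 σ) := by fun_prop
    exact (E3F_cont h).comp h2 (fun s hs => ⟨hs, mem_univ _⟩)
  · refine (ae_restrict_iff' measurableSet_Ioo).mpr (Eventually.of_forall fun s hs => ?_)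
    rw [Real.norm_of_nonneg (E3F_nonneg h hs z)]
    exact E3F_le h hs z

theorem itemE3 (hE1 : claimE1) (hE2 : claimE2) : claimE3 := by
  intro σ L a G11 G12 G22 hL hc hi1 hi2
  have hσ := hc.σpos
  have hpi := Real.pi_pos
  have hcn : CoreData σ a G11 (fun s => -G12 s) G22 := by
    refine ⟨hc.σpos, hc.ca, hc.c11, hc.c12.neg, hc.c22, hc.apos, hc.pos11, ?_, hc.int, ?_,
      hc.lim0, hc.limσ⟩
    · intro s hs
      have := hc.posD s hs
      simpa [Dt] using this
    · have h1 : (fun s => a s * Real.sqrt (Dt G11 (fun s => -G12 s) G22 s)) =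
        fun s => a s * Real.sqrt (Dt G11 G12 G22 s) := by
        funext s
        simp [Dt]
      rw [h1]
      exact hc.intD
  set Q : Set (ℝ × ℝ) := Ioi (0 : ℝ) ×ˢ Ioi (0 : ℝ) with hQ
  have hQm : MeasurableSet Q := measurableSet_Ioi.prod measurableSet_Ioi
  set I : Set ℝ := Ioo 0 σ with hI
  have hIm : MeasurableSet I := measurableSet_Ioo
  set F : ℝ × (ℝ × ℝ) → ℝ := fun w => E3F a G11 G12 G22 w + E3F a G11 (fun s => -G12 s) G22 w
    with hF
  have hFc : ContinuousOn F (I ×ˢ (univ : Set (ℝ × ℝ))) := (E3F_cont hc).add (E3F_cont hcn)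
  have hFn : ∀ s ∈ I, ∀ z, 0 ≤ F (s, z) := fun s hs z =>
    add_nonneg (E3F_nonneg hc hs z) (E3F_nonneg hcn hs z)
  -- the integral over the momenta
  have hz : ∀ s ∈ I, IntegrableOn (fun z => F (s, z)) Q ∧
      ∫ z in Q, F (s, z) = Real.pi / 3 * (a s * Real.sqrt (Dt G11 G12 G22 s)) := by
    intro s hs
    have hA := hc.pos11 s hs
    have hD := hc.posD s hs
    have hD' := hD
    unfold Dt at hD
    obtain ⟨e1, e2⟩ := hE1 (G11 s) (G12 s) (G22 s) hA hD
    obtain ⟨e3, e4⟩ := hE1 (G11 s) (-G12 s) (G22 s) hA (by simpa using hD)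
    have f1 : (fun z : ℝ × ℝ => E3F a G11 G12 G22 (s, z)) = fun z => a s *
        Real.sqrt (1 - (G22 s * z.1 ^ 2 - 2 * G12 s * z.1 * z.2 + G11 s * z.2 ^ 2) /
          (G11 s * G22 s - G12 s ^ 2)) := by
      funext z
      rfl
    have f2 : (fun z : ℝ × ℝ => E3F a G11 (fun s => -G12 s) G22 (s, z)) = fun z => a s *
        Real.sqrt (1 - (G22 s * z.1 ^ 2 + 2 * G12 s * z.1 * z.2 + G11 s * z.2 ^ 2) /
          (G11 s * G22 s - G12 s ^ 2)) := by
      funext z
      simp only [E3F, Nf, Dt]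
      congr 3
      ring
    have e3' : IntegrableOn (fun z : ℝ × ℝ =>
        Real.sqrt (1 - (G22 s * z.1 ^ 2 + 2 * G12 s * z.1 * z.2 + G11 s * z.2 ^ 2) /
          (G11 s * G22 s - G12 s ^ 2))) Q := by
      have : (fun z : ℝ × ℝ =>
        Real.sqrt (1 - (G22 s * z.1 ^ 2 + 2 * G12 s * z.1 * z.2 + G11 s * z.2 ^ 2) /
          (G11 s * G22 s - G12 s ^ 2))) = (fun z : ℝ × ℝ =>
        Real.sqrt (1 - (G22 s * z.1 ^ 2 - 2 * (-G12 s) * z.1 * z.2 + G11 s * z.2 ^ 2) /
          (G11 s * G22 s - (-G12 s) ^ 2))) := by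
        funext z
        congr 2
        ring
      rw [this]
      exact e3
    have g1 : IntegrableOn (fun z => E3F a G11 G12 G22 (s, z)) Q := by
      rw [f1]
      exact e1.const_mul (a s)
    have g2 : IntegrableOn (fun z => E3F a G11 (fun s => -G12 s) G22 (s, z)) Q := by
      rw [f2]
      exact e3'.const_mul (a s)
    refine ⟨g1.add g2, ?_⟩
    have h5 : ∫ z in Q, F (s, z) = (∫ z in Q, E3F a G11 G12 G22 (s, z)) +
        ∫ z in Q, E3F a G11 (fun s => -G12 s) G22 (s, z) := integral_add g1 g2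
    rw [h5, f1, f2, integral_const_mul, integral_const_mul, ← mul_add, e2]
    unfold Dt
    ring
  -- integrability on the product
  have hint : Integrable F ((volume.restrict I).prod (volume.restrict Q)) := by
    rw [integrable_prod_iff]
    · constructor
      · exact (ae_restrict_iff' hIm).mpr (Eventually.of_forall fun s hs => (hz s hs).1)
      · have h1 : IntegrableOn (fun s => Real.pi / 3 * (a s * Real.sqrt (Dt G11 G12 G22 s))) I := by
          have := hc.intD
          rw [intervalIntegrable_iff_integrableOn_Ioc_of_le hσ.le] at this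
          exact (this.mono_set Ioo_subset_Ioc_self).const_mul _
        refine h1.congr ?_
        refine (ae_restrict_iff' hIm).mpr (Eventually.of_forall fun s hs => ?_)
        simp only
        rw [← (hz s hs).2]
        apply integral_congr_ae
        refine Eventually.of_forall fun z => ?_
        exact (Real.norm_of_nonneg (hFn s hs z)).symm
    · rw [Measure.prod_restrict]
      apply ContinuousOn.aestronglyMeasurable _ (hIm.prod hQm)
      exact hFc.mono (prod_mono le_rfl (subset_univ _))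
  -- the iterated integrals
  have hswap : ∫ z in Q, ∫ s in I, F (s, z) =
      Real.pi / 3 * ∫ s in (0 : ℝ)..σ, a s * Real.sqrt (Dt G11 G12 G22 s) := by
    rw [← integral_prod_symm _ hint, integral_prod _ hint, intervalIntegral.integral_of_le hσ.le,
      ← integral_Ioc_eq_integral_Ioo.symm, ← integral_const_mul]
    exact setIntegral_congr_fun hIm fun s hs => (hz s hs).2
  have hintz : IntegrableOn (fun z => ∫ s in I, F (s, z)) Q := hint.integral_prod_right
  set Δ : Set (ℝ × ℝ) := {z : ℝ × ℝ | 0 < z.1 ∧ 0 < z.2 ∧ Real.pi * (z.1 + z.2) < L} with hΔ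
  have hΔm : MeasurableSet Δ := by
    have c1 : MeasurableSet {z : ℝ × ℝ | 0 < z.1} :=
      (isOpen_lt continuous_const continuous_fst).measurableSet
    have c2 : MeasurableSet {z : ℝ × ℝ | 0 < z.2} :=
      (isOpen_lt continuous_const continuous_snd).measurableSet
    have c3 : MeasurableSet {z : ℝ × ℝ | Real.pi * (z.1 + z.2) < L} :=
      (isOpen_lt (by fun_prop) continuous_const).measurableSet
    exact c1.inter (c2.inter c3)
  have hΔQ : Δ ⊆ Q := fun z hz => ⟨hz.1, hz.2.1⟩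
  have hpt : ∀ z ∈ Δ, L - Real.pi * (z.1 + z.2) ≤ ∫ s in I, F (s, z) := by
    intro z hz'
    have h1 := hi1 z.1 z.2 hz'.1 hz'.2.1 hz'.2.2
    have h2 := hi2 z.1 z.2 hz'.1 hz'.2.1 hz'.2.2
    have h3 : ∫ s in I, F (s, z) =
        (∫ s in I, E3F a G11 G12 G22 (s, z)) +
        ∫ s in I, E3F a G11 (fun s => -G12 s) G22 (s, z) :=
      integral_add (E3_int_s hc z) (E3_int_s hcn z)
    have h4 : ∫ s in (0 : ℝ)..σ, a s * Real.sqrt (1 - Nf G11 G12 G22 s z.1 z.2) =
        ∫ s in I, E3F a G11 G12 G22 (s, z) := by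
      rw [intervalIntegral.integral_of_le hσ.le, integral_Ioc_eq_integral_Ioo]
      rfl
    have h5 : ∫ s in (0 : ℝ)..σ, a s * Real.sqrt (1 - Nf G11 (fun s => -G12 s) G22 s z.1 z.2) =
        ∫ s in I, E3F a G11 (fun s => -G12 s) G22 (s, z) := by
      rw [intervalIntegral.integral_of_le hσ.le, integral_Ioc_eq_integral_Ioo]
      rfl
    rw [h3, ← h4, ← h5]
    linarith
  have hle1 : ∫ z in Δ, (L - Real.pi * (z.1 + z.2)) ≤ ∫ z in Δ, ∫ s in I, F (s, z) := by
    have hb : IntegrableOn (fun z : ℝ × ℝ => L - Real.pi * (z.1 + z.2)) Δ := by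
      have h1 : IntegrableOn (fun z : ℝ × ℝ => L - Real.pi * (z.1 + z.2))
          (Icc (0 : ℝ) (L / Real.pi) ×ˢ Icc (0 : ℝ) (L / Real.pi)) := by
        apply ContinuousOn.integrableOn_compact (isCompact_Icc.prod isCompact_Icc)
        fun_prop
      refine h1.mono_set ?_
      intro z hz'
      have hp : Real.pi * (z.1 + z.2) < L := hz'.2.2
      have h1 := hz'.1
      have h2 := hz'.2.1
      have h3 : z.1 + z.2 < L / Real.pi := by
        rw [lt_div_iff₀ hpi]
        linarith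
      exact ⟨⟨h1.le, by linarith⟩, ⟨h2.le, by linarith⟩⟩
    exact setIntegral_mono_on hb (hintz.mono_set hΔQ) hΔm hpt
  have hle2 : ∫ z in Δ, ∫ s in I, F (s, z) ≤ ∫ z in Q, ∫ s in I, F (s, z) := by
    apply setIntegral_mono_set hintz
    · refine Eventually.of_forall fun z => ?_
      exact setIntegral_nonneg hIm fun s hs => hFn s hs z
    · exact LE.le.eventuallyLE hΔQ
  have hfin := (hE2 L hL).symm.le.trans (hle1.trans (hle2.trans hswap.le))
  have h6 : L ^ 3 = 6 * Real.pi ^ 2 * (L ^ 3 / (6 * Real.pi ^ 2)) := by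
    field_simp
  calc L ^ 3 = 6 * Real.pi ^ 2 * (L ^ 3 / (6 * Real.pi ^ 2)) := h6
    _ ≤ 6 * Real.pi ^ 2 * (Real.pi / 3 *
        ∫ s in (0 : ℝ)..σ, a s * Real.sqrt (Dt G11 G12 G22 s)) := by gcongr
    _ = _ := by ring

end Pool.Agent.Work.MP_02f065_gt.Toric

end
end

section

/-!
MP_02f065_gt: item R1, the torus action `rot` is a linear isometric action.
-/

open MeasureTheory Set Filter Topology

noncomputable section

namespace Pool.Agent.Work.MP_02f065_gt.Toric

theorem r1_0 (θ φ : ℝ) (x : E) : rot θ φ x 0 = Real.cos θ * x 0 - Real.sin θ * x 1 := by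
  simp [rot]

theorem r1_1 (θ φ : ℝ) (x : E) : rot θ φ x 1 = Real.sin θ * x 0 + Real.cos θ * x 1 := by
  simp [rot]

theorem r1_2 (θ φ : ℝ) (x : E) : rot θ φ x 2 = Real.cos φ * x 2 - Real.sin φ * x 3 := by
  simp [rot]

theorem r1_3 (θ φ : ℝ) (x : E) : rot θ φ x 3 = Real.sin φ * x 2 + Real.cos φ * x 3 := by
  simp [rot]

theorem r1_ext {x y : E} (h0 : x 0 = y 0) (h1 : x 1 = y 1) (h2 : x 2 = y 2) (h3 : x 3 = y 3) :
    x = y := by
  ext i
  fin_cases i
  · exact h0
  · exact h1
  · exact h2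
  · exact h3

theorem r1_inner (x y : E) :
    inner ℝ x y = x 0 * y 0 + x 1 * y 1 + x 2 * y 2 + x 3 * y 3 := by
  rw [PiLp.inner_apply, Fin.sum_univ_four]
  simp only [RCLike.inner_apply, conj_trivial]
  ring

theorem r1_rot_inner (θ φ : ℝ) (x y : E) :
    inner ℝ (rot θ φ x) (rot θ φ y) = inner ℝ x y := by
  rw [r1_inner, r1_inner, r1_0, r1_1, r1_2, r1_3, r1_0, r1_1, r1_2, r1_3]
  have h1 := Real.sin_sq_add_cos_sq θ
  have h2 := Real.sin_sq_add_cos_sq φ
  linear_combination (x 0 * y 0 + x 1 * y 1) * h1 + (x 2 * y 2 + x 3 * y 3) * h2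

theorem itemR1 : claimR1 := by
  intro θ φ x y t
  refine ⟨?_, ?_, r1_rot_inner θ φ x y, ?_, ?_, ?_, ?_, ?_⟩
  · apply r1_ext <;> simp only [r1_0, r1_1, r1_2, r1_3, PiLp.add_apply] <;> ring
  · apply r1_ext <;> simp only [r1_0, r1_1, r1_2, r1_3, PiLp.smul_apply, smul_eq_mul] <;> ring
  · rw [norm_eq_sqrt_real_inner, norm_eq_sqrt_real_inner, r1_rot_inner]
  · intro θ' φ'
    apply r1_ext <;> simp only [r1_0, r1_1, r1_2, r1_3, Real.cos_add, Real.sin_add] <;> ring
  · apply r1_ext <;> simp only [r1_0, r1_1, r1_2, r1_3, Real.cos_zero, Real.sin_zero] <;> ring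
  · apply r1_ext <;> simp only [r1_0, r1_1, r1_2, r1_3, Real.cos_pi, Real.sin_pi,
      PiLp.neg_apply] <;> ring
  · apply r1_ext <;> simp only [r1_0, r1_1, r1_2, r1_3, Real.cos_pi, Real.sin_pi, Real.cos_neg,
      Real.sin_neg, PiLp.neg_apply] <;> ring

end Pool.Agent.Work.MP_02f065_gt.Toric

end
end

section

/-! Joint continuity of the torus action. -/

noncomputable section

namespace Pool.Agent.Work.MP_02f065_gt.Toric

theorem itemR2 : claimR2 := by
  unfold claimR2 rot
  refine (PiLp.continuous_toLp 2 _).comp (continuous_pi ?_)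
  intro i
  fin_cases i <;> simp <;> fun_prop

end Pool.Agent.Work.MP_02f065_gt.Toric

end
end

section

/-!
MP_02f065_gt, item R3: derivative of `t ↦ rot (α t) (β t) (pt (σ t))`.
-/

open MeasureTheory Set Filter Topology

noncomputable section

namespace Pool.Agent.Work.MP_02f065_gt.Toric

namespace IR3

theorem hasDeriv_coord (f : ℝ → E) (f' : E) (S : Set ℝ) (t : ℝ)
    (h : ∀ i, HasDerivWithinAt (fun t => f t i) (f' i) S t) : HasDerivWithinAt f f' S t := by
  have h1 : HasDerivWithinAt (fun t => (WithLp.ofLp (f t) : Fin 4 → ℝ)) (WithLp.ofLp f') S t :=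
    hasDerivWithinAt_pi.mpr h
  exact ((PiLp.continuousLinearEquiv 2 ℝ (fun _ : Fin 4 => ℝ)).symm.hasFDerivAt
    (x := (WithLp.ofLp (f t) : Fin 4 → ℝ))).comp_hasDerivWithinAt t h1

theorem c0 (a b s : ℝ) : rot a b (pt s) 0 = Real.cos a * Real.cos s := by simp [rot, pt]
theorem c1 (a b s : ℝ) : rot a b (pt s) 1 = Real.sin a * Real.cos s := by simp [rot, pt]
theorem c2 (a b s : ℝ) : rot a b (pt s) 2 = Real.cos b * Real.sin s := by simp [rot, pt]
theorem c3 (a b s : ℝ) : rot a b (pt s) 3 = Real.sin b * Real.sin s := by simp [rot, pt]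

theorem d0 (a b s x y z : ℝ) : rot a b (x • dpt s + y • X1 s + z • X2 s) 0 =
    -Real.sin a * y * Real.cos s + Real.cos a * (-Real.sin s * x) := by
  simp [rot, dpt, X1, X2]
  ring

theorem d1 (a b s x y z : ℝ) : rot a b (x • dpt s + y • X1 s + z • X2 s) 1 =
    Real.cos a * y * Real.cos s + Real.sin a * (-Real.sin s * x) := by
  simp [rot, dpt, X1, X2]
  ring

theorem d2 (a b s x y z : ℝ) : rot a b (x • dpt s + y • X1 s + z • X2 s) 2 =
    -Real.sin b * z * Real.sin s + Real.cos b * (Real.cos s * x) := by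
  simp [rot, dpt, X1, X2]
  ring

theorem d3 (a b s x y z : ℝ) : rot a b (x • dpt s + y • X1 s + z • X2 s) 3 =
    Real.cos b * z * Real.sin s + Real.sin b * (Real.cos s * x) := by
  simp [rot, dpt, X1, X2]
  ring

end IR3

open IR3 in
theorem itemR3 : claimR3 := by
  intro α β σ α' β' σ' S t hα hβ hσ
  apply hasDeriv_coord
  intro i
  match i with
  | 0 =>
    simp only [c0, d0]
    exact hα.cos.mul hσ.cos
  | 1 =>
    simp only [c1, d1]
    exact hα.sin.mul hσ.cos
  | 2 =>
    simp only [c2, d2]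
    exact hβ.cos.mul hσ.sin
  | 3 =>
    simp only [c3, d3]
    exact hβ.sin.mul hσ.sin

end Pool.Agent.Work.MP_02f065_gt.Toric

end
end

section

/-! Assembly of the theorem in all dimensions from the claims. -/

open MeasureTheory Set Filter Topology

noncomputable section

namespace Pool.Agent.Work.MP_02f065_gt.RPn

open Toric in
theorem coreData_neg {σ : ℝ} {a G11 G12 G22 : ℝ → ℝ} (h : CoreData σ a G11 G12 G22) :
    CoreData σ a G11 (fun s => -G12 s) G22 := by
  have hD : ∀ s, Dt G11 (fun s => -G12 s) G22 s = Dt G11 G12 G22 s := by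
    intro s
    simp [Dt]
  refine ⟨h.σpos, h.ca, h.c11, h.c12.neg, h.c22, h.apos, h.pos11,
    fun s hs => by rw [hD]; exact h.posD s hs, h.int, ?_, h.lim0, h.limσ⟩
  have h1 : (fun s => a s * Real.sqrt (Dt G11 (fun s => -G12 s) G22 s)) =
      fun s => a s * Real.sqrt (Dt G11 G12 G22 s) := by
    funext s
    rw [hD]
  rw [h1]
  exact h.intD

/-- The one-dimensional inequality for an invariant metric. -/
theorem slice_ineq (tC1 : Toric.claimC1) (tC2 : Toric.claimC2) (tC3 : Toric.claimC3)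
    (tD5 : Toric.claimD5) (tE3 : Toric.claimE3) (hS1 : claimS1) (hS2 : claimS2)
    (hS3 : claimS3) (hS4 : claimS4) (hE3w : claimE3w) (hE4a : claimE4a) (hE4b : claimE4b)
    (hE4c : claimE4c) (hE4d : claimE4d) (P Q : ℕ) (hP : 2 ≤ P) (hQ : 2 ≤ Q)
    (g : Field (Ix P Q)) (hg : IsMetric g) (hi : IsInv g) (L : ℝ) (hL : 0 < L)
    (hlen : ∀ (x : E (Ix P Q)) (c : ℝ → E (Ix P Q)), ‖x‖ = 1 → IsCurve c x (-x) →
      L ≤ length g c) :
    (L / Real.pi) ^ (P + Q - 1) * Wc (P - 1) (Q - 1) ≤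
      ∫ s in (0 : ℝ)..(Real.pi / 2), Toric.ma (rf g) s *
        Real.sqrt (Toric.Dt (Toric.mG11 (rf g)) (Toric.mG12 (rf g)) (Toric.mG22 (rf g)) s) *
        (Real.sqrt (Toric.mG11 (rf g) s) ^ (P - 2) *
          Real.sqrt (Toric.mG22 (rf g) s) ^ (Q - 2)) := by
  have hpi := Real.pi_pos
  obtain ⟨h3m, h3t⟩ := hS1 P Q hP hQ g hg hi
  have hfm : Toric.IsMetric (rf g) := RP3.toForm_metric h3m
  have hft : Toric.IsToric (rf g) := by
    intro θ φ x v w hx hv hw
    unfold rf
    rw [RP3.toForm_apply h3m, RP3.toForm_apply h3m, RP3.rot_eq, RP3.rot_eq, RP3.rot_eq]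
    exact h3t θ φ x v w hx hv hw
  have hlen' : ∀ (x : Toric.E) (c : ℝ → Toric.E), ‖x‖ = 1 → Toric.IsCurve c x (-x) →
      L ≤ Toric.length (rf g) c := by
    intro x c hx hc
    unfold rf
    rw [RP3.length_eq h3m]
    exact hS2 P Q hP hQ g L hg hlen x c hx ((RP3.isCurve_iff c x (-x)).mp hc)
  have hcore := tC1 (rf g) hfm
  obtain ⟨hp1, hp2⟩ := tC2 (rf g) L hfm hft hlen'
  obtain ⟨hd1, hd2⟩ := tC3 (rf g) L hfm hft hlen'
  have hi1 := tD5 _ L _ _ _ _ hcore hp1 hd1
  have hi2 := tD5 _ L _ _ _ _ (coreData_neg hcore) hp2 hd2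
  by_cases h3 : 3 ≤ P ∨ 3 ≤ Q
  · obtain ⟨M, _, hM⟩ := hS4 (rf g) hfm
    have h4 := hE3w (P - 2) (Q - 2) _ L M _ _ _ _ hL hcore hi1
      (fun s _ => hS3 P Q hP hQ h3 g hg hi s) (fun s _ => hM s)
    have e1 : P - 2 + (Q - 2) + 3 = P + Q - 1 := by omega
    have e2 : P - 2 + (Q - 2) + 2 = P + Q - 2 := by omega
    have e3 : P - 2 + 1 = P - 1 := by omega
    have e4 : Q - 2 + 1 = Q - 1 := by omega
    have hc := hE4c (P - 2) (Q - 2)
    rw [← hE4a, ← hE4b, e3, e4] at hc
    have hK : 0 < Kc (P - 2) (Q - 2) := by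
      rw [hE4b]
      exact mul_pos (hE4d _ _) (hE4d _ _)
    rw [e1, e2] at h4
    set I := ∫ s in (0 : ℝ)..(Real.pi / 2), Toric.ma (rf g) s *
        Real.sqrt (Toric.Dt (Toric.mG11 (rf g)) (Toric.mG12 (rf g)) (Toric.mG22 (rf g)) s) *
        (Real.sqrt (Toric.mG11 (rf g) s) ^ (P - 2) *
          Real.sqrt (Toric.mG22 (rf g) s) ^ (Q - 2)) with hI
    have e5 : Real.pi ^ (P + Q - 1) = Real.pi ^ (P + Q - 2) * Real.pi := by
      rw [← pow_succ]
      congr 1
      omega
    have h5 : 2 * Kc (P - 2) (Q - 2) * ((L / Real.pi) ^ (P + Q - 1) * Wc (P - 1) (Q - 1)) ≤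
        2 * Kc (P - 2) (Q - 2) * I := by
      refine le_trans (le_of_eq ?_) h4
      rw [div_pow, e5]
      have h6 : Dc (P - 2) (Q - 2) = 2 * Kc (P - 2) (Q - 2) * Wc (P - 1) (Q - 1) / Real.pi := by
        rw [← hc]
        field_simp
      rw [h6]
      field_simp
    exact le_of_mul_le_mul_left h5 (by positivity)
  · push Not at h3
    have hP2 : P = 2 := by omega
    have hQ2 : Q = 2 := by omega
    subst hP2
    subst hQ2
    have h4 := tE3 _ L _ _ _ _ hL hcore hi1 hi2
    have hW : Wc 1 1 = 1 / 2 := by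
      unfold Wc
      simp only [pow_one]
      have h1 : ∀ s : ℝ, Real.cos s * Real.sin s = Real.sin s * Real.cos s := fun s => mul_comm _ _
      simp_rw [h1]
      rw [integral_sin_mul_cos₁]
      simp
    simp only [Nat.sub_self, pow_zero, mul_one]
    norm_num
    rw [hW]
    have h5 : (L / Real.pi) ^ 3 ≤ 2 * ∫ s in (0 : ℝ)..(Real.pi / 2), Toric.ma (rf g) s *
        Real.sqrt (Toric.Dt (Toric.mG11 (rf g)) (Toric.mG12 (rf g)) (Toric.mG22 (rf g)) s) := by
      rw [div_pow, div_le_iff₀ (by positivity)]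
      linarith
    linarith

/-- The conformal factor between two metrics of RP^n is even. -/
theorem lam_even {P Q : ℕ} (hP : 1 ≤ P) (hQ : 1 ≤ Q) {g g₁ : Field (Ix P Q)}
    {lam : E (Ix P Q) → ℝ} (hg : IsMetric g) (hg1 : IsMetric g₁)
    (hlp : ∀ x, ‖x‖ = 1 → 0 < lam x)
    (hgl : ∀ x v w : E (Ix P Q), ‖x‖ = 1 → inner ℝ x v = 0 → inner ℝ x w = 0 →
      g x v w = (lam x) ^ 2 * g₁ x v w) (x : E (Ix P Q)) (hx : ‖x‖ = 1) :
    lam (-x) = lam x := by
  classical
  set i : Ix P Q := Sum.inl ⟨0, by omega⟩ with hi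
  set j : Ix P Q := Sum.inr ⟨0, by omega⟩ with hj
  have hij : i ≠ j := by simp [hi, hj]
  obtain ⟨v, hv0, hv⟩ : ∃ v : E (Ix P Q), v ≠ 0 ∧ inner ℝ x v = 0 := by
    by_cases h0 : x j = 0
    · refine ⟨ei j, ?_, ?_⟩
      · intro h
        have := congrArg (fun z : E (Ix P Q) => z j) h
        simp [ei] at this
      · unfold ei
        rw [EuclideanSpace.inner_single_right]
        simp [h0]
    · refine ⟨(x j) • ei i - (x i) • ei j, ?_, ?_⟩
      · intro h
        have := congrArg (fun z : E (Ix P Q) => z i) h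
        simp [ei, hij] at this
        exact h0 this
      · unfold ei
        rw [inner_sub_right, inner_smul_right, inner_smul_right,
          EuclideanSpace.inner_single_right, EuclideanSpace.inner_single_right]
        simp
        ring
  have hnx : ‖-x‖ = 1 := by rw [norm_neg]; exact hx
  have hnv : inner ℝ (-x) v = 0 := by rw [inner_neg_left, hv, neg_zero]
  have h1 := hgl x v v hx hv hv
  have h2 := hgl (-x) v v hnx hnv hnv
  rw [hg.even x v v hx hv hv, hg1.even x v v hx hv hv, h1] at h2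
  have hp := hg1.pos x v hx hv hv0
  have h3 : lam x ^ 2 = lam (-x) ^ 2 := mul_right_cancel₀ hp.ne' h2
  have h4 := hlp x hx
  have h5 := hlp (-x) hnx
  nlinarith [sq_nonneg (lam x - lam (-x))]

theorem main_of (tC1 : Toric.claimC1) (tC2 : Toric.claimC2) (tC3 : Toric.claimC3)
    (tD5 : Toric.claimD5) (tE3 : Toric.claimE3) (hS1 : claimS1) (hS2 : claimS2)
    (hS3 : claimS3) (hS4 : claimS4) (hE3w : claimE3w) (hE4a : claimE4a) (hE4b : claimE4b)
    (hE4c : claimE4c) (hE4d : claimE4d) (hA6 : claimA6) (hHaar : claimHaar) (hBM : claimBM)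
    (hBL : claimBL) (hBV : claimBV) (hV3 : claimV3) : claimMain := by
  intro P Q hP hQ g hg hconf
  obtain ⟨g₁, u, hg1, ht1, hu, hupos, hgu⟩ := hconf
  have : Nontrivial (Ix P Q) :=
    ⟨Sum.inl ⟨0, by omega⟩, Sum.inr ⟨0, by omega⟩, by simp⟩
  obtain ⟨L, hL, hlen, γ, hγ⟩ := hA6 (Ix P Q) g hg
  obtain ⟨HP⟩ := hHaar P
  obtain ⟨HQ⟩ := hHaar Q
  set lam : E (Ix P Q) → ℝ := fun x => Real.sqrt (u x) with hlam
  have hlc : ContinuousOn lam (Metric.sphere (0 : E (Ix P Q)) 1) := hu.sqrt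
  have hlp : ∀ x, ‖x‖ = 1 → 0 < lam x := fun x hx => Real.sqrt_pos.mpr (hupos x hx)
  have hgl : ∀ x v w : E (Ix P Q), ‖x‖ = 1 → inner ℝ x v = 0 → inner ℝ x w = 0 →
      g x v w = (lam x) ^ 2 * g₁ x v w := by
    intro x v w hx hv hw
    rw [hlam]
    simp only
    rw [Real.sq_sqrt (hupos x hx).le]
    exact hgu x v w hx hv hw
  have hle : ∀ x, ‖x‖ = 1 → lam (-x) = lam x :=
    fun x hx => lam_even (by omega) (by omega) hg hg1 hlp hgl x hx
  obtain ⟨h2m, h2t⟩ := hBM P Q (by omega) (by omega) HP HQ lam g₁ hg1 ht1 hlc hlp hle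
  have h2L := hBL P Q (by omega) (by omega) HP HQ lam g g₁ L hg hg1 ht1 hlc hlp hgl hlen
  have h2v := hBV P Q (by omega) (by omega) HP HQ lam g g₁ hg hg1 ht1 hlc hlp hle hgl
  have h3 := slice_ineq tC1 tC2 tC3 tD5 tE3 hS1 hS2 hS3 hS4 hE3w hE4a hE4b hE4c hE4d P Q hP hQ
    _ h2m h2t L hL h2L
  obtain ⟨c, hc, hvol, hround⟩ := hV3 P Q hP hQ
  have h4 := hvol _ h2m h2t
  have hW := hE4d (P - 1) (Q - 1)
  refine ⟨γ, L, hγ, ?_⟩
  rw [hround, le_div_iff₀ (by positivity)]
  calc (L / Real.pi) ^ (P + Q - 1) * (c * Wc (P - 1) (Q - 1)) =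
      c * ((L / Real.pi) ^ (P + Q - 1) * Wc (P - 1) (Q - 1)) := by ring
    _ ≤ c * _ := mul_le_mul_of_nonneg_left h3 hc.le
    _ = vol (avgMetric HP HQ lam g₁) := h4.symm
    _ ≤ vol g := h2v

end Pool.Agent.Work.MP_02f065_gt.RPn

end
end

section

/-!
MP_02f065_gt, all dimensions, item A1: two-sided bounds of a metric on tangent vectors.
Also: the field of continuous bilinear forms of `g`, and its continuity on the sphere.
-/

open MeasureTheory Set Filter Topology

noncomputable section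

namespace Pool.Agent.Work.MP_02f065_gt.RPn

variable {ι : Type} [Fintype ι]

/-- the standard basis -/
def iA1_b (i : ι) : E ι := EuclideanSpace.basisFun ι ℝ i

/-- The field of continuous bilinear forms of `g`. -/
def iA1_toForm (g : Field ι) : E ι → E ι →L[ℝ] E ι →L[ℝ] ℝ := fun x =>
  ∑ i : ι, ∑ j : ι, g x (iA1_b i) (iA1_b j) •
    (EuclideanSpace.proj i : E ι →L[ℝ] ℝ).smulRight (EuclideanSpace.proj j : E ι →L[ℝ] ℝ)

theorem iA1_sum (v : E ι) : v = ∑ i : ι, v i • iA1_b i := by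
  conv_lhs => rw [← (EuclideanSpace.basisFun ι ℝ).sum_repr v]
  refine Finset.sum_congr rfl fun i _ => ?_
  rw [EuclideanSpace.basisFun_repr]
  rfl

theorem iA1_toForm_apply {g : Field ι} (hg : IsMetric g) (x v w : E ι) :
    iA1_toForm g x v w = g x v w := by
  have h0 : ∀ w, g x 0 w = 0 := by
    intro w
    have := hg.smul x 0 w 0
    simpa using this
  have hsum : ∀ (s : Finset ι) (f : ι → E ι) (w : E ι),
      g x (∑ i ∈ s, f i) w = ∑ i ∈ s, g x (f i) w := by
    intro s f w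
    classical
    induction s using Finset.induction_on with
    | empty => simp [h0]
    | insert a s ha ih => rw [Finset.sum_insert ha, Finset.sum_insert ha, hg.add, ih]
  have h1 : g x v w = ∑ i : ι, ∑ j : ι, v i * (w j * g x (iA1_b i) (iA1_b j)) := by
    conv_lhs => rw [iA1_sum v]
    rw [hsum]
    refine Finset.sum_congr rfl fun i _ => ?_
    rw [hg.smul, hg.symm, ← Finset.mul_sum]
    congr 1
    conv_lhs => rw [iA1_sum w]
    rw [hsum]
    refine Finset.sum_congr rfl fun j _ => ?_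
    rw [hg.smul, hg.symm]
  rw [h1]
  unfold iA1_toForm
  simp only [_root_.sum_apply, _root_.smul_apply,
    ContinuousLinearMap.smulRight_apply, smul_eq_mul]
  refine Finset.sum_congr rfl fun i _ => Finset.sum_congr rfl fun j _ => ?_
  simp
  ring

theorem iA1_toForm_cont {g : Field ι} (hg : IsMetric g) :
    ContinuousOn (iA1_toForm g) (Metric.sphere (0 : E ι) 1) := by
  rw [continuousOn_clm_apply]
  intro v
  rw [continuousOn_clm_apply]
  intro w
  simp_rw [iA1_toForm_apply hg]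
  exact hg.cont v w

/-- Joint continuity, on a set. -/
theorem iA1_continuousOn {X : Type*} [TopologicalSpace X] {g : Field ι} (hg : IsMetric g)
    {S : Set X} {x v w : X → E ι} (hx : ContinuousOn x S) (hv : ContinuousOn v S)
    (hw : ContinuousOn w S) (h1 : ∀ p ∈ S, ‖x p‖ = 1) :
    ContinuousOn (fun p => g (x p) (v p) (w p)) S := by
  have h2 : ContinuousOn (fun p => iA1_toForm g (x p)) S := by
    refine (iA1_toForm_cont hg).comp hx ?_
    intro p hp
    rw [mem_sphere_zero_iff_norm]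
    exact h1 p hp
  have h3 := (h2.clm_apply hv).clm_apply hw
  refine h3.congr ?_
  intro p _
  exact (iA1_toForm_apply hg _ _ _).symm

/-- Joint continuity. -/
theorem iA1_continuous {X : Type*} [TopologicalSpace X] {g : Field ι} (hg : IsMetric g)
    {x v w : X → E ι} (hx : Continuous x) (hv : Continuous v)
    (hw : Continuous w) (h1 : ∀ p, ‖x p‖ = 1) :
    Continuous (fun p => g (x p) (v p) (w p)) := by
  rw [← continuousOn_univ] at hx hv hw ⊢
  exact iA1_continuousOn hg hx hv hw (fun p _ => h1 p)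

theorem iA1_smul_smul {g : Field ι} (hg : IsMetric g) (x v : E ι) (r : ℝ) :
    g x (r • v) (r • v) = r ^ 2 * g x v v := by
  rw [hg.smul, hg.symm, hg.smul]
  ring

theorem itemA1 : claimA1 := by
  intro ι _ g hg
  set S : Set (E ι × E ι) := {p | ‖p.1‖ = 1 ∧ ‖p.2‖ = 1 ∧ inner ℝ p.1 p.2 = 0} with hS
  have hcl : IsClosed S := by
    have h1 : IsClosed {p : E ι × E ι | ‖p.1‖ = 1} := isClosed_eq (by fun_prop) continuous_const
    have h2 : IsClosed {p : E ι × E ι | ‖p.2‖ = 1} := isClosed_eq (by fun_prop) continuous_const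
    have h3 : IsClosed {p : E ι × E ι | inner ℝ p.1 p.2 = 0} :=
      isClosed_eq (continuous_fst.inner continuous_snd) continuous_const
    have : S = {p : E ι × E ι | ‖p.1‖ = 1} ∩ ({p : E ι × E ι | ‖p.2‖ = 1} ∩
        {p : E ι × E ι | inner ℝ p.1 p.2 = 0}) := by
      ext p; simp [hS]
    rw [this]
    exact h1.inter (h2.inter h3)
  have hbd : Bornology.IsBounded S := by
    refine (Metric.isBounded_closedBall (x := (0 : E ι × E ι)) (r := 1)).subset ?_
    rintro p ⟨h1, h2, -⟩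
    rw [mem_closedBall_zero_iff, Prod.norm_def, h1, h2]
    simp
  have hK : IsCompact S := Metric.isCompact_of_isClosed_isBounded hcl hbd
  rcases S.eq_empty_or_nonempty with hne | hne
  · refine ⟨1, 1, one_pos, one_pos, ?_⟩
    intro x v hx hxv
    have hv : v = 0 := by
      by_contra hv
      have hn : 0 < ‖v‖ := norm_pos_iff.2 hv
      have : (x, ‖v‖⁻¹ • v) ∈ S := by
        refine ⟨hx, ?_, ?_⟩
        · simp only [norm_smul, norm_inv, norm_norm]
          exact inv_mul_cancel₀ hn.ne'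
        · change inner ℝ x (‖v‖⁻¹ • v) = 0
          rw [inner_smul_right, hxv, mul_zero]
      rw [hne] at this
      exact absurd this (notMem_empty _)
    subst hv
    have h0 : g x 0 0 = 0 := by
      have := hg.smul x 0 0 0
      simpa using this
    rw [h0]
    simp
  have hf : ContinuousOn (fun p : E ι × E ι => g p.1 p.2 p.2) S :=
    iA1_continuousOn hg continuousOn_fst continuousOn_snd continuousOn_snd (fun p hp => hp.1)
  obtain ⟨p, hpS, hp⟩ := hK.exists_isMinOn hne hf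
  obtain ⟨q, hqS, hq⟩ := hK.exists_isMaxOn hne hf
  have hppos : 0 < g p.1 p.2 p.2 := by
    refine hg.pos p.1 p.2 hpS.1 hpS.2.2 ?_
    intro h0
    have := hpS.2.1
    rw [h0, norm_zero] at this
    exact zero_ne_one this
  have hqpos : 0 < g q.1 q.2 q.2 := by
    refine hg.pos q.1 q.2 hqS.1 hqS.2.2 ?_
    intro h0
    have := hqS.2.1
    rw [h0, norm_zero] at this
    exact zero_ne_one this
  refine ⟨Real.sqrt (g p.1 p.2 p.2), Real.sqrt (g q.1 q.2 q.2), Real.sqrt_pos.2 hppos,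
    Real.sqrt_pos.2 hqpos, ?_⟩
  intro x v hx hxv
  rw [Real.sq_sqrt hppos.le, Real.sq_sqrt hqpos.le]
  by_cases hv : v = 0
  · subst hv
    have h0 : g x 0 0 = 0 := by
      have := hg.smul x 0 0 0
      simpa using this
    rw [h0]
    simp
  · have hn : 0 < ‖v‖ := norm_pos_iff.2 hv
    set w : E ι := ‖v‖⁻¹ • v with hw
    have hwS : (x, w) ∈ S := by
      refine ⟨hx, ?_, ?_⟩
      · rw [hw]
        simp only [norm_smul, norm_inv, norm_norm]
        exact inv_mul_cancel₀ hn.ne'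
      · change inner ℝ x w = 0
        rw [hw, inner_smul_right, hxv, mul_zero]
    have hvw : v = ‖v‖ • w := by
      rw [hw, smul_smul, mul_inv_cancel₀ hn.ne', one_smul]
    have hval : g x v v = ‖v‖ ^ 2 * g x w w := by
      conv_lhs => rw [hvw]
      rw [iA1_smul_smul hg]
    have h1 : g p.1 p.2 p.2 ≤ g x w w := hp hwS
    have h2 : g x w w ≤ g q.1 q.2 q.2 := hq hwS
    have h3 : 0 ≤ ‖v‖ ^ 2 := by positivity
    rw [hval]
    constructor
    · nlinarith
    · nlinarith

end Pool.Agent.Work.MP_02f065_gt.RPn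

end
end

section

/-!
MP_02f065_gt, all dimensions, item A2: reparametrisation of arcs.
-/

open MeasureTheory Set Filter Topology

noncomputable section

namespace Pool.Agent.Work.MP_02f065_gt.RPn

namespace IA2

/-- derivative of the smooth transition function -/
def st' (t : ℝ) : ℝ := deriv Real.smoothTransition t

theorem hasDerivAt_st (t : ℝ) : HasDerivAt Real.smoothTransition (st' t) t :=
  ((Real.smoothTransition.contDiff (n := 1)).differentiable (by simp) t).hasDerivAt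

theorem continuous_st' : Continuous st' :=
  (Real.smoothTransition.contDiff (n := 1)).continuous_deriv (by simp)

theorem st'_nonneg (t : ℝ) : 0 ≤ st' t := Real.smoothTransition.monotone.deriv_nonneg

theorem st'_zero {t : ℝ} (ht : t ≤ 0) : st' t = 0 := by
  apply IsLocalMin.deriv_eq_zero
  refine Filter.Eventually.of_forall fun u => ?_
  rw [Real.smoothTransition.zero_of_nonpos ht]
  exact Real.smoothTransition.nonneg u

theorem st'_one {t : ℝ} (ht : 1 ≤ t) : st' t = 0 := by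
  apply IsLocalMax.deriv_eq_zero
  refine Filter.Eventually.of_forall fun u => ?_
  rw [Real.smoothTransition.one_of_one_le ht]
  exact Real.smoothTransition.le_one u

theorem sqrt_smul {ι : Type} [Fintype ι] {g : Field ι} (hg : IsMetric g) (x v : E ι) {r : ℝ}
    (hr : 0 ≤ r) : Real.sqrt (g x (r • v) (r • v)) = Real.sqrt (g x v v) * r := by
  rw [hg.smul, hg.symm, hg.smul, ← mul_assoc,
    ← pow_two, Real.sqrt_mul (sq_nonneg r), Real.sqrt_sq hr, mul_comm]

end IA2

open IA2 in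
theorem itemA2 : claimA2 := by
  intro ι _ g c c' a b hg hab harc
  set h : ℝ → ℝ := fun t => a + (b - a) * Real.smoothTransition t with hh
  set h' : ℝ → ℝ := fun t => (b - a) * st' t with hh'
  have hder : ∀ t, HasDerivAt h (h' t) t := fun t =>
    ((hasDerivAt_st t).const_mul (b - a)).const_add a
  have hba : 0 ≤ b - a := by linarith
  have hmem : ∀ t, h t ∈ Icc a b := by
    intro t
    have h0 := Real.smoothTransition.nonneg t
    have h1 := Real.smoothTransition.le_one t
    constructor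
    · have : 0 ≤ (b - a) * Real.smoothTransition t := mul_nonneg hba h0
      simp only [hh]
      linarith
    · have : (b - a) * Real.smoothTransition t ≤ (b - a) * 1 := by gcongr
      simp only [hh]
      linarith
  have hpos : ∀ t, 0 ≤ h' t := fun t => mul_nonneg hba (st'_nonneg t)
  have hcont : Continuous h :=
    continuous_const.add (continuous_const.mul Real.smoothTransition.continuous)
  have hcont' : Continuous h' := continuous_const.mul continuous_st'
  have hh0 : h 0 = a := by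
    simp only [hh, Real.smoothTransition.zero, mul_zero, add_zero]
  have hh1 : h 1 = b := by
    simp only [hh, Real.smoothTransition.one, mul_one]
    ring
  have hk : ∀ t, HasDerivAt (c ∘ h) (h' t • c' (h t)) t := fun t =>
    (harc.deriv (h t) (hmem t)).scomp_hasDerivAt t (hder t) hmem
  have hkd : deriv (c ∘ h) = fun t => h' t • c' (h t) := funext fun t => (hk t).deriv
  refine ⟨c ∘ h, ⟨?_, ?_, ?_, ?_⟩, ?_⟩
  · rw [contDiff_one_iff_deriv]
    refine ⟨fun t => (hk t).differentiableAt, ?_⟩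
    rw [hkd]
    exact hcont'.smul (harc.cont.comp_continuous hcont hmem)
  · intro t
    exact harc.sphere _ (hmem t)
  · simp only [Function.comp_apply, hh0]
  · simp only [Function.comp_apply, hh1]
  · unfold length arcLength
    have e1 : ∀ t : ℝ, Real.sqrt (g ((c ∘ h) t) (deriv (c ∘ h) t) (deriv (c ∘ h) t)) =
        ((fun u => Real.sqrt (g (c u) (c' u) (c' u))) ∘ h) t * h' t := by
      intro t
      rw [hkd]
      exact sqrt_smul hg _ _ (hpos t)
    simp_rw [e1]
    rw [intervalIntegral.integral_comp_mul_deriv_of_deriv_nonneg hcont.continuousOn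
      (fun x _ => hder x) (fun x _ => hpos x), hh0, hh1]

end Pool.Agent.Work.MP_02f065_gt.RPn

end
end

section

/-! Item A6: the systole and its closed geodesic, general index type. -/

set_option autoImplicit false

open MeasureTheory Set Filter Topology

noncomputable section

namespace Pool.Agent.Work.MP_02f065_gt.RPn

variable {ι : Type} [Fintype ι]

/-- the two-sided periodic extension of a path from `x` to `-x` -/
def iA6_ext (c : ℝ → E ι) (L : ℝ) (t : ℝ) : E ι :=
  ((-1 : ℝ) ^ ⌊t / L⌋) • c (t - ⌊t / L⌋ * L)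

theorem iA6_sign_abs (k : ℤ) : |(-1 : ℝ) ^ k| = 1 := by
  rw [abs_zpow, abs_neg, abs_one, one_zpow]

theorem iA6_sign_cases (k : ℤ) : (-1 : ℝ) ^ k = 1 ∨ (-1 : ℝ) ^ k = -1 := by
  have h := iA6_sign_abs k
  rcases abs_eq (zero_le_one' ℝ) |>.1 h with h | h
  · exact Or.inl h
  · exact Or.inr h

theorem iA6_sign_succ (k : ℤ) : (-1 : ℝ) ^ (k + 1) = -(-1 : ℝ) ^ k := by
  rw [zpow_add_one₀ (by norm_num)]
  ring

theorem iA6_ext_norm {c : ℝ → E ι} {L : ℝ} (hc : ∀ t, ‖c t‖ = 1) (t : ℝ) : ‖iA6_ext c L t‖ = 1 := by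
  unfold iA6_ext
  rw [norm_smul, hc, Real.norm_eq_abs, iA6_sign_abs, mul_one]

theorem iA6_ext_eq {c : ℝ → E ι} {L : ℝ} (hL : 0 < L) {t : ℝ} {k : ℤ} (h1 : (k : ℝ) * L ≤ t)
    (h2 : t < ((k : ℝ) + 1) * L) : iA6_ext c L t = ((-1 : ℝ) ^ k) • c (t - k * L) := by
  have : ⌊t / L⌋ = k := by
    rw [Int.floor_eq_iff]
    constructor
    · rw [le_div_iff₀ hL]; exact h1
    · rw [div_lt_iff₀ hL]; exact h2
  unfold iA6_ext
  rw [this]

theorem iA6_ext_add {c : ℝ → E ι} {L : ℝ} (hL : 0 < L) (t : ℝ) : iA6_ext c L (t + L) = -iA6_ext c L t := by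
  have e1 : (t + L) / L = t / L + 1 := by
    rw [add_div, div_self hL.ne']
  have e2 : ⌊(t + L) / L⌋ = ⌊t / L⌋ + 1 := by rw [e1, Int.floor_add_one]
  unfold iA6_ext
  rw [e2, iA6_sign_succ, neg_smul]
  congr 3
  push_cast
  ring

theorem iA6_core [Nonempty ι] (ρ : E ι → E ι → ℝ) (m M : ℝ) (hm : 0 < m) (hM : 0 < M)
    (hb : ∀ x y : E ι, ‖x‖ = 1 → ‖y‖ = 1 → m * ‖x - y‖ ≤ ρ x y ∧ ρ x y ≤ M * ‖x - y‖)
    (hsym : ∀ x y : E ι, ‖x‖ = 1 → ‖y‖ = 1 → ρ y x = ρ x y)
    (hant : ∀ x y : E ι, ‖x‖ = 1 → ‖y‖ = 1 → ρ (-x) (-y) = ρ x y)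
    (htri : ∀ x y z : E ι, ‖x‖ = 1 → ‖y‖ = 1 → ‖z‖ = 1 → ρ x z ≤ ρ x y + ρ y z)
    (h5 : ∀ x y : E ι, ‖x‖ = 1 → ‖y‖ = 1 → ∃ c : ℝ → E ι, (∀ t, ‖c t‖ = 1) ∧ c 0 = x ∧
      c (ρ x y) = y ∧ ∀ s ∈ Icc 0 (ρ x y), ∀ t ∈ Icc 0 (ρ x y), ρ (c s) (c t) = |s - t|) :
    ∃ (L : ℝ) (γ : ℝ → E ι), 0 < L ∧ (∀ x : E ι, ‖x‖ = 1 → L ≤ ρ x (-x)) ∧ Continuous γ ∧
      (∀ t, ‖γ t‖ = 1) ∧ (∀ s t, |s - t| ≤ L / 2 → min (ρ (γ s) (γ t)) (ρ (γ s) (-γ t)) = |s - t|) ∧
      ∀ t, γ (t + L) = -γ t := by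
  -- the minimum
  have hcont : ContinuousOn (fun x : E ι => ρ x (-x)) (Metric.sphere (0 : E ι) 1) := by
    have hlip : ∀ x ∈ Metric.sphere (0 : E ι) 1, ∀ y ∈ Metric.sphere (0 : E ι) 1,
        |ρ x (-x) - ρ y (-y)| ≤ 2 * M * ‖x - y‖ := by
      intro x hx y hy
      have hx1 : ‖x‖ = 1 := by simpa using hx
      have hy1 : ‖y‖ = 1 := by simpa using hy
      have hx2 : ‖-x‖ = 1 := by rw [norm_neg]; exact hx1
      have hy2 : ‖-y‖ = 1 := by rw [norm_neg]; exact hy1
      have a1 := htri x y (-x) hx1 hy1 hx2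
      have a2 := htri y (-y) (-x) hy1 hy2 hx2
      have a3 := htri y x (-y) hy1 hx1 hy2
      have a4 := htri x (-x) (-y) hx1 hx2 hy2
      have a5 := hsym x y hx1 hy1
      have a6 := hant x y hx1 hy1
      have a7 := hsym (-x) (-y) hx2 hy2
      have a8 := (hb x y hx1 hy1).2
      rw [abs_le]
      constructor <;> linarith
    refine Metric.continuousOn_iff.2 ?_
    intro x hx ε hε
    refine ⟨ε / (2 * M), by positivity, ?_⟩
    intro y hy hxy
    rw [Real.dist_eq]
    refine lt_of_le_of_lt (hlip y hy x hx) ?_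
    rw [dist_eq_norm] at hxy
    calc 2 * M * ‖y - x‖ < 2 * M * (ε / (2 * M)) := by
          exact mul_lt_mul_of_pos_left hxy (by positivity)
      _ = ε := by field_simp
  have hne : (Metric.sphere (0 : E ι) 1).Nonempty := by
    classical
    refine ⟨EuclideanSpace.single (Classical.arbitrary ι) 1, ?_⟩
    simp
  obtain ⟨x0, hx0, hmin⟩ := (isCompact_sphere (0 : E ι) 1).exists_isMinOn hne hcont
  have hx01 : ‖x0‖ = 1 := by simpa using hx0
  have hx02 : ‖-x0‖ = 1 := by rw [norm_neg]; exact hx01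
  obtain ⟨L, hL⟩ : ∃ L, L = ρ x0 (-x0) := ⟨_, rfl⟩
  have hLmin : ∀ x : E ι, ‖x‖ = 1 → L ≤ ρ x (-x) := by
    intro x hx
    rw [hL]
    have hx' : x ∈ Metric.sphere (0 : E ι) 1 := by simpa using hx
    exact isMinOn_iff.1 hmin x hx'
  have hLpos : 0 < L := by
    have h1 := (hb x0 (-x0) hx01 hx02).1
    have h2 : x0 - -x0 = (2 : ℝ) • x0 := by rw [two_smul]; abel
    rw [h2, norm_smul, hx01, ← hL] at h1
    have h3 : (0 : ℝ) < m * (‖(2 : ℝ)‖ * 1) := by
      rw [Real.norm_eq_abs, abs_two]; linarith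
    linarith
  obtain ⟨c, hc1, hc0, hcL, hcd⟩ := h5 x0 (-x0) hx01 hx02
  rw [← hL] at hcL hcd
  have hnorm := fun t => iA6_ext_norm (L := L) hc1 t
  -- distances of points with the same sign
  have hsign : ∀ (k : ℤ) (x y : E ι), ‖x‖ = 1 → ‖y‖ = 1 →
      ρ (((-1 : ℝ) ^ k) • x) (((-1 : ℝ) ^ k) • y) = ρ x y := by
    intro k x y hx hy
    rcases iA6_sign_cases k with h | h
    · rw [h, one_smul, one_smul]
    · rw [h, neg_one_smul, neg_one_smul]; exact hant x y hx hy
  -- upper bound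
  have hup : ∀ s t : ℝ, s ≤ t → t ≤ s + L → ρ (iA6_ext c L s) (iA6_ext c L t) ≤ t - s := by
    intro s t hst htL
    obtain ⟨k, hk⟩ : ∃ k : ℤ, k = ⌊s / L⌋ := ⟨_, rfl⟩
    have hk1 : (k : ℝ) * L ≤ s := by
      have := Int.floor_le (s / L)
      rw [← hk, le_div_iff₀ hLpos] at this
      exact this
    have hk2 : s < ((k : ℝ) + 1) * L := by
      have := Int.lt_floor_add_one (s / L)
      rw [← hk, div_lt_iff₀ hLpos] at this
      exact this
    have es := iA6_ext_eq (c := c) hLpos hk1 hk2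
    have ms : s - k * L ∈ Icc 0 L := ⟨by linarith, by linarith⟩
    rcases lt_or_ge t (((k : ℝ) + 1) * L) with ht | ht
    · have et := iA6_ext_eq (c := c) hLpos (hk1.trans hst) ht
      have mt : t - k * L ∈ Icc 0 L := ⟨by linarith, by linarith⟩
      rw [es, et, hsign k _ _ (hc1 _) (hc1 _), hcd _ ms _ mt, abs_of_nonpos (by linarith)]
      linarith
    · have et := iA6_ext_eq (c := c) (k := k + 1) hLpos (by push_cast; exact ht)
        (by push_cast; linarith)
      have mt : t - ((k + 1 : ℤ) : ℝ) * L ∈ Icc 0 L := by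
        push_cast
        exact ⟨by linarith, by linarith⟩
      have m0 : (0 : ℝ) ∈ Icc 0 L := ⟨le_rfl, hLpos.le⟩
      have mL : L ∈ Icc 0 L := ⟨hLpos.le, le_rfl⟩
      obtain ⟨p, hp⟩ : ∃ p : E ι, p = ((-1 : ℝ) ^ k) • c L := ⟨_, rfl⟩
      have hp2 : p = ((-1 : ℝ) ^ (k + 1)) • c 0 := by
        rw [hp, hcL, hc0, iA6_sign_succ, smul_neg, neg_smul]
      have hpn : ‖p‖ = 1 := by
        rw [hp, norm_smul, hc1, Real.norm_eq_abs, iA6_sign_abs, mul_one]
      have d1 : ρ (iA6_ext c L s) p = L - (s - k * L) := by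
        rw [es, hp, hsign k _ _ (hc1 _) (hc1 _), hcd _ ms _ mL, abs_of_nonpos (by linarith [ms.2])]
        ring
      have d2 : ρ p (iA6_ext c L t) = t - ((k + 1 : ℤ) : ℝ) * L := by
        rw [et, hp2, hsign (k + 1) _ _ (hc1 _) (hc1 _), hcd _ m0 _ mt,
          abs_of_nonpos (by linarith [mt.1])]
        ring
      have d3 := htri _ _ _ (hnorm s) hpn (hnorm t)
      rw [d1, d2] at d3
      refine d3.trans (le_of_eq ?_)
      push_cast
      ring
  have hneg : ∀ t, ‖-iA6_ext c L t‖ = 1 := fun t => by rw [norm_neg]; exact hnorm t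
  -- exact distance, ordered
  have hex : ∀ s t : ℝ, s ≤ t → t ≤ s + L → ρ (iA6_ext c L s) (iA6_ext c L t) = t - s := by
    intro s t hst htL
    refine le_antisymm (hup s t hst htL) ?_
    have h1 := hLmin _ (hnorm s)
    rw [← iA6_ext_add hLpos s] at h1
    have h2 := htri _ _ _ (hnorm s) (hnorm t) (hnorm (s + L))
    have h3 := hup t (s + L) htL (by linarith)
    linarith
  have habs : ∀ s t : ℝ, |s - t| ≤ L → ρ (iA6_ext c L s) (iA6_ext c L t) = |s - t| := by
    intro s t h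
    rcases le_total s t with hst | hst
    · rw [abs_of_nonpos (by linarith)] at h ⊢
      rw [hex s t hst (by linarith)]
      ring
    · rw [abs_of_nonneg (by linarith)] at h ⊢
      rw [hsym _ _ (hnorm t) (hnorm s), hex t s hst (by linarith)]
  refine ⟨L, iA6_ext c L, hLpos, hLmin, ?_, hnorm, ?_, iA6_ext_add hLpos⟩
  · -- continuity
    rw [Metric.continuous_iff]
    intro t ε hε
    refine ⟨min L (m * ε), lt_min hLpos (by positivity), ?_⟩
    intro s hst
    rw [Real.dist_eq] at hst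
    have h1 := habs s t (hst.le.trans (min_le_left _ _))
    have h2 := (hb _ _ (hnorm s) (hnorm t)).1
    rw [h1] at h2
    have h3 : m * ‖iA6_ext c L s - iA6_ext c L t‖ < m * ε :=
      lt_of_le_of_lt h2 (lt_of_lt_of_le hst (min_le_right _ _))
    rw [dist_eq_norm]
    exact lt_of_mul_lt_mul_left h3 hm.le
  · intro s t hst
    have h1 := habs s t (by linarith)
    have h2 := hLmin _ (hnorm t)
    have h3 := htri _ _ _ (hnorm t) (hnorm s) (hneg t)
    rw [hsym _ _ (hnorm s) (hnorm t), h1] at h3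
    rw [h1, min_eq_left]
    linarith

theorem itemA6 (h4a : claimA4a) (h4b : claimA4b) (h5 : claimA5) : claimA6 := by
  intro ι _ _ g hg
  obtain ⟨m, M, hm, hM, hb⟩ := h4a ι g hg
  obtain ⟨hlen, hprop⟩ := h4b ι g hg
  obtain ⟨L, γ, hL, hmin, hc, hn, hgeo, hper⟩ := iA6_core (rdist g) m M hm hM
    (fun x y hx hy => (hb x y hx hy).2) (fun x y hx hy => (hprop x y y hx hy hy).1)
    (fun x y hx hy => (hprop x y y hx hy hy).2.1) (fun x y z hx hy hz => (hprop x y z hx hy hz).2.2)
    (fun x y hx hy => h5 ι g x y hg hx hy)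
  refine ⟨L, hL, ?_, γ, ?_⟩
  · intro x c hx hcur
    exact (hmin x hx).trans (hlen x (-x) c hcur)
  · exact ⟨hc, hn, ⟨L / 2, by linarith, fun s t hst => hgeo s t hst⟩, hL, Or.inr hper⟩

end Pool.Agent.Work.MP_02f065_gt.RPn

end
end

section

/-!
BA: properties of the average over SO(P) x SO(Q).
-/

open MeasureTheory Set Filter Topology

noncomputable section

namespace Pool.Agent.Work.MP_02f065_gt.RPn

lemma iBA_cont {P Q : ℕ} : Continuous (fun q : Matrix (Fin P) (Fin P) ℝ ×
    Matrix (Fin Q) (Fin Q) ℝ × E (Ix P Q) => blk q.1 q.2.1 q.2.2) := by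
  unfold blk
  refine (PiLp.continuous_toLp 2 _).comp (continuous_pi ?_)
  intro i
  have hx : ∀ i : Ix P Q, Continuous (fun q : Matrix (Fin P) (Fin P) ℝ ×
    Matrix (Fin Q) (Fin Q) ℝ × E (Ix P Q) => q.2.2 i) := by
    intro i
    have h1 : Continuous (fun x : E (Ix P Q) => x i) := by fun_prop
    exact h1.comp (continuous_snd.comp continuous_snd)
  rcases i with i | i
  · show Continuous (fun q : Matrix (Fin P) (Fin P) ℝ × Matrix (Fin Q) (Fin Q) ℝ × E (Ix P Q) =>
      ∑ j, q.1 i j * q.2.2 (Sum.inl j))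
    refine continuous_finset_sum _ fun j _ => Continuous.mul ?_ (hx _)
    exact (continuous_apply_apply (ρ := fun _ _ => ℝ) i j).comp continuous_fst
  · show Continuous (fun q : Matrix (Fin P) (Fin P) ℝ × Matrix (Fin Q) (Fin Q) ℝ × E (Ix P Q) =>
      ∑ j, q.2.1 i j * q.2.2 (Sum.inr j))
    refine continuous_finset_sum _ fun j _ => Continuous.mul ?_ (hx _)
    exact (continuous_apply_apply (ρ := fun _ _ => ℝ) i j).comp
      (continuous_fst.comp continuous_snd)

lemma iBA_meas {P Q : ℕ} {Ω : Type} [MeasurableSpace Ω] (a : Ω → Matrix (Fin P) (Fin P) ℝ)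
    (b : Ω → Matrix (Fin Q) (Fin Q) ℝ) (ha : ∀ i j, Measurable fun ω => a ω i j)
    (hb : ∀ i j, Measurable fun ω => b ω i j) (x : E (Ix P Q)) :
    Measurable (fun ω => blk (a ω) (b ω) x) := by
  unfold blk
  refine (WithLp.measurable_toLp 2 _).comp (measurable_pi_iff.mpr ?_)
  intro i
  rcases i with i | i
  · show Measurable (fun ω => ∑ j, a ω i j * x (Sum.inl j))
    exact Finset.measurable_sum _ fun j _ => (ha i j).mul_const _
  · show Measurable (fun ω => ∑ j, b ω i j * x (Sum.inr j))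
    exact Finset.measurable_sum _ fun j _ => (hb i j).mul_const _

/-- measurability of the integrand -/
lemma iBA_meas' (hR : claimR) {P Q : ℕ} {Ω : Type} [MeasurableSpace Ω]
    (a : Ω → Matrix (Fin P) (Fin P) ℝ)
    (b : Ω → Matrix (Fin Q) (Fin Q) ℝ) (ha : ∀ i j, Measurable fun ω => a ω i j)
    (hb : ∀ i j, Measurable fun ω => b ω i j) (ha' : ∀ ω, a ω ∈ SO P) (hb' : ∀ ω, b ω ∈ SO Q)
    (lam : E (Ix P Q) → ℝ) (hl : ContinuousOn lam (Metric.sphere (0 : E (Ix P Q)) 1))
    (x : E (Ix P Q)) (hx : ‖x‖ = 1) :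
    Measurable (fun ω => lam (blk (a ω) (b ω) x)) := by
  classical
  have h1 : (fun ω => lam (blk (a ω) (b ω) x)) =
      (fun y => (Metric.sphere (0 : E (Ix P Q)) 1).piecewise lam (fun _ => 0) y) ∘
        (fun ω => blk (a ω) (b ω) x) := by
    funext ω
    rw [Function.comp_apply, Set.piecewise_eq_of_mem]
    rw [mem_sphere_zero_iff_norm, (hR P Q _ (ha' ω) _ (hb' ω) x x 0).2.2.2.2.1, hx]
  rw [h1]
  refine Measurable.comp ?_ (iBA_meas a b ha hb x)
  exact hl.measurable_piecewise continuousOn_const Metric.isClosed_sphere.measurableSet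

lemma iBA_bdd {P Q : ℕ} (lam : E (Ix P Q) → ℝ)
    (hl : ContinuousOn lam (Metric.sphere (0 : E (Ix P Q)) 1)) :
    ∃ C : ℝ, ∀ x : E (Ix P Q), ‖x‖ = 1 → |lam x| ≤ C := by
  obtain ⟨C, hC⟩ := (isCompact_sphere (0 : E (Ix P Q)) 1).exists_bound_of_continuousOn hl
  exact ⟨C, fun x hx => by simpa using hC x (by simpa using hx)⟩

lemma iBA_lower {P Q : ℕ} (lam : E (Ix P Q) → ℝ)
    (hl : ContinuousOn lam (Metric.sphere (0 : E (Ix P Q)) 1)) (hp : ∀ x, ‖x‖ = 1 → 0 < lam x) :
    ∃ c : ℝ, 0 < c ∧ ∀ x : E (Ix P Q), ‖x‖ = 1 → c ≤ lam x := by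
  by_cases hne : (Metric.sphere (0 : E (Ix P Q)) 1).Nonempty
  · obtain ⟨x₀, hx₀, hmin⟩ := (isCompact_sphere (0 : E (Ix P Q)) 1).exists_isMinOn hne hl
    refine ⟨lam x₀, hp x₀ (by simpa using hx₀), fun x hx => ?_⟩
    exact hmin (by simpa using hx)
  · refine ⟨1, one_pos, fun x hx => absurd ⟨x, by simpa using hx⟩ hne⟩

section main

variable {P Q : ℕ} {Ω Ω' : Type} [MeasurableSpace Ω] [MeasurableSpace Ω'] (μ : Measure Ω)
  (μ' : Measure Ω') [IsProbabilityMeasure μ] [IsProbabilityMeasure μ']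
  (a : Ω → Matrix (Fin P) (Fin P) ℝ) (b : Ω' → Matrix (Fin Q) (Fin Q) ℝ)

/-- the average as an integral over the product -/
lemma iBA_prod (hR : claimR) (ha : ∀ i j, Measurable fun ω => a ω i j)
    (hb : ∀ i j, Measurable fun ω => b ω i j) (ha' : ∀ ω, a ω ∈ SO P) (hb' : ∀ ω, b ω ∈ SO Q)
    (lam : E (Ix P Q) → ℝ) (hl : ContinuousOn lam (Metric.sphere (0 : E (Ix P Q)) 1))
    (x : E (Ix P Q)) (hx : ‖x‖ = 1) :
    Integrable (fun p : Ω × Ω' => lam (blk (a p.1) (b p.2) x)) (μ.prod μ') ∧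
    ∫ ω, ∫ ω', lam (blk (a ω) (b ω') x) ∂μ' ∂μ =
      ∫ p : Ω × Ω', lam (blk (a p.1) (b p.2) x) ∂(μ.prod μ') := by
  obtain ⟨C, hC⟩ := iBA_bdd lam hl
  have hm := iBA_meas' hR (fun p : Ω × Ω' => a p.1) (fun p => b p.2)
    (fun i j => (ha i j).comp measurable_fst) (fun i j => (hb i j).comp measurable_snd)
    (fun p => ha' p.1) (fun p => hb' p.2) lam hl x hx
  have hI : Integrable (fun p : Ω × Ω' => lam (blk (a p.1) (b p.2) x)) (μ.prod μ') := by
    refine Integrable.of_bound hm.aestronglyMeasurable C (Filter.Eventually.of_forall fun p => ?_)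
    rw [Real.norm_eq_abs]
    exact hC _ (by rw [(hR P Q _ (ha' p.1) _ (hb' p.2) x x 0).2.2.2.2.1, hx])
  exact ⟨hI, (integral_prod (f := fun p : Ω × Ω' => lam (blk (a p.1) (b p.2) x)) hI).symm⟩

lemma iBA_contOn (hR : claimR) (ha : ∀ i j, Measurable fun ω => a ω i j)
    (hb : ∀ i j, Measurable fun ω => b ω i j) (ha' : ∀ ω, a ω ∈ SO P) (hb' : ∀ ω, b ω ∈ SO Q)
    (lam : E (Ix P Q) → ℝ) (hl : ContinuousOn lam (Metric.sphere (0 : E (Ix P Q)) 1)) :
    ContinuousOn (fun x => ∫ ω, ∫ ω', lam (blk (a ω) (b ω') x) ∂μ' ∂μ)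
      (Metric.sphere (0 : E (Ix P Q)) 1) := by
  obtain ⟨C, hC⟩ := iBA_bdd lam hl
  have h1 : ContinuousOn (fun x => ∫ p : Ω × Ω', lam (blk (a p.1) (b p.2) x) ∂(μ.prod μ'))
      (Metric.sphere (0 : E (Ix P Q)) 1) := by
    refine continuousOn_of_dominated (bound := fun _ => C) ?_ ?_ (integrable_const C) ?_
    · intro x hx
      exact (iBA_prod μ μ' a b hR ha hb ha' hb' lam hl x (by simpa using hx)).1.aestronglyMeasurable
    · intro x hx
      refine Filter.Eventually.of_forall fun p => ?_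
      rw [Real.norm_eq_abs]
      refine hC _ ?_
      rw [(hR P Q _ (ha' p.1) _ (hb' p.2) x x 0).2.2.2.2.1]
      simpa using hx
    · refine Filter.Eventually.of_forall fun p => ?_
      refine hl.comp ?_ ?_
      · have : Continuous fun x : E (Ix P Q) => blk (a p.1) (b p.2) x :=
          iBA_cont.comp (continuous_const.prodMk (continuous_const.prodMk continuous_id))
        exact this.continuousOn
      · intro x hx
        rw [mem_sphere_zero_iff_norm, (hR P Q _ (ha' p.1) _ (hb' p.2) x x 0).2.2.2.2.1]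
        simpa using hx
  refine h1.congr fun x hx => ?_
  exact (iBA_prod μ μ' a b hR ha hb ha' hb' lam hl x (by simpa using hx)).2

lemma iBA_pos (hR : claimR) (ha : ∀ i j, Measurable fun ω => a ω i j)
    (hb : ∀ i j, Measurable fun ω => b ω i j) (ha' : ∀ ω, a ω ∈ SO P) (hb' : ∀ ω, b ω ∈ SO Q)
    (lam : E (Ix P Q) → ℝ) (hl : ContinuousOn lam (Metric.sphere (0 : E (Ix P Q)) 1))
    (hp : ∀ x, ‖x‖ = 1 → 0 < lam x) (x : E (Ix P Q)) (hx : ‖x‖ = 1) :
    0 < ∫ ω, ∫ ω', lam (blk (a ω) (b ω') x) ∂μ' ∂μ := by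
  obtain ⟨c, hc, hc'⟩ := iBA_lower lam hl hp
  obtain ⟨h1, h2⟩ := iBA_prod μ μ' a b hR ha hb ha' hb' lam hl x hx
  rw [h2]
  have h3 : ∫ _p : Ω × Ω', c ∂(μ.prod μ') ≤
      ∫ p : Ω × Ω', lam (blk (a p.1) (b p.2) x) ∂(μ.prod μ') := by
    refine integral_mono (integrable_const c) h1 fun p => ?_
    exact hc' _ (by rw [(hR P Q _ (ha' p.1) _ (hb' p.2) x x 0).2.2.2.2.1, hx])
  rw [integral_const] at h3
  simp only [probReal_univ, one_smul] at h3
  exact lt_of_lt_of_le hc h3

lemma iBA_inv (hR : claimR) (ha : ∀ i j, Measurable fun ω => a ω i j)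
    (hb : ∀ i j, Measurable fun ω => b ω i j) (ha' : ∀ ω, a ω ∈ SO P) (hb' : ∀ ω, b ω ∈ SO Q)
    (hinv : ∀ T ∈ SO P, ∀ F : Matrix (Fin P) (Fin P) ℝ → ℝ, ContinuousOn F (SO P : Set _) →
      ∫ ω, F (a ω * T) ∂μ = ∫ ω, F (a ω) ∂μ)
    (hinv' : ∀ T ∈ SO Q, ∀ F : Matrix (Fin Q) (Fin Q) ℝ → ℝ, ContinuousOn F (SO Q : Set _) →
      ∫ ω, F (b ω * T) ∂μ' = ∫ ω, F (b ω) ∂μ')
    (lam : E (Ix P Q) → ℝ) (hl : ContinuousOn lam (Metric.sphere (0 : E (Ix P Q)) 1))
    (A : Matrix (Fin P) (Fin P) ℝ) (hA : A ∈ SO P) (B : Matrix (Fin Q) (Fin Q) ℝ) (hB : B ∈ SO Q)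
    (x : E (Ix P Q)) (hx : ‖x‖ = 1) :
    ∫ ω, ∫ ω', lam (blk (a ω) (b ω') (blk A B x)) ∂μ' ∂μ =
      ∫ ω, ∫ ω', lam (blk (a ω) (b ω') x) ∂μ' ∂μ := by
  obtain ⟨C, hC⟩ := iBA_bdd lam hl
  have e1 : ∀ ω ω', blk (a ω) (b ω') (blk A B x) = blk (a ω * A) (b ω' * B) x :=
    fun ω ω' => (hR P Q _ (ha' ω) _ (hb' ω') x x 0).2.2.2.2.2.1 A hA B hB
  simp only [e1]
  have hn : ∀ T ∈ SO P, ∀ S ∈ SO Q, blk T S x ∈ Metric.sphere (0 : E (Ix P Q)) 1 := by
    intro T hT S hS
    rw [mem_sphere_zero_iff_norm, (hR P Q _ hT _ hS x x 0).2.2.2.2.1, hx]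
  have e2 : ∀ ω, ∫ ω', lam (blk (a ω * A) (b ω' * B) x) ∂μ' =
      ∫ ω', lam (blk (a ω * A) (b ω') x) ∂μ' := by
    intro ω
    refine hinv' B hB (fun S => lam (blk (a ω * A) S x)) ?_
    refine hl.comp ?_ fun S hS => hn _ ((SO P).mul_mem (ha' ω) hA) _ hS
    have : Continuous fun S : Matrix (Fin Q) (Fin Q) ℝ => blk (a ω * A) S x :=
      iBA_cont.comp (continuous_const.prodMk (continuous_id.prodMk continuous_const))
    exact this.continuousOn
  simp only [e2]
  refine hinv A hA (fun T => ∫ ω', lam (blk T (b ω') x) ∂μ') ?_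
  have : FirstCountableTopology (Matrix (Fin P) (Fin P) ℝ) :=
    inferInstanceAs (FirstCountableTopology (Fin P → Fin P → ℝ))
  refine continuousOn_of_dominated (bound := fun _ => C) ?_ ?_ (integrable_const C) ?_
  · intro T hT
    exact (iBA_meas' hR (fun _ => T) b (fun i j => measurable_const) hb (fun _ => hT) hb' lam hl
      x hx).aestronglyMeasurable
  · intro T hT
    refine Filter.Eventually.of_forall fun ω' => ?_
    rw [Real.norm_eq_abs]
    exact hC _ (by simpa using hn T hT _ (hb' ω'))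
  · refine Filter.Eventually.of_forall fun ω' => ?_
    refine hl.comp ?_ fun T hT => hn _ hT _ (hb' ω')
    have : Continuous fun T : Matrix (Fin P) (Fin P) ℝ => blk T (b ω') x :=
      iBA_cont.comp (continuous_id.prodMk (continuous_const.prodMk continuous_const))
    exact this.continuousOn

end main

theorem itemBA (hR : claimR) : claimBA := by
  intro P Q _ _ HP HQ lam hl hp hev
  letI := HP.ms
  letI := HQ.ms
  haveI := HP.prob
  haveI := HQ.prob
  have hinv : ∀ A ∈ SO P, ∀ B ∈ SO Q, ∀ x : E (Ix P Q), ‖x‖ = 1 →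
      avg HP HQ lam (blk A B x) = avg HP HQ lam x := fun A hA B hB x hx =>
    iBA_inv HP.μ HQ.μ HP.m HQ.m hR HP.meas HQ.meas HP.mem HQ.mem HP.inv HQ.inv lam hl A hA B hB
      x hx
  refine ⟨iBA_contOn HP.μ HQ.μ HP.m HQ.m hR HP.meas HQ.meas HP.mem HQ.mem lam hl,
    fun x hx => iBA_pos HP.μ HQ.μ HP.m HQ.m hR HP.meas HQ.meas HP.mem HQ.mem lam hl hp x hx,
    hinv, ?_⟩
  intro x hx
  unfold avg
  refine integral_congr_ae (Filter.Eventually.of_forall fun ω => ?_)
  refine integral_congr_ae (Filter.Eventually.of_forall fun ω' => ?_)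
  have h := hR P Q (HP.m ω) (HP.mem ω) (HQ.m ω') (HQ.mem ω') x x 1
  simp only
  rw [h.2.2.1]
  exact hev _ (by rw [h.2.2.2.2.1]; exact hx)

end Pool.Agent.Work.MP_02f065_gt.RPn

end
end

section

/-!
BD1: scaling of the volume density, general index type.
-/

open MeasureTheory Set Filter Topology

noncomputable section

namespace Pool.Agent.Work.MP_02f065_gt.RPn

variable {ι : Type} [Fintype ι]

lemma iBD1_zero {g : Field ι} (hg : IsMetric g) (x w : E ι) : g x 0 w = 0 := by
  have h := hg.smul x 0 w 0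
  rwa [smul_zero, zero_mul] at h

lemma iBD1_gsum {g : Field ι} (hg : IsMetric g) (x w : E ι) (s : Finset ι) (a : ι → ℝ)
    (v : ι → E ι) : g x (∑ j ∈ s, a j • v j) w = ∑ j ∈ s, a j * g x (v j) w := by
  classical
  induction s using Finset.induction_on with
  | empty => simp [iBD1_zero hg]
  | insert j s hj ih => rw [Finset.sum_insert hj, Finset.sum_insert hj, hg.add, hg.smul, ih]

lemma iBD1_inner_tang {x : E ι} (hx : ‖x‖ = 1) (v : E ι) : inner ℝ x (tang x v) = 0 := by
  unfold tang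
  rw [inner_sub_right, inner_smul_right, real_inner_self_eq_norm_sq, hx]
  ring

lemma iBD1_sum [DecidableEq ι] {x : E ι} : x = ∑ i : ι, x i • ei i := by
  ext j
  unfold ei
  simp [Pi.single_apply]

lemma iBD1_tang_sum [DecidableEq ι] {x : E ι} (hx : ‖x‖ = 1) :
    ∑ i : ι, x i • tang x (ei i) = 0 := by
  have h1 : ∑ i : ι, x i • tang x (ei i) = tang x (∑ i : ι, x i • ei i) := by
    unfold tang
    rw [inner_sum, Finset.sum_smul, ← Finset.sum_sub_distrib]
    refine Finset.sum_congr rfl fun i _ => ?_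
    rw [inner_smul_right, smul_sub, smul_smul]
  rw [h1, ← iBD1_sum]
  unfold tang
  rw [real_inner_self_eq_norm_sq, hx]
  simp

lemma iBD1_sq {x : E ι} (hx : ‖x‖ = 1) : ∑ i : ι, x i * x i = 1 := by
  have h := real_inner_self_eq_norm_sq x
  rw [hx, PiLp.inner_apply] at h
  simpa [← sq] using h

theorem itemBD1 : claimBD1 := by
  intro ι _ _ g g' x r hgm hgm' hx hr hg
  have hcard : 0 < Fintype.card ι := by
    rw [Fintype.card_pos_iff]
    by_contra hne
    rw [not_nonempty_iff] at hne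
    have : x = 0 := Subsingleton.elim _ _
    rw [this, norm_zero] at hx
    exact zero_ne_one hx
  set A : Matrix ι ι ℝ := Matrix.of fun i j : ι =>
    g x (tang x (ei i)) (tang x (ei j)) with hA
  set u : ι → ℝ := fun i => x i with hu
  have hM : Matrix.of (gram g x) = A + Matrix.vecMulVec u u := by
    ext i j
    simp [hA, hu, Matrix.vecMulVec_apply, gram]
  have hM' : Matrix.of (gram g' x) = r ^ 2 • A + Matrix.vecMulVec u u := by
    ext i j
    simp only [hA, hu, Matrix.vecMulVec_apply, Matrix.of_apply, Matrix.add_apply,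
      Matrix.smul_apply, smul_eq_mul, gram]
    rw [hg _ _ (iBD1_inner_tang hx _) (iBD1_inner_tang hx _)]
  have hAu : Matrix.mulVec A u = 0 := by
    funext i
    have h1 := iBD1_gsum hgm x (tang x (ei i)) Finset.univ (fun j => x j)
      (fun j => tang x (ei j))
    rw [iBD1_tang_sum hx, iBD1_zero hgm] at h1
    rw [Matrix.mulVec, dotProduct, Pi.zero_apply, h1]
    refine Finset.sum_congr rfl fun j _ => ?_
    simp only [hA, hu, Matrix.of_apply]
    rw [hgm.symm x (tang x (ei i)) (tang x (ei j))]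
    ring
  have huu : dotProduct u u = 1 := iBD1_sq hx
  have hprod : r ^ 2 • A + Matrix.vecMulVec u u =
      (A + Matrix.vecMulVec u u) * (r ^ 2 • (1 : Matrix ι ι ℝ) +
        (1 - r ^ 2) • Matrix.vecMulVec u u) := by
    rw [Matrix.add_mul, Matrix.mul_add, Matrix.mul_add, Matrix.mul_smul, Matrix.mul_smul,
      Matrix.mul_smul, Matrix.mul_smul, Matrix.mul_one, Matrix.mul_one,
      Matrix.mul_vecMulVec, hAu, Matrix.vecMulVec_mul_vecMulVec, huu]
    ext i j
    simp [Matrix.vecMulVec_apply]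
  have hdet : (r ^ 2 • (1 : Matrix ι ι ℝ) +
        (1 - r ^ 2) • Matrix.vecMulVec u u).det = (r ^ (Fintype.card ι - 1)) ^ 2 := by
    have h1 : r ^ 2 • (1 : Matrix ι ι ℝ) + (1 - r ^ 2) • Matrix.vecMulVec u u =
        r ^ 2 • (1 + Matrix.replicateCol Unit (((1 - r ^ 2) / r ^ 2) • u) *
          Matrix.replicateRow Unit u) := by
      ext i j
      simp [Matrix.vecMulVec_apply, Matrix.mul_apply]
      field_simp
    rw [h1, Matrix.det_smul, Matrix.det_one_add_replicateCol_mul_replicateRow,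
      dotProduct_smul, huu]
    obtain ⟨n, hn⟩ : ∃ n, Fintype.card ι = n + 1 := ⟨Fintype.card ι - 1, by omega⟩
    rw [hn]
    simp only [smul_eq_mul, mul_one, Nat.add_sub_cancel]
    have hr0 : r ≠ 0 := hr.ne'
    have e1 : 1 + (1 - r ^ 2) / r ^ 2 = 1 / r ^ 2 := by
      field_simp
      ring
    rw [e1, pow_succ]
    field_simp
    ring
  unfold volDensity
  rw [hM, hM', hprod, Matrix.det_mul, hdet, mul_comm,
    Real.sqrt_mul (sq_nonneg _), Real.sqrt_sq (by positivity)]

end Pool.Agent.Work.MP_02f065_gt.RPn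

end
end

section

/-!
BD2: invariance of the volume density.
-/

open MeasureTheory Set Filter Topology

noncomputable section

namespace Pool.Agent.Work.MP_02f065_gt.RPn

variable {ι : Type} [Fintype ι]

lemma iBD2_gsum {g : Field ι} (hg : IsMetric g) (x w : E ι) (s : Finset ι) (a : ι → ℝ)
    (v : ι → E ι) : g x (∑ j ∈ s, a j • v j) w = ∑ j ∈ s, a j * g x (v j) w := by
  classical
  induction s using Finset.induction_on with
  | empty =>
    have h := hg.smul x 0 w 0
    simpa using h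
  | insert j s hj ih => rw [Finset.sum_insert hj, Finset.sum_insert hj, hg.add, hg.smul, ih]

lemma iBD2_inner_tang {x : E ι} (hx : ‖x‖ = 1) (v : E ι) : inner ℝ x (tang x v) = 0 := by
  unfold tang
  rw [inner_sub_right, inner_smul_right, real_inner_self_eq_norm_sq, hx]
  ring

lemma iBD2_sum [DecidableEq ι] {x : E ι} : x = ∑ i : ι, x i • ei i := by
  ext j
  unfold ei
  simp [Pi.single_apply]

lemma iBD2_tang_sum [DecidableEq ι] (x v : E ι) :
    tang x v = ∑ i : ι, v i • tang x (ei i) := by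
  have h1 : ∑ i : ι, v i • tang x (ei i) = tang x (∑ i : ι, v i • ei i) := by
    unfold tang
    rw [inner_sum, Finset.sum_smul, ← Finset.sum_sub_distrib]
    refine Finset.sum_congr rfl fun i _ => ?_
    rw [inner_smul_right, smul_sub, smul_smul]
  rw [h1, ← iBD2_sum]

lemma iBD2_inner (x y : E ι) : inner ℝ x y = ∑ i : ι, x i * y i := by
  rw [PiLp.inner_apply]
  refine Finset.sum_congr rfl fun i _ => ?_
  simp [mul_comm]

lemma iBD2_inv {n : ℕ} {A : Matrix (Fin n) (Fin n) ℝ} (hA : A ∈ SO n) :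
    A.transpose ∈ SO n ∧ A * A.transpose = 1 := by
  rw [Matrix.mem_specialOrthogonalGroup_iff] at hA
  have h1 := (Matrix.mem_orthogonalGroup_iff _ _).1 hA.1
  have h2 := (Matrix.mem_orthogonalGroup_iff' _ _).1 hA.1
  refine ⟨?_, h1⟩
  rw [Matrix.mem_specialOrthogonalGroup_iff]
  refine ⟨?_, ?_⟩
  · rw [Matrix.mem_orthogonalGroup_iff]
    rw [Matrix.transpose_transpose]
    exact h2
  · rw [Matrix.det_transpose]
    exact hA.2

theorem itemBD2 (hR : claimR) : claimBD2 := by
  intro P Q g hg hinv A hA B hB x hx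
  obtain ⟨hA', hAA⟩ := iBD2_inv hA
  obtain ⟨hB', hBB⟩ := iBD2_inv hB
  have hadd : ∀ y z, blk A B (y + z) = blk A B y + blk A B z := fun y z => (hR P Q A hA B hB y z 0).1
  have hsmul : ∀ (t : ℝ) y, blk A B (t • y) = t • blk A B y := fun t y =>
    (hR P Q A hA B hB y y t).2.1
  have hin : ∀ y z : E (Ix P Q), inner ℝ (blk A B y) (blk A B z) = inner ℝ y z :=
    fun y z => (hR P Q A hA B hB y z 0).2.2.2.1
  have hnx : ‖blk A B x‖ = 1 := by rw [(hR P Q A hA B hB x x 0).2.2.2.2.1, hx]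
  -- the inverse images of the basis vectors
  set u : Ix P Q → E (Ix P Q) := fun i => blk A.transpose B.transpose (ei i) with hu
  have hru : ∀ i, blk A B (u i) = ei i := by
    intro i
    rw [hu, (hR P Q A hA B hB (ei i) 0 0).2.2.2.2.2.1 _ hA' _ hB', hAA, hBB]
    exact (hR P Q A hA B hB (ei i) 0 0).2.2.2.2.2.2
  have hsub : ∀ y z : E (Ix P Q), blk A B (y - z) = blk A B y - blk A B z := by
    intro y z
    have h1 := hadd (y - z) z
    rw [sub_add_cancel] at h1
    rw [h1]
    abel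
  have htang : ∀ i, tang (blk A B x) (ei i) = blk A B (tang x (u i)) := by
    intro i
    unfold tang
    rw [← hru i, hin, hsub, hsmul]
  have hcoord : ∀ i, (blk A B x) i = inner ℝ x (u i) := by
    intro i
    rw [← hin, hru i]
    unfold ei
    rw [EuclideanSpace.inner_single_right]
    simp
  set R : Matrix (Ix P Q) (Ix P Q) ℝ := Matrix.of fun i k => u i k with hRdef
  set M : Matrix (Ix P Q) (Ix P Q) ℝ := Matrix.of (gram g x) with hM
  have hRR : R * R.transpose = 1 := by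
    ext i j
    have h1 : inner ℝ (u i) (u j) = if i = j then (1 : ℝ) else 0 := by
      rw [← hin, hru, hru]
      unfold ei
      simp [EuclideanSpace.inner_single_left, Pi.single_apply]
    rw [Matrix.mul_apply, Matrix.one_apply, ← h1, iBD2_inner]
    rfl
  have hexp : ∀ v w : E (Ix P Q), g x (tang x v) (tang x w) + inner ℝ x v * inner ℝ x w =
      ∑ k, ∑ l, v k * M k l * w l := by
    intro v w
    have e1 : g x (tang x v) (tang x w) = ∑ k, ∑ l, v k * (w l * g x (tang x (ei k)) (tang x (ei l))) := by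
      rw [iBD2_tang_sum x v, iBD2_gsum hg]
      refine Finset.sum_congr rfl fun k _ => ?_
      rw [← Finset.mul_sum]
      congr 1
      rw [hg.symm, iBD2_tang_sum x w, iBD2_gsum hg]
      refine Finset.sum_congr rfl fun l _ => ?_
      rw [hg.symm]
    rw [e1, iBD2_inner, iBD2_inner, Finset.sum_mul_sum, ← Finset.sum_add_distrib]
    refine Finset.sum_congr rfl fun k _ => ?_
    rw [← Finset.sum_add_distrib]
    refine Finset.sum_congr rfl fun l _ => ?_
    simp only [hM, Matrix.of_apply, gram]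
    ring
  have hprod : (Matrix.of (gram g (blk A B x))) = R * M * R.transpose := by
    ext i j
    rw [Matrix.of_apply]
    unfold gram
    rw [htang, htang, hinv A hA B hB x _ _ hx (iBD2_inner_tang hx _) (iBD2_inner_tang hx _),
      hcoord, hcoord, hexp]
    rw [Matrix.mul_apply, Finset.sum_comm]
    refine Finset.sum_congr rfl fun l _ => ?_
    rw [Matrix.mul_apply, Finset.sum_mul]
    rfl
  have hdet : R.det * R.det = 1 := by
    have h1 := congrArg Matrix.det hRR
    rw [Matrix.det_mul, Matrix.det_transpose, Matrix.det_one] at h1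
    exact h1
  unfold volDensity
  rw [hprod, Matrix.det_mul, Matrix.det_mul, Matrix.det_transpose,
    show R.det * M.det * R.det = (R.det * R.det) * M.det by ring, hdet, one_mul]

end Pool.Agent.Work.MP_02f065_gt.RPn

end
end

section

/-!
MP_02f065_gt, item BD3: the volume density is continuous on the sphere.
-/

set_option autoImplicit false

open MeasureTheory Set

namespace Pool.Agent.Work.MP_02f065_gt.RPn

variable {ι : Type} [Fintype ι] [DecidableEq ι]

theorem iBD3_sum_ei (v : E ι) : v = ∑ i : ι, v i • ei i := by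
  ext k
  simp [ei, Pi.single_apply]

theorem iBD3_expand {g : Field ι} (hg : IsMetric g) (x v w : E ι) :
    g x v w = ∑ i : ι, ∑ j : ι, v i * (w j * g x (ei i) (ei j)) := by
  have h0 : ∀ w, g x 0 w = 0 := by
    intro w
    have := hg.smul x 0 w 0
    simpa using this
  have hsum : ∀ (s : Finset ι) (f : ι → E ι) (w : E ι),
      g x (∑ i ∈ s, f i) w = ∑ i ∈ s, g x (f i) w := by
    intro s f w
    induction s using Finset.induction_on with
    | empty => simp [h0]
    | insert a s ha ih => rw [Finset.sum_insert ha, Finset.sum_insert ha, hg.add, ih]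
  conv_lhs => rw [iBD3_sum_ei v]
  rw [hsum]
  refine Finset.sum_congr rfl fun i _ => ?_
  rw [hg.smul, hg.symm, ← Finset.mul_sum]
  congr 1
  conv_lhs => rw [iBD3_sum_ei w]
  rw [hsum]
  refine Finset.sum_congr rfl fun j _ => ?_
  rw [hg.smul, hg.symm]

/-- joint continuity -/
theorem iBD3_comp {g : Field ι} (hg : IsMetric g) {f h : E ι → E ι} (hf : Continuous f)
    (hh : Continuous h) :
    ContinuousOn (fun x => g x (f x) (h x)) (Metric.sphere (0 : E ι) 1) := by
  have e : (fun x => g x (f x) (h x)) = fun x => ∑ i : ι, ∑ j : ι,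
      (f x) i * ((h x) j * g x (ei i) (ei j)) := by
    funext x
    exact iBD3_expand hg x (f x) (h x)
  rw [e]
  refine continuousOn_finsetSum _ fun i _ => continuousOn_finsetSum _ fun j _ => ?_
  have h1 : Continuous fun x => (f x) i := (EuclideanSpace.proj i).continuous.comp hf
  have h2 : Continuous fun x => (h x) j := (EuclideanSpace.proj j).continuous.comp hh
  exact h1.continuousOn.mul (h2.continuousOn.mul (hg.cont _ _))

theorem itemBD3 : claimBD3 := by
  intro ι _ _ g hg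
  unfold volDensity
  apply ContinuousOn.sqrt
  rw [continuousOn_iff_continuous_domRestrict]
  apply Continuous.matrix_det
  apply continuous_matrix
  intro i j
  simp only [Matrix.of_apply]
  have ht : ∀ v : E ι, Continuous fun x : E ι => tang x v := by
    intro v
    unfold tang
    fun_prop
  have h1 : ContinuousOn (fun x : E ι => gram g x i j) (Metric.sphere (0 : E ι) 1) := by
    unfold gram
    refine ContinuousOn.add ?_ (by fun_prop)
    exact iBD3_comp hg (ht _) (ht _)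
  exact continuousOn_iff_continuous_domRestrict.1 h1

end Pool.Agent.Work.MP_02f065_gt.RPn

end
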