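import Pool.Agent.Work.MP_02f065_gt.RPn.Stmts
import Pool.Agent.Work.MP_02f065_gt.Bd.B03

/-! Bundle of small proof modules (one section per former module). -/

section

set_option autoImplicit false

/-!
# Item BL: lengths for the averaged metric are averages of lengths
-/

open MeasureTheory Set Filter Topology

noncomputable section

namespace Pool.Agent.Work.MP_02f065_gt.RPn

section general

variable {ι : Type} [Fintype ι]

lemma iBL_gsum {g : Field ι} (hg : IsMetric g) (x w : E ι) (s : Finset ι) (a : ι → ℝ)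
    (v : ι → E ι) : g x (∑ j ∈ s, a j • v j) w = ∑ j ∈ s, a j * g x (v j) w := by
  classical
  induction s using Finset.induction_on with
  | empty =>
    have h := hg.smul x 0 w 0
    simpa using h
  | insert j s hj ih => rw [Finset.sum_insert hj, Finset.sum_insert hj, hg.add, hg.smul, ih]

lemma iBL_exp [DecidableEq ι] {g : Field ι} (hg : IsMetric g) (x v w : E ι) :
    g x v w = ∑ i, v i * ∑ j, w j * g x (ei i) (ei j) := by
  have hsum : ∀ v : E ι, v = ∑ i, v i • ei i := by
    intro v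
    ext j
    unfold ei
    simp [Pi.single_apply]
  conv_lhs => rw [hsum v]
  rw [iBL_gsum hg]
  refine Finset.sum_congr rfl fun i _ => ?_
  congr 1
  rw [hg.symm]
  conv_lhs => rw [hsum w]
  rw [iBL_gsum hg]
  refine Finset.sum_congr rfl fun j _ => ?_
  rw [hg.symm]

/-- Tangency of the derivative. -/
lemma iBL_inner_deriv {c : ℝ → E ι} {x y : E ι} (hc : IsCurve c x y) (t : ℝ) :
    inner ℝ (c t) (deriv c t) = 0 := by
  have hd : HasDerivAt c (deriv c t) t :=
    (hc.smooth.differentiable one_ne_zero).differentiableAt.hasDerivAt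
  have h1 := hd.inner ℝ hd
  have h2 : (fun t => inner ℝ (c t) (c t)) = fun _ => (1 : ℝ) := by
    funext s
    rw [real_inner_self_eq_norm_sq, hc.sphere s]; norm_num
  rw [h2] at h1
  have h3 := h1.unique (hasDerivAt_const t (1 : ℝ))
  rw [real_inner_comm (c t) (deriv c t)] at h3
  have h4 : inner ℝ (c t) (deriv c t) = inner ℝ (deriv c t) (c t) := real_inner_comm _ _
  rw [h4] at h3 ⊢
  linarith

lemma iBL_speed_cont {g : Field ι} (hg : IsMetric g) {c : ℝ → E ι} {x y : E ι}
    (hc : IsCurve c x y) : Continuous (fun t => g (c t) (deriv c t) (deriv c t)) := by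
  classical
  have hcc : Continuous c := hc.smooth.continuous
  have hcd : Continuous (deriv c) := hc.smooth.continuous_deriv le_rfl
  have hco : ∀ i : ι, Continuous (fun t => (deriv c t) i) := by
    intro i
    have h1 : Continuous (fun x : E ι => x i) := by fun_prop
    exact h1.comp hcd
  have hij : ∀ i j : ι, Continuous (fun t => g (c t) (ei i) (ei j)) := by
    intro i j
    exact (hg.cont (ei i) (ei j)).comp_continuous hcc (fun t => by simp [hc.sphere t])
  simp_rw [fun t => iBL_exp hg (c t) (deriv c t) (deriv c t)]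
  exact continuous_finsetSum _ fun i _ => (hco i).mul
    (continuous_finsetSum _ fun j _ => (hco j).mul (hij i j))

end general

section blocks

variable {P Q : ℕ}

/-- the block action as a continuous linear map -/
def iBL_L (hR : claimR) (A : Matrix (Fin P) (Fin P) ℝ) (hA : A ∈ SO P)
    (B : Matrix (Fin Q) (Fin Q) ℝ) (hB : B ∈ SO Q) : E (Ix P Q) →L[ℝ] E (Ix P Q) :=
  LinearMap.toContinuousLinearMap
    { toFun := blk A B
      map_add' := fun x y => (hR P Q A hA B hB x y 0).1
      map_smul' := fun t x => (hR P Q A hA B hB x x t).2.1 }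

lemma iBL_curve (hR : claimR) {A : Matrix (Fin P) (Fin P) ℝ} (hA : A ∈ SO P)
    {B : Matrix (Fin Q) (Fin Q) ℝ} (hB : B ∈ SO Q) {c : ℝ → E (Ix P Q)} {x : E (Ix P Q)}
    (hc : IsCurve c x (-x)) :
    IsCurve (fun t => blk A B (c t)) (blk A B x) (-(blk A B x)) ∧
    ∀ t, deriv (fun t => blk A B (c t)) t = blk A B (deriv c t) := by
  have hL : ∀ v, iBL_L hR A hA B hB v = blk A B v := fun _ => rfl
  refine ⟨⟨?_, ?_, ?_, ?_⟩, ?_⟩
  · exact (iBL_L hR A hA B hB).contDiff.comp hc.smooth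
  · intro t
    rw [(hR P Q A hA B hB (c t) (c t) 0).2.2.2.2.1, hc.sphere t]
  · simp only [hc.left]
  · simp only [hc.right]
    exact (hR P Q A hA B hB x x 0).2.2.1
  · intro t
    have hd : HasDerivAt c (deriv c t) t :=
      (hc.smooth.differentiable one_ne_zero).differentiableAt.hasDerivAt
    have h := (iBL_L hR A hA B hB).hasFDerivAt.comp_hasDerivAt t hd
    exact h.deriv

end blocks

attribute [local instance] HaarData.ms HaarData.prob

variable {P Q : ℕ} (HP : HaarData P) (HQ : HaarData Q)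

/-- the sphere -/
abbrev iBL_S (P Q : ℕ) : Type := Metric.sphere (0 : E (Ix P Q)) 1

/-- the product measure -/
abbrev iBL_mu : Measure (HP.Ω × HQ.Ω) := HP.μ.prod HQ.μ

theorem iBL_norm (hR : claimR) (p : HP.Ω × HQ.Ω) (x : E (Ix P Q)) (hx : ‖x‖ = 1) :
    ‖blk (HP.m p.1) (HQ.m p.2) x‖ = 1 := by
  rw [(hR P Q _ (HP.mem p.1) _ (HQ.mem p.2) x x 0).2.2.2.2.1, hx]

/-- the action as a map of spheres -/
def iBL_act (hR : claimR) (q : (HP.Ω × HQ.Ω) × iBL_S P Q) : iBL_S P Q :=
  ⟨blk (HP.m q.1.1) (HQ.m q.1.2) q.2, by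
    rw [mem_sphere_zero_iff_norm]
    exact iBL_norm HP HQ hR q.1 _ (by simp)⟩

theorem iBL_meas (hR : claimR) : Measurable (iBL_act HP HQ hR) := by
  refine Measurable.subtype_mk ?_
  unfold blk
  refine (MeasurableEquiv.toLp 2 (Ix P Q → ℝ)).measurable.comp (measurable_pi_iff.mpr ?_)
  have hcoord : ∀ k : Ix P Q, Measurable fun q : (HP.Ω × HQ.Ω) × iBL_S P Q =>
      (q.2 : E (Ix P Q)) k := by
    intro k
    have h1 : Measurable fun x : E (Ix P Q) => x k :=
      (EuclideanSpace.proj (𝕜 := ℝ) k).continuous.measurable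
    exact h1.comp (measurable_subtype_coe.comp measurable_snd)
  rintro (i | j)
  · show Measurable fun q : (HP.Ω × HQ.Ω) × iBL_S P Q =>
      (HP.m q.1.1).mulVec (fun i => (q.2 : E (Ix P Q)) (Sum.inl i)) i
    simp only [Matrix.mulVec, dotProduct]
    refine Finset.measurable_sum _ fun j _ => ?_
    exact ((HP.meas i j).comp (measurable_fst.comp measurable_fst)).mul (hcoord _)
  · show Measurable fun q : (HP.Ω × HQ.Ω) × iBL_S P Q =>
      (HQ.m q.1.2).mulVec (fun i => (q.2 : E (Ix P Q)) (Sum.inr i)) j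
    simp only [Matrix.mulVec, dotProduct]
    refine Finset.measurable_sum _ fun k _ => ?_
    exact ((HQ.meas j k).comp (measurable_snd.comp measurable_fst)).mul (hcoord _)

variable {F : E (Ix P Q) → ℝ}

theorem iBL_int1 (hR : claimR) (hF : ContinuousOn F (Metric.sphere (0 : E (Ix P Q)) 1))
    (x : E (Ix P Q)) (hx : ‖x‖ = 1) :
    Integrable (fun p : HP.Ω × HQ.Ω => F (blk (HP.m p.1) (HQ.m p.2) x)) (iBL_mu HP HQ) := by
  obtain ⟨C, hC⟩ := (isCompact_sphere (0 : E (Ix P Q)) 1).exists_bound_of_continuousOn hF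
  have hxs : x ∈ Metric.sphere (0 : E (Ix P Q)) 1 := by simpa using hx
  have h1 : Measurable fun p : HP.Ω × HQ.Ω => F (blk (HP.m p.1) (HQ.m p.2) x) :=
    ((continuousOn_iff_continuous_domRestrict.mp hF).measurable.comp (iBL_meas HP HQ hR)).comp
      (measurable_id.prodMk (measurable_const (a := (⟨x, hxs⟩ : iBL_S P Q))))
  refine Integrable.of_bound h1.aestronglyMeasurable C (Eventually.of_forall fun q => ?_)
  exact hC _ (by simpa using iBL_norm HP HQ hR q x hx)

theorem iBL_avg (hR : claimR) (hF : ContinuousOn F (Metric.sphere (0 : E (Ix P Q)) 1))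
    (x : E (Ix P Q)) (hx : ‖x‖ = 1) :
    avg HP HQ F x = ∫ p, F (blk (HP.m p.1) (HQ.m p.2) x) ∂(iBL_mu HP HQ) := by
  rw [integral_prod _ (iBL_int1 HP HQ hR hF x hx)]
  rfl

/-- integrability of the integrand on the product -/
theorem iBL_int (hR : claimR) (hF : ContinuousOn F (Metric.sphere (0 : E (Ix P Q)) 1))
    (c : ℝ → E (Ix P Q)) (hc : Continuous c) (hs : ∀ t, ‖c t‖ = 1) (I : ℝ → ℝ)
    (hI : Continuous I) :
    Integrable (fun q : (HP.Ω × HQ.Ω) × ℝ => F (blk (HP.m q.1.1) (HQ.m q.1.2) (c q.2)) * I q.2)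
      ((iBL_mu HP HQ).prod ((volume : Measure ℝ).restrict (Ioc (0 : ℝ) 1))) := by
  obtain ⟨C, hC⟩ := (isCompact_sphere (0 : E (Ix P Q)) 1).exists_bound_of_continuousOn hF
  obtain ⟨D, hD⟩ := (isCompact_Icc (a := (0 : ℝ)) (b := 1)).exists_bound_of_continuousOn
    hI.continuousOn
  have hcs : Measurable (fun t : ℝ => (⟨c t, by simp [hs t]⟩ : iBL_S P Q)) :=
    (hc.measurable).subtype_mk
  have h1 : Measurable fun q : (HP.Ω × HQ.Ω) × ℝ =>
      F (blk (HP.m q.1.1) (HQ.m q.1.2) (c q.2)) :=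
    ((continuousOn_iff_continuous_domRestrict.mp hF).measurable.comp (iBL_meas HP HQ hR)).comp
      (measurable_fst.prodMk (hcs.comp measurable_snd))
  have h2 : Measurable fun q : (HP.Ω × HQ.Ω) × ℝ =>
      F (blk (HP.m q.1.1) (HQ.m q.1.2) (c q.2)) * I q.2 :=
    h1.mul (hI.measurable.comp measurable_snd)
  refine Integrable.of_bound h2.aestronglyMeasurable (C * D) ?_
  have h3 : ∀ᵐ q : (HP.Ω × HQ.Ω) × ℝ ∂((iBL_mu HP HQ).prod
      ((volume : Measure ℝ).restrict (Ioc (0 : ℝ) 1))), q.2 ∈ Ioc (0 : ℝ) 1 := by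
    have h4 : ∀ᵐ t : ℝ ∂((volume : Measure ℝ).restrict (Ioc (0 : ℝ) 1)), t ∈ Ioc (0 : ℝ) 1 :=
      ae_restrict_mem measurableSet_Ioc
    exact Measure.quasiMeasurePreserving_snd.ae h4
  filter_upwards [h3] with q hq
  rw [norm_mul]
  have e1 := hC (blk (HP.m q.1.1) (HQ.m q.1.2) (c q.2))
    (by simpa using iBL_norm HP HQ hR q.1 (c q.2) (hs q.2))
  have e2 := hD q.2 (Ioc_subset_Icc_self hq)
  exact mul_le_mul e1 e2 (norm_nonneg _) ((norm_nonneg _).trans e1)

theorem itemBL (hR : claimR) : claimBL := by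
  intro P Q hP hQ HP HQ lam g g₁ L hg hg₁ hinv hlam hpos hconf hL x c hx hc
  have hcc : Continuous c := hc.smooth.continuous
  set I : ℝ → ℝ := fun t => Real.sqrt (g₁ (c t) (deriv c t) (deriv c t)) with hI
  have hIc : Continuous I := Real.continuous_sqrt.comp (iBL_speed_cont hg₁ hc)
  -- the length of the rotated curves
  have hrot : ∀ p : HP.Ω × HQ.Ω, L ≤ ∫ t in (0 : ℝ)..1,
      lam (blk (HP.m p.1) (HQ.m p.2) (c t)) * I t := by
    intro p
    obtain ⟨h1, h2⟩ := iBL_curve hR (HP.mem p.1) (HQ.mem p.2) hc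
    have h3 := hL _ _ (iBL_norm HP HQ hR p x hx) h1
    have h4 : length g (fun t => blk (HP.m p.1) (HQ.m p.2) (c t)) =
        ∫ t in (0 : ℝ)..1, lam (blk (HP.m p.1) (HQ.m p.2) (c t)) * I t := by
      unfold length
      apply intervalIntegral.integral_congr
      intro t _
      simp only [h2 t]
      have hnt : ‖blk (HP.m p.1) (HQ.m p.2) (c t)‖ = 1 := h1.sphere t
      have htan : inner ℝ (c t) (deriv c t) = 0 := iBL_inner_deriv hc t
      have htan' : inner ℝ (blk (HP.m p.1) (HQ.m p.2) (c t))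
          (blk (HP.m p.1) (HQ.m p.2) (deriv c t)) = 0 := by
        rw [(hR P Q _ (HP.mem p.1) _ (HQ.mem p.2) (c t) (deriv c t) 0).2.2.2.1, htan]
      rw [hconf _ _ _ hnt htan' htan',
        hinv _ (HP.mem p.1) _ (HQ.mem p.2) (c t) _ _ (hc.sphere t) htan htan,
        Real.sqrt_mul (sq_nonneg _), Real.sqrt_sq (hpos _ hnt).le]
    rwa [h4] at h3
  have havg : ∀ t, avg HP HQ lam (c t) =
      ∫ p, lam (blk (HP.m p.1) (HQ.m p.2) (c t)) ∂(iBL_mu HP HQ) := fun t =>
    iBL_avg HP HQ hR hlam (c t) (hc.sphere t)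
  have havg0 : ∀ t, 0 ≤ avg HP HQ lam (c t) := by
    intro t
    rw [havg]
    exact integral_nonneg fun p => (hpos _ (iBL_norm HP HQ hR p (c t) (hc.sphere t))).le
  have hlen : length (avgMetric HP HQ lam g₁) c =
      ∫ t in (0 : ℝ)..1, avg HP HQ lam (c t) * I t := by
    unfold length
    apply intervalIntegral.integral_congr
    intro t _
    simp only [avgMetric]
    rw [Real.sqrt_mul (sq_nonneg _), Real.sqrt_sq (havg0 t)]
  rw [hlen]
  have hint := iBL_int HP HQ hR hlam c hcc hc.sphere I hIc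
  have hfin : ∫ t in (0 : ℝ)..1, avg HP HQ lam (c t) * I t =
      ∫ p, (∫ t in Ioc (0 : ℝ) 1, lam (blk (HP.m p.1) (HQ.m p.2) (c t)) * I t)
        ∂(iBL_mu HP HQ) := by
    rw [intervalIntegral.integral_of_le zero_le_one]
    rw [integral_integral_swap (f := fun (p : HP.Ω × HQ.Ω) (t : ℝ) =>
      lam (blk (HP.m p.1) (HQ.m p.2) (c t)) * I t) hint]
    refine integral_congr_ae (Eventually.of_forall fun t => ?_)
    simp only
    rw [integral_mul_const, havg t]
  rw [hfin]
  have h5 : ∫ _p : HP.Ω × HQ.Ω, L ∂(iBL_mu HP HQ) = L := by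
    simp
  rw [← h5]
  refine integral_mono (integrable_const L) hint.integral_prod_left fun p => ?_
  have h6 := hrot p
  rw [intervalIntegral.integral_of_le zero_le_one] at h6
  exact h6

end Pool.Agent.Work.MP_02f065_gt.RPn

end
end

section

set_option autoImplicit false

open MeasureTheory Set Filter Topology

noncomputable section

namespace Pool.Agent.Work.MP_02f065_gt.RPn

theorem itemBM (hBA : claimBA) (_hR : claimR) : claimBM := by
  intro P Q hP hQ HP HQ lam g₁ hg hinv hlc hlp hle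
  obtain ⟨hc, hp, hI, he⟩ := hBA P Q hP hQ HP HQ lam hlc hlp hle
  refine ⟨⟨?_, ?_, ?_, ?_, ?_, ?_⟩, ?_⟩
  · intro x v v' w
    simp only [avgMetric]
    rw [hg.add]
    ring
  · intro x v w r
    simp only [avgMetric]
    rw [hg.smul]
    ring
  · intro x v w
    simp only [avgMetric]
    rw [hg.symm]
  · intro v w
    exact (hc.pow 2).mul (hg.cont v w)
  · intro x v hx hxv hv
    exact mul_pos (pow_pos (hp x hx) 2) (hg.pos x v hx hxv hv)
  · intro x v w hx hxv hxw
    simp only [avgMetric]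
    rw [he x hx, hg.even x v w hx hxv hxw]
  · intro A hA B hB x v w hx hxv hxw
    simp only [avgMetric]
    rw [hI A hA B hB x hx, hinv A hA B hB x v w hx hxv hxw]

end Pool.Agent.Work.MP_02f065_gt.RPn

end
end

section

set_option autoImplicit false

/-!
# Item BS: invariance of the measure of the sphere
-/

open MeasureTheory Set

noncomputable section

namespace Pool.Agent.Work.MP_02f065_gt.RPn

/-- The block action as a linear isometric equivalence. -/
theorem iBS_equiv (hR : claimR) {P Q : ℕ} {A : Matrix (Fin P) (Fin P) ℝ} (hA : A ∈ SO P)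
    {B : Matrix (Fin Q) (Fin Q) ℝ} (hB : B ∈ SO Q) :
    ∃ e : E (Ix P Q) ≃ₗᵢ[ℝ] E (Ix P Q), ∀ x, e x = blk A B x := by
  let li : E (Ix P Q) →ₗᵢ[ℝ] E (Ix P Q) :=
    { toFun := blk A B
      map_add' := fun x y => (hR P Q A hA B hB x y 0).1
      map_smul' := fun t x => (hR P Q A hA B hB x 0 t).2.1
      norm_map' := fun x => (hR P Q A hA B hB x 0 0).2.2.2.2.1 }
  exact ⟨li.toLinearIsometryEquiv rfl, fun x => rfl⟩

/-- BS: invariance of the measure of the sphere. -/
theorem itemBS (hV : claimV1a) (hR : claimR) : claimBS := by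
  intro P Q hP hQ A hA B hB F hF
  obtain ⟨e, he⟩ := iBS_equiv hR hA hB
  have hne : Nonempty (Ix P Q) := ⟨Sum.inl ⟨0, by omega⟩⟩
  obtain ⟨κ, hκ, hV'⟩ := hV (Ix P Q)
  have hF2 : ContinuousOn (fun x => F (blk A B x)) (Metric.sphere (0 : E (Ix P Q)) 1) := by
    have h1 : ContinuousOn (fun x => F (e x)) (Metric.sphere (0 : E (Ix P Q)) 1) := by
      refine hF.comp e.continuous.continuousOn fun x hx => ?_
      rw [mem_sphere_zero_iff_norm] at hx ⊢
      rw [e.norm_map, hx]
    refine h1.congr fun x _ => ?_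
    simp only [he]
  have h1 := hV' F hF
  have h2 := hV' (fun x => F (blk A B x)) hF2
  have h3 : ∫ x : E (Ix P Q), F (blk A B (‖x‖⁻¹ • x)) * Real.exp (-‖x‖ ^ 2) =
      ∫ x : E (Ix P Q), F (‖x‖⁻¹ • x) * Real.exp (-‖x‖ ^ 2) := by
    rw [← e.measurePreserving.integral_comp e.toHomeomorph.measurableEmbedding
      (fun x : E (Ix P Q) => F (‖x‖⁻¹ • x) * Real.exp (-‖x‖ ^ 2))]
    refine integral_congr_ae (Filter.Eventually.of_forall fun x => ?_)
    simp only [e.norm_map]
    rw [← he, e.map_smul]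
  rw [h3, h1] at h2
  exact (mul_left_cancel₀ hκ.ne' h2).symm

end Pool.Agent.Work.MP_02f065_gt.RPn

end
end

section

set_option autoImplicit false

/-!
# Item BV: volume of the averaged metric
-/

open MeasureTheory Set Filter Topology

noncomputable section

namespace Pool.Agent.Work.MP_02f065_gt.RPn

attribute [local instance] HaarData.ms HaarData.prob

variable {P Q : ℕ} (HP : HaarData P) (HQ : HaarData Q)

/-- the sphere -/
abbrev iBV_S (P Q : ℕ) : Type := Metric.sphere (0 : E (Ix P Q)) 1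

/-- the product measure -/
abbrev iBV_mu : Measure (HP.Ω × HQ.Ω) := HP.μ.prod HQ.μ

theorem iBV_norm (hR : claimR) (p : HP.Ω × HQ.Ω) (x : E (Ix P Q)) (hx : ‖x‖ = 1) :
    ‖blk (HP.m p.1) (HQ.m p.2) x‖ = 1 := by
  rw [(hR P Q _ (HP.mem p.1) _ (HQ.mem p.2) x x 0).2.2.2.2.1, hx]

/-- the action as a map of spheres -/
def iBV_act (hR : claimR) (q : (HP.Ω × HQ.Ω) × iBV_S P Q) : iBV_S P Q :=
  ⟨blk (HP.m q.1.1) (HQ.m q.1.2) q.2, by
    rw [mem_sphere_zero_iff_norm]
    exact iBV_norm HP HQ hR q.1 _ (by simp)⟩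

theorem iBV_meas (hR : claimR) : Measurable (iBV_act HP HQ hR) := by
  refine Measurable.subtype_mk ?_
  unfold blk
  refine (MeasurableEquiv.toLp 2 (Ix P Q → ℝ)).measurable.comp (measurable_pi_iff.mpr ?_)
  have hcoord : ∀ k : Ix P Q, Measurable fun q : (HP.Ω × HQ.Ω) × iBV_S P Q =>
      (q.2 : E (Ix P Q)) k := by
    intro k
    have h1 : Measurable fun x : E (Ix P Q) => x k :=
      (EuclideanSpace.proj (𝕜 := ℝ) k).continuous.measurable
    exact h1.comp (measurable_subtype_coe.comp measurable_snd)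
  rintro (i | j)
  · show Measurable fun q : (HP.Ω × HQ.Ω) × iBV_S P Q =>
      (HP.m q.1.1).mulVec (fun i => (q.2 : E (Ix P Q)) (Sum.inl i)) i
    simp only [Matrix.mulVec, dotProduct]
    refine Finset.measurable_sum _ fun j _ => ?_
    exact ((HP.meas i j).comp (measurable_fst.comp measurable_fst)).mul (hcoord _)
  · show Measurable fun q : (HP.Ω × HQ.Ω) × iBV_S P Q =>
      (HQ.m q.1.2).mulVec (fun i => (q.2 : E (Ix P Q)) (Sum.inr i)) j
    simp only [Matrix.mulVec, dotProduct]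
    refine Finset.measurable_sum _ fun k _ => ?_
    exact ((HQ.meas j k).comp (measurable_snd.comp measurable_fst)).mul (hcoord _)

variable {F : E (Ix P Q) → ℝ}

theorem iBV_int (hR : claimR) (hF : ContinuousOn F (Metric.sphere (0 : E (Ix P Q)) 1)) :
    Integrable (fun q : (HP.Ω × HQ.Ω) × iBV_S P Q => F (blk (HP.m q.1.1) (HQ.m q.1.2) q.2))
      ((iBV_mu HP HQ).prod ((volume : Measure (E (Ix P Q))).toSphere)) := by
  obtain ⟨C, hC⟩ := (isCompact_sphere (0 : E (Ix P Q)) 1).exists_bound_of_continuousOn hF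
  have h1 : Measurable fun q : (HP.Ω × HQ.Ω) × iBV_S P Q =>
      F (blk (HP.m q.1.1) (HQ.m q.1.2) q.2) :=
    (continuousOn_iff_continuous_domRestrict.mp hF).measurable.comp (iBV_meas HP HQ hR)
  refine Integrable.of_bound h1.aestronglyMeasurable C (Eventually.of_forall fun q => ?_)
  exact hC _ (iBV_act HP HQ hR q).2

theorem iBV_int1 (hR : claimR) (hF : ContinuousOn F (Metric.sphere (0 : E (Ix P Q)) 1))
    (x : E (Ix P Q)) (hx : ‖x‖ = 1) :
    Integrable (fun p : HP.Ω × HQ.Ω => F (blk (HP.m p.1) (HQ.m p.2) x)) (iBV_mu HP HQ) := by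
  obtain ⟨C, hC⟩ := (isCompact_sphere (0 : E (Ix P Q)) 1).exists_bound_of_continuousOn hF
  have hxs : x ∈ Metric.sphere (0 : E (Ix P Q)) 1 := by simpa using hx
  have h1 : Measurable fun p : HP.Ω × HQ.Ω => F (blk (HP.m p.1) (HQ.m p.2) x) :=
    ((continuousOn_iff_continuous_domRestrict.mp hF).measurable.comp (iBV_meas HP HQ hR)).comp
      (measurable_id.prodMk (measurable_const (a := (⟨x, hxs⟩ : iBV_S P Q))))
  refine Integrable.of_bound h1.aestronglyMeasurable C (Eventually.of_forall fun q => ?_)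
  exact hC _ (by simpa using iBV_norm HP HQ hR q x hx)

theorem iBV_avg (hR : claimR) (hF : ContinuousOn F (Metric.sphere (0 : E (Ix P Q)) 1))
    (x : E (Ix P Q)) (hx : ‖x‖ = 1) :
    avg HP HQ F x = ∫ p, F (blk (HP.m p.1) (HQ.m p.2) x) ∂(iBV_mu HP HQ) := by
  rw [integral_prod _ (iBV_int1 HP HQ hR hF x hx)]
  rfl

/-- Jensen -/
theorem iBV_jensen (hR : claimR) (hF : ContinuousOn F (Metric.sphere (0 : E (Ix P Q)) 1))
    (hpos : ∀ x, ‖x‖ = 1 → 0 < F x) (n : ℕ) (x : E (Ix P Q)) (hx : ‖x‖ = 1) :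
    avg HP HQ F x ^ n ≤ ∫ p, F (blk (HP.m p.1) (HQ.m p.2) x) ^ n ∂(iBV_mu HP HQ) := by
  rw [iBV_avg HP HQ hR hF x hx]
  exact ConvexOn.map_integral_le (g := fun t : ℝ => t ^ n) (convexOn_pow n)
    (continuous_pow n).continuousOn isClosed_Ici
    (Eventually.of_forall fun p => (hpos _ (iBV_norm HP HQ hR p x hx)).le)
    (iBV_int1 HP HQ hR hF x hx) (iBV_int1 HP HQ hR (hF.pow n) x hx)

theorem itemBV (hR : claimR) (hBA : claimBA) (hBM : claimBM) (hBD1 : claimBD1)
    (hBD2 : claimBD2) (hBD3 : claimBD3) (hBS : claimBS) : claimBV := by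
  intro P Q hP hQ HP HQ lam g g₁ hg hg₁ hinv hc hp hle hconf
  obtain ⟨-, havgpos, -, -⟩ := hBA P Q hP hQ HP HQ lam hc hp hle
  obtain ⟨hm2, -⟩ := hBM P Q hP hQ HP HQ lam g₁ hg₁ hinv hc hp hle
  set n : ℕ := Fintype.card (Ix P Q) - 1 with hn
  have d1 : ∀ x, ‖x‖ = 1 → volDensity g x = (lam x) ^ n * volDensity g₁ x := fun x hx =>
    hBD1 (Ix P Q) g₁ g x (lam x) hg₁ hg hx (hp x hx) (fun v w hv hw => hconf x v w hx hv hw)
  have d2 : ∀ x, ‖x‖ = 1 → volDensity (avgMetric HP HQ lam g₁) x =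
      (avg HP HQ lam x) ^ n * volDensity g₁ x := fun x hx =>
    hBD1 (Ix P Q) g₁ (avgMetric HP HQ lam g₁) x (avg HP HQ lam x) hg₁ hm2 hx (havgpos x hx)
      (fun v w _ _ => rfl)
  have c1 := hBD3 (Ix P Q) g hg
  have c2 := hBD3 (Ix P Q) _ hm2
  have hD0 : ∀ x, 0 ≤ volDensity g₁ x := fun x => Real.sqrt_nonneg _
  unfold vol
  refine mul_le_mul_of_nonneg_left ?_ (by norm_num)
  have hint := iBV_int HP HQ hR c1
  -- the right side as a double integral
  have e1 : ∫ x : Metric.sphere (0 : E (Ix P Q)) 1, volDensity g x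
        ∂((volume : Measure (E (Ix P Q))).toSphere) =
      ∫ x : Metric.sphere (0 : E (Ix P Q)) 1, ∫ p,
        volDensity g (blk (HP.m p.1) (HQ.m p.2) x) ∂(iBV_mu HP HQ)
          ∂((volume : Measure (E (Ix P Q))).toSphere) := by
    rw [← integral_integral_swap hint]
    have e2 : ∀ p : HP.Ω × HQ.Ω, ∫ x : Metric.sphere (0 : E (Ix P Q)) 1,
        volDensity g (blk (HP.m p.1) (HQ.m p.2) x) ∂((volume : Measure (E (Ix P Q))).toSphere) =
        ∫ x : Metric.sphere (0 : E (Ix P Q)) 1, volDensity g x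
          ∂((volume : Measure (E (Ix P Q))).toSphere) := fun p =>
      hBS P Q hP hQ _ (HP.mem p.1) _ (HQ.mem p.2) _ c1
    simp_rw [e2]
    simp
  rw [e1]
  refine integral_mono ?_ hint.swap.integral_prod_left ?_
  · obtain ⟨C, hC⟩ := (isCompact_sphere (0 : E (Ix P Q)) 1).exists_bound_of_continuousOn c2
    refine Integrable.of_bound
      (continuousOn_iff_continuous_domRestrict.mp c2).measurable.aestronglyMeasurable C
      (Eventually.of_forall fun x => hC _ x.2)
  · intro x
    have hx : ‖(x : E (Ix P Q))‖ = 1 := by simp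
    show volDensity (avgMetric HP HQ lam g₁) x ≤
      ∫ p, volDensity g (blk (HP.m p.1) (HQ.m p.2) x) ∂(iBV_mu HP HQ)
    have e3 : ∀ p : HP.Ω × HQ.Ω, volDensity g (blk (HP.m p.1) (HQ.m p.2) x) =
        lam (blk (HP.m p.1) (HQ.m p.2) x) ^ n * volDensity g₁ x := by
      intro p
      rw [d1 _ (iBV_norm HP HQ hR p x hx),
        hBD2 P Q g₁ hg₁ hinv _ (HP.mem p.1) _ (HQ.mem p.2) x hx]
    simp_rw [e3]
    rw [integral_mul_const, d2 x hx]
    exact mul_le_mul_of_nonneg_right (iBV_jensen HP HQ hR hc hp n x hx) (hD0 x)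

end Pool.Agent.Work.MP_02f065_gt.RPn

end
end

section

/-!
MP_02f065_gt, item E1w: weighted quadrant integral, scaling.
-/

open MeasureTheory Set Filter Topology

noncomputable section

namespace Pool.Agent.Work.MP_02f065_gt.RPn

theorem iE1w_integ (m k : ℕ) {A C : ℝ} (hA : 0 < A) (hC : 0 < C) :
    Integrable (fun z : ℝ × ℝ => Real.sqrt (1 - (z.1 ^ 2 / A + z.2 ^ 2 / C)) *
      (z.1 ^ m * z.2 ^ k)) := by
  apply Continuous.integrable_of_hasCompactSupport
  · fun_prop
  · apply HasCompactSupport.intro (isCompact_Icc.prod isCompact_Icc : IsCompact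
      (Icc (-Real.sqrt A) (Real.sqrt A) ×ˢ Icc (-Real.sqrt C) (Real.sqrt C)))
    intro z hz
    have h0 : Real.sqrt (1 - (z.1 ^ 2 / A + z.2 ^ 2 / C)) = 0 := by
      apply Real.sqrt_eq_zero_of_nonpos
      by_contra hcon
      push Not at hcon
      apply hz
      have p1 : 0 ≤ z.1 ^ 2 / A := by positivity
      have p2 : 0 ≤ z.2 ^ 2 / C := by positivity
      have e1 : z.1 ^ 2 ≤ A := by
        have : z.1 ^ 2 / A ≤ 1 := by linarith
        rwa [div_le_one hA] at this
      have e2 : z.2 ^ 2 ≤ C := by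
        have : z.2 ^ 2 / C ≤ 1 := by linarith
        rwa [div_le_one hC] at this
      exact ⟨abs_le.1 (Real.abs_le_sqrt e1), abs_le.1 (Real.abs_le_sqrt e2)⟩
    rw [h0, zero_mul]

theorem itemE1w : claimE1w := by
  intro m k A C hA hC
  have hint := (iE1w_integ m k hA hC).integrableOn (s := Ioi (0 : ℝ) ×ˢ Ioi (0 : ℝ))
  refine ⟨hint, ?_⟩
  have hsA : 0 < Real.sqrt A := Real.sqrt_pos.2 hA
  have hsC : 0 < Real.sqrt C := Real.sqrt_pos.2 hC
  have hA2 : Real.sqrt A ^ 2 = A := Real.sq_sqrt hA.le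
  have hC2 : Real.sqrt C ^ 2 = C := Real.sq_sqrt hC.le
  have hint1 := (iE1w_integ m k one_pos one_pos).integrableOn (s := Ioi (0 : ℝ) ×ˢ Ioi (0 : ℝ))
  have hK : Kc m k = ∫ x in Ioi (0 : ℝ), ∫ y in Ioi (0 : ℝ),
      Real.sqrt (1 - (x ^ 2 + y ^ 2)) * (x ^ m * y ^ k) := by
    unfold Kc
    rw [Measure.volume_eq_prod] at hint1 ⊢
    have := setIntegral_prod _ hint1
    simp only [div_one] at this
    exact this
  rw [hK]
  rw [Measure.volume_eq_prod] at hint ⊢
  rw [setIntegral_prod _ hint]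
  simp only
  set g : ℝ → ℝ → ℝ := fun x y => Real.sqrt (1 - (x ^ 2 + y ^ 2)) * (x ^ m * y ^ k) with hg
  have hform : ∀ x y : ℝ, Real.sqrt (1 - (x ^ 2 / A + y ^ 2 / C)) * (x ^ m * y ^ k) =
      (Real.sqrt A ^ m * Real.sqrt C ^ k) * g ((Real.sqrt A)⁻¹ * x) ((Real.sqrt C)⁻¹ * y) := by
    intro x y
    simp only [hg]
    rw [mul_pow, mul_pow, mul_pow, mul_pow, inv_pow, inv_pow, hA2, hC2]
    have e1 : A⁻¹ * x ^ 2 = x ^ 2 / A := by ring
    have e2 : C⁻¹ * y ^ 2 = y ^ 2 / C := by ring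
    have e3 : Real.sqrt A ^ m * (Real.sqrt A)⁻¹ ^ m = 1 := by
      rw [← mul_pow, mul_inv_cancel₀ hsA.ne', one_pow]
    have e4 : Real.sqrt C ^ k * (Real.sqrt C)⁻¹ ^ k = 1 := by
      rw [← mul_pow, mul_inv_cancel₀ hsC.ne', one_pow]
    rw [e1, e2]
    calc Real.sqrt (1 - (x ^ 2 / A + y ^ 2 / C)) * (x ^ m * y ^ k) =
        (Real.sqrt A ^ m * (Real.sqrt A)⁻¹ ^ m) * (Real.sqrt C ^ k * (Real.sqrt C)⁻¹ ^ k) *
          (Real.sqrt (1 - (x ^ 2 / A + y ^ 2 / C)) * (x ^ m * y ^ k)) := by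
          rw [e3, e4, one_mul, one_mul]
      _ = _ := by ring
  have hinner : ∀ x : ℝ, ∫ y in Ioi (0 : ℝ), Real.sqrt (1 - (x ^ 2 / A + y ^ 2 / C)) *
      (x ^ m * y ^ k) = (Real.sqrt A ^ m * Real.sqrt C ^ (k + 1)) *
        ∫ y in Ioi (0 : ℝ), g ((Real.sqrt A)⁻¹ * x) y := by
    intro x
    simp_rw [hform x]
    rw [integral_const_mul]
    have h := integral_comp_mul_left_Ioi (fun y => g ((Real.sqrt A)⁻¹ * x) y) 0 (inv_pos.2 hsC)
    rw [mul_zero, inv_inv, smul_eq_mul] at h
    rw [h]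
    ring
  simp only [hinner]
  rw [integral_const_mul]
  have h := integral_comp_mul_left_Ioi (fun x => ∫ y in Ioi (0 : ℝ), g x y) 0 (inv_pos.2 hsA)
  rw [mul_zero, inv_inv, smul_eq_mul] at h
  rw [h]
  ring

end Pool.Agent.Work.MP_02f065_gt.RPn

end
end

section

/-!
MP_02f065_gt, item E2w: weighted integral over the simplex, scaling.
-/

open MeasureTheory Set Filter Topology

noncomputable section

namespace Pool.Agent.Work.MP_02f065_gt.RPn

open Pointwise in
theorem itemE2w : claimE2w := by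
  intro m k L hL
  have hpi := Real.pi_pos
  have hR : 0 < L / Real.pi := div_pos hL hpi
  set s : Set (ℝ × ℝ) := {z : ℝ × ℝ | 0 < z.1 ∧ 0 < z.2 ∧ z.1 + z.2 < 1} with hs
  set f : ℝ × ℝ → ℝ := fun z => (L - Real.pi * (z.1 + z.2)) * (z.1 ^ m * z.2 ^ k) with hf
  have h1 := Measure.setIntegral_comp_smul_of_pos (volume : Measure (ℝ × ℝ)) f s hR
  have h2 : (L / Real.pi) • s =
      {z : ℝ × ℝ | 0 < z.1 ∧ 0 < z.2 ∧ Real.pi * (z.1 + z.2) < L} := by
    ext z
    rw [Set.mem_smul_set_iff_inv_smul_mem₀ hR.ne']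
    simp only [hs, Set.mem_ofPred_eq, Prod.smul_fst, Prod.smul_snd, smul_eq_mul]
    have hi : 0 < (L / Real.pi)⁻¹ := inv_pos.2 hR
    rw [mul_pos_iff_of_pos_left hi, mul_pos_iff_of_pos_left hi, ← mul_add]
    have : (L / Real.pi)⁻¹ * (z.1 + z.2) < 1 ↔ Real.pi * (z.1 + z.2) < L := by
      rw [inv_div, div_mul_eq_mul_div, div_lt_one hL]
    rw [this]
  rw [h2] at h1
  have hfin : Module.finrank ℝ (ℝ × ℝ) = 2 := by simp
  rw [hfin, smul_eq_mul] at h1
  have h3 : ∫ x in s, f ((L / Real.pi) • x) = L * (L / Real.pi) ^ (m + k) * Dc m k := by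
    unfold Dc
    rw [← integral_const_mul]
    refine setIntegral_congr_fun ?_ fun z _ => ?_
    · exact ((isOpen_lt continuous_const continuous_fst).inter
        ((isOpen_lt continuous_const continuous_snd).inter
          (isOpen_lt (continuous_fst.add continuous_snd) continuous_const))).measurableSet
    · simp only [hf, Prod.smul_fst, Prod.smul_snd, smul_eq_mul]
      rw [mul_pow, mul_pow, pow_add]
      have : Real.pi * (L / Real.pi * z.1 + L / Real.pi * z.2) = L * (z.1 + z.2) := by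
        field_simp
      rw [this]
      ring
  rw [h3] at h1
  have h4 : ∫ z in {z : ℝ × ℝ | 0 < z.1 ∧ 0 < z.2 ∧ Real.pi * (z.1 + z.2) < L}, f z =
      (L / Real.pi) ^ 2 * (L * (L / Real.pi) ^ (m + k) * Dc m k) := by
    rw [h1, ← mul_assoc, mul_inv_cancel₀ (pow_ne_zero _ hR.ne'), one_mul]
  calc _ = _ := h4
    _ = _ := by
      rw [div_pow, div_pow]
      field_simp
      ring

end Pool.Agent.Work.MP_02f065_gt.RPn

end
end

section

open MeasureTheory Set Filter Topology

noncomputable section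

namespace Pool.Agent.Work.MP_02f065_gt.RPn

/-- The weight. -/
def iE3w_wt (m k : ℕ) (z : ℝ × ℝ) : ℝ := z.1 ^ m * z.2 ^ k

theorem itemE3w (hE1 : claimE1w) (hE2 : claimE2w) : claimE3w := by
  intro m k σ L M a G11 G12 G22 hL hc hi h12 hM
  have hσ := hc.σpos
  have hpi := Real.pi_pos
  set Q : Set (ℝ × ℝ) := Ioi (0 : ℝ) ×ˢ Ioi (0 : ℝ) with hQ
  have hQm : MeasurableSet Q := measurableSet_Ioi.prod measurableSet_Ioi
  set I : Set ℝ := Ioo 0 σ with hI
  have hIm : MeasurableSet I := measurableSet_Ioo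
  set F : ℝ × (ℝ × ℝ) → ℝ := fun w => 2 * (Toric.E3F a G11 G12 G22 w * iE3w_wt m k w.2)
    with hF
  have hwc : Continuous (iE3w_wt m k) := by
    unfold iE3w_wt
    fun_prop
  have hw0 : ∀ z ∈ Q, 0 ≤ iE3w_wt m k z := by
    intro z hz
    have h1 : 0 < z.1 := hz.1
    have h2 : 0 < z.2 := hz.2
    unfold iE3w_wt
    positivity
  have hFc : ContinuousOn F (I ×ˢ (univ : Set (ℝ × ℝ))) :=
    continuousOn_const.mul ((Toric.E3F_cont hc).mul (hwc.comp continuous_snd).continuousOn)
  have hFn : ∀ s ∈ I, ∀ z ∈ Q, 0 ≤ F (s, z) := fun s hs z hz =>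
    mul_nonneg (by norm_num) (mul_nonneg (Toric.E3F_nonneg hc hs z) (hw0 z hz))
  -- the function of `s`
  set h : ℝ → ℝ := fun s => a s * Real.sqrt (Toric.Dt G11 G12 G22 s) *
      (Real.sqrt (G11 s) ^ m * Real.sqrt (G22 s) ^ k) with hh
  have h22 : ∀ s ∈ I, 0 < G22 s := by
    intro s hs
    have h1 := hc.posD s hs
    have h2 := hc.pos11 s hs
    unfold Toric.Dt at h1
    rw [h12 s hs] at h1
    have h3 : 0 < G11 s * G22 s := by simpa using h1
    exact pos_of_mul_pos_right h3 h2.le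
  have hD : ∀ s ∈ I, Real.sqrt (Toric.Dt G11 G12 G22 s) =
      Real.sqrt (G11 s) * Real.sqrt (G22 s) := by
    intro s hs
    unfold Toric.Dt
    rw [h12 s hs, ← Real.sqrt_mul (hc.pos11 s hs).le]
    congr 1
    ring
  -- the integral over the momenta
  have hz : ∀ s ∈ I, IntegrableOn (fun z => F (s, z)) Q ∧
      ∫ z in Q, F (s, z) = 2 * Kc m k * h s := by
    intro s hs
    have hA := hc.pos11 s hs
    have hC := h22 s hs
    obtain ⟨e1, e2⟩ := hE1 m k (G11 s) (G22 s) hA hC
    have f1 : (fun z : ℝ × ℝ => F (s, z)) = fun z => (2 * a s) *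
        (Real.sqrt (1 - (z.1 ^ 2 / G11 s + z.2 ^ 2 / G22 s)) * (z.1 ^ m * z.2 ^ k)) := by
      funext z
      have h1 : Toric.Nf G11 G12 G22 s z.1 z.2 = z.1 ^ 2 / G11 s + z.2 ^ 2 / G22 s := by
        unfold Toric.Nf Toric.Dt
        rw [h12 s hs]
        field_simp
        ring
      simp only [hF, Toric.E3F, iE3w_wt, h1]
      ring
    refine ⟨?_, ?_⟩
    · rw [f1]
      exact e1.const_mul _
    · rw [f1, integral_const_mul, e2]
      simp only [hh]
      rw [hD s hs]
      ring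
  have hhint : IntegrableOn h I := by
    have h1 : IntegrableOn (fun s => a s * Real.sqrt (Toric.Dt G11 G12 G22 s)) I := by
      have := hc.intD
      rw [intervalIntegrable_iff_integrableOn_Ioc_of_le hσ.le] at this
      exact this.mono_set Ioo_subset_Ioc_self
    refine Integrable.mono' (h1.mul_const (Real.sqrt M ^ m * Real.sqrt M ^ k)) ?_ ?_
    · apply ContinuousOn.aestronglyMeasurable _ hIm
      refine (hc.ca.mul (ContinuousOn.sqrt ?_)).mul
        ((hc.c11.sqrt.pow m).mul (hc.c22.sqrt.pow k))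
      unfold Toric.Dt
      exact (hc.c11.mul hc.c22).sub (hc.c12.pow 2)
    · refine (ae_restrict_iff' hIm).mpr (Eventually.of_forall fun s hs => ?_)
      have h2 : 0 ≤ a s * Real.sqrt (Toric.Dt G11 G12 G22 s) :=
        mul_nonneg (hc.apos s hs).le (Real.sqrt_nonneg _)
      rw [Real.norm_of_nonneg (mul_nonneg h2 (by positivity))]
      refine mul_le_mul_of_nonneg_left ?_ h2
      have h3 : Real.sqrt (G11 s) ≤ Real.sqrt M := Real.sqrt_le_sqrt (hM s hs).1
      have h4 : Real.sqrt (G22 s) ≤ Real.sqrt M := Real.sqrt_le_sqrt (hM s hs).2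
      gcongr
  -- integrability on the product
  have hint : Integrable F ((volume.restrict I).prod (volume.restrict Q)) := by
    rw [integrable_prod_iff]
    · constructor
      · exact (ae_restrict_iff' hIm).mpr (Eventually.of_forall fun s hs => (hz s hs).1)
      · have h1 : IntegrableOn (fun s => 2 * Kc m k * h s) I := hhint.const_mul _
        refine h1.congr ?_
        refine (ae_restrict_iff' hIm).mpr (Eventually.of_forall fun s hs => ?_)
        simp only
        rw [← (hz s hs).2]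
        exact setIntegral_congr_fun hQm fun z hzQ => (Real.norm_of_nonneg (hFn s hs z hzQ)).symm
    · rw [Measure.prod_restrict]
      apply ContinuousOn.aestronglyMeasurable _ (hIm.prod hQm)
      exact hFc.mono (prod_mono le_rfl (subset_univ _))
  -- the iterated integrals
  have hswap : ∫ z in Q, ∫ s in I, F (s, z) = 2 * Kc m k * ∫ s in (0 : ℝ)..σ, h s := by
    rw [← integral_prod_symm _ hint, integral_prod _ hint, intervalIntegral.integral_of_le hσ.le,
      ← integral_Ioc_eq_integral_Ioo.symm, ← integral_const_mul]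
    exact setIntegral_congr_fun hIm fun s hs => (hz s hs).2
  have hintz : IntegrableOn (fun z => ∫ s in I, F (s, z)) Q := hint.integral_prod_right
  set Δ : Set (ℝ × ℝ) := {z : ℝ × ℝ | 0 < z.1 ∧ 0 < z.2 ∧ Real.pi * (z.1 + z.2) < L} with hΔ
  have hΔm : MeasurableSet Δ := by
    have c1 : MeasurableSet {z : ℝ × ℝ | 0 < z.1} :=
      (isOpen_lt continuous_const continuous_fst).measurableSet
    have c2 : MeasurableSet {z : ℝ × ℝ | 0 < z.2} :=
      (isOpen_lt continuous_const continuous_snd).measurableSet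
    have c3 : MeasurableSet {z : ℝ × ℝ | Real.pi * (z.1 + z.2) < L} :=
      (isOpen_lt (by fun_prop) continuous_const).measurableSet
    exact c1.inter (c2.inter c3)
  have hΔQ : Δ ⊆ Q := fun z hz => ⟨hz.1, hz.2.1⟩
  have hpt : ∀ z ∈ Δ, (L - Real.pi * (z.1 + z.2)) * (z.1 ^ m * z.2 ^ k) ≤
      ∫ s in I, F (s, z) := by
    intro z hz'
    have h1 := hi z.1 z.2 hz'.1 hz'.2.1 hz'.2.2
    have h3 : ∫ s in I, F (s, z) =
        2 * (∫ s in I, Toric.E3F a G11 G12 G22 (s, z)) * (z.1 ^ m * z.2 ^ k) := by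
      simp only [hF, iE3w_wt]
      rw [integral_const_mul, integral_mul_const]
      ring
    have h4 : ∫ s in (0 : ℝ)..σ, a s * Real.sqrt (1 - Toric.Nf G11 G12 G22 s z.1 z.2) =
        ∫ s in I, Toric.E3F a G11 G12 G22 (s, z) := by
      rw [intervalIntegral.integral_of_le hσ.le, integral_Ioc_eq_integral_Ioo]
      rfl
    rw [h3, ← h4]
    have h5 : 0 ≤ z.1 ^ m * z.2 ^ k := by
      have h6 : 0 < z.1 := hz'.1
      have h7 : 0 < z.2 := hz'.2.1
      positivity
    exact mul_le_mul_of_nonneg_right (by linarith) h5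
  have hle1 : ∫ z in Δ, (L - Real.pi * (z.1 + z.2)) * (z.1 ^ m * z.2 ^ k) ≤
      ∫ z in Δ, ∫ s in I, F (s, z) := by
    have hb : IntegrableOn (fun z : ℝ × ℝ => (L - Real.pi * (z.1 + z.2)) *
        (z.1 ^ m * z.2 ^ k)) Δ := by
      have h1 : IntegrableOn (fun z : ℝ × ℝ => (L - Real.pi * (z.1 + z.2)) *
          (z.1 ^ m * z.2 ^ k))
          (Icc (0 : ℝ) (L / Real.pi) ×ˢ Icc (0 : ℝ) (L / Real.pi)) := by
        apply ContinuousOn.integrableOn_compact (isCompact_Icc.prod isCompact_Icc)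
        fun_prop
      refine h1.mono_set ?_
      intro z hz'
      have hp : Real.pi * (z.1 + z.2) < L := hz'.2.2
      have h1 := hz'.1
      have h2 := hz'.2.1
      have h3 : z.1 + z.2 < L / Real.pi := by
        rw [lt_div_iff₀ hpi]
        linarith
      exact ⟨⟨h1.le, by linarith⟩, ⟨h2.le, by linarith⟩⟩
    exact setIntegral_mono_on hb (hintz.mono_set hΔQ) hΔm hpt
  have hle2 : ∫ z in Δ, ∫ s in I, F (s, z) ≤ ∫ z in Q, ∫ s in I, F (s, z) := by
    apply setIntegral_mono_set hintz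
    · refine (ae_restrict_iff' hQm).mpr (Eventually.of_forall fun z hzQ => ?_)
      exact setIntegral_nonneg hIm fun s hs => hFn s hs z hzQ
    · exact LE.le.eventuallyLE hΔQ
  exact (hE2 m k L hL).symm.le.trans (hle1.trans (hle2.trans hswap.le))

end Pool.Agent.Work.MP_02f065_gt.RPn

end
end

section

open MeasureTheory Set Filter Topology

noncomputable section

namespace Pool.Agent.Work.MP_02f065_gt.RPn

theorem iE4a_int (m n : ℕ) (a b : ℝ) :
    IntervalIntegrable (fun x : ℝ => x ^ m * (1 - x) ^ n) volume a b :=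
  (by fun_prop : Continuous fun x : ℝ => x ^ m * (1 - x) ^ n).intervalIntegrable _ _

theorem iE4a_step (m n : ℕ) :
    ((n : ℝ) + 1) * ∫ x in (0 : ℝ)..1, x ^ (m + 1) * (1 - x) ^ n =
      ((m : ℝ) + 1) * ∫ x in (0 : ℝ)..1, x ^ m * (1 - x) ^ (n + 1) := by
  have hder : ∀ x ∈ uIcc (0 : ℝ) 1, HasDerivAt (fun x : ℝ => x ^ (m + 1) * (1 - x) ^ (n + 1))
      (((m : ℝ) + 1) * (x ^ m * (1 - x) ^ (n + 1)) -
        ((n : ℝ) + 1) * (x ^ (m + 1) * (1 - x) ^ n)) x := by
    intro x _
    have d1 : HasDerivAt (fun x : ℝ => x ^ (m + 1)) (((m : ℝ) + 1) * x ^ m) x := by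
      have := hasDerivAt_pow (m + 1) x
      refine this.congr_deriv ?_
      simp
    have d0 : HasDerivAt (fun x : ℝ => 1 - x) (-1) x := by
      simpa using (hasDerivAt_id x).const_sub 1
    have d2 := d0.fun_pow (n + 1)
    refine (d1.mul d2).congr_deriv ?_
    simp only [Nat.add_sub_cancel, Nat.cast_add, Nat.cast_one]
    ring
  have h1 := intervalIntegral.integral_eq_sub_of_hasDerivAt hder
    (((iE4a_int m (n + 1) 0 1).const_mul _).sub ((iE4a_int (m + 1) n 0 1).const_mul _))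
  rw [intervalIntegral.integral_sub ((iE4a_int m (n + 1) 0 1).const_mul _)
    ((iE4a_int (m + 1) n 0 1).const_mul _), intervalIntegral.integral_const_mul,
    intervalIntegral.integral_const_mul] at h1
  simp only [sub_self, one_pow, sub_zero] at h1
  rw [zero_pow (Nat.succ_ne_zero n), zero_pow (Nat.succ_ne_zero m)] at h1
  linarith

theorem iE4a_beta (m : ℕ) : ∀ n : ℕ, ∫ x in (0 : ℝ)..1, x ^ m * (1 - x) ^ n =
    (m.factorial : ℝ) * n.factorial / ((m + n + 1).factorial : ℝ) := by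
  induction m with
  | zero =>
    intro n
    have hder : ∀ x ∈ uIcc (0 : ℝ) 1, HasDerivAt (fun x : ℝ => -((1 - x) ^ (n + 1) / ((n : ℝ) + 1)))
        (x ^ 0 * (1 - x) ^ n) x := by
      intro x _
      have d0 : HasDerivAt (fun x : ℝ => 1 - x) (-1) x := by
        simpa using (hasDerivAt_id x).const_sub 1
      have d2 := ((d0.fun_pow (n + 1)).div_const ((n : ℝ) + 1)).neg
      refine d2.congr_deriv ?_
      simp only [Nat.add_sub_cancel, Nat.cast_add, Nat.cast_one]
      field_simp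
    rw [intervalIntegral.integral_eq_sub_of_hasDerivAt hder (iE4a_int 0 n 0 1)]
    simp only [sub_self, sub_zero, one_pow, Nat.factorial_zero, Nat.cast_one, one_mul,
      Nat.zero_add]
    rw [zero_pow (Nat.succ_ne_zero n), Nat.factorial_succ]
    have : (n.factorial : ℝ) ≠ 0 := by exact_mod_cast n.factorial_ne_zero
    push_cast
    field_simp
    ring
  | succ m ih =>
    intro n
    have h1 := iE4a_step m n
    rw [ih (n + 1)] at h1
    have hn : ((n : ℝ) + 1) ≠ 0 := by positivity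
    rw [← mul_right_inj' hn, h1, show m + (n + 1) + 1 = m + 1 + n + 1 by omega,
      Nat.factorial_succ m, Nat.factorial_succ n]
    push_cast
    ring

theorem iE4a_inner (k : ℕ) (a : ℝ) : ∫ y in (0 : ℝ)..a, (a - y) * y ^ k =
    a ^ (k + 2) / (((k : ℝ) + 1) * ((k : ℝ) + 2)) := by
  have hder : ∀ y ∈ uIcc (0 : ℝ) a, HasDerivAt
      (fun y : ℝ => a * (y ^ (k + 1) / ((k : ℝ) + 1)) - y ^ (k + 2) / ((k : ℝ) + 2))
      ((a - y) * y ^ k) y := by
    intro y _
    have d1 := ((hasDerivAt_pow (k + 1) y).div_const ((k : ℝ) + 1)).const_mul a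
    have d2 := (hasDerivAt_pow (k + 2) y).div_const ((k : ℝ) + 2)
    refine (d1.sub d2).congr_deriv ?_
    have e1 : k + 2 - 1 = k + 1 := by omega
    simp only [Nat.add_sub_cancel, e1, Nat.cast_add, Nat.cast_one, Nat.cast_ofNat]
    field_simp
    ring
  rw [intervalIntegral.integral_eq_sub_of_hasDerivAt hder
    ((by fun_prop : Continuous fun y : ℝ => (a - y) * y ^ k).intervalIntegrable _ _)]
  rw [zero_pow (Nat.succ_ne_zero k), zero_pow (Nat.succ_ne_zero (k + 1))]
  field_simp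
  ring

theorem itemE4a : claimE4a := by
  intro m k
  unfold Dc
  set S : Set (ℝ × ℝ) := {z : ℝ × ℝ | 0 < z.1 ∧ 0 < z.2 ∧ z.1 + z.2 < 1} with hS
  set F : ℝ × ℝ → ℝ := fun z => (1 - (z.1 + z.2)) * (z.1 ^ m * z.2 ^ k) with hF
  have hSm : MeasurableSet S := by
    refine (measurableSet_lt measurable_const measurable_fst).inter
      ((measurableSet_lt measurable_const measurable_snd).inter ?_)
    exact measurableSet_lt (f := fun z : ℝ × ℝ => z.1 + z.2) (by fun_prop)
      measurable_const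
  have hSsub : S ⊆ Icc 0 1 ×ˢ Icc 0 1 := by
    rintro z ⟨h1, h2, h3⟩
    exact ⟨⟨h1.le, by linarith⟩, ⟨h2.le, by linarith⟩⟩
  have hint : IntegrableOn F S := by
    refine IntegrableOn.mono_set ?_ hSsub
    exact (by fun_prop : Continuous F).continuousOn
      |>.integrableOn_compact (isCompact_Icc.prod isCompact_Icc)
  rw [← integral_indicator hSm, Measure.volume_eq_prod,
    integral_prod _ ((integrable_indicator_iff hSm).2 hint)]
  have hinner : ∀ x : ℝ, ∫ y, S.indicator F (x, y) =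
      (Ioc 0 1).indicator (fun x : ℝ => x ^ m * (1 - x) ^ (k + 2) /
        (((k : ℝ) + 1) * ((k : ℝ) + 2))) x := by
    intro x
    by_cases hx : x ∈ Ioc (0 : ℝ) 1
    · rw [indicator_of_mem hx]
      have h1 : (fun y => S.indicator F (x, y)) =
          (Ioo 0 (1 - x)).indicator (fun y => x ^ m * ((1 - x - y) * y ^ k)) := by
        funext y
        by_cases hy : y ∈ Ioo 0 (1 - x)
        · rw [indicator_of_mem hy, indicator_of_mem]
          · simp only [hF]
            ring
          · exact ⟨hx.1, hy.1, by change x + y < 1; linarith [hy.2]⟩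
        · rw [indicator_of_notMem hy, indicator_of_notMem]
          rintro ⟨_, h2, h3⟩
          change x + y < 1 at h3
          exact hy ⟨h2, by linarith⟩
      rw [h1, integral_indicator measurableSet_Ioo, ← integral_Ioc_eq_integral_Ioo,
        ← intervalIntegral.integral_of_le (by linarith [hx.2]),
        intervalIntegral.integral_const_mul, iE4a_inner]
      ring
    · rw [indicator_of_notMem hx]
      have h1 : (fun y => S.indicator F (x, y)) = fun _ => 0 := by
        funext y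
        apply indicator_of_notMem
        rintro ⟨h1, h2, h3⟩
        change 0 < x at h1
        change 0 < y at h2
        change x + y < 1 at h3
        exact hx ⟨h1, by linarith⟩
      rw [h1, integral_zero]
  simp_rw [hinner]
  rw [integral_indicator measurableSet_Ioc, ← intervalIntegral.integral_of_le zero_le_one,
    intervalIntegral.integral_div, iE4a_beta, show m + (k + 2) + 1 = m + k + 3 by omega,
    show (k + 2).factorial = (k + 2) * ((k + 1) * k.factorial) by
      rw [Nat.factorial_succ, Nat.factorial_succ]]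
  have h3 : ((m + k + 3).factorial : ℝ) ≠ 0 := by exact_mod_cast Nat.factorial_ne_zero _
  push_cast
  field_simp

end Pool.Agent.Work.MP_02f065_gt.RPn

end
end

section

/-!
E4b: weighted integral over the quarter disc, in polar coordinates.
-/

open MeasureTheory Set Filter Topology

namespace Pool.Agent.Work.MP_02f065_gt.RPn

theorem iE4b_radial (N : ℕ) :
    ∫ r in Ioi (0 : ℝ), r ^ N * Real.sqrt (1 - r ^ 2) = Wc 2 N := by
  have h1 : ∫ r in Ioi (0 : ℝ), r ^ N * Real.sqrt (1 - r ^ 2) =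
      ∫ r in Ioc (0 : ℝ) 1, r ^ N * Real.sqrt (1 - r ^ 2) := by
    rw [← Ioc_union_Ioi_eq_Ioi (zero_le_one : (0 : ℝ) ≤ 1)]
    apply setIntegral_eq_of_subset_of_forall_sdiff_eq_zero
      (measurableSet_Ioc.union measurableSet_Ioi) subset_union_left
    intro r hr
    have h2 : 1 < r := by
      rcases hr.1 with h | h
      · exact absurd h hr.2
      · exact h
    rw [Real.sqrt_eq_zero_of_nonpos (by nlinarith), mul_zero]
  rw [h1, ← intervalIntegral.integral_of_le zero_le_one]
  have hsub := intervalIntegral.integral_comp_mul_deriv (a := 0) (b := Real.pi / 2)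
    (f := Real.sin) (f' := Real.cos) (g := fun r : ℝ => r ^ N * Real.sqrt (1 - r ^ 2))
    (fun x _ => Real.hasDerivAt_sin x) Real.continuous_cos.continuousOn (by fun_prop)
  rw [Real.sin_zero, Real.sin_pi_div_two] at hsub
  rw [← hsub]
  unfold Wc
  refine intervalIntegral.integral_congr ?_
  intro s hs
  rw [uIcc_of_le (by linarith [Real.pi_pos])] at hs
  have hc : 0 ≤ Real.cos s := Real.cos_nonneg_of_mem_Icc ⟨by linarith [hs.1, Real.pi_pos], hs.2⟩
  have hsq : 1 - Real.sin s ^ 2 = Real.cos s ^ 2 := by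
    linarith [Real.sin_sq_add_cos_sq s]
  simp only [Function.comp]
  rw [hsq, Real.sqrt_sq hc]
  ring

theorem iE4b_mem {r s : ℝ} (hr : 0 < r) (hs : s ∈ Ioo (-Real.pi) Real.pi) :
    (r * Real.cos s, r * Real.sin s) ∈ (Ioi (0 : ℝ) ×ˢ Ioi (0 : ℝ)) ↔
      s ∈ Ioo 0 (Real.pi / 2) := by
  rw [Set.mem_prod, Set.mem_Ioi, Set.mem_Ioi, mul_pos_iff_of_pos_left hr,
    mul_pos_iff_of_pos_left hr]
  constructor
  · rintro ⟨hc, hsn⟩
    have h0 : 0 < s := by
      by_contra hcon
      push Not at hcon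
      have := Real.sin_nonpos_of_nonpos_of_neg_pi_le hcon hs.1.le
      linarith
    refine ⟨h0, ?_⟩
    by_contra hcon
    push Not at hcon
    have := Real.cos_nonpos_of_pi_div_two_le_of_le hcon (by linarith [hs.2, Real.pi_pos])
    linarith
  · rintro ⟨h0, h1⟩
    exact ⟨Real.cos_pos_of_mem_Ioo ⟨by linarith [Real.pi_pos], h1⟩,
      Real.sin_pos_of_pos_of_lt_pi h0 (by linarith [Real.pi_pos])⟩

theorem itemE4b : claimE4b := by
  intro m k
  set h : ℝ × ℝ → ℝ := fun z =>
    Real.sqrt (1 - (z.1 ^ 2 + z.2 ^ 2)) * (z.1 ^ m * z.2 ^ k) with hh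
  have hmQ : MeasurableSet (Ioi (0 : ℝ) ×ˢ Ioi (0 : ℝ)) := measurableSet_Ioi.prod measurableSet_Ioi
  have e1 : Kc m k =
      ∫ p in polarCoord.target,
        p.1 • (Ioi (0 : ℝ) ×ˢ Ioi (0 : ℝ)).indicator h (polarCoord.symm p) := by
    rw [integral_comp_polarCoord_symm, integral_indicator hmQ]
    rfl
  have e2 : ∫ p in polarCoord.target,
        p.1 • (Ioi (0 : ℝ) ×ˢ Ioi (0 : ℝ)).indicator h (polarCoord.symm p) =
      ∫ p in (Ioi (0 : ℝ) ×ˢ Ioo (-Real.pi) Real.pi),
        (p.1 ^ (m + k + 1) * Real.sqrt (1 - p.1 ^ 2)) *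
        (Ioo 0 (Real.pi / 2)).indicator (fun s => Real.cos s ^ m * Real.sin s ^ k) p.2 := by
    rw [polarCoord_target]
    refine setIntegral_congr_fun (measurableSet_Ioi.prod measurableSet_Ioo) ?_
    rintro ⟨r, s⟩ ⟨hr, hs⟩
    simp only [Set.mem_Ioi] at hr
    simp only [polarCoord_symm_apply, smul_eq_mul]
    by_cases hin : s ∈ Ioo 0 (Real.pi / 2)
    · rw [indicator_of_mem ((iE4b_mem hr hs).2 hin), indicator_of_mem hin, hh]
      simp only
      have hn : (r * Real.cos s) ^ 2 + (r * Real.sin s) ^ 2 = r ^ 2 := by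
        have := Real.sin_sq_add_cos_sq s
        calc (r * Real.cos s) ^ 2 + (r * Real.sin s) ^ 2 =
            r ^ 2 * (Real.sin s ^ 2 + Real.cos s ^ 2) := by ring
          _ = r ^ 2 := by rw [this, mul_one]
      rw [hn]
      ring
    · rw [indicator_of_notMem (fun hc => hin ((iE4b_mem hr hs).1 hc)), indicator_of_notMem hin]
      simp
  have e3 : ∫ p in (Ioi (0 : ℝ) ×ˢ Ioo (-Real.pi) Real.pi),
        (p.1 ^ (m + k + 1) * Real.sqrt (1 - p.1 ^ 2)) *
        (Ioo 0 (Real.pi / 2)).indicator (fun s => Real.cos s ^ m * Real.sin s ^ k) p.2 =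
      (∫ r in Ioi (0 : ℝ), r ^ (m + k + 1) * Real.sqrt (1 - r ^ 2)) *
        ∫ s in Ioo (-Real.pi) Real.pi,
        (Ioo 0 (Real.pi / 2)).indicator (fun s => Real.cos s ^ m * Real.sin s ^ k) s :=
    setIntegral_prod_mul (μ := volume) (ν := volume)
      (fun r : ℝ => r ^ (m + k + 1) * Real.sqrt (1 - r ^ 2))
      ((Ioo 0 (Real.pi / 2)).indicator (fun s => Real.cos s ^ m * Real.sin s ^ k)) _ _
  have e4 : ∫ s in Ioo (-Real.pi) Real.pi,
        (Ioo 0 (Real.pi / 2)).indicator (fun s => Real.cos s ^ m * Real.sin s ^ k) s =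
      Wc m k := by
    unfold Wc
    rw [setIntegral_indicator measurableSet_Ioo,
      intervalIntegral.integral_of_le (by linarith [Real.pi_pos]), integral_Ioc_eq_integral_Ioo]
    congr 2
    ext s
    simp only [Set.mem_inter_iff, Set.mem_Ioo]
    constructor
    · exact fun hs => hs.2
    · intro hs
      exact ⟨⟨by linarith [hs.1, Real.pi_pos], by linarith [hs.2, Real.pi_pos]⟩, hs⟩
  calc Kc m k = _ := e1
    _ = _ := e2
    _ = _ := e3
    _ = _ := by rw [e4, iE4b_radial]

end Pool.Agent.Work.MP_02f065_gt.RPn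

end

section

/-!
E4c: an identity for the integrals of `cos^m sin^k`.
-/

open MeasureTheory Set Filter Topology

namespace Pool.Agent.Work.MP_02f065_gt.RPn

theorem iE4c_int (m k : ℕ) (a b : ℝ) :
    IntervalIntegrable (fun s : ℝ => Real.cos s ^ m * Real.sin s ^ k) volume a b :=
  (by fun_prop : Continuous fun s : ℝ => Real.cos s ^ m * Real.sin s ^ k).intervalIntegrable _ _

/-- integration by parts -/
theorem iE4c_parts (m k : ℕ) :
    ((k : ℝ) + 1) * Wc (m + 2) k = ((m : ℝ) + 1) * Wc m (k + 2) := by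
  have hder : ∀ x ∈ uIcc (0 : ℝ) (Real.pi / 2), HasDerivAt
      (fun x : ℝ => Real.cos x ^ (m + 1) * Real.sin x ^ (k + 1))
      (((k : ℝ) + 1) * (Real.cos x ^ (m + 2) * Real.sin x ^ k) -
        ((m : ℝ) + 1) * (Real.cos x ^ m * Real.sin x ^ (k + 2))) x := by
    intro x _
    have d1 := (Real.hasDerivAt_cos x).fun_pow (m + 1)
    have d2 := (Real.hasDerivAt_sin x).fun_pow (k + 1)
    refine (d1.mul d2).congr_deriv ?_
    simp only [Nat.add_sub_cancel, Nat.cast_add, Nat.cast_one]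
    ring
  have h1 := intervalIntegral.integral_eq_sub_of_hasDerivAt hder
    (((iE4c_int (m + 2) k 0 (Real.pi / 2)).const_mul _).sub
      ((iE4c_int m (k + 2) 0 (Real.pi / 2)).const_mul _))
  rw [intervalIntegral.integral_sub ((iE4c_int (m + 2) k 0 (Real.pi / 2)).const_mul _)
    ((iE4c_int m (k + 2) 0 (Real.pi / 2)).const_mul _), intervalIntegral.integral_const_mul,
    intervalIntegral.integral_const_mul] at h1
  rw [Real.cos_pi_div_two, Real.sin_zero, zero_pow (Nat.succ_ne_zero m),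
    zero_pow (Nat.succ_ne_zero k), zero_mul, mul_zero, sub_zero] at h1
  unfold Wc
  linarith

theorem iE4c_pyth (m k : ℕ) : Wc m (k + 2) = Wc m k - Wc (m + 2) k := by
  unfold Wc
  rw [← intervalIntegral.integral_sub (iE4c_int m k _ _) (iE4c_int (m + 2) k _ _)]
  refine intervalIntegral.integral_congr (fun s _ => ?_)
  change Real.cos s ^ m * Real.sin s ^ (k + 2) =
    Real.cos s ^ m * Real.sin s ^ k - Real.cos s ^ (m + 2) * Real.sin s ^ k
  have : Real.sin s ^ 2 = 1 - Real.cos s ^ 2 := by linarith [Real.sin_sq_add_cos_sq s]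
  rw [pow_add (Real.sin s), this]
  ring

theorem iE4c_cos (m k : ℕ) : Wc (m + 2) k = ((m : ℝ) + 1) / ((m : ℝ) + k + 2) * Wc m k := by
  have h1 := iE4c_parts m k
  rw [iE4c_pyth] at h1
  have h2 : (m : ℝ) + k + 2 ≠ 0 := by positivity
  rw [div_mul_eq_mul_div, eq_div_iff h2]
  linarith

theorem iE4c_sin (m k : ℕ) : Wc m (k + 2) = ((k : ℝ) + 1) / ((m : ℝ) + k + 2) * Wc m k := by
  have h2 : (m : ℝ) + k + 2 ≠ 0 := by positivity
  rw [iE4c_pyth, iE4c_cos]
  field_simp
  ring

theorem iE4c_00 : Wc 0 0 = Real.pi / 2 := by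
  unfold Wc
  simp

theorem iE4c_10 : Wc 1 0 = 1 := by
  unfold Wc
  simp

theorem iE4c_01 : Wc 0 1 = 1 := by
  unfold Wc
  simp

theorem iE4c_11 : Wc 1 1 = 1 / 2 := by
  have hder : ∀ x ∈ uIcc (0 : ℝ) (Real.pi / 2), HasDerivAt
      (fun x : ℝ => Real.sin x ^ 2 / 2) (Real.cos x ^ 1 * Real.sin x ^ 1) x := by
    intro x _
    have d2 := ((Real.hasDerivAt_sin x).fun_pow 2).div_const 2
    refine d2.congr_deriv ?_
    norm_num
    ring
  unfold Wc
  rw [intervalIntegral.integral_eq_sub_of_hasDerivAt hder (iE4c_int 1 1 _ _),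
    Real.sin_pi_div_two, Real.sin_zero]
  norm_num

/-- the identity -/
def IE4c (m k : ℕ) : Prop :=
  Real.pi * ((m.factorial : ℝ) * k.factorial / ((m + k + 3).factorial : ℝ)) =
    2 * (Wc 2 (m + k + 1) * Wc m k) * Wc (m + 1) (k + 1)

theorem iE4c_step1 (m k : ℕ) (h : IE4c m k) : IE4c (m + 2) k := by
  unfold IE4c at h ⊢
  have e1 := iE4c_cos m k
  have e2 := iE4c_cos (m + 1) (k + 1)
  have e3 := iE4c_sin 2 (m + k + 1)
  rw [show m + 1 + 2 = m + 2 + 1 by omega] at e2
  rw [show m + k + 1 + 2 = m + 2 + k + 1 by omega] at e3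
  rw [e1, e2, e3, show m + 2 + k + 3 = m + k + 3 + 1 + 1 by omega,
    Nat.factorial_succ (m + k + 3 + 1), Nat.factorial_succ (m + k + 3),
    Nat.factorial_succ (m + 1), Nat.factorial_succ m]
  have hN : ((m + k + 3).factorial : ℝ) ≠ 0 := by exact_mod_cast Nat.factorial_ne_zero _
  have e4 : Real.pi * ((m.factorial : ℝ) * k.factorial) =
      2 * (Wc 2 (m + k + 1) * Wc m k) * Wc (m + 1) (k + 1) * ((m + k + 3).factorial : ℝ) := by
    rw [← h]
    field_simp
  push_cast
  have p1 : (m : ℝ) + k + 2 ≠ 0 := by positivity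
  have p2 : (m : ℝ) + 1 + (k + 1) + 2 ≠ 0 := by positivity
  have p3 : (2 : ℝ) + (m + k + 1) + 2 ≠ 0 := by positivity
  have p4 : (m : ℝ) + k + 3 + 1 + 1 ≠ 0 := by positivity
  have p5 : (m : ℝ) + k + 3 + 1 ≠ 0 := by positivity
  have e5 : Real.pi * (((m : ℝ) + 1 + 1) * (((m : ℝ) + 1) * m.factorial) * k.factorial /
      (((m : ℝ) + k + 3 + 1 + 1) * (((m : ℝ) + k + 3 + 1) * ((m + k + 3).factorial : ℝ)))) =
      (Real.pi * ((m.factorial : ℝ) * k.factorial)) * (((m : ℝ) + 1 + 1) * ((m : ℝ) + 1)) /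
      (((m : ℝ) + k + 3 + 1 + 1) * (((m : ℝ) + k + 3 + 1) * ((m + k + 3).factorial : ℝ))) := by
    ring
  rw [e5, e4]
  field_simp
  ring

theorem iE4c_step2 (m k : ℕ) (h : IE4c m k) : IE4c m (k + 2) := by
  unfold IE4c at h ⊢
  have e1 := iE4c_sin m k
  have e2 := iE4c_sin (m + 1) (k + 1)
  have e3 := iE4c_sin 2 (m + k + 1)
  rw [show k + 1 + 2 = k + 2 + 1 by omega] at e2
  rw [show m + k + 1 + 2 = m + (k + 2) + 1 by omega] at e3
  rw [e1, e2, e3, show m + (k + 2) + 3 = m + k + 3 + 1 + 1 by omega,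
    Nat.factorial_succ (m + k + 3 + 1), Nat.factorial_succ (m + k + 3),
    Nat.factorial_succ (k + 1), Nat.factorial_succ k]
  have hN : ((m + k + 3).factorial : ℝ) ≠ 0 := by exact_mod_cast Nat.factorial_ne_zero _
  have e4 : Real.pi * ((m.factorial : ℝ) * k.factorial) =
      2 * (Wc 2 (m + k + 1) * Wc m k) * Wc (m + 1) (k + 1) * ((m + k + 3).factorial : ℝ) := by
    rw [← h]
    field_simp
  push_cast
  have p1 : (m : ℝ) + k + 2 ≠ 0 := by positivity
  have p2 : (m : ℝ) + 1 + (k + 1) + 2 ≠ 0 := by positivity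
  have p3 : (2 : ℝ) + (m + k + 1) + 2 ≠ 0 := by positivity
  have p4 : (m : ℝ) + k + 3 + 1 + 1 ≠ 0 := by positivity
  have p5 : (m : ℝ) + k + 3 + 1 ≠ 0 := by positivity
  have e5 : Real.pi * ((m.factorial : ℝ) * (((k : ℝ) + 1 + 1) * (((k : ℝ) + 1) * k.factorial)) /
      (((m : ℝ) + k + 3 + 1 + 1) * (((m : ℝ) + k + 3 + 1) * ((m + k + 3).factorial : ℝ)))) =
      (Real.pi * ((m.factorial : ℝ) * k.factorial)) * (((k : ℝ) + 1 + 1) * ((k : ℝ) + 1)) /
      (((m : ℝ) + k + 3 + 1 + 1) * (((m : ℝ) + k + 3 + 1) * ((m + k + 3).factorial : ℝ))) := by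
    ring
  rw [e5, e4]
  field_simp
  ring

theorem iE4c_b : IE4c 0 0 ∧ IE4c 1 0 ∧ IE4c 0 1 ∧ IE4c 1 1 := by
  have w21 : Wc 2 1 = 1 / 3 := by
    refine (iE4c_cos 0 1).trans ?_
    rw [iE4c_01]
    norm_num
  have w12 : Wc 1 2 = 1 / 3 := by
    refine (iE4c_sin 1 0).trans ?_
    rw [iE4c_10]
    norm_num
  have w02 : Wc 0 2 = Real.pi / 4 := by
    refine (iE4c_sin 0 0).trans ?_
    rw [iE4c_00]
    norm_num
    ring
  have w22 : Wc 2 2 = Real.pi / 16 := by
    refine (iE4c_cos 0 2).trans ?_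
    rw [w02]
    norm_num
    ring
  have w23 : Wc 2 3 = 2 / 15 := by
    refine (iE4c_sin 2 1).trans ?_
    rw [w21]
    norm_num
  refine ⟨?_, ?_, ?_, ?_⟩
  · unfold IE4c
    simp only [Nat.zero_add, Nat.add_zero]
    rw [w21, iE4c_00, iE4c_11]
    norm_num [Nat.factorial]
    ring
  · unfold IE4c
    simp only [Nat.zero_add, Nat.add_zero]
    rw [show 1 + 1 = 2 by rfl, w22, iE4c_10, w21]
    norm_num [Nat.factorial]
    ring
  · unfold IE4c
    simp only [Nat.zero_add, Nat.add_zero]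
    rw [show 1 + 1 = 2 by rfl, w22, iE4c_01, w12]
    norm_num [Nat.factorial]
    ring
  · unfold IE4c
    rw [show 1 + 1 + 1 = 3 by rfl, show 1 + 1 = 2 by rfl, w23, iE4c_11, w22]
    norm_num [Nat.factorial]
    ring

theorem iE4c_all (k : ℕ) (h0 : IE4c 0 k) (h1 : IE4c 1 k) : ∀ m, IE4c m k
  | 0 => h0
  | 1 => h1
  | m + 2 => iE4c_step1 m k (iE4c_all k h0 h1 m)

theorem iE4c_rows : ∀ k, IE4c 0 k ∧ IE4c 1 k
  | 0 => ⟨iE4c_b.1, iE4c_b.2.1⟩
  | 1 => ⟨iE4c_b.2.2.1, iE4c_b.2.2.2⟩
  | k + 2 => ⟨iE4c_step2 0 k (iE4c_rows k).1, iE4c_step2 1 k (iE4c_rows k).2⟩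

theorem itemE4c : claimE4c := fun m k => iE4c_all k (iE4c_rows k).1 (iE4c_rows k).2 m

end Pool.Agent.Work.MP_02f065_gt.RPn

end

section

open MeasureTheory Set Filter Topology

noncomputable section

namespace Pool.Agent.Work.MP_02f065_gt.RPn

theorem itemE4d : claimE4d := by
  intro m k
  unfold Wc
  refine intervalIntegral.intervalIntegral_pos_of_pos_on ?_ ?_ (by positivity)
  · exact Continuous.intervalIntegrable (by fun_prop) _ _
  · intro s hs
    have h1 : 0 < Real.cos s :=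
      Real.cos_pos_of_mem_Ioo ⟨by linarith [hs.1, Real.pi_pos], hs.2⟩
    have h2 : 0 < Real.sin s :=
      Real.sin_pos_of_pos_of_lt_pi hs.1 (by linarith [hs.2, Real.pi_pos])
    positivity

end Pool.Agent.Work.MP_02f065_gt.RPn

end
end

section

/-!
MP_02f065_gt, item Haar: an invariant probability measure on SO(n).
-/

set_option autoImplicit false

open MeasureTheory Set Topology

namespace Pool.Agent.Work.MP_02f065_gt.RPn

theorem iHaar_isClosed (n : ℕ) : IsClosed (SO n : Set (Matrix (Fin n) (Fin n) ℝ)) := by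
  have h : (SO n : Set (Matrix (Fin n) (Fin n) ℝ)) =
      {A | star A * A = 1 ∧ A * star A = 1 ∧ A.det = 1} := by
    ext A
    simp only [SO, SetLike.mem_coe, Matrix.mem_specialOrthogonalGroup_iff,
      Matrix.mem_orthogonalGroup_iff, Set.mem_ofPred_eq]
    constructor
    · rintro ⟨h1, h2⟩
      exact ⟨mul_eq_one_comm.1 h1, h1, h2⟩
    · rintro ⟨_, h1, h2⟩
      exact ⟨h1, h2⟩
  rw [h]
  have hst : Continuous fun A : Matrix (Fin n) (Fin n) ℝ => star A := by
    exact continuous_id.matrix_conjTranspose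
  refine IsClosed.inter ?_ (IsClosed.inter ?_ ?_)
  · exact isClosed_eq (hst.mul continuous_id) continuous_const
  · exact isClosed_eq (continuous_id.mul hst) continuous_const
  · exact isClosed_eq continuous_id.matrix_det continuous_const

theorem iHaar_entry {n : ℕ} {A : Matrix (Fin n) (Fin n) ℝ} (hA : A ∈ SO n) (i j : Fin n) :
    A i j ∈ Icc (-1 : ℝ) 1 := by
  have h1 : A ∈ Matrix.unitaryGroup (Fin n) ℝ := by
    have := (Matrix.mem_specialOrthogonalGroup_iff (n := Fin n) (R := ℝ)).1 hA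
    exact this.1
  have h2 := entry_norm_bound_of_unitary h1 i j
  rw [Real.norm_eq_abs, abs_le] at h2
  exact h2

theorem iHaar_isCompact (n : ℕ) : IsCompact (SO n : Set (Matrix (Fin n) (Fin n) ℝ)) := by
  have hK : IsCompact (Set.pi Set.univ (fun _ : Fin n => Set.pi Set.univ
      (fun _ : Fin n => Icc (-1 : ℝ) 1)) : Set (Fin n → Fin n → ℝ)) :=
    isCompact_univ_pi fun _ => isCompact_univ_pi fun _ => isCompact_Icc
  refine hK.of_isClosed_subset (iHaar_isClosed n) ?_
  intro A hA i _ j _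
  exact iHaar_entry hA i j

theorem itemHaar : claimHaar := by
  intro n
  let G := (Matrix.specialOrthogonalGroup (Fin n) ℝ)
  have hcomp : CompactSpace G := isCompact_iff_compactSpace.1 (iHaar_isCompact n)
  have hcinv : ContinuousInv G := by
    refine ⟨?_⟩
    refine Continuous.subtype_mk ?_ _
    exact continuous_subtype_val.matrix_conjTranspose
  have htg : IsTopologicalGroup G := { }
  let _ : MeasurableSpace G := borel G
  have : BorelSpace G := ⟨rfl⟩
  let μ : Measure G := (Measure.haarMeasure (⊤ : TopologicalSpace.PositiveCompacts G))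
  have hμ : IsProbabilityMeasure μ := by
    refine ⟨?_⟩
    have := Measure.haarMeasure_self (K₀ := (⊤ : TopologicalSpace.PositiveCompacts G))
    simpa using this
  have hinvp : IsProbabilityMeasure μ.inv :=
    Measure.isProbabilityMeasure_map measurable_inv.aemeasurable
  refine ⟨{ Ω := G, ms := borel G, μ := μ.inv, prob := hinvp, m := fun ω => ω.1
            mem := fun ω => ω.2
            meas := ?_
            inv := ?_ }⟩
  · intro i j
    have : Continuous fun ω : G => ω.1 i j :=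
      (continuous_apply j).comp ((continuous_apply i).comp continuous_subtype_val)
    exact this.measurable
  · intro T hT F _
    exact integral_mul_right_eq_self (fun ω : G => F ω.1) (⟨T, hT⟩ : G)

end Pool.Agent.Work.MP_02f065_gt.RPn

end

section

/-!
MP_02f065_gt: item K, rotation of a vector to the first axis.
-/

open MeasureTheory Set Filter Topology

noncomputable section

namespace Pool.Agent.Work.MP_02f065_gt.RPn

open Matrix in
/-- a reflection -/
theorem iK_refl {n : ℕ} (w : Fin n → ℝ) (hw : w ⬝ᵥ w ≠ 0) :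
    let H : Matrix (Fin n) (Fin n) ℝ := 1 - vecMulVec ((2 / (w ⬝ᵥ w)) • w) w
    H * Hᵀ = 1 ∧ H.det = -1 ∧ ∀ u, H.mulVec u = u - (2 * (w ⬝ᵥ u) / (w ⬝ᵥ w)) • w := by
  intro H
  have hT : Hᵀ = H := by
    ext i j
    simp only [H, Matrix.transpose_apply, Matrix.sub_apply, Matrix.vecMulVec_apply, Pi.smul_apply,
      smul_eq_mul, Matrix.one_apply]
    rw [show (if j = i then (1 : ℝ) else 0) = if i = j then 1 else 0 by simp [eq_comm]]
    ring
  have hmv : ∀ u, H.mulVec u = u - (2 * (w ⬝ᵥ u) / (w ⬝ᵥ w)) • w := by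
    intro u
    simp only [H, Matrix.sub_mulVec, Matrix.one_mulVec, Matrix.vecMulVec_mulVec]
    congr 1
    ext i
    simp only [Pi.smul_apply, op_smul_eq_mul, smul_eq_mul]
    ring
  refine ⟨?_, ?_, hmv⟩
  · rw [hT]
    apply Matrix.ext_of_mulVec_single
    intro j
    rw [← Matrix.mulVec_mulVec, Matrix.one_mulVec, hmv, hmv]
    set e : Fin n → ℝ := Pi.single j 1
    rw [dotProduct_sub, dotProduct_smul, smul_eq_mul, sub_sub, ← add_smul]
    have : 2 * (w ⬝ᵥ e) / (w ⬝ᵥ w) + 2 * (w ⬝ᵥ e - 2 * (w ⬝ᵥ e) / (w ⬝ᵥ w) * (w ⬝ᵥ w)) /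
        (w ⬝ᵥ w) = 0 := by
      field_simp
      ring
    rw [this, zero_smul, sub_zero]
  · have h1 : H = 1 + Matrix.replicateCol Unit (-((2 / (w ⬝ᵥ w)) • w)) *
        Matrix.replicateRow Unit w := by
      rw [← Matrix.vecMulVec_eq Unit, Matrix.neg_vecMulVec, ← sub_eq_add_neg]
    rw [h1, Matrix.det_one_add_replicateCol_mul_replicateRow, dotProduct_neg, dotProduct_smul,
      smul_eq_mul]
    field_simp
    ring

open Matrix in
theorem itemK : claimK := by
  intro P hP u
  set r := Real.sqrt (∑ j, u j ^ 2) with hr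
  have hr2 : r ^ 2 = ∑ j, u j ^ 2 := Real.sq_sqrt (Finset.sum_nonneg fun j _ => sq_nonneg _)
  set e : Fin P → ℝ := fun i => if i.val = 0 then r else 0 with he
  have i0 : Fin P := ⟨0, by omega⟩
  have hee : e ⬝ᵥ e = r ^ 2 := by
    rw [dotProduct, Finset.sum_eq_single (⟨0, by omega⟩ : Fin P)]
    · simp [he, sq]
    · intro b _ hb
      have : b.val ≠ 0 := fun h => hb (Fin.ext h)
      simp [he, this]
    · intro h
      exact absurd (Finset.mem_univ _) h
  have huu : u ⬝ᵥ u = r ^ 2 := by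
    rw [hr2, dotProduct]
    exact Finset.sum_congr rfl fun i _ => (sq (u i)).symm
  by_cases hue : u = e
  · refine ⟨1, (SO P).one_mem, ?_⟩
    rw [Matrix.one_mulVec]
    exact hue
  set w := u - e with hw
  have hw0 : w ⬝ᵥ w ≠ 0 := by
    rw [Ne, dotProduct_self_eq_zero]
    exact sub_ne_zero.mpr hue
  have hww : w ⬝ᵥ w = 2 * (w ⬝ᵥ u) := by
    have h1 : e ⬝ᵥ u = u ⬝ᵥ e := dotProduct_comm _ _
    simp only [hw, sub_dotProduct, dotProduct_sub, hee, huu, h1]
    ring
  obtain ⟨h1, h2, h3⟩ := iK_refl w hw0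
  set H : Matrix (Fin P) (Fin P) ℝ := 1 - vecMulVec ((2 / (w ⬝ᵥ w)) • w) w with hH
  have hHu : H.mulVec u = e := by
    rw [h3, ← hww, div_self hw0, one_smul, hw, sub_sub_cancel]
  set D : Matrix (Fin P) (Fin P) ℝ :=
    Matrix.diagonal (fun i => if i = ⟨1, by omega⟩ then -1 else 1) with hD
  have hDT : Dᵀ = D := Matrix.diagonal_transpose _
  have hDD : D * D = 1 := by
    rw [hD, Matrix.diagonal_mul_diagonal, ← Matrix.diagonal_one]
    congr 1
    ext i
    split_ifs <;> norm_num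
  have hDdet : D.det = -1 := by
    rw [hD, Matrix.det_diagonal, Finset.prod_ite_eq' Finset.univ (⟨1, by omega⟩ : Fin P)]
    simp
  refine ⟨D * H, ?_, ?_⟩
  · rw [Matrix.mem_specialOrthogonalGroup_iff, Matrix.mem_orthogonalGroup_iff]
    refine ⟨?_, ?_⟩
    · rw [Matrix.transpose_mul, hDT, Matrix.mul_assoc, ← Matrix.mul_assoc H, h1, Matrix.one_mul,
        hDD]
    · rw [Matrix.det_mul, h2, hDdet]
      norm_num
  · rw [← Matrix.mulVec_mulVec, hHu]
    ext i
    rw [hD, Matrix.mulVec_diagonal]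
    by_cases hi : i = ⟨1, by omega⟩
    · have : i.val ≠ 0 := by rw [hi]; norm_num
      simp [he, this]
    · rw [if_neg hi, one_mul]

end Pool.Agent.Work.MP_02f065_gt.RPn

end
end

section

/-!
MP_02f065_gt, all dimensions, item R: the block action.
-/

open MeasureTheory Set Filter Topology

noncomputable section

namespace Pool.Agent.Work.MP_02f065_gt.RPn

theorem iR_dot {n : ℕ} {A : Matrix (Fin n) (Fin n) ℝ} (hA : A ∈ SO n) (u v : Fin n → ℝ) :
    (A.mulVec u) ⬝ᵥ (A.mulVec v) = u ⬝ᵥ v := by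
  have h1 : A.transpose * A = 1 := by
    have := (Matrix.mem_specialOrthogonalGroup_iff.1 hA).1
    rw [Matrix.mem_orthogonalGroup_iff'] at this
    exact this
  rw [Matrix.dotProduct_mulVec, ← Matrix.mulVec_transpose, Matrix.mulVec_mulVec, h1,
    Matrix.one_mulVec]

theorem iR_inner {P Q : ℕ} (x y : E (Ix P Q)) : inner ℝ x y =
    (fun i => x (Sum.inl i)) ⬝ᵥ (fun i => y (Sum.inl i)) +
      (fun j => x (Sum.inr j)) ⬝ᵥ (fun j => y (Sum.inr j)) := by
  rw [PiLp.inner_apply, Fintype.sum_sum_type]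
  unfold dotProduct
  congr 1
  · refine Finset.sum_congr rfl fun i _ => ?_
    simp [mul_comm]
  · refine Finset.sum_congr rfl fun i _ => ?_
    simp [mul_comm]

theorem iR_blk_inner {P Q : ℕ} {A : Matrix (Fin P) (Fin P) ℝ} (hA : A ∈ SO P)
    {B : Matrix (Fin Q) (Fin Q) ℝ} (hB : B ∈ SO Q) (x y : E (Ix P Q)) :
    inner ℝ (blk A B x) (blk A B y) = inner ℝ x y := by
  rw [iR_inner, iR_inner x y]
  have h1 : ∀ z : E (Ix P Q), (fun i => blk A B z (Sum.inl i)) =
      A.mulVec fun i => z (Sum.inl i) := fun z => rfl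
  have h2 : ∀ z : E (Ix P Q), (fun i => blk A B z (Sum.inr i)) =
      B.mulVec fun i => z (Sum.inr i) := fun z => rfl
  rw [h1, h1, h2, h2, iR_dot hA, iR_dot hB]

theorem itemR : claimR := by
  intro P Q A hA B hB x y t
  have hsm : ∀ (t : ℝ) (x : E (Ix P Q)), blk A B (t • x) = t • blk A B x := by
    intro t x
    ext i
    rcases i with i | i
    · show A.mulVec (fun i => (t • x) (Sum.inl i)) i = t * (A.mulVec (fun i => x (Sum.inl i)) i)
      have : (fun i => (t • x) (Sum.inl i)) = t • (fun i => x (Sum.inl i)) := by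
        funext i; simp
      rw [this, Matrix.mulVec_smul]
      rfl
    · show B.mulVec (fun i => (t • x) (Sum.inr i)) i = t * (B.mulVec (fun i => x (Sum.inr i)) i)
      have : (fun i => (t • x) (Sum.inr i)) = t • (fun i => x (Sum.inr i)) := by
        funext i; simp
      rw [this, Matrix.mulVec_smul]
      rfl
  refine ⟨?_, hsm t x, ?_, iR_blk_inner hA hB x y, ?_, ?_, ?_⟩
  · ext i
    rcases i with i | i
    · show A.mulVec (fun i => (x + y) (Sum.inl i)) i =
        A.mulVec (fun i => x (Sum.inl i)) i + A.mulVec (fun i => y (Sum.inl i)) i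
      have : (fun i => (x + y) (Sum.inl i)) = (fun i => x (Sum.inl i)) +
          (fun i => y (Sum.inl i)) := by
        funext i; simp
      rw [this, Matrix.mulVec_add]
      rfl
    · show B.mulVec (fun i => (x + y) (Sum.inr i)) i =
        B.mulVec (fun i => x (Sum.inr i)) i + B.mulVec (fun i => y (Sum.inr i)) i
      have : (fun i => (x + y) (Sum.inr i)) = (fun i => x (Sum.inr i)) +
          (fun i => y (Sum.inr i)) := by
        funext i; simp
      rw [this, Matrix.mulVec_add]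
      rfl
  · rw [← neg_one_smul ℝ x, hsm, neg_one_smul]
  · rw [norm_eq_sqrt_real_inner, norm_eq_sqrt_real_inner, iR_blk_inner hA hB]
  · intro A' _ B' _
    ext i
    rcases i with i | i
    · show A.mulVec (A'.mulVec fun i => x (Sum.inl i)) i = (A * A').mulVec _ i
      rw [Matrix.mulVec_mulVec]
    · show B.mulVec (B'.mulVec fun i => x (Sum.inr i)) i = (B * B').mulVec _ i
      rw [Matrix.mulVec_mulVec]
  · ext i
    rcases i with i | i
    · show (1 : Matrix (Fin P) (Fin P) ℝ).mulVec (fun i => x (Sum.inl i)) i = x (Sum.inl i)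
      rw [Matrix.one_mulVec]
    · show (1 : Matrix (Fin Q) (Fin Q) ℝ).mulVec (fun i => x (Sum.inr i)) i = x (Sum.inr i)
      rw [Matrix.one_mulVec]

end Pool.Agent.Work.MP_02f065_gt.RPn

end
end

section

/-!
# The embedding of R^4 into R^P x R^Q
-/

namespace Pool.Agent.Work.MP_02f065_gt.RPn

theorem iS0_sum {p : ℕ} (a b a' b' : ℝ) :
    ∑ i : Fin (p + 2), (if i.val = 0 then a' else if i.val = 1 then b' else 0) *
      (if i.val = 0 then a else if i.val = 1 then b else 0) = a' * a + b' * b := by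
  rw [Fin.sum_univ_succ, Fin.sum_univ_succ]
  have h : ∑ i : Fin p, (if (i.succ.succ : Fin (p + 2)).val = 0 then a' else
      if (i.succ.succ : Fin (p + 2)).val = 1 then b' else 0) *
      (if (i.succ.succ : Fin (p + 2)).val = 0 then a else
      if (i.succ.succ : Fin (p + 2)).val = 1 then b else 0) = 0 := by
    refine Finset.sum_eq_zero fun i _ => ?_
    have h1 : (i.succ.succ : Fin (p + 2)).val ≠ 0 := by simp
    have h2 : (i.succ.succ : Fin (p + 2)).val ≠ 1 := by simp
    rw [if_neg h1, if_neg h2, zero_mul]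
  rw [h]
  simp

theorem iS0_inner {p q : ℕ} (x y : RP3.E) :
    inner ℝ (emb x : E (Ix (p + 2) (q + 2))) (emb y) = inner ℝ x y := by
  rw [PiLp.inner_apply, PiLp.inner_apply]
  rw [Fintype.sum_sum_type]
  have e1 : ∀ i : Fin (p + 2), inner ℝ ((emb x : E (Ix (p + 2) (q + 2))) (Sum.inl i))
      ((emb y : E (Ix (p + 2) (q + 2))) (Sum.inl i)) =
      (if i.val = 0 then y 0 else if i.val = 1 then y 1 else 0) *
        (if i.val = 0 then x 0 else if i.val = 1 then x 1 else 0) := by
    intro i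
    simp [emb, embC]
  have e2 : ∀ j : Fin (q + 2), inner ℝ ((emb x : E (Ix (p + 2) (q + 2))) (Sum.inr j))
      ((emb y : E (Ix (p + 2) (q + 2))) (Sum.inr j)) =
      (if j.val = 0 then y 2 else if j.val = 1 then y 3 else 0) *
        (if j.val = 0 then x 2 else if j.val = 1 then x 3 else 0) := by
    intro j
    simp [emb, embC]
  rw [Finset.sum_congr rfl fun i _ => e1 i, Finset.sum_congr rfl fun j _ => e2 j, iS0_sum,
    iS0_sum, Fin.sum_univ_four]
  simp
  ring

theorem iS0_add {P Q : ℕ} (x y : RP3.E) :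
    (emb (x + y) : E (Ix P Q)) = emb x + emb y := by
  ext i
  rcases i with i | i <;> simp only [emb, embC, PiLp.add_apply, Sum.elim_inl, Sum.elim_inr] <;>
    split_ifs <;> simp

theorem iS0_smul {P Q : ℕ} (t : ℝ) (x : RP3.E) :
    (emb (t • x) : E (Ix P Q)) = t • emb x := by
  ext i
  rcases i with i | i <;> simp only [emb, embC, PiLp.smul_apply, Sum.elim_inl, Sum.elim_inr] <;>
    split_ifs <;> simp

theorem itemS0 : claimS0 := by
  intro P Q hP hQ x y t
  obtain ⟨p, rfl⟩ := Nat.exists_eq_add_of_le' hP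
  obtain ⟨q, rfl⟩ := Nat.exists_eq_add_of_le' hQ
  refine ⟨iS0_add x y, iS0_smul t x, ?_, iS0_inner x y, ?_, ?_⟩
  · have h := iS0_smul (P := p + 2) (Q := q + 2) (-1) x
    rw [neg_one_smul, neg_one_smul] at h
    exact h
  · have h := iS0_inner (p := p) (q := q) x x
    rw [real_inner_self_eq_norm_sq, real_inner_self_eq_norm_sq] at h
    exact (sq_eq_sq₀ (norm_nonneg _) (norm_nonneg _)).1 h
  · unfold emb
    refine (PiLp.continuous_toLp 2 _).comp ?_
    refine continuous_pi fun i => ?_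
    rcases i with i | i
    · simp only [embC, Sum.elim_inl]
      split_ifs
      · fun_prop
      · fun_prop
      · exact continuous_const
    · simp only [embC, Sum.elim_inr]
      split_ifs
      · fun_prop
      · fun_prop
      · exact continuous_const

end Pool.Agent.Work.MP_02f065_gt.RPn

end

section

/-! Item S1: the restricted metric is a toric metric on RP^3. -/

open MeasureTheory Set Filter Topology

noncomputable section

namespace Pool.Agent.Work.MP_02f065_gt.RPn

/-- rotation in the first coordinate plane -/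
theorem iS1_rot (p : ℕ) (θ : ℝ) : ∃ A ∈ SO (2 + p), ∀ a b : ℝ,
    A.mulVec (fun i => if i.val = 0 then a else if i.val = 1 then b else 0) =
      fun i => if i.val = 0 then Real.cos θ * a - Real.sin θ * b
        else if i.val = 1 then Real.sin θ * a + Real.cos θ * b else 0 := by
  set R : Matrix (Fin 2) (Fin 2) ℝ := !![Real.cos θ, -Real.sin θ; Real.sin θ, Real.cos θ] with hR
  set M : Matrix (Fin 2 ⊕ Fin p) (Fin 2 ⊕ Fin p) ℝ := Matrix.fromBlocks R 0 0 1 with hM
  have hcs : Real.cos θ ^ 2 + Real.sin θ ^ 2 = 1 := Real.cos_sq_add_sin_sq θ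
  have hRR : R * R.transpose = 1 := by
    rw [hR]
    ext i j
    fin_cases i <;> fin_cases j <;>
      simp [Matrix.mul_apply, Fin.sum_univ_two, Matrix.transpose_apply] <;> nlinarith [hcs]
  have hMM : M * M.transpose = 1 := by
    rw [hM, Matrix.fromBlocks_transpose, Matrix.fromBlocks_multiply]
    simp [hRR]
  have hdet : M.det = 1 := by
    rw [hM, Matrix.det_fromBlocks_zero₂₁, hR, Matrix.det_fin_two_of, Matrix.det_one]
    nlinarith [hcs]
  set A : Matrix (Fin (2 + p)) (Fin (2 + p)) ℝ :=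
    Matrix.reindex finSumFinEquiv finSumFinEquiv M with hA
  refine ⟨A, ?_, ?_⟩
  · rw [Matrix.mem_specialOrthogonalGroup_iff, Matrix.mem_orthogonalGroup_iff]
    refine ⟨?_, ?_⟩
    · have : A.transpose = Matrix.reindex finSumFinEquiv finSumFinEquiv M.transpose := by
        rw [hA, Matrix.transpose_reindex]
      rw [this, hA, Matrix.reindex_apply, Matrix.reindex_apply, Matrix.submatrix_mul_equiv, hMM,
        Matrix.submatrix_one_equiv]
    · rw [hA, Matrix.det_reindex_self, hdet]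
  · intro a b
    rw [hA, Matrix.reindex_apply, Matrix.submatrix_mulVec_equiv]
    funext i
    obtain ⟨k, rfl⟩ := finSumFinEquiv.surjective i
    simp only [Function.comp_apply, Equiv.symm_apply_apply, Equiv.symm_symm]
    have hv : ((fun i : Fin (2 + p) => if i.val = 0 then a else if i.val = 1 then b else 0) ∘
        finSumFinEquiv) = Sum.elim ![a, b] (0 : Fin p → ℝ) := by
      funext k
      rcases k with k | k
      · have hk : (finSumFinEquiv (Sum.inl k) : Fin (2 + p)).val = k.val := by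
          rw [finSumFinEquiv_apply_left]; rfl
        simp only [Function.comp_apply, hk]
        fin_cases k <;> simp
      · have hk : (finSumFinEquiv (Sum.inr k) : Fin (2 + p)).val = 2 + k.val := by
          rw [finSumFinEquiv_apply_right]; rfl
        have h0 : ¬ (finSumFinEquiv (Sum.inr k) : Fin (2 + p)).val = 0 := by omega
        have h1 : ¬ (finSumFinEquiv (Sum.inr k) : Fin (2 + p)).val = 1 := by omega
        simp only [Function.comp_apply, if_neg h0, if_neg h1]
        rfl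
    rw [hv, hM, Matrix.fromBlocks_mulVec]
    rcases k with k | k
    · have hk : (finSumFinEquiv (Sum.inl k) : Fin (2 + p)).val = k.val := by
        rw [finSumFinEquiv_apply_left]; rfl
      simp only [hk]
      fin_cases k <;> simp [hR] <;> ring
    · have hk : (finSumFinEquiv (Sum.inr k) : Fin (2 + p)).val = 2 + k.val := by
        rw [finSumFinEquiv_apply_right]; rfl
      have h0 : ¬ (finSumFinEquiv (Sum.inr k) : Fin (2 + p)).val = 0 := by omega
      have h1 : ¬ (finSumFinEquiv (Sum.inr k) : Fin (2 + p)).val = 1 := by omega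
      simp only [if_neg h0, if_neg h1]
      simp

theorem itemS1 (hS0 : claimS0) : claimS1 := by
  intro P Q hP hQ g hg hinv
  have hS := hS0 P Q hP hQ
  have hadd : ∀ x y : RP3.E, (emb (x + y) : E (Ix P Q)) = emb x + emb y := fun x y => (hS x y 0).1
  have hsmul : ∀ (t : ℝ) (x : RP3.E), (emb (t • x) : E (Ix P Q)) = t • emb x :=
    fun t x => (hS x x t).2.1
  have hneg : ∀ x : RP3.E, (emb (-x) : E (Ix P Q)) = -emb x := fun x => (hS x x 0).2.2.1
  have hinner : ∀ x y : RP3.E, inner ℝ (emb x : E (Ix P Q)) (emb y) = inner ℝ x y :=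
    fun x y => (hS x y 0).2.2.2.1
  have hnorm : ∀ x : RP3.E, ‖(emb x : E (Ix P Q))‖ = ‖x‖ := fun x => (hS x x 0).2.2.2.2.1
  have hcont : Continuous (emb : RP3.E → E (Ix P Q)) := (hS 0 0 0).2.2.2.2.2
  refine ⟨⟨?_, ?_, ?_, ?_, ?_, ?_⟩, ?_⟩
  · intro x v v' w
    show g (emb x) (emb (v + v')) (emb w) = _
    rw [hadd, hg.add]; rfl
  · intro x v w r
    show g (emb x) (emb (r • v)) (emb w) = _
    rw [hsmul, hg.smul]; rfl
  · intro x v w
    exact hg.symm _ _ _
  · intro v w
    refine (hg.cont (emb v) (emb w)).comp hcont.continuousOn ?_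
    intro x hx
    rw [mem_sphere_zero_iff_norm] at hx ⊢
    rw [hnorm, hx]
  · intro x v hx hxv hv
    apply hg.pos
    · rw [hnorm, hx]
    · rw [hinner, hxv]
    · intro h0
      apply hv
      rw [← norm_eq_zero, ← hnorm, h0, norm_zero]
  · intro x v w hx hxv hxw
    show g (emb (-x)) (emb v) (emb w) = _
    rw [hneg]
    exact hg.even _ _ _ (by rw [hnorm, hx]) (by rw [hinner, hxv]) (by rw [hinner, hxw])
  · intro θ φ x v w hx hxv hxw
    obtain ⟨p, rfl⟩ := Nat.exists_eq_add_of_le hP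
    obtain ⟨q, rfl⟩ := Nat.exists_eq_add_of_le hQ
    obtain ⟨A, hA, hA2⟩ := iS1_rot p θ
    obtain ⟨B, hB, hB2⟩ := iS1_rot q φ
    have key : ∀ y : RP3.E, (emb (RP3.rot θ φ y) : E (Ix (2 + p) (2 + q))) = blk A B (emb y) := by
      intro y
      unfold blk
      have h1 : blkC A B (emb y) = embC (RP3.rot θ φ y) := by
        funext k
        rcases k with i | j
        · show A.mulVec (fun i : Fin (2 + p) => if i.val = 0 then y 0 else if i.val = 1 then y 1
            else 0) i = _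
          rw [hA2]
          simp [embC, RP3.rot, RP3.rotC]
        · show B.mulVec (fun i : Fin (2 + q) => if i.val = 0 then y 2 else if i.val = 1 then y 3
            else 0) j = _
          rw [hB2]
          simp [embC, RP3.rot, RP3.rotC]
      rw [h1]
      rfl
    show g (emb (RP3.rot θ φ x)) (emb (RP3.rot θ φ v)) (emb (RP3.rot θ φ w))
      = g (emb x) (emb v) (emb w)
    rw [key, key, key]
    exact hinv A hA B hB _ _ _ (by rw [hnorm, hx]) (by rw [hinner, hxv]) (by rw [hinner, hxw])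

end Pool.Agent.Work.MP_02f065_gt.RPn

end
end
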