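import Pool.Agent.Work.MP_02f065_gt.RPn.Stmts
import Pool.Agent.Work.MP_02f065_gt.Bd.B01
import Pool.Agent.Work.MP_02f065_gt.Bd.B02
import Pool.Agent.Work.MP_02f065_gt.RPn.Stmts1
import Pool.Agent.Work.MP_02f065_gt.Bd.B03

/-! Bundle of small proof modules (one section per former module). -/

section

/-! Item S2: lengths of curves in the great 3-sphere. -/

open MeasureTheory Set Filter Topology

noncomputable section

namespace Pool.Agent.Work.MP_02f065_gt.RPn

theorem itemS2 (hS0 : claimS0) : claimS2 := by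
  intro P Q hP hQ g L _ hL x c hx hc
  have hS := hS0 P Q hP hQ
  let T : RP3.E →L[ℝ] E (Ix P Q) :=
    { toFun := emb
      map_add' := fun x y => (hS x y 0).1
      map_smul' := fun t x => (hS x x t).2.1
      cont := (hS 0 0 0).2.2.2.2.2 }
  have hnorm : ∀ x, ‖T x‖ = ‖x‖ := fun x => (hS x x 0).2.2.2.2.1
  have hTc : IsCurve (fun t => T (c t)) (T x) (-(T x)) :=
    ⟨T.contDiff.comp hc.smooth, fun t => by rw [hnorm]; exact hc.sphere t, by rw [hc.left],
      by rw [hc.right, map_neg]⟩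
  have hd : ∀ t, deriv (fun t => T (c t)) t = T (deriv c t) := fun t =>
    (T.hasFDerivAt.comp_hasDerivAt t
      (hc.smooth.differentiable (by norm_num) t).hasDerivAt).deriv
  have hl : length g (fun t => T (c t)) = RP3.length (res g) c := by
    unfold length RP3.length res
    refine intervalIntegral.integral_congr fun t _ => ?_
    show Real.sqrt (g (T (c t)) (deriv (fun t => T (c t)) t) (deriv (fun t => T (c t)) t)) = _
    rw [hd]
    rfl
  rw [← hl]
  exact hL _ _ (by rw [hnorm]; exact hx) hTc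

end Pool.Agent.Work.MP_02f065_gt.RPn

end
end

section

/-!
Item S3: no cross terms when one of the blocks has dimension at least three.
-/

open MeasureTheory Set Filter Topology

noncomputable section

namespace Pool.Agent.Work.MP_02f065_gt.RPn

theorem iS3_diag (n : ℕ) (hn : 3 ≤ n) : ∃ A ∈ SO n, ∀ u : Fin n → ℝ,
    A.mulVec u = fun i => if i.val = 1 ∨ i.val = 2 then -u i else u i := by
  set d : Fin n → ℝ := fun i => (if (⟨1, by omega⟩ : Fin n) = i then -1 else 1) *
    (if (⟨2, by omega⟩ : Fin n) = i then -1 else 1) with hd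
  have hsq : ∀ i, d i * d i = 1 := by
    intro i
    simp only [hd]
    split_ifs <;> norm_num
  have hval : ∀ i, d i = if i.val = 1 ∨ i.val = 2 then -1 else 1 := by
    intro i
    simp only [hd, Fin.ext_iff]
    by_cases h1 : 1 = i.val
    · rw [if_pos h1, if_neg (by omega), if_pos (Or.inl h1.symm)]; norm_num
    · by_cases h2 : 2 = i.val
      · rw [if_neg h1, if_pos h2, if_pos (Or.inr h2.symm)]; norm_num
      · rw [if_neg h1, if_neg h2, if_neg (by omega)]; norm_num
  refine ⟨Matrix.diagonal d, ?_, fun u => ?_⟩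
  · rw [Matrix.mem_specialOrthogonalGroup_iff]
    constructor
    · rw [Matrix.mem_orthogonalGroup_iff]
      rw [Matrix.diagonal_transpose, Matrix.diagonal_mul_diagonal]
      rw [← Matrix.diagonal_one]
      congr 1
      ext i
      simp [hsq]
    · rw [Matrix.det_diagonal]
      simp only [hd]
      rw [Finset.prod_mul_distrib, Finset.prod_ite_eq, Finset.prod_ite_eq]
      simp
  · ext i
    rw [Matrix.mulVec_diagonal, hval]
    split_ifs <;> ring

theorem iS3_zero {P Q : ℕ} {g : Field (Ix P Q)} (hg : IsMetric g) {x v w : E (Ix P Q)}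
    (h : g x v w = g x (-v) w) : g x v w = 0 := by
  have h1 := hg.smul x v w (-1)
  rw [neg_one_smul] at h1
  linarith

theorem itemS3 (hS0 : claimS0) (hS1 : claimS1) : claimS3 := by
  intro P Q hP hQ hPQ g hg hinv s
  have hrm : RP3.IsMetric (res g) := (hS1 P Q hP hQ g hg hinv).1
  have h0 : Toric.mG12 (rf g) s =
      g (emb (Toric.pt s)) (emb (Toric.X1 s)) (emb (Toric.X2 s)) := by
    unfold Toric.mG12 rf
    rw [RP3.toForm_apply hrm]
    rfl
  rw [h0]
  have hnorm : ‖(emb (Toric.pt s) : E (Ix P Q))‖ = 1 := by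
    rw [(hS0 P Q hP hQ (Toric.pt s) 0 0).2.2.2.2.1, EuclideanSpace.norm_eq, Fin.sum_univ_four]
    simp [Toric.pt]
  have hi1 : inner ℝ (emb (Toric.pt s) : E (Ix P Q)) (emb (Toric.X1 s)) = 0 := by
    rw [(hS0 P Q hP hQ (Toric.pt s) (Toric.X1 s) 0).2.2.2.1, PiLp.inner_apply, Fin.sum_univ_four]
    simp [Toric.pt, Toric.X1]
  have hi2 : inner ℝ (emb (Toric.pt s) : E (Ix P Q)) (emb (Toric.X2 s)) = 0 := by
    rw [(hS0 P Q hP hQ (Toric.pt s) (Toric.X2 s) 0).2.2.2.1, PiLp.inner_apply, Fin.sum_univ_four]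
    simp [Toric.pt, Toric.X2]
  rcases hPQ with hP3 | hQ3
  · obtain ⟨A, hA, hAu⟩ := iS3_diag P hP3
    have h1 := hinv A hA 1 (one_mem _) (emb (Toric.pt s)) (emb (Toric.X1 s)) (emb (Toric.X2 s))
      hnorm hi1 hi2
    have e1 : blk A (1 : Matrix (Fin Q) (Fin Q) ℝ) (emb (Toric.pt s)) = emb (Toric.pt s) := by
      unfold blk blkC
      rw [hAu, Matrix.one_mulVec]
      unfold emb
      congr 1
      ext i
      rcases i with i | j
      · simp only [Sum.elim_inl, embC]
        rcases Nat.lt_trichotomy i.val 1 with h | h | h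
        · have : i.val = 0 := by omega
          simp [this]
        · simp [h, Toric.pt]
        · have h0 : i.val ≠ 0 := by omega
          have h1 : i.val ≠ 1 := by omega
          simp [h0, h1]
      · simp only [Sum.elim_inr, embC]
    have e2 : blk A (1 : Matrix (Fin Q) (Fin Q) ℝ) (emb (Toric.X2 s)) = emb (Toric.X2 s) := by
      unfold blk blkC
      rw [hAu, Matrix.one_mulVec]
      unfold emb
      congr 1
      ext i
      rcases i with i | j
      · simp only [Sum.elim_inl, embC]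
        rcases Nat.lt_trichotomy i.val 1 with h | h | h
        · have : i.val = 0 := by omega
          simp [this]
        · simp [h, Toric.X2]
        · have h0 : i.val ≠ 0 := by omega
          have h1 : i.val ≠ 1 := by omega
          simp [h0, h1]
      · simp only [Sum.elim_inr, embC]
    have e3 : blk A (1 : Matrix (Fin Q) (Fin Q) ℝ) (emb (Toric.X1 s)) = -emb (Toric.X1 s) := by
      unfold blk blkC
      rw [hAu, Matrix.one_mulVec]
      ext i
      rcases i with i | j
      · simp only [Sum.elim_inl, embC, emb, PiLp.neg_apply]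
        rcases Nat.lt_trichotomy i.val 1 with h | h | h
        · have : i.val = 0 := by omega
          simp [this, Toric.X1]
        · simp [h]
        · have h0 : i.val ≠ 0 := by omega
          have h1 : i.val ≠ 1 := by omega
          simp [h0, h1]
      · simp only [Sum.elim_inr, embC, emb, PiLp.neg_apply]
        simp [Toric.X1]
    rw [e1, e2, e3] at h1
    exact iS3_zero hg h1.symm
  · obtain ⟨B, hB, hBu⟩ := iS3_diag Q hQ3
    have h1 := hinv 1 (one_mem _) B hB (emb (Toric.pt s)) (emb (Toric.X1 s)) (emb (Toric.X2 s))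
      hnorm hi1 hi2
    have e1 : blk (1 : Matrix (Fin P) (Fin P) ℝ) B (emb (Toric.pt s)) = emb (Toric.pt s) := by
      unfold blk blkC
      rw [hBu, Matrix.one_mulVec]
      unfold emb
      congr 1
      ext i
      rcases i with j | i
      · simp only [Sum.elim_inl, embC]
      · simp only [Sum.elim_inr, embC]
        rcases Nat.lt_trichotomy i.val 1 with h | h | h
        · have : i.val = 0 := by omega
          simp [this]
        · simp [h, Toric.pt]
        · have h0 : i.val ≠ 0 := by omega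
          have h1 : i.val ≠ 1 := by omega
          simp [h0, h1]
    have e2 : blk (1 : Matrix (Fin P) (Fin P) ℝ) B (emb (Toric.X1 s)) = emb (Toric.X1 s) := by
      unfold blk blkC
      rw [hBu, Matrix.one_mulVec]
      unfold emb
      congr 1
      ext i
      rcases i with j | i
      · simp only [Sum.elim_inl, embC]
      · simp only [Sum.elim_inr, embC]
        rcases Nat.lt_trichotomy i.val 1 with h | h | h
        · have : i.val = 0 := by omega
          simp [this]
        · simp [h, Toric.X1]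
        · have h0 : i.val ≠ 0 := by omega
          have h1 : i.val ≠ 1 := by omega
          simp [h0, h1]
    have e3 : blk (1 : Matrix (Fin P) (Fin P) ℝ) B (emb (Toric.X2 s)) = -emb (Toric.X2 s) := by
      unfold blk blkC
      rw [hBu, Matrix.one_mulVec]
      ext i
      rcases i with j | i
      · simp only [Sum.elim_inl, embC, emb, PiLp.neg_apply]
        simp [Toric.X2]
      · simp only [Sum.elim_inr, embC, emb, PiLp.neg_apply]
        rcases Nat.lt_trichotomy i.val 1 with h | h | h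
        · have : i.val = 0 := by omega
          simp [this, Toric.X2]
        · simp [h]
        · have h0 : i.val ≠ 0 := by omega
          have h1 : i.val ≠ 1 := by omega
          simp [h0, h1]
    rw [e1, e2, e3] at h1
    have h2 := hg.symm (emb (Toric.pt s)) (emb (Toric.X1 s)) (emb (Toric.X2 s))
    rw [h2]
    refine iS3_zero hg ?_
    rw [← h2, ← h1, hg.symm]

end Pool.Agent.Work.MP_02f065_gt.RPn

end
end

section

set_option autoImplicit false

/-!
# Item S4: boundedness of G11 and G22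
-/

open MeasureTheory Set

noncomputable section

namespace Pool.Agent.Work.MP_02f065_gt.RPn

theorem iS4_norm_pt (s : ℝ) : ‖Toric.pt s‖ = 1 := by
  rw [EuclideanSpace.norm_eq, Fin.sum_univ_four]
  have h := Real.cos_sq_add_sin_sq s
  simp [Toric.pt, h]

theorem iS4_X1 (s : ℝ) : ‖Toric.X1 s‖ ^ 2 ≤ 1 := by
  rw [EuclideanSpace.norm_sq_eq, Fin.sum_univ_four]
  simp [Toric.X1, Real.abs_cos_le_one]

theorem iS4_X2 (s : ℝ) : ‖Toric.X2 s‖ ^ 2 ≤ 1 := by
  rw [EuclideanSpace.norm_sq_eq, Fin.sum_univ_four]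
  simp [Toric.X2, Real.abs_sin_le_one]

theorem iS4_inner1 (s : ℝ) : inner ℝ (Toric.pt s) (Toric.X1 s) = 0 := by
  rw [PiLp.inner_apply, Fin.sum_univ_four]
  simp [Toric.pt, Toric.X1]

theorem iS4_inner2 (s : ℝ) : inner ℝ (Toric.pt s) (Toric.X2 s) = 0 := by
  rw [PiLp.inner_apply, Fin.sum_univ_four]
  simp [Toric.pt, Toric.X2]

/-- S4: boundedness of G11 and G22. -/
theorem itemS4 : claimS4 := by
  intro f hf
  obtain ⟨m, M, hm, hM, h⟩ := Toric.itemA1 f hf
  refine ⟨M ^ 2, by positivity, fun s => ⟨?_, ?_⟩⟩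
  · refine (h (Toric.pt s) (Toric.X1 s) (iS4_norm_pt s) (iS4_inner1 s)).2.trans ?_
    exact mul_le_of_le_one_right (by positivity) (iS4_X1 s)
  · refine (h (Toric.pt s) (Toric.X2 s) (iS4_norm_pt s) (iS4_inner2 s)).2.trans ?_
    exact mul_le_of_le_one_right (by positivity) (iS4_X2 s)

end Pool.Agent.Work.MP_02f065_gt.RPn

end
end

section

/-!
MP_02f065_gt: item V1, integration of invariant functions over the sphere.
-/

open MeasureTheory Set Filter Topology

noncomputable section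

namespace Pool.Agent.Work.MP_02f065_gt.RPn

theorem iV1_pt_cont : Continuous Toric.pt := by
  unfold Toric.pt
  fun_prop

theorem iV1_pt_norm (s : ℝ) : ‖Toric.pt s‖ = 1 := by
  rw [Toric.pt, EuclideanSpace.norm_eq]
  simp [Fin.sum_univ_four]

theorem iV1_null {P Q : ℕ} (hP : 2 ≤ P) : ∀ᵐ x : E (Ix P Q), 0 < n1 x := by
  have h0 : (0 : ℕ) < P := by omega
  set f : E (Ix P Q) →ₗ[ℝ] ℝ := (EuclideanSpace.proj (Sum.inl ⟨0, h0⟩ : Ix P Q) :
    E (Ix P Q) →L[ℝ] ℝ).toLinearMap with hf
  have hne : LinearMap.ker f ≠ ⊤ := by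
    intro h
    have h1 : (EuclideanSpace.single (Sum.inl ⟨0, h0⟩ : Ix P Q) (1 : ℝ)) ∈ LinearMap.ker f := by
      rw [h]; trivial
    rw [LinearMap.mem_ker] at h1
    simp [hf] at h1
  have hz := Measure.addHaar_submodule (volume : Measure (E (Ix P Q))) (LinearMap.ker f) hne
  rw [ae_iff]
  refine measure_mono_null ?_ hz
  intro x hx
  have h1 : n1 x = 0 := le_antisymm (not_lt.mp hx) (Real.sqrt_nonneg _)
  rw [n1, Real.sqrt_eq_zero (Finset.sum_nonneg fun i _ => sq_nonneg _),
    Finset.sum_eq_zero_iff_of_nonneg (fun i _ => sq_nonneg _)] at h1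
  have h2 := h1 ⟨0, h0⟩ (Finset.mem_univ _)
  change f x = 0
  simpa [hf] using h2

theorem itemV1 (ha : claimV1a) (hb : claimV1b) (hc : claimV1c) (hd : claimV1d)
    (_ : claimR) (hS : claimS0) : claimV1 := by
  intro P Q hP hQ
  have : Nonempty (Ix P Q) := ⟨Sum.inl ⟨0, by omega⟩⟩
  obtain ⟨κa, ha0, ha1⟩ := ha (Ix P Q)
  obtain ⟨κb, hb0, hb1⟩ := hb P Q (by omega) (by omega)
  obtain ⟨κc, hc0, hc1⟩ := hc (P - 1) (Q - 1)
  refine ⟨κb * κc / κa, by positivity, fun F hF hinv => ?_⟩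
  have hemb : Continuous (emb : RP3.E → E (Ix P Q)) := (hS P Q hP hQ 0 0 0).2.2.2.2.2
  have hnorm : ∀ s, ‖(emb (Toric.pt s) : E (Ix P Q))‖ = 1 := by
    intro s
    rw [(hS P Q hP hQ (Toric.pt s) 0 0).2.2.2.2.1]
    exact iV1_pt_norm s
  have hΦ : ContinuousOn (fun s => F (emb (Toric.pt s))) (Icc 0 (Real.pi / 2)) := by
    refine hF.comp (hemb.comp iV1_pt_cont).continuousOn ?_
    intro s _
    rw [mem_sphere_zero_iff_norm]
    exact hnorm s
  have h1 := ha1 F hF
  have h2 := hb1 _ hΦ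
  have h3 := hc1 _ hΦ
  have h4 : ∫ x : E (Ix P Q), F (‖x‖⁻¹ • x) * Real.exp (-‖x‖ ^ 2) =
      ∫ x : E (Ix P Q), F (emb (Toric.pt (Real.arctan (n2 x / n1 x)))) *
        Real.exp (-‖x‖ ^ 2) := by
    refine integral_congr_ae ?_
    filter_upwards [iV1_null (Q := Q) hP] with x hx
    congr 1
    obtain ⟨A, hA, B, hB, hAB⟩ := hd P Q hP hQ x hx
    have hx0 : x ≠ 0 := by
      rintro rfl
      simp [n1] at hx
    rw [← hAB, hinv A hA B hB]
    rw [norm_smul, norm_inv, norm_norm, inv_mul_cancel₀ (norm_ne_zero_iff.mpr hx0)]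
  rw [h4, h2, h3] at h1
  rw [div_mul_eq_mul_div, eq_div_iff ha0.ne', mul_comm, ← h1]
  ring

end Pool.Agent.Work.MP_02f065_gt.RPn

end
end

section

/-!
MP_02f065_gt, item V1a: Gaussian integral in spherical coordinates, general index type.
-/

open MeasureTheory Set Filter Topology

noncomputable section

namespace Pool.Agent.Work.MP_02f065_gt.RPn

theorem iV1a_radial (k : ℕ) : ∫ y in Ioi (0 : ℝ), y ^ k * Real.exp (-y ^ 2) =
    (1 / 2) * Real.Gamma (((k : ℝ) + 1) / 2) := by
  have h := integral_rpow_mul_exp_neg_rpow (p := 2) (q := k) (by norm_num)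
    (by have : (0 : ℝ) ≤ k := Nat.cast_nonneg k
        linarith)
  rw [← h]
  refine setIntegral_congr_fun measurableSet_Ioi fun x hx => ?_
  have e3 : x ^ (k : ℝ) = x ^ k := Real.rpow_natCast x k
  have e2 : x ^ (2 : ℝ) = x ^ 2 := by
    rw [show (2 : ℝ) = ((2 : ℕ) : ℝ) by norm_num, Real.rpow_natCast]
  simp only [e3, e2]

theorem iV1a_radial_pos (k : ℕ) : 0 < ∫ y in Ioi (0 : ℝ), y ^ k * Real.exp (-y ^ 2) := by
  rw [iV1a_radial]
  have : 0 < Real.Gamma (((k : ℝ) + 1) / 2) := Real.Gamma_pos_of_pos (by positivity)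
  linarith

theorem iV1a_radial' (k : ℕ) :
    ∫ r : Ioi (0 : ℝ), Real.exp (-(r : ℝ) ^ 2) ∂(Measure.volumeIoiPow k) =
      ∫ y in Ioi (0 : ℝ), y ^ k * Real.exp (-y ^ 2) := by
  simp only [Measure.volumeIoiPow, ENNReal.ofReal]
  rw [integral_withDensity_eq_integral_smul,
    integral_subtype_comap measurableSet_Ioi fun a : ℝ => Real.toNNReal (a ^ k) • Real.exp (-a ^ 2)]
  · refine setIntegral_congr_fun measurableSet_Ioi fun x hx => ?_
    rw [NNReal.smul_def, Real.coe_toNNReal _ (pow_nonneg (le_of_lt hx) _), smul_eq_mul]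
  · exact (measurable_subtype_coe.pow_const _).real_toNNReal

theorem itemV1a : claimV1a := by
  intro ι _ _
  refine ⟨∫ y in Ioi (0 : ℝ), y ^ (Module.finrank ℝ (E ι) - 1) * Real.exp (-y ^ 2),
    iV1a_radial_pos _, ?_⟩
  intro F hF
  calc ∫ x : E ι, F (‖x‖⁻¹ • x) * Real.exp (-‖x‖ ^ 2)
      = ∫ x : ({(0 : E ι)}ᶜ : Set (E ι)), F (‖(x : E ι)‖⁻¹ • (x : E ι)) *
          Real.exp (-‖(x : E ι)‖ ^ 2) ∂((volume : Measure (E ι)).comap (↑)) := by
        rw [integral_subtype_comap (measurableSet_singleton _).compl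
          fun x : E ι => F (‖x‖⁻¹ • x) * Real.exp (-‖x‖ ^ 2), restrict_compl_singleton]
    _ = ∫ z, F (z.1 : E ι) * Real.exp (-(z.2 : ℝ) ^ 2)
          ∂((volume : Measure (E ι)).toSphere.prod
            (Measure.volumeIoiPow (Module.finrank ℝ (E ι) - 1))) := by
        have := (volume : Measure (E ι)).measurePreserving_homeomorphUnitSphereProd.integral_comp
          (Homeomorph.measurableEmbedding _)
          (fun z : Metric.sphere (0 : E ι) 1 × Ioi (0 : ℝ) =>
            F (z.1 : E ι) * Real.exp (-(z.2 : ℝ) ^ 2))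
        rw [← this]
        simp
    _ = (∫ x : Metric.sphere (0 : E ι) 1, F x ∂((volume : Measure (E ι)).toSphere)) *
          ∫ r : Ioi (0 : ℝ), Real.exp (-(r : ℝ) ^ 2)
            ∂(Measure.volumeIoiPow (Module.finrank ℝ (E ι) - 1)) :=
        integral_prod_mul (fun x : Metric.sphere (0 : E ι) 1 => F (x : E ι))
          (fun r : Ioi (0 : ℝ) => Real.exp (-(r : ℝ) ^ 2))
    _ = _ := by
        rw [iV1a_radial']
        ring

end Pool.Agent.Work.MP_02f065_gt.RPn

end
end

section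

/-!
MP_02f065_gt, item V1b: Gaussian integral of a function of the two block norms.
-/

open MeasureTheory Set Filter Topology

noncomputable section

namespace Pool.Agent.Work.MP_02f065_gt.RPn

/-- The two blocks of coordinates. -/
theorem iV1b_e (P Q : ℕ) : ∃ e : E (Fin P) × E (Fin Q) ≃ᵐ E (Ix P Q), MeasurePreserving e ∧
    ∀ u, n1 (e u) = ‖u.1‖ ∧ n2 (e u) = ‖u.2‖ ∧ ‖e u‖ ^ 2 = ‖u.1‖ ^ 2 + ‖u.2‖ ^ 2 := by
  let e1 : E (Fin P) × E (Fin Q) ≃ᵐ (Fin P → ℝ) × (Fin Q → ℝ) :=
    MeasurableEquiv.prodCongr (MeasurableEquiv.toLp 2 (Fin P → ℝ)).symm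
      (MeasurableEquiv.toLp 2 (Fin Q → ℝ)).symm
  let e2 : (Fin P → ℝ) × (Fin Q → ℝ) ≃ᵐ (Fin P ⊕ Fin Q → ℝ) :=
    (MeasurableEquiv.sumPiEquivProdPi (fun _ : Fin P ⊕ Fin Q => ℝ)).symm
  let e3 : (Fin P ⊕ Fin Q → ℝ) ≃ᵐ E (Ix P Q) := MeasurableEquiv.toLp 2 (Fin P ⊕ Fin Q → ℝ)
  have h1 : MeasurePreserving e1 :=
    (EuclideanSpace.volume_preserving_symm_measurableEquiv_toLp (Fin P)).prod
      (EuclideanSpace.volume_preserving_symm_measurableEquiv_toLp (Fin Q))
  have h2 : MeasurePreserving e2 :=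
    (volume_measurePreserving_sumPiEquivProdPi (fun _ : Fin P ⊕ Fin Q => ℝ)).symm
  have h3 : MeasurePreserving e3 :=
    (EuclideanSpace.volume_preserving_symm_measurableEquiv_toLp (Fin P ⊕ Fin Q)).symm
  refine ⟨(e1.trans e2).trans e3, (h1.trans h2).trans h3, fun u => ⟨?_, ?_, ?_⟩⟩
  · rw [EuclideanSpace.norm_eq]
    unfold n1
    congr 1
    refine Finset.sum_congr rfl fun i _ => ?_
    rw [Real.norm_eq_abs, sq_abs]
    rfl
  · rw [EuclideanSpace.norm_eq]
    unfold n2
    congr 1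
    refine Finset.sum_congr rfl fun i _ => ?_
    rw [Real.norm_eq_abs, sq_abs]
    rfl
  · rw [EuclideanSpace.norm_sq_eq, EuclideanSpace.norm_sq_eq, EuclideanSpace.norm_sq_eq,
      Fintype.sum_sum_type]
    rfl

theorem iV1b_radial_int (k : ℕ) :
    IntegrableOn (fun r : ℝ => r ^ k * Real.exp (-r ^ 2)) (Ioi 0) := by
  have h := integrableOn_rpow_mul_exp_neg_rpow (p := 2) (s := k)
    (by have : (0 : ℝ) ≤ k := Nat.cast_nonneg k
        linarith) (by norm_num)
  refine h.congr_fun (fun x _ => ?_) measurableSet_Ioi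
  have e3 : x ^ (k : ℝ) = x ^ k := Real.rpow_natCast x k
  have e2 : x ^ (2 : ℝ) = x ^ 2 := by
    rw [show (2 : ℝ) = ((2 : ℕ) : ℝ) by norm_num, Real.rpow_natCast]
  simp only [e3, e2]

theorem iV1b_gauss (ι : Type) [Fintype ι] :
    Integrable (fun x : E ι => Real.exp (-‖x‖ ^ 2)) := by
  have h := GaussianFourier.integrable_cexp_neg_mul_sq_norm_add (V := E ι) (b := 1)
    (by simp) 0 0
  have h2 := h.re
  refine h2.congr (Eventually.of_forall fun x => ?_)
  simp only [neg_mul, one_mul, zero_mul, add_zero]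
  rw [← Complex.ofReal_pow, ← Complex.ofReal_neg, ← Complex.ofReal_exp]
  rfl

/-- the main computation for measurable bounded functions -/
theorem iV1b_main (P Q : ℕ) (hP : 1 ≤ P) (hQ : 1 ≤ Q) (Φ : ℝ → ℝ) (hΦ : Measurable Φ) (C : ℝ)
    (hC : ∀ x, |Φ x| ≤ C) :
    ∫ x : E (Ix P Q), Φ (Real.arctan (n2 x / n1 x)) * Real.exp (-‖x‖ ^ 2) =
    (P * (volume : Measure (E (Fin P))).real (Metric.ball 0 1)) *
      (Q * (volume : Measure (E (Fin Q))).real (Metric.ball 0 1)) *
      ∫ z in (Ioi (0 : ℝ) ×ˢ Ioi (0 : ℝ)), Φ (Real.arctan (z.2 / z.1)) *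
        (z.1 ^ (P - 1) * z.2 ^ (Q - 1) * Real.exp (-(z.1 ^ 2 + z.2 ^ 2))) := by
  have : Nonempty (Fin P) := ⟨⟨0, by omega⟩⟩
  have : Nonempty (Fin Q) := ⟨⟨0, by omega⟩⟩
  obtain ⟨e, he, heq⟩ := iV1b_e P Q
  set h : E (Ix P Q) → ℝ := fun x => Φ (Real.arctan (n2 x / n1 x)) * Real.exp (-‖x‖ ^ 2) with hh
  have hval : ∀ u, h (e u) = Φ (Real.arctan (‖u.2‖ / ‖u.1‖)) *
      (Real.exp (-‖u.1‖ ^ 2) * Real.exp (-‖u.2‖ ^ 2)) := by
    intro u
    obtain ⟨a1, a2, a3⟩ := heq u
    simp only [hh]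
    rw [a1, a2, a3, ← Real.exp_add]
    congr 2
    ring
  have h1 : ∫ x, h x = ∫ u, h (e u) := (he.integral_comp' h).symm
  have hm : Measurable (fun u : E (Fin P) × E (Fin Q) => Φ (Real.arctan (‖u.2‖ / ‖u.1‖)) *
      (Real.exp (-‖u.1‖ ^ 2) * Real.exp (-‖u.2‖ ^ 2))) := by
    have m1 : Measurable fun u : E (Fin P) × E (Fin Q) => ‖u.1‖ := measurable_fst.norm
    have m2 : Measurable fun u : E (Fin P) × E (Fin Q) => ‖u.2‖ := measurable_snd.norm
    exact (hΦ.comp (Real.measurable_arctan.comp (m2.div m1))).mul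
      ((Real.measurable_exp.comp (m1.pow_const 2).neg).mul
        (Real.measurable_exp.comp (m2.pow_const 2).neg))
  have hint : Integrable (fun u => h (e u)) := by
    have g := (iV1b_gauss (Fin P)).mul_prod (iV1b_gauss (Fin Q))
    refine Integrable.mono' (g.const_mul C) ?_ (Eventually.of_forall fun u => ?_)
    · have hfe : (fun u => h (e u)) = fun u : E (Fin P) × E (Fin Q) =>
          Φ (Real.arctan (‖u.2‖ / ‖u.1‖)) *
            (Real.exp (-‖u.1‖ ^ 2) * Real.exp (-‖u.2‖ ^ 2)) := funext hval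
      rw [hfe]
      exact hm.aestronglyMeasurable
    · rw [hval u, Real.norm_eq_abs, abs_mul, abs_mul, abs_of_pos (Real.exp_pos _),
        abs_of_pos (Real.exp_pos _)]
      exact mul_le_mul_of_nonneg_right (hC _) (by positivity)
  have h2 : ∫ u, h (e u) = ∫ a : E (Fin P), ∫ b : E (Fin Q), h (e (a, b)) :=
    integral_prod _ hint
  set k : ℝ → ℝ → ℝ := fun r y => Φ (Real.arctan (y / r)) *
    (Real.exp (-r ^ 2) * Real.exp (-y ^ 2)) with hk
  have h3 : ∀ a : E (Fin P), ∫ b : E (Fin Q), h (e (a, b)) =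
      (Q * (volume : Measure (E (Fin Q))).real (Metric.ball 0 1)) *
        ∫ y in Ioi (0 : ℝ), y ^ (Q - 1) * k ‖a‖ y := by
    intro a
    have := integral_fun_norm_addHaar (volume : Measure (E (Fin Q))) (k ‖a‖)
    have hfin : Module.finrank ℝ (E (Fin Q)) = Q := by simp
    rw [hfin] at this
    simp only [smul_eq_mul, nsmul_eq_mul] at this
    simp_rw [hval]
    rw [← mul_assoc] at this
    exact this
  have h4 : ∫ a : E (Fin P), ∫ y in Ioi (0 : ℝ), y ^ (Q - 1) * k ‖a‖ y =
      (P * (volume : Measure (E (Fin P))).real (Metric.ball 0 1)) *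
        ∫ r in Ioi (0 : ℝ), r ^ (P - 1) * ∫ y in Ioi (0 : ℝ), y ^ (Q - 1) * k r y := by
    have := integral_fun_norm_addHaar (volume : Measure (E (Fin P)))
      (fun r => ∫ y in Ioi (0 : ℝ), y ^ (Q - 1) * k r y)
    have hfin : Module.finrank ℝ (E (Fin P)) = P := by simp
    rw [hfin] at this
    simp only [smul_eq_mul, nsmul_eq_mul] at this
    rw [← mul_assoc] at this
    exact this
  -- the quadrant
  set w : ℝ × ℝ → ℝ := fun z => Φ (Real.arctan (z.2 / z.1)) *
        (z.1 ^ (P - 1) * z.2 ^ (Q - 1) * Real.exp (-(z.1 ^ 2 + z.2 ^ 2))) with hw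
  have hwm : Measurable w := by
    exact (hΦ.comp (Real.measurable_arctan.comp (measurable_snd.div measurable_fst))).mul
      (((measurable_fst.pow_const _).mul (measurable_snd.pow_const _)).mul
        (Real.measurable_exp.comp
          ((measurable_fst.pow_const 2).add (measurable_snd.pow_const 2)).neg))
  have hwi : IntegrableOn w (Ioi (0 : ℝ) ×ˢ Ioi (0 : ℝ)) := by
    have g := Integrable.mul_prod (μ := volume.restrict (Ioi (0 : ℝ)))
      (ν := volume.restrict (Ioi (0 : ℝ))) (iV1b_radial_int (P - 1)) (iV1b_radial_int (Q - 1))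
    rw [Measure.prod_restrict] at g
    refine Integrable.mono' (g.const_mul C) hwm.aestronglyMeasurable ?_
    refine (ae_restrict_iff' (measurableSet_Ioi.prod measurableSet_Ioi)).mpr
      (Eventually.of_forall fun z hz => ?_)
    have hz1 : 0 < z.1 := hz.1
    have hz2 : 0 < z.2 := hz.2
    have hx : Real.exp (-(z.1 ^ 2 + z.2 ^ 2)) = Real.exp (-z.1 ^ 2) * Real.exp (-z.2 ^ 2) := by
      rw [← Real.exp_add]
      congr 1
      ring
    simp only [hw]
    rw [Real.norm_eq_abs, abs_mul, abs_of_pos (a := z.1 ^ (P - 1) * z.2 ^ (Q - 1) *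
      Real.exp (-(z.1 ^ 2 + z.2 ^ 2))) (by positivity), hx]
    calc |Φ (Real.arctan (z.2 / z.1))| * (z.1 ^ (P - 1) * z.2 ^ (Q - 1) *
          (Real.exp (-z.1 ^ 2) * Real.exp (-z.2 ^ 2))) ≤
          C * (z.1 ^ (P - 1) * z.2 ^ (Q - 1) *
          (Real.exp (-z.1 ^ 2) * Real.exp (-z.2 ^ 2))) :=
          mul_le_mul_of_nonneg_right (hC _) (by positivity)
      _ = _ := by ring
  have h5 : ∫ z in (Ioi (0 : ℝ) ×ˢ Ioi (0 : ℝ)), w z =
      ∫ r in Ioi (0 : ℝ), r ^ (P - 1) * ∫ y in Ioi (0 : ℝ), y ^ (Q - 1) * k r y := by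
    rw [Measure.volume_eq_prod] at hwi ⊢
    rw [setIntegral_prod _ hwi]
    refine setIntegral_congr_fun measurableSet_Ioi fun r _ => ?_
    rw [← integral_const_mul]
    refine setIntegral_congr_fun measurableSet_Ioi fun y _ => ?_
    simp only [hw, hk]
    rw [show -(r ^ 2 + y ^ 2) = -r ^ 2 + -y ^ 2 by ring, Real.exp_add]
    ring
  calc ∫ x, h x = ∫ a : E (Fin P), ∫ b : E (Fin Q), h (e (a, b)) := h1.trans h2
    _ = _ := by
      simp_rw [h3]
      rw [integral_const_mul, h4, ← h5]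
      ring

theorem itemV1b : claimV1b := by
  intro P Q hP hQ
  refine ⟨(P * (volume : Measure (E (Fin P))).real (Metric.ball 0 1)) *
      (Q * (volume : Measure (E (Fin Q))).real (Metric.ball 0 1)), ?_, ?_⟩
  · have b1 : 0 < (volume : Measure (E (Fin P))).real (Metric.ball 0 1) :=
      ENNReal.toReal_pos (Metric.measure_ball_pos _ _ one_pos).ne' measure_ball_lt_top.ne
    have b2 : 0 < (volume : Measure (E (Fin Q))).real (Metric.ball 0 1) :=
      ENNReal.toReal_pos (Metric.measure_ball_pos _ _ one_pos).ne' measure_ball_lt_top.ne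
    have c1 : (0 : ℝ) < P := by exact_mod_cast (by omega : 0 < P)
    have c2 : (0 : ℝ) < Q := by exact_mod_cast (by omega : 0 < Q)
    positivity
  · intro Φ hΦ
    have hpi : (0 : ℝ) ≤ Real.pi / 2 := by positivity
    set Ψ : ℝ → ℝ := IccExtend hpi ((Icc 0 (Real.pi / 2)).domRestrict Φ) with hΨ
    have hΨc : Continuous Ψ := (continuousOn_iff_continuous_domRestrict.1 hΦ).Icc_extend'
    have hΨe : ∀ t ∈ Icc 0 (Real.pi / 2), Ψ t = Φ t := fun t ht => by
      rw [hΨ, IccExtend_of_mem _ _ ht]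
      rfl
    obtain ⟨C, hC⟩ := (isCompact_Icc (a := (0 : ℝ)) (b := Real.pi / 2)).exists_bound_of_continuousOn
      hΦ
    have hΨb : ∀ t, |Ψ t| ≤ C := by
      intro t
      have := hC (projIcc 0 (Real.pi / 2) hpi t) (projIcc 0 (Real.pi / 2) hpi t).2
      exact this
    have hmain := iV1b_main P Q hP hQ Ψ hΨc.measurable C hΨb
    have ha : ∀ a b : ℝ, 0 ≤ a → 0 ≤ b → Real.arctan (b / a) ∈ Icc 0 (Real.pi / 2) := by
      intro a b ha hb
      exact ⟨Real.arctan_nonneg.2 (by positivity), (Real.arctan_lt_pi_div_two _).le⟩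
    have e1 : ∀ x : E (Ix P Q), Ψ (Real.arctan (n2 x / n1 x)) = Φ (Real.arctan (n2 x / n1 x)) :=
      fun x => hΨe _ (ha _ _ (Real.sqrt_nonneg _) (Real.sqrt_nonneg _))
    simp_rw [e1] at hmain
    rw [hmain]
    congr 1
    refine setIntegral_congr_fun (measurableSet_Ioi.prod measurableSet_Ioi) fun z hz => ?_
    rw [hΨe _ (ha _ _ (le_of_lt hz.1) (le_of_lt hz.2))]

end Pool.Agent.Work.MP_02f065_gt.RPn

end
end

section

/-!
MP_02f065_gt, item V1c: polar coordinates in the quadrant with weights.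
-/

open MeasureTheory Set Filter Topology

noncomputable section

namespace Pool.Agent.Work.MP_02f065_gt.RPn

theorem iV1c_radial_pos (k : ℕ) : 0 < ∫ y in Ioi (0 : ℝ), y ^ k * Real.exp (-y ^ 2) := by
  have h := integral_rpow_mul_exp_neg_rpow (p := 2) (q := k) (by norm_num)
    (by have : (0 : ℝ) ≤ k := Nat.cast_nonneg k
        linarith)
  have h2 : ∫ y in Ioi (0 : ℝ), y ^ k * Real.exp (-y ^ 2) =
      ∫ x in Ioi (0 : ℝ), x ^ (k : ℝ) * Real.exp (-x ^ (2 : ℝ)) := by
    refine setIntegral_congr_fun measurableSet_Ioi fun x hx => ?_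
    have e3 : x ^ (k : ℝ) = x ^ k := Real.rpow_natCast x k
    have e2 : x ^ (2 : ℝ) = x ^ 2 := by
      rw [show (2 : ℝ) = ((2 : ℕ) : ℝ) by norm_num, Real.rpow_natCast]
    simp only [e3, e2]
  rw [h2, h]
  have : 0 < Real.Gamma (((k : ℝ) + 1) / 2) := Real.Gamma_pos_of_pos (by positivity)
  linarith

theorem iV1c_mem {r s : ℝ} (hr : 0 < r) (hs : s ∈ Ioo (-Real.pi) Real.pi) :
    (r * Real.cos s, r * Real.sin s) ∈ (Ioi (0 : ℝ) ×ˢ Ioi (0 : ℝ)) ↔
      s ∈ Ioo 0 (Real.pi / 2) := by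
  rw [Set.mem_prod, Set.mem_Ioi, Set.mem_Ioi, mul_pos_iff_of_pos_left hr,
    mul_pos_iff_of_pos_left hr]
  constructor
  · rintro ⟨hc, hsn⟩
    have h0 : 0 < s := by
      by_contra hcon
      push Not at hcon
      have := Real.sin_nonpos_of_nonpos_of_neg_pi_le hcon hs.1.le
      linarith
    refine ⟨h0, ?_⟩
    by_contra hcon
    push Not at hcon
    have := Real.cos_nonpos_of_pi_div_two_le_of_le hcon (by linarith [hs.2, Real.pi_pos])
    linarith
  · rintro ⟨h0, h1⟩
    exact ⟨Real.cos_pos_of_mem_Ioo ⟨by linarith [Real.pi_pos], h1⟩,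
      Real.sin_pos_of_pos_of_lt_pi h0 (by linarith [Real.pi_pos])⟩

theorem itemV1c : claimV1c := by
  intro m k
  refine ⟨∫ r in Ioi (0 : ℝ), r ^ (m + k + 1) * Real.exp (-r ^ 2), iV1c_radial_pos _, ?_⟩
  intro Φ _
  set h : ℝ × ℝ → ℝ := fun z =>
    Φ (Real.arctan (z.2 / z.1)) * (z.1 ^ m * z.2 ^ k * Real.exp (-(z.1 ^ 2 + z.2 ^ 2))) with hh
  have hmQ : MeasurableSet (Ioi (0 : ℝ) ×ˢ Ioi (0 : ℝ)) := measurableSet_Ioi.prod measurableSet_Ioi
  have e1 : ∫ z in (Ioi (0 : ℝ) ×ˢ Ioi (0 : ℝ)), h z =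
      ∫ p in polarCoord.target,
        p.1 • (Ioi (0 : ℝ) ×ˢ Ioi (0 : ℝ)).indicator h (polarCoord.symm p) := by
    rw [integral_comp_polarCoord_symm, integral_indicator hmQ]
  have e2 : ∫ p in polarCoord.target,
        p.1 • (Ioi (0 : ℝ) ×ˢ Ioi (0 : ℝ)).indicator h (polarCoord.symm p) =
      ∫ p in (Ioi (0 : ℝ) ×ˢ Ioo (-Real.pi) Real.pi), (p.1 ^ (m + k + 1) * Real.exp (-p.1 ^ 2)) *
        (Ioo 0 (Real.pi / 2)).indicator
          (fun s => Φ s * (Real.cos s ^ m * Real.sin s ^ k)) p.2 := by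
    rw [polarCoord_target]
    refine setIntegral_congr_fun (measurableSet_Ioi.prod measurableSet_Ioo) ?_
    rintro ⟨r, s⟩ ⟨hr, hs⟩
    simp only [Set.mem_Ioi] at hr
    simp only [polarCoord_symm_apply, smul_eq_mul]
    by_cases hin : s ∈ Ioo 0 (Real.pi / 2)
    · rw [indicator_of_mem ((iV1c_mem hr hs).2 hin), indicator_of_mem hin, hh]
      simp only
      have hat : Real.arctan (r * Real.sin s / (r * Real.cos s)) = s := by
        rw [mul_div_mul_left _ _ hr.ne', ← Real.tan_eq_sin_div_cos]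
        exact Real.arctan_tan (by linarith [hin.1, Real.pi_pos]) hin.2
      have hn : (r * Real.cos s) ^ 2 + (r * Real.sin s) ^ 2 = r ^ 2 := by
        have := Real.sin_sq_add_cos_sq s
        calc (r * Real.cos s) ^ 2 + (r * Real.sin s) ^ 2 =
            r ^ 2 * (Real.sin s ^ 2 + Real.cos s ^ 2) := by ring
          _ = r ^ 2 := by rw [this, mul_one]
      rw [hat, hn, mul_pow, mul_pow]
      ring
    · rw [indicator_of_notMem (fun hc => hin ((iV1c_mem hr hs).1 hc)), indicator_of_notMem hin]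
      simp
  have e3 : ∫ p in (Ioi (0 : ℝ) ×ˢ Ioo (-Real.pi) Real.pi),
        (p.1 ^ (m + k + 1) * Real.exp (-p.1 ^ 2)) *
        (Ioo 0 (Real.pi / 2)).indicator (fun s => Φ s * (Real.cos s ^ m * Real.sin s ^ k)) p.2 =
      (∫ r in Ioi (0 : ℝ), r ^ (m + k + 1) * Real.exp (-r ^ 2)) *
        ∫ s in Ioo (-Real.pi) Real.pi,
        (Ioo 0 (Real.pi / 2)).indicator (fun s => Φ s * (Real.cos s ^ m * Real.sin s ^ k)) s :=
    setIntegral_prod_mul (μ := volume) (ν := volume)
      (fun r : ℝ => r ^ (m + k + 1) * Real.exp (-r ^ 2))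
      ((Ioo 0 (Real.pi / 2)).indicator (fun s => Φ s * (Real.cos s ^ m * Real.sin s ^ k))) _ _
  have e4 : ∫ s in Ioo (-Real.pi) Real.pi,
        (Ioo 0 (Real.pi / 2)).indicator (fun s => Φ s * (Real.cos s ^ m * Real.sin s ^ k)) s =
      ∫ s in (0 : ℝ)..(Real.pi / 2), Φ s * (Real.cos s ^ m * Real.sin s ^ k) := by
    rw [setIntegral_indicator measurableSet_Ioo,
      intervalIntegral.integral_of_le (by linarith [Real.pi_pos]), integral_Ioc_eq_integral_Ioo]
    congr 2
    ext s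
    simp only [Set.mem_inter_iff, Set.mem_Ioo]
    constructor
    · exact fun hs => hs.2
    · intro hs
      exact ⟨⟨by linarith [hs.1, Real.pi_pos], by linarith [hs.2, Real.pi_pos]⟩, hs⟩
  calc _ = _ := e1
    _ = _ := e2
    _ = _ := e3
    _ = _ := by rw [e4]

end Pool.Agent.Work.MP_02f065_gt.RPn

end
end

section

/-!
MP_02f065_gt: item V1d, a vector is in the orbit of a point of the slice.
-/

open MeasureTheory Set Filter Topology

noncomputable section

namespace Pool.Agent.Work.MP_02f065_gt.RPn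

theorem iV1d_norm {P Q : ℕ} (x : E (Ix P Q)) : ‖x‖ ^ 2 = n1 x ^ 2 + n2 x ^ 2 := by
  rw [n1, n2, Real.sq_sqrt (Finset.sum_nonneg fun i _ => sq_nonneg _),
    Real.sq_sqrt (Finset.sum_nonneg fun i _ => sq_nonneg _), EuclideanSpace.norm_sq_eq,
    Fintype.sum_sum_type]
  simp

theorem itemV1d (hK : claimK) (hR : claimR) : claimV1d := by
  intro P Q hP hQ x hx
  obtain ⟨A, hA, hA1⟩ := hK P hP (fun i => x (Sum.inl i))
  obtain ⟨B, hB, hB1⟩ := hK Q hQ (fun i => x (Sum.inr i))
  refine ⟨A, hA, B, hB, ?_⟩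
  rw [(hR P Q A hA B hB x 0 (‖x‖⁻¹)).2.1]
  have hn := iV1d_norm x
  set s := Real.arctan (n2 x / n1 x) with hs
  have hx0 : 0 < ‖x‖ := by
    rw [norm_pos_iff]
    rintro rfl
    simp [n1] at hx
  have hsq : ‖x‖ = n1 x * Real.sqrt (1 + (n2 x / n1 x) ^ 2) := by
    rw [← Real.sqrt_sq hx0.le, hn]
    have h1 : n1 x ^ 2 + n2 x ^ 2 = n1 x ^ 2 * (1 + (n2 x / n1 x) ^ 2) := by
      field_simp
    rw [h1, Real.sqrt_mul (sq_nonneg _), Real.sqrt_sq hx.le]
  have hr : Real.sqrt (1 + (n2 x / n1 x) ^ 2) ≠ 0 :=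
    (Real.sqrt_pos.mpr (by positivity)).ne'
  have hcos : ‖x‖⁻¹ * n1 x = Real.cos s := by
    rw [hs, Real.cos_arctan, hsq]
    field_simp
  have hsin : ‖x‖⁻¹ * n2 x = Real.sin s := by
    rw [hs, Real.sin_arctan, hsq]
    field_simp
  ext i
  rcases i with i | i
  · change ‖x‖⁻¹ * (A.mulVec (fun i => x (Sum.inl i))) i = _
    rw [hA1]
    change _ = if i.val = 0 then Toric.pt s 0 else if i.val = 1 then Toric.pt s 1 else 0
    by_cases hi : i.val = 0
    · simp only [hi, if_true]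
      exact hcos
    · simp [hi, Toric.pt]
  · change ‖x‖⁻¹ * (B.mulVec (fun i => x (Sum.inr i))) i = _
    rw [hB1]
    change _ = if i.val = 0 then Toric.pt s 2 else if i.val = 1 then Toric.pt s 3 else 0
    by_cases hi : i.val = 0
    · simp only [hi, if_true]
      exact hsin
    · simp [hi, Toric.pt]

end Pool.Agent.Work.MP_02f065_gt.RPn

end
end

section

open MeasureTheory Set Filter Topology

noncomputable section

namespace Pool.Agent.Work.MP_02f065_gt.RPn

theorem iV2_smul2 {G : RP3.E → RP3.E → RP3.E → ℝ} (hG : RP3.IsMetric G) (x v : RP3.E) (r : ℝ) :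
    G x (r • v) (r • v) = r ^ 2 * G x v v := by
  rw [hG.smul, hG.symm, hG.smul]
  ring

theorem iV2_X1 (s : ℝ) : Toric.X1 s = Real.cos s • e1 := by
  ext k
  fin_cases k <;> simp [Toric.X1, e1, RP3.ei]

theorem iV2_X2 (s : ℝ) : Toric.X2 s = Real.sin s • e3 := by
  ext k
  fin_cases k <;> simp [Toric.X2, e3, RP3.ei]

theorem itemV2 (hA : claimV2a) (h1 : claimS1) (h : Toric.claimC4) : claimV2 := by
  intro P Q hP hQ g hg hi s hs
  obtain ⟨hm, _⟩ := h1 P Q hP hQ g hg hi
  have hform : Toric.IsMetric (rf g) := RP3.toForm_metric hm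
  have hC4 := h (rf g) s hform hs
  have hvd : Toric.volDensity (rf g) (Toric.pt s) = RP3.volDensity (res g) (Toric.pt s) :=
    RP3.volDensity_eq hm _
  rw [hvd] at hC4
  have hc : 0 < Real.cos s := Real.cos_pos_of_mem_Ioo ⟨by linarith [hs.1, Real.pi_pos], hs.2⟩
  have hsn : 0 < Real.sin s := Real.sin_pos_of_pos_of_lt_pi hs.1 (by linarith [hs.2, Real.pi_pos])
  have h11 : Real.sqrt (Toric.mG11 (rf g) s) =
      Real.cos s * Real.sqrt (res g (Toric.pt s) e1 e1) := by
    have : Toric.mG11 (rf g) s = Real.cos s ^ 2 * res g (Toric.pt s) e1 e1 := by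
      unfold Toric.mG11 rf
      rw [RP3.toForm_apply hm, iV2_X1, iV2_smul2 hm]
    rw [this, Real.sqrt_mul (sq_nonneg _), Real.sqrt_sq hc.le]
  have h22 : Real.sqrt (Toric.mG22 (rf g) s) =
      Real.sin s * Real.sqrt (res g (Toric.pt s) e3 e3) := by
    have : Toric.mG22 (rf g) s = Real.sin s ^ 2 * res g (Toric.pt s) e3 e3 := by
      unfold Toric.mG22 rf
      rw [RP3.toForm_apply hm, iV2_X2, iV2_smul2 hm]
    rw [this, Real.sqrt_mul (sq_nonneg _), Real.sqrt_sq hsn.le]
  rw [h11, h22, ← hC4, hA P Q hP hQ g hg hi s hs]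
  obtain ⟨p, rfl⟩ := Nat.exists_eq_add_of_le hP
  obtain ⟨q, rfl⟩ := Nat.exists_eq_add_of_le hQ
  have e1' : 2 + p - 1 = p + 1 := by omega
  have e2' : 2 + p - 2 = p := by omega
  have e3' : 2 + q - 1 = q + 1 := by omega
  have e4' : 2 + q - 2 = q := by omega
  rw [e1', e2', e3', e4', mul_pow, mul_pow, pow_succ, pow_succ]
  ring

end Pool.Agent.Work.MP_02f065_gt.RPn

end
end

section

open MeasureTheory Set Filter Topology

noncomputable section

namespace Pool.Agent.Work.MP_02f065_gt.RPn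

theorem iV2a_SO {n : ℕ} (σ : Equiv.Perm (Fin n)) (d : Fin n → ℝ) (hd : ∀ i, d i * d i = 1)
    (hp : ((Equiv.Perm.sign σ : ℤ) : ℝ) * ∏ i, d i = 1) :
    ∃ A ∈ SO n, ∀ v : Fin n → ℝ, A.mulVec v = fun i => d (σ i) * v (σ i) := by
  refine ⟨σ.permMatrix ℝ * Matrix.diagonal d, ?_, ?_⟩
  · refine Matrix.mem_specialOrthogonalGroup_iff.mpr ⟨?_, ?_⟩
    · rw [Matrix.mem_orthogonalGroup_iff]
      rw [Matrix.transpose_mul, Matrix.diagonal_transpose, Matrix.mul_assoc,
        ← Matrix.mul_assoc (Matrix.diagonal d) (Matrix.diagonal d),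
        Matrix.diagonal_mul_diagonal]
      have : (fun i => d i * d i) = fun _ => (1 : ℝ) := funext hd
      rw [this, Matrix.diagonal_one, Matrix.one_mul, Matrix.transpose_permMatrix,
        ← Matrix.permMatrix_mul]
      simp
    · rw [Matrix.det_mul, Matrix.det_permutation, Matrix.det_diagonal]
      exact hp
  · intro v
    rw [← Matrix.mulVec_mulVec, Matrix.permMatrix_mulVec]
    funext i
    simp [Matrix.mulVec_diagonal]

/-- two coordinates of the same block -/
def iV2a_same {P Q : ℕ} (k l : Ix P Q) : Prop :=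
  (∃ a b : Fin P, k = Sum.inl a ∧ l = Sum.inl b) ∨ ∃ a b : Fin Q, k = Sum.inr a ∧ l = Sum.inr b

/-- sign changes at two coordinates -/
def iV2a_T1 {P Q : ℕ} (k l : Ix P Q) (x : E (Ix P Q)) : E (Ix P Q) :=
  WithLp.toLp 2 fun i => if i = k ∨ i = l then -x i else x i

/-- rotation in the plane of two coordinates -/
def iV2a_T2 {P Q : ℕ} (k l : Ix P Q) (x : E (Ix P Q)) : E (Ix P Q) :=
  WithLp.toLp 2 fun i => if i = k then x l else if i = l then -x k else x i

theorem iV2a_prod1 {n : ℕ} (a b : Fin n) (hab : a ≠ b) :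
    (∀ i : Fin n, (if i = a ∨ i = b then (-1 : ℝ) else 1) *
      (if i = a ∨ i = b then (-1 : ℝ) else 1) = 1) ∧
    ∏ i : Fin n, (if i = a ∨ i = b then (-1 : ℝ) else 1) = 1 := by
  constructor
  · intro i
    split_ifs <;> norm_num
  · have : ∀ i : Fin n, (if i = a ∨ i = b then (-1 : ℝ) else 1) =
        (if i = a then -1 else 1) * (if i = b then -1 else 1) := by
      intro i
      by_cases h1 : i = a
      · have h2 : i ≠ b := fun h => hab (h1.symm.trans h)
        simp [h1, hab]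
      · by_cases h2 : i = b
        · subst h2
          simp [h1]
        · simp [h1, h2]
    simp_rw [this]
    rw [Finset.prod_mul_distrib]
    simp

theorem iV2a_prod2 {n : ℕ} (a b : Fin n) (hab : a ≠ b) :
    (∀ i : Fin n, (if i = a then (-1 : ℝ) else 1) * (if i = a then (-1 : ℝ) else 1) = 1) ∧
    ((Equiv.Perm.sign (Equiv.swap a b) : ℤ) : ℝ) * ∏ i : Fin n, (if i = a then (-1 : ℝ) else 1)
      = 1 := by
  constructor
  · intro i
    split_ifs <;> norm_num
  · rw [Equiv.Perm.sign_swap hab]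
    simp

theorem iV2a_one {n : ℕ} (v : Fin n → ℝ) : (1 : Matrix (Fin n) (Fin n) ℝ).mulVec v = v :=
  Matrix.one_mulVec v

theorem iV2a_T1blk {P Q : ℕ} (k l : Ix P Q) (hs : iV2a_same k l) (hkl : k ≠ l) :
    ∃ A ∈ SO P, ∃ B ∈ SO Q, ∀ x : E (Ix P Q), blk A B x = iV2a_T1 k l x := by
  rcases hs with ⟨a, b, rfl, rfl⟩ | ⟨a, b, rfl, rfl⟩
  · have hab : a ≠ b := fun h => hkl (by rw [h])
    obtain ⟨h1, h2⟩ := iV2a_prod1 a b hab
    obtain ⟨A, hA, hAv⟩ := iV2a_SO (Equiv.refl _) _ h1 (by simpa using h2)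
    refine ⟨A, hA, 1, (SO Q).one_mem, fun x => ?_⟩
    ext i
    unfold blk blkC iV2a_T1
    rw [hAv, iV2a_one]
    rcases i with i | i
    · by_cases h : i = a ∨ i = b <;> simp [h]
    · simp
  · have hab : a ≠ b := fun h => hkl (by rw [h])
    obtain ⟨h1, h2⟩ := iV2a_prod1 a b hab
    obtain ⟨B, hB, hBv⟩ := iV2a_SO (Equiv.refl _) _ h1 (by simpa using h2)
    refine ⟨1, (SO P).one_mem, B, hB, fun x => ?_⟩
    ext i
    unfold blk blkC iV2a_T1
    rw [hBv, iV2a_one]
    rcases i with i | i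
    · simp
    · by_cases h : i = a ∨ i = b <;> simp [h]

theorem iV2a_T2blk {P Q : ℕ} (k l : Ix P Q) (hs : iV2a_same k l) (hkl : k ≠ l) :
    ∃ A ∈ SO P, ∃ B ∈ SO Q, ∀ x : E (Ix P Q), blk A B x = iV2a_T2 k l x := by
  rcases hs with ⟨a, b, rfl, rfl⟩ | ⟨a, b, rfl, rfl⟩
  · have hab : a ≠ b := fun h => hkl (by rw [h])
    obtain ⟨h1, h2⟩ := iV2a_prod2 a b hab
    obtain ⟨A, hA, hAv⟩ := iV2a_SO (Equiv.swap a b) _ h1 h2
    refine ⟨A, hA, 1, (SO Q).one_mem, fun x => ?_⟩
    ext i
    unfold blk blkC iV2a_T2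
    rw [hAv, iV2a_one]
    rcases i with i | i
    · by_cases ha : i = a
      · subst ha
        simp [Ne.symm hab]
      · by_cases hb : i = b
        · subst hb
          simp [ha]
        · simp [ha, hb, Equiv.swap_apply_of_ne_of_ne ha hb]
    · simp
  · have hab : a ≠ b := fun h => hkl (by rw [h])
    obtain ⟨h1, h2⟩ := iV2a_prod2 a b hab
    obtain ⟨B, hB, hBv⟩ := iV2a_SO (Equiv.swap a b) _ h1 h2
    refine ⟨1, (SO P).one_mem, B, hB, fun x => ?_⟩
    ext i
    unfold blk blkC iV2a_T2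
    rw [hBv, iV2a_one]
    rcases i with i | i
    · simp
    · by_cases ha : i = a
      · subst ha
        simp [Ne.symm hab]
      · by_cases hb : i = b
        · subst hb
          simp [ha]
        · simp [ha, hb, Equiv.swap_apply_of_ne_of_ne ha hb]

variable {P Q : ℕ} {g : Field (Ix P Q)}

theorem iV2a_neg (hg : IsMetric g) (x v w : E (Ix P Q)) : g x (-v) w = -g x v w := by
  have := hg.smul x v w (-1)
  simpa using this

theorem iV2a_neg' (hg : IsMetric g) (x v w : E (Ix P Q)) : g x v (-w) = -g x v w := by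
  rw [hg.symm, iV2a_neg hg, hg.symm]

theorem iV2a_inner (x : E (Ix P Q)) (k : Ix P Q) : inner ℝ x (ei k) = x k := by
  simp [ei, EuclideanSpace.inner_single_right]

theorem iV2a_cross (hg : IsMetric g) (hi : IsInv g) (x : E (Ix P Q)) (hx : ‖x‖ = 1)
    (k l : Ix P Q) (hs : iV2a_same k l) (hkl : k ≠ l) (hk : x k = 0) (hl : x l = 0)
    (v : E (Ix P Q)) (hv : inner ℝ x v = 0) (hvk : v k = 0) :
    g x (ei k) v = 0 := by
  obtain ⟨A, hA, B, hB, hT⟩ := iV2a_T1blk k l hs hkl
  obtain ⟨A', hA', B', hB', hT'⟩ := iV2a_T2blk k l hs hkl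
  -- rotation
  have hxl : inner ℝ x (ei l) = 0 := by rw [iV2a_inner, hl]
  have hxk : inner ℝ x (ei k) = 0 := by rw [iV2a_inner, hk]
  have hlk : l ≠ k := Ne.symm hkl
  have r1 : iV2a_T2 k l x = x := by
    ext i
    by_cases h1 : i = k
    · subst h1; simp [iV2a_T2, hk, hl]
    · by_cases h2 : i = l
      · subst h2; simp [iV2a_T2, hk, hl, hlk]
      · simp [iV2a_T2, h1, h2]
  have r2 : iV2a_T2 k l (ei l) = ei k := by
    ext i
    by_cases h1 : i = k
    · subst h1; simp [iV2a_T2, ei]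
    · by_cases h2 : i = l
      · subst h2; simp [iV2a_T2, ei, hlk, hkl]
      · simp [iV2a_T2, h1, h2, ei]
  have r3 : iV2a_T2 k l (ei k) = -ei l := by
    ext i
    by_cases h1 : i = k
    · subst h1; simp [iV2a_T2, ei, hlk, hkl]
    · by_cases h2 : i = l
      · subst h2; simp [iV2a_T2, ei, hlk]
      · simp [iV2a_T2, h1, h2, ei]
  have q1 : g x (ei k) (ei l) = 0 := by
    have h := hi A' hA' B' hB' x (ei l) (ei k) hx hxl hxk
    rw [hT', hT', hT', r1, r2, r3, iV2a_neg' hg, hg.symm x (ei l) (ei k)] at h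
    linarith
  -- sign change
  set v' : E (Ix P Q) := v - v l • ei l with hv'
  have hv'k : v' k = 0 := by
    simp [hv', hvk, ei, hkl]
  have hv'l : v' l = 0 := by
    simp [hv', ei]
  have hv'x : inner ℝ x v' = 0 := by
    rw [hv', inner_sub_right, hv, inner_smul_right, hxl]
    ring
  have t1 : iV2a_T1 k l x = x := by
    ext i
    by_cases h : i = k ∨ i = l
    · rcases h with h | h
      · subst h; simp [iV2a_T1, hk]
      · subst h; simp [iV2a_T1, hl]
    · simp [iV2a_T1, h]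
  have t2 : iV2a_T1 k l v' = v' := by
    ext i
    by_cases h : i = k ∨ i = l
    · rcases h with h | h
      · rw [h]; simp [iV2a_T1, hv'k]
      · rw [h]; simp [iV2a_T1, hv'l]
    · simp [iV2a_T1, h]
  have t3 : iV2a_T1 k l (ei k) = -ei k := by
    ext i
    by_cases h : i = k ∨ i = l
    · rcases h with h | h
      · subst h; simp [iV2a_T1]
      · subst h; simp [iV2a_T1]
    · simp only [not_or] at h
      simp [iV2a_T1, h.1, h.2, ei]
  have q2 : g x (ei k) v' = 0 := by
    have h := hi A hA B hB x (ei k) v' hx hxk hv'x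
    rw [hT, hT, hT, t1, t2, t3, iV2a_neg hg] at h
    linarith
  have hvv : v = v' + v l • ei l := by simp [hv']
  rw [hvv, hg.symm, hg.add, hg.smul, hg.symm x v', hg.symm x (ei l), q1, q2]
  simp

theorem iV2a_diag (hi : IsInv g) (x : E (Ix P Q)) (hx : ‖x‖ = 1)
    (k l : Ix P Q) (hs : iV2a_same k l) (hkl : k ≠ l) (hk : x k = 0) (hl : x l = 0) :
    g x (ei k) (ei k) = g x (ei l) (ei l) := by
  obtain ⟨A', hA', B', hB', hT'⟩ := iV2a_T2blk k l hs hkl
  have hxl : inner ℝ x (ei l) = 0 := by rw [iV2a_inner, hl]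
  have hlk : l ≠ k := Ne.symm hkl
  have r1 : iV2a_T2 k l x = x := by
    ext i
    by_cases h1 : i = k
    · subst h1; simp [iV2a_T2, hk, hl]
    · by_cases h2 : i = l
      · subst h2; simp [iV2a_T2, hk, hl, hlk]
      · simp [iV2a_T2, h1, h2]
  have r2 : iV2a_T2 k l (ei l) = ei k := by
    ext i
    by_cases h1 : i = k
    · subst h1; simp [iV2a_T2, ei]
    · by_cases h2 : i = l
      · subst h2; simp [iV2a_T2, ei, hlk, hkl]
      · simp [iV2a_T2, h1, h2, ei]
  have h := hi A' hA' B' hB' x (ei l) (ei l) hx hxl hxl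
  rw [hT', hT', r1, r2] at h
  exact h

theorem iV2a_tang (x : E (Ix P Q)) (k : Ix P Q) (hk : x k = 0) : tang x (ei k) = ei k := by
  unfold tang
  rw [iV2a_inner, hk]
  simp

theorem iV2a_gram0 (hg : IsMetric g) (hi : IsInv g) (x : E (Ix P Q)) (hx : ‖x‖ = 1)
    (k l : Ix P Q) (hs : iV2a_same k l) (hkl : k ≠ l) (hk : x k = 0) (hl : x l = 0)
    (j : Ix P Q) (hj : j ≠ k) : gram g x k j = 0 := by
  unfold gram
  rw [iV2a_tang x k hk, hk]
  have h1 : inner ℝ x (tang x (ei j)) = 0 := by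
    unfold tang
    rw [inner_sub_right, inner_smul_right, real_inner_self_eq_norm_sq, hx]
    ring
  have h2 : (tang x (ei j)) k = 0 := by
    unfold tang
    simp [ei, hk, hj.symm]
  rw [iV2a_cross hg hi x hx k l hs hkl hk hl _ h1 h2]
  ring

theorem iV2a_sqrtpow (r : ℝ) (hr : 0 ≤ r) (p : ℕ) : Real.sqrt (r ^ p) = Real.sqrt r ^ p := by
  induction p with
  | zero => simp
  | succ p ih => rw [pow_succ, Real.sqrt_mul' _ hr, ih, pow_succ]

/-- the first two indices of each block -/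
def iV2a_io (p q : ℕ) : Fin 4 → Ix (p + 2) (q + 2) :=
  ![Sum.inl 0, Sum.inl 1, Sum.inr 0, Sum.inr 1]

/-- the position in the block -/
def iV2a_val {P Q : ℕ} : Ix P Q → ℕ := Sum.elim Fin.val Fin.val

theorem iV2a_fin {n : ℕ} (a : Fin (n + 2)) (h : a.val ≤ 1) : a = 0 ∨ a = 1 := by
  rcases Nat.le_one_iff_eq_zero_or_eq_one.mp h with h | h
  · left; exact Fin.ext h
  · right; exact Fin.ext (by simpa using h)

/-- the equivalence of Fin 4 with the first indices -/
theorem iV2a_bij (p q : ℕ) : Function.Bijective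
    (fun i : Fin 4 => (⟨iV2a_io p q i, by fin_cases i <;> simp [iV2a_io, iV2a_val]⟩ :
      {k : Ix (p + 2) (q + 2) // iV2a_val k ≤ 1})) := by
  constructor
  · intro i j h
    simp only [Subtype.mk.injEq] at h
    fin_cases i <;> fin_cases j <;> simp [iV2a_io] at h ⊢
  · rintro ⟨k, hk⟩
    rcases k with a | a
    · rcases iV2a_fin a hk with rfl | rfl
      · exact ⟨0, by simp [iV2a_io]⟩
      · exact ⟨1, by simp [iV2a_io]⟩
    · rcases iV2a_fin a hk with rfl | rfl
      · exact ⟨2, by simp [iV2a_io]⟩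
      · exact ⟨3, by simp [iV2a_io]⟩

theorem iV2a_emb (p q : ℕ) (x : RP3.E) (i : Fin 4) :
    (emb x : E (Ix (p + 2) (q + 2))) (iV2a_io p q i) = x i := by
  fin_cases i <;> simp [emb, embC, iV2a_io]

theorem iV2a_embei (p q : ℕ) (i : Fin 4) :
    (emb (RP3.ei i) : E (Ix (p + 2) (q + 2))) = ei (iV2a_io p q i) := by
  ext k
  rcases k with a | a
  · by_cases h0 : a.val = 0
    · have : a = 0 := Fin.ext h0
      subst this
      fin_cases i <;> simp [emb, embC, iV2a_io, ei, RP3.ei]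
    · by_cases h1 : a.val = 1
      · have : a = 1 := Fin.ext (by simpa using h1)
        subst this
        fin_cases i <;> simp [emb, embC, iV2a_io, ei, RP3.ei]
      · have e0 : a ≠ 0 := fun h => h0 (by simp [h])
        have e1 : a ≠ 1 := fun h => h1 (by simp [h])
        fin_cases i <;> simp [emb, embC, iV2a_io, ei, h1, e0, e1]
  · by_cases h0 : a.val = 0
    · have : a = 0 := Fin.ext h0
      subst this
      fin_cases i <;> simp [emb, embC, iV2a_io, ei, RP3.ei]
    · by_cases h1 : a.val = 1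
      · have : a = 1 := Fin.ext (by simpa using h1)
        subst this
        fin_cases i <;> simp [emb, embC, iV2a_io, ei, RP3.ei]
      · have e0 : a ≠ 0 := fun h => h0 (by simp [h])
        have e1 : a ≠ 1 := fun h => h1 (by simp [h])
        fin_cases i <;> simp [emb, embC, iV2a_io, ei, h1, e0, e1]

theorem itemV2a (h0 : claimS0) (h1 : claimS1) : claimV2a := by
  intro P Q hP hQ g hg hi s hs
  obtain ⟨hm, _⟩ := h1 P Q hP hQ g hg hi
  have hS := h0 P Q hP hQ
  obtain ⟨p, rfl⟩ : ∃ p, P = p + 2 := ⟨P - 2, by omega⟩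
  obtain ⟨q, rfl⟩ : ∃ q, Q = q + 2 := ⟨Q - 2, by omega⟩
  set y := Toric.pt s with hy
  have hy1 : ‖y‖ = 1 := by
    rw [hy, EuclideanSpace.norm_eq, Fin.sum_univ_four]
    simp [Toric.pt]
  set x : E (Ix (p + 2) (q + 2)) := emb y with hx
  have hx1 : ‖x‖ = 1 := by rw [hx, (hS y y 0).2.2.2.2.1, hy1]
  have hxk : ∀ k : Ix (p + 2) (q + 2), 1 ≤ iV2a_val k → x k = 0 := by
    intro k hk
    rcases k with a | a
    · have : a.val ≠ 0 := by
        have h : 1 ≤ a.val := hk
        omega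
      have ha0 : a ≠ 0 := fun h => this (by simp [h])
      by_cases h1 : a.val = 1
      · simp [hx, emb, embC, ha0, h1, hy, Toric.pt]
      · simp [hx, emb, embC, ha0, h1]
    · have : a.val ≠ 0 := by
        have h : 1 ≤ a.val := hk
        omega
      have ha0 : a ≠ 0 := fun h => this (by simp [h])
      by_cases h1 : a.val = 1
      · simp [hx, emb, embC, ha0, h1, hy, Toric.pt]
      · simp [hx, emb, embC, ha0, h1]
  have hx11 : x (Sum.inl 1) = 0 := hxk _ (by simp [iV2a_val])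
  have hx21 : x (Sum.inr 1) = 0 := hxk _ (by simp [iV2a_val])
  have hpart : ∀ k : Ix (p + 2) (q + 2), ¬ iV2a_val k ≤ 1 →
      ∃ l, iV2a_same k l ∧ k ≠ l ∧ x k = 0 ∧ x l = 0 ∧
        g x (ei k) (ei k) = Sum.elim (fun _ => res g y e1 e1) (fun _ => res g y e3 e3) k := by
    intro k hk
    rcases k with a | a
    · have hs1 : iV2a_same (Sum.inl a : Ix (p + 2) (q + 2)) (Sum.inl 1) :=
        Or.inl ⟨a, 1, rfl, rfl⟩
      have hne : (Sum.inl a : Ix (p + 2) (q + 2)) ≠ Sum.inl 1 := by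
        intro h
        apply hk
        rw [h]
        simp [iV2a_val]
      have hxa : x (Sum.inl a) = 0 := hxk _ (by omega)
      refine ⟨Sum.inl 1, hs1, hne, hxa, hx11, ?_⟩
      rw [iV2a_diag hi x hx1 _ _ hs1 hne hxa hx11]
      simp only [Sum.elim_inl, res, e1]
      rw [iV2a_embei]
      rfl
    · have hs1 : iV2a_same (Sum.inr a : Ix (p + 2) (q + 2)) (Sum.inr 1) :=
        Or.inr ⟨a, 1, rfl, rfl⟩
      have hne : (Sum.inr a : Ix (p + 2) (q + 2)) ≠ Sum.inr 1 := by
        intro h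
        apply hk
        rw [h]
        simp [iV2a_val]
      have hxa : x (Sum.inr a) = 0 := hxk _ (by omega)
      refine ⟨Sum.inr 1, hs1, hne, hxa, hx21, ?_⟩
      rw [iV2a_diag hi x hx1 _ _ hs1 hne hxa hx21]
      simp only [Sum.elim_inr, res, e3]
      rw [iV2a_embei]
      rfl
  set D : Ix (p + 2) (q + 2) → ℝ :=
    Sum.elim (fun _ => res g y e1 e1) (fun _ => res g y e3 e3) with hD
  have hgd : ∀ k : Ix (p + 2) (q + 2), ¬ iV2a_val k ≤ 1 → gram g x k k = D k := by
    intro k hk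
    obtain ⟨l, _, _, hk0, _, hkk⟩ := hpart k hk
    unfold gram
    rw [iV2a_tang x k hk0, hk0, hkk]
    ring
  have hgo : ∀ k : Ix (p + 2) (q + 2), ¬ iV2a_val k ≤ 1 → ∀ j, j ≠ k → gram g x k j = 0 := by
    intro k hk j hj
    obtain ⟨l, hsl, hkl, hk0, hl0, _⟩ := hpart k hk
    exact iV2a_gram0 hg hi x hx1 k l hsl hkl hk0 hl0 j hj
  have hdet := Matrix.twoBlockTriangular_det (Matrix.of (gram g x))
    (fun k : Ix (p + 2) (q + 2) => iV2a_val k ≤ 1) (by
      intro i hi' j hj
      exact hgo i hi' j (fun h => hi' (by rw [← h]; exact hj)))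
  -- second block
  have hb2 : (Matrix.toSquareBlockProp (Matrix.of (gram g x))
      (fun k : Ix (p + 2) (q + 2) => ¬ iV2a_val k ≤ 1)).det =
      res g y e1 e1 ^ p * res g y e3 e3 ^ q := by
    have hdiag : Matrix.toSquareBlockProp (Matrix.of (gram g x))
        (fun k : Ix (p + 2) (q + 2) => ¬ iV2a_val k ≤ 1) =
        Matrix.diagonal fun k => D k.1 := by
      ext i j
      by_cases hij : i = j
      · subst hij
        rw [Matrix.diagonal_apply_eq]
        exact hgd i.1 i.2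
      · rw [Matrix.diagonal_apply_ne _ hij]
        exact hgo i.1 i.2 j.1 (fun h => hij (Subtype.ext h.symm))
    rw [hdiag, Matrix.det_diagonal]
    have h2 : ∏ k : {k : Ix (p + 2) (q + 2) // ¬ iV2a_val k ≤ 1}, D k.1 =
        ∏ k ∈ Finset.univ.filter (fun k : Ix (p + 2) (q + 2) => ¬ iV2a_val k ≤ 1), D k :=
      (Finset.prod_subtype _ (by simp) D).symm
    rw [h2, Finset.prod_filter, Fintype.prod_sum_type, Fin.prod_univ_succ, Fin.prod_univ_succ,
      Fin.prod_univ_succ (n := q + 1), Fin.prod_univ_succ (n := q)]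
    simp [iV2a_val, hD]
  -- first block
  have hb1 : (Matrix.toSquareBlockProp (Matrix.of (gram g x))
      (fun k : Ix (p + 2) (q + 2) => iV2a_val k ≤ 1)).det =
      (Matrix.of (RP3.gram (res g) y)).det := by
    rw [← Matrix.det_submatrix_equiv_self (Equiv.ofBijective _ (iV2a_bij p q))]
    congr 1
    ext i j
    have htang : ∀ i : Fin 4, tang x (ei (iV2a_io p q i)) = emb (RP3.tang y (RP3.ei i)) := by
      intro i
      unfold tang RP3.tang
      rw [← iV2a_embei, hx, (hS y (RP3.ei i) 0).2.2.2.1, sub_eq_add_neg, sub_eq_add_neg,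
        (hS (RP3.ei i) (-(inner ℝ y (RP3.ei i) • y)) 0).1,
        (hS (inner ℝ y (RP3.ei i) • y) y 0).2.2.1, (hS y y (inner ℝ y (RP3.ei i))).2.1]
    change gram g x (iV2a_io p q i) (iV2a_io p q j) = RP3.gram (res g) y i j
    unfold gram RP3.gram
    rw [htang, htang, hx, iV2a_emb, iV2a_emb]
    rfl
  have r1 : 0 ≤ res g y e1 e1 := by
    refine (hm.pos y e1 hy1 ?_ ?_).le
    · simp [e1, RP3.ei, EuclideanSpace.inner_single_right, hy, Toric.pt]
    · intro h
      have := congrArg (fun v : RP3.E => v 1) h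
      simp [e1, RP3.ei] at this
  have r3 : 0 ≤ res g y e3 e3 := by
    refine (hm.pos y e3 hy1 ?_ ?_).le
    · simp [e3, RP3.ei, EuclideanSpace.inner_single_right, hy, Toric.pt]
    · intro h
      have := congrArg (fun v : RP3.E => v 3) h
      simp [e3, RP3.ei] at this
  unfold volDensity RP3.volDensity
  rw [hdet, hb1, hb2, Real.sqrt_mul' _ (mul_nonneg (pow_nonneg r1 _) (pow_nonneg r3 _)),
    Real.sqrt_mul' _ (pow_nonneg r3 _), iV2a_sqrtpow _ r1, iV2a_sqrtpow _ r3]
  simp

end Pool.Agent.Work.MP_02f065_gt.RPn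

end
end

section

/-!
MP_02f065_gt, item V3: the volume of an invariant metric and of the round metric.
-/

set_option autoImplicit false

open MeasureTheory Set

namespace Pool.Agent.Work.MP_02f065_gt.RPn

theorem iV3_gram {ι : Type} [Fintype ι] [DecidableEq ι] (x : E ι) (hx : ‖x‖ = 1) (i j : ι) :
    gram (round : Field ι) x i j = if i = j then 1 else 0 := by
  have hxx : inner ℝ x x = 1 := by
    rw [real_inner_self_eq_norm_sq, hx]; norm_num
  have hxi : ∀ k : ι, inner ℝ x (ei k) = x k := by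
    intro k
    rw [ei, EuclideanSpace.inner_single_right]
    simp
  have hix : ∀ k : ι, inner ℝ (ei k) x = x k := by
    intro k
    rw [real_inner_comm, hxi]
  have hij : inner ℝ (ei i : E ι) (ei j) = if i = j then 1 else 0 := by
    rw [ei, ei, EuclideanSpace.inner_single_right]
    simp [Pi.single_apply, eq_comm]
  unfold gram round tang
  simp only [inner_sub_left, inner_sub_right, inner_smul_left, inner_smul_right, hxx, hxi, hix,
    hij, RCLike.conj_to_real]
  ring

theorem iV3_round {ι : Type} [Fintype ι] [DecidableEq ι] (x : E ι) (hx : ‖x‖ = 1) :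
    volDensity (round : Field ι) x = 1 := by
  have h : Matrix.of (gram (round : Field ι) x) = 1 := by
    ext i j
    rw [Matrix.of_apply, iV3_gram x hx, Matrix.one_apply]
  rw [volDensity, h, Matrix.det_one, Real.sqrt_one]

theorem itemV3 (hV1 : claimV1) (hV2 : claimV2) (hBD2 : claimBD2) (hBD3 : claimBD3) :
    claimV3 := by
  intro P Q hP hQ
  obtain ⟨c, hc, h1⟩ := hV1 P Q hP hQ
  refine ⟨c / 2, by positivity, ?_, ?_⟩
  · intro g hg hinv
    unfold vol
    rw [h1 (volDensity g) (hBD3 _ g hg)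
      (fun A hA B hB x hx => hBD2 P Q g hg hinv A hA B hB x hx)]
    have hpi : (0 : ℝ) ≤ Real.pi / 2 := by positivity
    have key : ∫ s in (0 : ℝ)..(Real.pi / 2),
          volDensity g (emb (Toric.pt s)) * (Real.cos s ^ (P - 1) * Real.sin s ^ (Q - 1)) =
        ∫ s in (0 : ℝ)..(Real.pi / 2), Toric.ma (rf g) s *
          Real.sqrt (Toric.Dt (Toric.mG11 (rf g)) (Toric.mG12 (rf g)) (Toric.mG22 (rf g)) s) *
          (Real.sqrt (Toric.mG11 (rf g) s) ^ (P - 2) *
            Real.sqrt (Toric.mG22 (rf g) s) ^ (Q - 2)) := by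
      rw [intervalIntegral.integral_of_le hpi, intervalIntegral.integral_of_le hpi,
        integral_Ioc_eq_integral_Ioo, integral_Ioc_eq_integral_Ioo]
      exact setIntegral_congr_fun measurableSet_Ioo fun s hs => hV2 P Q hP hQ g hg hinv s hs
    rw [key]
    ring
  · have h2 := h1 (fun _ => 1) continuousOn_const (fun _ _ _ _ _ _ => rfl)
    have h3 : ∫ x : Metric.sphere (0 : E (Ix P Q)) 1, volDensity (round : Field (Ix P Q)) x
          ∂((volume : Measure (E (Ix P Q))).toSphere) =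
        ∫ x : Metric.sphere (0 : E (Ix P Q)) 1, (1 : ℝ)
          ∂((volume : Measure (E (Ix P Q))).toSphere) := by
      refine integral_congr_ae (Filter.Eventually.of_forall fun x => ?_)
      exact iV3_round x.1 (by simpa using x.2)
    unfold vol Wc
    rw [h3, h2]
    simp only [one_mul]
    ring

end Pool.Agent.Work.MP_02f065_gt.RPn

end

section

/-!
MP_02f065_gt, item A3: concatenation of curves.
-/

open MeasureTheory Set Filter Topology

noncomputable section

namespace Pool.Agent.Work.MP_02f065_gt.Toric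

open IA2 in
theorem itemA3 : claimA3 := by
  intro g c d x y z hg hc hd
  set s := Real.smoothTransition with hs
  set k : ℝ → E := fun t => c (s (2 * t)) + d (s (2 * t - 1)) - y with hk
  have hs_smooth : ContDiff ℝ 1 s := Real.smoothTransition.contDiff (n := 1)
  have hksmooth : ContDiff ℝ 1 k := by
    have e1 : ContDiff ℝ 1 (fun t : ℝ => 2 * t) := contDiff_const.mul contDiff_id
    have e2 : ContDiff ℝ 1 (fun t : ℝ => 2 * t - 1) := e1.sub contDiff_const
    exact ((hc.smooth.comp (hs_smooth.comp e1)).add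
      (hd.smooth.comp (hs_smooth.comp e2))).sub contDiff_const
  have hkl : ∀ t : ℝ, t ≤ 1 / 2 → k t = c (s (2 * t)) := by
    intro t ht
    have : s (2 * t - 1) = 0 := Real.smoothTransition.zero_of_nonpos (by linarith)
    simp only [hk, this, hd.left]
    abel
  have hkr : ∀ t : ℝ, 1 / 2 ≤ t → k t = d (s (2 * t - 1)) := by
    intro t ht
    have : s (2 * t) = 1 := Real.smoothTransition.one_of_one_le (by linarith)
    simp only [hk, this, hc.right]
    abel
  have hsph : ∀ t, ‖k t‖ = 1 := by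
    intro t
    rcases le_total t (1 / 2) with h | h
    · rw [hkl t h]
      exact hc.sphere _
    · rw [hkr t h]
      exact hd.sphere _
  have hk0 : k 0 = x := by
    rw [hkl 0 (by norm_num), mul_zero]
    have : s 0 = 0 := Real.smoothTransition.zero
    rw [this, hc.left]
  have hk1 : k 1 = z := by
    rw [hkr 1 (by norm_num)]
    have : s (2 * 1 - 1) = 1 := Real.smoothTransition.one_of_one_le (by norm_num)
    rw [this, hd.right]
  refine ⟨k, ⟨hksmooth, hsph, hk0, hk1⟩, ?_⟩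
  -- derivatives
  have h1 : ∀ t, HasDerivAt (fun t : ℝ => s (2 * t)) (2 * st' (2 * t)) t := by
    intro t
    have e1 : HasDerivAt (fun t : ℝ => 2 * t) 2 t := by
      simpa using (hasDerivAt_id t).const_mul 2
    have := (hasDerivAt_st (2 * t)).comp t e1
    rw [mul_comm] at this
    exact this
  have h2 : ∀ t, HasDerivAt (fun t : ℝ => s (2 * t - 1)) (2 * st' (2 * t - 1)) t := by
    intro t
    have e1 : HasDerivAt (fun t : ℝ => 2 * t - 1) 2 t := by
      have : HasDerivAt (fun t : ℝ => 2 * t) 2 t := by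
        simpa using (hasDerivAt_id t).const_mul 2
      exact this.sub_const 1
    have := (hasDerivAt_st (2 * t - 1)).comp t e1
    rw [mul_comm] at this
    exact this
  have hcd : ∀ u, HasDerivAt c (deriv c u) u := fun u =>
    (hc.smooth.differentiable (by simp) u).hasDerivAt
  have hdd : ∀ u, HasDerivAt d (deriv d u) u := fun u =>
    (hd.smooth.differentiable (by simp) u).hasDerivAt
  have hkd : ∀ t, HasDerivAt k ((2 * st' (2 * t)) • deriv c (s (2 * t)) +
      (2 * st' (2 * t - 1)) • deriv d (s (2 * t - 1))) t := by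
    intro t
    have e1 : HasDerivAt (fun t => c (s (2 * t))) ((2 * st' (2 * t)) • deriv c (s (2 * t))) t :=
      HasDerivAt.scomp t (hcd (s (2 * t))) (h1 t)
    have e2 : HasDerivAt (fun t => d (s (2 * t - 1)))
        ((2 * st' (2 * t - 1)) • deriv d (s (2 * t - 1))) t :=
      HasDerivAt.scomp t (hdd (s (2 * t - 1))) (h2 t)
    exact (e1.add e2).sub_const y
  have hdl : ∀ t : ℝ, t ≤ 1 / 2 → deriv k t = (2 * st' (2 * t)) • deriv c (s (2 * t)) := by
    intro t ht
    rw [(hkd t).deriv, st'_zero (by linarith : 2 * t - 1 ≤ 0)]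
    simp
  have hdr : ∀ t : ℝ, 1 / 2 ≤ t → deriv k t = (2 * st' (2 * t - 1)) • deriv d (s (2 * t - 1)) := by
    intro t ht
    rw [(hkd t).deriv, st'_one (by linarith : 1 ≤ 2 * t)]
    simp
  -- continuity of the integrand
  have hF : Continuous fun t => Real.sqrt (g (k t) (deriv k t) (deriv k t)) := by
    have hgk : Continuous fun t => g (k t) := by
      refine hg.cont.comp_continuous hksmooth.continuous ?_
      intro t
      rw [mem_sphere_zero_iff_norm]
      exact hsph t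
    have hkd' : Continuous (deriv k) := hksmooth.continuous_deriv (by simp)
    exact ((hgk.clm_apply hkd').clm_apply hkd').sqrt
  unfold length
  rw [← intervalIntegral.integral_add_adjacent_intervals (hF.intervalIntegrable 0 (1 / 2))
    (hF.intervalIntegrable (1 / 2) 1)]
  congr 1
  · have e1 : ∫ t in (0 : ℝ)..(1 / 2), Real.sqrt (g (k t) (deriv k t) (deriv k t)) =
        ∫ t in (0 : ℝ)..(1 / 2), ((fun u => Real.sqrt (g (c u) (deriv c u) (deriv c u))) ∘
          (fun t : ℝ => s (2 * t))) t * (2 * st' (2 * t)) := by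
      apply intervalIntegral.integral_congr
      intro t ht
      rw [uIcc_of_le (by norm_num)] at ht
      simp only [Function.comp_apply]
      rw [hkl t ht.2, hdl t ht.2]
      exact sqrt_smul g _ _ (mul_nonneg (by norm_num) (st'_nonneg _))
    rw [e1, intervalIntegral.integral_comp_mul_deriv_of_deriv_nonneg
      (fun t _ => (h1 t).continuousAt.continuousWithinAt)
      (fun t _ => h1 t) (fun t _ => mul_nonneg (by norm_num) (st'_nonneg _))]
    have e2 : s (2 * 0) = 0 := Real.smoothTransition.zero_of_nonpos (by norm_num)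
    have e3 : s (2 * (1 / 2)) = 1 := Real.smoothTransition.one_of_one_le (by norm_num)
    rw [e2, e3]
  · have e1 : ∫ t in (1 / 2 : ℝ)..1, Real.sqrt (g (k t) (deriv k t) (deriv k t)) =
        ∫ t in (1 / 2 : ℝ)..1, ((fun u => Real.sqrt (g (d u) (deriv d u) (deriv d u))) ∘
          (fun t : ℝ => s (2 * t - 1))) t * (2 * st' (2 * t - 1)) := by
      apply intervalIntegral.integral_congr
      intro t ht
      rw [uIcc_of_le (by norm_num)] at ht
      simp only [Function.comp_apply]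
      rw [hkr t ht.1, hdr t ht.1]
      exact sqrt_smul g _ _ (mul_nonneg (by norm_num) (st'_nonneg _))
    rw [e1, intervalIntegral.integral_comp_mul_deriv_of_deriv_nonneg
      (fun t _ => (h2 t).continuousAt.continuousWithinAt)
      (fun t _ => h2 t) (fun t _ => mul_nonneg (by norm_num) (st'_nonneg _))]
    have e2 : s (2 * (1 / 2) - 1) = 0 := Real.smoothTransition.zero_of_nonpos (by norm_num)
    have e3 : s (2 * 1 - 1) = 1 := Real.smoothTransition.one_of_one_le (by norm_num)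
    rw [e2, e3]

end Pool.Agent.Work.MP_02f065_gt.Toric

end
end

section

open MeasureTheory Set Filter Topology

noncomputable section

namespace Pool.Agent.Work.MP_02f065_gt.Toric

theorem c2_cont_mb1 (hC1 : claimC1) (g : Form) (hg : IsMetric g) :
    ContinuousOn (mb1 g) (Ioo 0 (Real.pi / 2)) := by
  unfold mb1
  refine ContinuousOn.div ?_ (sl_cont_Dt g hg).continuousOn fun s hs => ?_
  · exact (((sl_cont_mG22 g hg).mul (sl_cont_mB1 g hg)).sub
      ((sl_cont_mG12 g hg).mul (sl_cont_mB2 g hg))).continuousOn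
  · exact ((hC1 g hg).posD s hs).ne'

theorem c2_cont_mb2 (hC1 : claimC1) (g : Form) (hg : IsMetric g) :
    ContinuousOn (mb2 g) (Ioo 0 (Real.pi / 2)) := by
  unfold mb2
  refine ContinuousOn.div ?_ (sl_cont_Dt g hg).continuousOn fun s hs => ?_
  · exact (((sl_cont_mG11 g hg).mul (sl_cont_mB2 g hg)).sub
      ((sl_cont_mG12 g hg).mul (sl_cont_mB1 g hg))).continuousOn
  · exact ((hC1 g hg).posD s hs).ne'

theorem c2_turn (y b : ℝ → ℝ) (s1 s2 : ℝ) (h12 : s1 < s2) (hy : ContinuousOn y (Icc s1 s2))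
    (hb : ContinuousOn b (Icc s1 s2)) :
    (∫ s in s1..s2, (y s - b s)) + (∫ s in s1..s2, (y s + b s)) =
      2 * ∫ s in s1..s2, y s := by
  have iy : IntervalIntegrable y volume s1 s2 := by
    refine ContinuousOn.intervalIntegrable ?_
    rwa [uIcc_of_le h12.le]
  have ib : IntervalIntegrable b volume s1 s2 := by
    refine ContinuousOn.intervalIntegrable ?_
    rwa [uIcc_of_le h12.le]
  rw [intervalIntegral.integral_sub iy ib, intervalIntegral.integral_add iy ib]
  ring

theorem c2_main (hA3 : claimA3) (hR1 : claimR1) (hC1 : claimC1) (hC2a : claimC2a)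
    (hC2b : claimC2b) (g : Form) (L : ℝ) (hg : IsMetric g) (ht : IsToric g)
    (hL : ∀ (x : E) (c : ℝ → E), ‖x‖ = 1 → IsCurve c x (-x) → L ≤ length g c)
    (A B : ℝ) (hAB : ∀ x : E, rot A B x = -x) (s1 s2 : ℝ) (h1 : 0 < s1) (h12 : s1 < s2)
    (h2 : s2 < Real.pi / 2) (y1 y2 : ℝ → ℝ) (hy1 : ContinuousOn y1 (Icc s1 s2))
    (hy2 : ContinuousOn y2 (Icc s1 s2)) (i1 : 2 * (∫ s in s1..s2, y1 s) = A)
    (i2 : 2 * (∫ s in s1..s2, y2 s) = B) :
    L ≤ 2 * ∫ s in s1..s2,
      Real.sqrt (ma g s ^ 2 + Qf (mG11 g) (mG12 g) (mG22 g) s (y1 s) (y2 s)) := by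
  have hsub : Icc s1 s2 ⊆ Ioo 0 (Real.pi / 2) := fun s hs =>
    ⟨h1.trans_le hs.1, hs.2.trans_lt h2⟩
  have hb1 := (c2_cont_mb1 hC1 g hg).mono hsub
  have hb2 := (c2_cont_mb2 hC1 g hg).mono hsub
  have t1 := c2_turn y1 (mb1 g) s1 s2 h12 hy1 hb1
  have t2 := c2_turn y2 (mb2 g) s1 s2 h12 hy2 hb2
  obtain ⟨c, hc, lc⟩ := hC2a g hg ht s1 s2 0 0 h1 h12 h2 y1 y2 hy1 hy2
  obtain ⟨d, hd, ld⟩ := hC2b g hg ht s1 s2 (0 + ∫ s in s1..s2, (y1 s - mb1 g s))
    (0 + ∫ s in s1..s2, (y2 s - mb2 g s)) h1 h12 h2 y1 y2 hy1 hy2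
  have e1 : (0 + ∫ s in s1..s2, (y1 s - mb1 g s)) + (∫ s in s1..s2, (y1 s + mb1 g s)) = A := by
    rw [zero_add, t1, i1]
  have e2 : (0 + ∫ s in s1..s2, (y2 s - mb2 g s)) + (∫ s in s1..s2, (y2 s + mb2 g s)) = B := by
    rw [zero_add, t2, i2]
  rw [e1, e2, hAB] at hd
  have hr0 : rot 0 0 (pt s1) = pt s1 := (hR1 0 0 (pt s1) (pt s1) 0).2.2.2.2.2.1
  rw [hr0] at hc
  obtain ⟨k, hk, lk⟩ := hA3 g c d _ _ _ hg hc hd
  have := hL (pt s1) k (sl_norm_pt s1) hk
  rw [lk, lc, ld] at this
  linarith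

theorem itemC2 (hA3 : claimA3) (hR1 : claimR1) (hC1 : claimC1) (hC2a : claimC2a)
    (hC2b : claimC2b) : claimC2 := by
  intro g L hg ht hL
  constructor
  · intro s1 s2 h1 h12 h2 y1 y2 hy1 hy2 i1 i2
    exact c2_main hA3 hR1 hC1 hC2a hC2b g L hg ht hL Real.pi Real.pi
      (fun x => (hR1 0 0 x x 0).2.2.2.2.2.2.1) s1 s2 h1 h12 h2 y1 y2 hy1 hy2 i1 i2
  · intro s1 s2 h1 h12 h2 y1 y2 hy1 hy2 i1 i2
    have h := c2_main hA3 hR1 hC1 hC2a hC2b g L hg ht hL Real.pi (-Real.pi)
      (fun x => (hR1 0 0 x x 0).2.2.2.2.2.2.2) s1 s2 h1 h12 h2 y1 (fun s => -y2 s) hy1 hy2.neg i1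
      (by rw [intervalIntegral.integral_neg]; linarith)
    have e : ∀ s, Qf (mG11 g) (mG12 g) (mG22 g) s (y1 s) (-y2 s) =
        Qf (mG11 g) (fun s => -mG12 g s) (mG22 g) s (y1 s) (y2 s) := by
      intro s
      unfold Qf
      ring
    simpa only [e] using h

end Pool.Agent.Work.MP_02f065_gt.Toric

end
end

section

/-!
MP_02f065_gt, item C2b: coming back along the slice while turning (the reverse of a curve of
item C2a).
-/

open MeasureTheory Set Filter Topology

noncomputable section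

namespace Pool.Agent.Work.MP_02f065_gt.Toric

namespace C2bAux

/-- reversal of a curve -/
theorem reverse (g : Form) {c : ℝ → E} {x y : E} (hc : IsCurve c x y) :
    ∃ k, IsCurve k y x ∧ length g k = length g c := by
  refine ⟨fun t => c (1 - t), ⟨?_, fun t => hc.sphere _, ?_, ?_⟩, ?_⟩
  · exact hc.smooth.comp (contDiff_const.sub contDiff_id)
  · simp [hc.right]
  · simp [hc.left]
  · have hder : ∀ t : ℝ, deriv (fun t => c (1 - t)) t = -deriv c (1 - t) := by
      intro t
      have h1 : HasDerivAt c (deriv c (1 - t)) (1 - t) :=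
        ((hc.smooth.differentiable one_ne_zero) (1 - t)).hasDerivAt
      have h2 : HasDerivAt (fun t : ℝ => 1 - t) (-1) t := by
        simpa using (hasDerivAt_id t).const_sub 1
      have h3 := h1.scomp t h2
      have h4 := h3.deriv
      simpa [Function.comp_def] using h4
    unfold length
    have h1 : ∀ t : ℝ, Real.sqrt (g (c (1 - t)) (deriv (fun t => c (1 - t)) t)
        (deriv (fun t => c (1 - t)) t)) =
        (fun u => Real.sqrt (g (c u) (deriv c u) (deriv c u))) (1 - t) := by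
      intro t
      rw [hder]
      simp only [map_neg, _root_.neg_apply, neg_neg]
    simp only [h1]
    rw [intervalIntegral.integral_comp_sub_left (fun u => Real.sqrt (g (c u) (deriv c u)
      (deriv c u))) 1]
    simp

end C2bAux

open C2bAux in
theorem itemC2b (hA2 : claimA2) (hR1 : claimR1) (hR2 : claimR2) (hR3 : claimR3)
    (hC1a : claimC1a) : claimC2b := by
  intro g hg ht s1 s2 θ φ h0 h12 h2 y1 y2 hy1 hy2
  have hsub : Icc s1 s2 ⊆ Ioo 0 (Real.pi / 2) := fun s hs =>
    ⟨lt_of_lt_of_le h0 hs.1, lt_of_le_of_lt hs.2 h2⟩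
  obtain ⟨c, hc, hlen⟩ := itemC2a hA2 hR1 hR2 hR3 hC1a g hg ht s1 s2
    (θ + ∫ s in s1..s2, (y1 s + mb1 g s)) (φ + ∫ s in s1..s2, (y2 s + mb2 g s)) h0 h12 h2
    (fun s => -y1 s) (fun s => -y2 s) hy1.neg hy2.neg
  obtain ⟨k, hk, hlk⟩ := reverse g hc
  have e1 : ∀ (y m : ℝ → ℝ), (∫ s in s1..s2, (-y s - m s)) = -∫ s in s1..s2, (y s + m s) := by
    intro y m
    rw [← intervalIntegral.integral_neg]
    apply intervalIntegral.integral_congr
    intro s _
    simp only
    ring
  rw [e1, e1, add_neg_cancel_right, add_neg_cancel_right] at hk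
  refine ⟨k, hk, ?_⟩
  rw [hlk, hlen]
  apply intervalIntegral.integral_congr
  intro s _
  simp only
  congr 2
  unfold Qf
  ring

end Pool.Agent.Work.MP_02f065_gt.Toric

end
end

section

/-! Assembly of the theorem for P = 1 from the claims. -/

open MeasureTheory Set Filter Topology

noncomputable section

namespace Pool.Agent.Work.MP_02f065_gt.RPn

theorem main1_of (hZ2 : claimZ2) (hZ3 : claimZ3) (hZ4 : claimZ4) (hZ5 : claimZ5)
    (hZ6 : claimZ6) (hZ7 : claimZ7) (hZ11 : claimZ11) (hE4d : claimE4d) (hA6 : claimA6)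
    (hHaar : claimHaar) (hBM : claimBM) (hBL : claimBL) (hBV : claimBV) : claimMain1 := by
  intro Q hQ g hg hconf
  obtain ⟨g₁, u, hg1, ht1, hu, hupos, hgu⟩ := hconf
  have : Nontrivial (Ix 1 Q) :=
    ⟨Sum.inl ⟨0, by omega⟩, Sum.inr ⟨0, by omega⟩, by simp⟩
  obtain ⟨L, hL, hlen, γ, hγ⟩ := hA6 (Ix 1 Q) g hg
  obtain ⟨HP⟩ := hHaar 1
  obtain ⟨HQ⟩ := hHaar Q
  set lam : E (Ix 1 Q) → ℝ := fun x => Real.sqrt (u x) with hlam
  have hlc : ContinuousOn lam (Metric.sphere (0 : E (Ix 1 Q)) 1) := hu.sqrt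
  have hlp : ∀ x, ‖x‖ = 1 → 0 < lam x := fun x hx => Real.sqrt_pos.mpr (hupos x hx)
  have hgl : ∀ x v w : E (Ix 1 Q), ‖x‖ = 1 → inner ℝ x v = 0 → inner ℝ x w = 0 →
      g x v w = (lam x) ^ 2 * g₁ x v w := by
    intro x v w hx hv hw
    rw [hlam]
    simp only
    rw [Real.sq_sqrt (hupos x hx).le]
    exact hgu x v w hx hv hw
  have hle : ∀ x, ‖x‖ = 1 → lam (-x) = lam x :=
    fun x hx => lam_even (by omega) (by omega) hg hg1 hlp hgl x hx
  obtain ⟨h2m, h2t⟩ := hBM 1 Q (by omega) (by omega) HP HQ lam g₁ hg1 ht1 hlc hlp hle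
  have h2L := hBL 1 Q (by omega) (by omega) HP HQ lam g g₁ L hg hg1 ht1 hlc hlp hgl hlen
  have h2v := hBV 1 Q (by omega) (by omega) HP HQ lam g g₁ hg hg1 ht1 hlc hlp hle hgl
  set g₂ := avgMetric HP HQ lam g₁ with hg₂
  have hcore := hZ2 Q hQ g₂ h2m
  have hineq := hZ5 _ L _ _ hcore (hZ3 Q hQ g₂ L h2m h2t h2L) (hZ4 Q hQ g₂ L h2m h2t h2L)
  have h3 := hZ6 (Q - 2) _ L _ _ hL hcore hineq
  have hpi := Real.pi_pos
  have hW2 := hE4d 2 (Q - 2)
  have hW := hE4d 0 (Q - 1)
  have hc7 := hZ7 (Q - 2)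
  have e1 : Q - 2 + 2 = Q := by omega
  have e2 : Q - 2 + 1 = Q - 1 := by omega
  rw [e1, e2] at h3
  rw [e2] at hc7
  obtain ⟨c, hc, hvol, hround⟩ := hZ11 Q hQ
  have h4 := hvol _ h2m h2t
  set I := ∫ s in (0 : ℝ)..(Real.pi / 2), ca g₂ s * Real.sqrt (cG g₂ s) ^ (Q - 1) with hI
  have e5 : Real.pi ^ Q = Real.pi ^ (Q - 1) * Real.pi := by
    rw [← pow_succ]
    congr 1
    omega
  have h5 : 2 * Wc 2 (Q - 2) * ((L / Real.pi) ^ Q * Wc 0 (Q - 1)) ≤ 2 * Wc 2 (Q - 2) * I := by
    refine le_trans (le_of_eq ?_) h3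
    have h6 : 2 * Wc 2 (Q - 2) * ((L / Real.pi) ^ Q * Wc 0 (Q - 1)) =
        (L / Real.pi) ^ Q * (2 * Wc 2 (Q - 2) * Wc 0 (Q - 1)) := by ring
    rw [h6, ← hc7, div_pow, e5]
    field_simp
  have h6 : (L / Real.pi) ^ Q * Wc 0 (Q - 1) ≤ I := le_of_mul_le_mul_left h5 (by positivity)
  refine ⟨γ, L, hγ, ?_⟩
  have e6 : 1 + Q - 1 = Q := by omega
  rw [e6, hround, le_div_iff₀ (by positivity)]
  calc (L / Real.pi) ^ Q * (c * Wc 0 (Q - 1)) = c * ((L / Real.pi) ^ Q * Wc 0 (Q - 1)) := by ring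
    _ ≤ c * I := mul_le_mul_of_nonneg_left h6 hc.le
    _ = vol g₂ := h4.symm
    _ ≤ vol g := h2v

end Pool.Agent.Work.MP_02f065_gt.RPn

end
end

section

/-!
MP_02f065_gt, all dimensions, item A3: concatenation of curves.
-/

open MeasureTheory Set Filter Topology

noncomputable section

namespace Pool.Agent.Work.MP_02f065_gt.RPn

open IA2 in
theorem itemA3 : claimA3 := by
  intro ι _ g c d x y z hg hc hd
  set s := Real.smoothTransition with hs
  set k : ℝ → E ι := fun t => c (s (2 * t)) + d (s (2 * t - 1)) - y with hk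
  have hs_smooth : ContDiff ℝ 1 s := Real.smoothTransition.contDiff (n := 1)
  have hksmooth : ContDiff ℝ 1 k := by
    have e1 : ContDiff ℝ 1 (fun t : ℝ => 2 * t) := contDiff_const.mul contDiff_id
    have e2 : ContDiff ℝ 1 (fun t : ℝ => 2 * t - 1) := e1.sub contDiff_const
    exact ((hc.smooth.comp (hs_smooth.comp e1)).add
      (hd.smooth.comp (hs_smooth.comp e2))).sub contDiff_const
  have hkl : ∀ t : ℝ, t ≤ 1 / 2 → k t = c (s (2 * t)) := by
    intro t ht
    have : s (2 * t - 1) = 0 := Real.smoothTransition.zero_of_nonpos (by linarith)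
    simp only [hk, this, hd.left]
    abel
  have hkr : ∀ t : ℝ, 1 / 2 ≤ t → k t = d (s (2 * t - 1)) := by
    intro t ht
    have : s (2 * t) = 1 := Real.smoothTransition.one_of_one_le (by linarith)
    simp only [hk, this, hc.right]
    abel
  have hsph : ∀ t, ‖k t‖ = 1 := by
    intro t
    rcases le_total t (1 / 2) with h | h
    · rw [hkl t h]
      exact hc.sphere _
    · rw [hkr t h]
      exact hd.sphere _
  have hk0 : k 0 = x := by
    rw [hkl 0 (by norm_num), mul_zero]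
    have : s 0 = 0 := Real.smoothTransition.zero
    rw [this, hc.left]
  have hk1 : k 1 = z := by
    rw [hkr 1 (by norm_num)]
    have : s (2 * 1 - 1) = 1 := Real.smoothTransition.one_of_one_le (by norm_num)
    rw [this, hd.right]
  refine ⟨k, ⟨hksmooth, hsph, hk0, hk1⟩, ?_⟩
  -- derivatives
  have h1 : ∀ t, HasDerivAt (fun t : ℝ => s (2 * t)) (2 * st' (2 * t)) t := by
    intro t
    have e1 : HasDerivAt (fun t : ℝ => 2 * t) 2 t := by
      simpa using (hasDerivAt_id t).const_mul 2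
    have := (hasDerivAt_st (2 * t)).comp t e1
    rw [mul_comm] at this
    exact this
  have h2 : ∀ t, HasDerivAt (fun t : ℝ => s (2 * t - 1)) (2 * st' (2 * t - 1)) t := by
    intro t
    have e1 : HasDerivAt (fun t : ℝ => 2 * t - 1) 2 t := by
      have : HasDerivAt (fun t : ℝ => 2 * t) 2 t := by
        simpa using (hasDerivAt_id t).const_mul 2
      exact this.sub_const 1
    have := (hasDerivAt_st (2 * t - 1)).comp t e1
    rw [mul_comm] at this
    exact this
  have hcd : ∀ u, HasDerivAt c (deriv c u) u := fun u =>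
    (hc.smooth.differentiable (by simp) u).hasDerivAt
  have hdd : ∀ u, HasDerivAt d (deriv d u) u := fun u =>
    (hd.smooth.differentiable (by simp) u).hasDerivAt
  have hkd : ∀ t, HasDerivAt k ((2 * st' (2 * t)) • deriv c (s (2 * t)) +
      (2 * st' (2 * t - 1)) • deriv d (s (2 * t - 1))) t := by
    intro t
    have e1 : HasDerivAt (fun t => c (s (2 * t))) ((2 * st' (2 * t)) • deriv c (s (2 * t))) t :=
      HasDerivAt.scomp t (hcd (s (2 * t))) (h1 t)
    have e2 : HasDerivAt (fun t => d (s (2 * t - 1)))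
        ((2 * st' (2 * t - 1)) • deriv d (s (2 * t - 1))) t :=
      HasDerivAt.scomp t (hdd (s (2 * t - 1))) (h2 t)
    exact (e1.add e2).sub_const y
  have hdl : ∀ t : ℝ, t ≤ 1 / 2 → deriv k t = (2 * st' (2 * t)) • deriv c (s (2 * t)) := by
    intro t ht
    rw [(hkd t).deriv, st'_zero (by linarith : 2 * t - 1 ≤ 0)]
    simp
  have hdr : ∀ t : ℝ, 1 / 2 ≤ t → deriv k t = (2 * st' (2 * t - 1)) • deriv d (s (2 * t - 1)) := by
    intro t ht
    rw [(hkd t).deriv, st'_one (by linarith : 1 ≤ 2 * t)]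
    simp
  -- continuity of the integrand
  have hF : Continuous fun t => Real.sqrt (g (k t) (deriv k t) (deriv k t)) := by
    have hkd' : Continuous (deriv k) := hksmooth.continuous_deriv (by simp)
    exact (iA1_continuous hg hksmooth.continuous hkd' hkd' hsph).sqrt
  unfold length
  rw [← intervalIntegral.integral_add_adjacent_intervals (hF.intervalIntegrable 0 (1 / 2))
    (hF.intervalIntegrable (1 / 2) 1)]
  congr 1
  · have e1 : ∫ t in (0 : ℝ)..(1 / 2), Real.sqrt (g (k t) (deriv k t) (deriv k t)) =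
        ∫ t in (0 : ℝ)..(1 / 2), ((fun u => Real.sqrt (g (c u) (deriv c u) (deriv c u))) ∘
          (fun t : ℝ => s (2 * t))) t * (2 * st' (2 * t)) := by
      apply intervalIntegral.integral_congr
      intro t ht
      rw [uIcc_of_le (by norm_num)] at ht
      simp only [Function.comp_apply]
      rw [hkl t ht.2, hdl t ht.2]
      exact sqrt_smul hg _ _ (mul_nonneg (by norm_num) (st'_nonneg _))
    rw [e1, intervalIntegral.integral_comp_mul_deriv_of_deriv_nonneg
      (fun t _ => (h1 t).continuousAt.continuousWithinAt)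
      (fun t _ => h1 t) (fun t _ => mul_nonneg (by norm_num) (st'_nonneg _))]
    have e2 : s (2 * 0) = 0 := Real.smoothTransition.zero_of_nonpos (by norm_num)
    have e3 : s (2 * (1 / 2)) = 1 := Real.smoothTransition.one_of_one_le (by norm_num)
    rw [e2, e3]
  · have e1 : ∫ t in (1 / 2 : ℝ)..1, Real.sqrt (g (k t) (deriv k t) (deriv k t)) =
        ∫ t in (1 / 2 : ℝ)..1, ((fun u => Real.sqrt (g (d u) (deriv d u) (deriv d u))) ∘
          (fun t : ℝ => s (2 * t - 1))) t * (2 * st' (2 * t - 1)) := by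
      apply intervalIntegral.integral_congr
      intro t ht
      rw [uIcc_of_le (by norm_num)] at ht
      simp only [Function.comp_apply]
      rw [hkr t ht.1, hdr t ht.1]
      exact sqrt_smul hg _ _ (mul_nonneg (by norm_num) (st'_nonneg _))
    rw [e1, intervalIntegral.integral_comp_mul_deriv_of_deriv_nonneg
      (fun t _ => (h2 t).continuousAt.continuousWithinAt)
      (fun t _ => h2 t) (fun t _ => mul_nonneg (by norm_num) (st'_nonneg _))]
    have e2 : s (2 * (1 / 2) - 1) = 0 := Real.smoothTransition.zero_of_nonpos (by norm_num)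
    have e3 : s (2 * 1 - 1) = 1 := Real.smoothTransition.one_of_one_le (by norm_num)
    rw [e2, e3]

end Pool.Agent.Work.MP_02f065_gt.RPn

end
end
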