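import Pool.Agent.Work.MP_02f065_gt.Bd.B03
import Pool.Agent.Work.MP_02f065_gt.RPn.Stmts1
import Pool.Agent.Work.MP_02f065_gt.Bd.B04
import Pool.Agent.Work.MP_02f065_gt.Bd.B01
import Pool.Agent.Work.MP_02f065_gt.Bd.B05
import Pool.Agent.Work.MP_02f065_gt.Toric.ItemA5
import Pool.Agent.Work.MP_02f065_gt.Bd.B02

/-! Bundle of small proof modules (one section per former module). -/

section

/-!
All dimensions, item A4a: comparison of the Riemannian distance with the Euclidean one.
-/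

open MeasureTheory Set Filter Topology

noncomputable section

namespace Pool.Agent.Work.MP_02f065_gt.RPn

variable {ι : Type} [Fintype ι]

theorem a4a_orth {c : ℝ → E ι} (hc : Differentiable ℝ c) (hs : ∀ t, ‖c t‖ = 1) (t : ℝ) :
    inner ℝ (c t) (deriv c t) = 0 := by
  have h1 : HasDerivAt (fun s => inner ℝ (c s) (c s))
      (inner ℝ (c t) (deriv c t) + inner ℝ (deriv c t) (c t)) t :=
    (hc t).hasDerivAt.inner ℝ (hc t).hasDerivAt
  have h2 : (fun s => inner ℝ (c s) (c s)) = fun _ : ℝ => (1 : ℝ) := by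
    funext s
    rw [real_inner_self_eq_norm_sq, hs, one_pow]
  rw [h2] at h1
  have h3 := h1.unique (hasDerivAt_const t (1 : ℝ))
  rw [real_inner_comm (c t) (deriv c t)] at h3
  linarith

theorem a4a_cont {g : Field ι} (hg : IsMetric g) {c : ℝ → E ι} (hc : ContDiff ℝ 1 c)
    (hs : ∀ t, ‖c t‖ = 1) :
    Continuous (fun t => Real.sqrt (g (c t) (deriv c t) (deriv c t))) := by
  have h2 : Continuous (deriv c) := hc.continuous_deriv le_rfl
  exact Real.continuous_sqrt.comp (iA1_continuous hg hc.continuous h2 h2 hs)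

theorem a4a_lower {g : Field ι} (hg : IsMetric g) {m : ℝ} (hm : 0 < m)
    (h : ∀ x v : E ι, ‖x‖ = 1 → inner ℝ x v = 0 → m ^ 2 * ‖v‖ ^ 2 ≤ g x v v)
    {x y : E ι} {c : ℝ → E ι} (hc : IsCurve c x y) : m * ‖x - y‖ ≤ length g c := by
  have hd : Differentiable ℝ c := hc.smooth.differentiable one_ne_zero
  have hdc : Continuous (deriv c) := hc.smooth.continuous_deriv le_rfl
  have h1 : ∫ t in (0 : ℝ)..1, deriv c t = c 1 - c 0 := by
    apply intervalIntegral.integral_deriv_eq_sub (fun t _ => hd t)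
    exact hdc.intervalIntegrable _ _
  have h2 : ‖x - y‖ ≤ ∫ t in (0 : ℝ)..1, ‖deriv c t‖ := by
    have h3 := intervalIntegral.norm_integral_le_integral_norm (f := deriv c) (μ := volume)
      (zero_le_one (α := ℝ))
    rw [h1, hc.left, hc.right, norm_sub_rev] at h3
    exact h3
  have h4 : ∫ t in (0 : ℝ)..1, m * ‖deriv c t‖ ≤ length g c := by
    unfold length
    apply intervalIntegral.integral_mono_on zero_le_one
    · exact (continuous_const.mul hdc.norm).intervalIntegrable _ _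
    · exact (a4a_cont hg hc.smooth hc.sphere).intervalIntegrable _ _
    · intro t _
      apply Real.le_sqrt_of_sq_le
      rw [mul_pow]
      exact h _ _ (hc.sphere t) (a4a_orth hd hc.sphere t)
  rw [intervalIntegral.integral_const_mul] at h4
  exact (mul_le_mul_of_nonneg_left h2 hm.le).trans h4

theorem a4a_b_norm (i : ι) : ‖iA1_b i‖ = 1 := (EuclideanSpace.basisFun ι ℝ).orthonormal.1 i

theorem a4a_b_inner (x : E ι) (i : ι) : inner ℝ x (iA1_b i) = x i := by
  have h := (EuclideanSpace.basisFun ι ℝ).repr_apply_apply x i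
  rw [EuclideanSpace.basisFun_repr, real_inner_comm] at h
  exact h.symm

theorem a4a_unit [Nontrivial ι] (x : E ι) (_hx : ‖x‖ = 1) :
    ∃ n : E ι, ‖n‖ = 1 ∧ inner ℝ x n = 0 := by
  obtain ⟨i, j, hij⟩ := exists_pair_ne ι
  by_cases h0 : x j • iA1_b i - x i • iA1_b j = 0
  · refine ⟨iA1_b i, a4a_b_norm i, ?_⟩
    have h1 : inner ℝ (x j • iA1_b i - x i • iA1_b j) (iA1_b j) = 0 := by rw [h0, inner_zero_left]
    have h2 : inner ℝ (iA1_b i) (iA1_b j) = 0 :=
      (EuclideanSpace.basisFun ι ℝ).orthonormal.2 hij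
    rw [inner_sub_left, real_inner_smul_left, real_inner_smul_left, h2,
      real_inner_self_eq_norm_sq, a4a_b_norm] at h1
    rw [a4a_b_inner]
    linarith
  · have hn : 0 < ‖x j • iA1_b i - x i • iA1_b j‖ := norm_pos_iff.2 h0
    refine ⟨‖x j • iA1_b i - x i • iA1_b j‖⁻¹ • (x j • iA1_b i - x i • iA1_b j), ?_, ?_⟩
    · rw [norm_smul, norm_inv, norm_norm]
      exact inv_mul_cancel₀ hn.ne'
    · rw [real_inner_smul_right, inner_sub_right, real_inner_smul_right, real_inner_smul_right,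
        a4a_b_inner, a4a_b_inner]
      ring

theorem a4a_polar [Nontrivial ι] (x y : E ι) (hx : ‖x‖ = 1) (hy : ‖y‖ = 1) : ∃ (n : E ι) (w : ℝ), ‖n‖ = 1 ∧
    inner ℝ x n = 0 ∧ 0 ≤ w ∧ w ≤ Real.pi ∧ y = Real.cos w • x + Real.sin w • n := by
  have hb : |inner ℝ x y| ≤ 1 := by
    have := abs_real_inner_le_norm x y
    rwa [hx, hy, mul_one] at this
  have hb1 := (abs_le.mp hb).1
  have hb2 := (abs_le.mp hb).2
  have hcos : Real.cos (Real.arccos (inner ℝ x y)) = inner ℝ x y := Real.cos_arccos hb1 hb2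
  have hsin : Real.sin (Real.arccos (inner ℝ x y)) = Real.sqrt (1 - (inner ℝ x y) ^ 2) :=
    Real.sin_arccos _
  have hxx : inner ℝ x x = (1 : ℝ) := by rw [real_inner_self_eq_norm_sq, hx, one_pow]
  have hyy : inner ℝ y y = (1 : ℝ) := by rw [real_inner_self_eq_norm_sq, hy, one_pow]
  by_cases hs : 1 - (inner ℝ x y) ^ 2 ≤ 0
  · obtain ⟨n, hn1, hn2⟩ := a4a_unit x hx
    refine ⟨n, Real.arccos (inner ℝ x y), hn1, hn2, Real.arccos_nonneg _, Real.arccos_le_pi _, ?_⟩
    rw [hcos, hsin, Real.sqrt_eq_zero_of_nonpos hs, zero_smul, add_zero]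
    have h1 : ‖y - (inner ℝ x y) • x‖ ^ 2 = 1 - (inner ℝ x y) ^ 2 := by
      rw [← real_inner_self_eq_norm_sq, inner_sub_left, inner_sub_right, inner_sub_right,
        real_inner_smul_left, real_inner_smul_left, real_inner_smul_right, real_inner_smul_right,
        hxx, hyy, real_inner_comm x y]
      ring
    have h2 : ‖y - (inner ℝ x y) • x‖ = 0 := by
      have h3 : ‖y - (inner ℝ x y) • x‖ ^ 2 ≤ 0 := by rw [h1]; exact hs
      have h4 := sq_nonneg ‖y - (inner ℝ x y) • x‖
      have h5 : ‖y - (inner ℝ x y) • x‖ ^ 2 = 0 := le_antisymm h3 h4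
      exact pow_eq_zero_iff two_ne_zero |>.mp h5
    exact sub_eq_zero.mp (norm_eq_zero.mp h2)
  · push Not at hs
    set s := Real.sqrt (1 - (inner ℝ x y) ^ 2) with hsdef
    have hspos : 0 < s := Real.sqrt_pos.mpr hs
    have hs2 : s ^ 2 = 1 - (inner ℝ x y) ^ 2 := Real.sq_sqrt hs.le
    refine ⟨s⁻¹ • (y - (inner ℝ x y) • x), Real.arccos (inner ℝ x y), ?_, ?_,
      Real.arccos_nonneg _, Real.arccos_le_pi _, ?_⟩
    · have h1 : ‖y - (inner ℝ x y) • x‖ ^ 2 = s ^ 2 := by
        rw [hs2, ← real_inner_self_eq_norm_sq, inner_sub_left, inner_sub_right, inner_sub_right,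
          real_inner_smul_left, real_inner_smul_left, real_inner_smul_right, real_inner_smul_right,
          hxx, hyy, real_inner_comm x y]
        ring
      have h2 : ‖y - (inner ℝ x y) • x‖ = s := by
        have := (sq_eq_sq₀ (norm_nonneg _) hspos.le).mp h1
        exact this
      rw [norm_smul, h2, norm_inv, Real.norm_of_nonneg hspos.le]
      field_simp
    · rw [real_inner_smul_right, inner_sub_right, real_inner_smul_right, hxx]
      ring
    · rw [hcos, hsin, smul_smul, mul_inv_cancel₀ hspos.ne', one_smul]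
      abel

theorem a4a_norm {x n : E ι} (hx : ‖x‖ = 1) (hn : ‖n‖ = 1) (ho : inner ℝ x n = 0) (a b : ℝ) :
    ‖a • x + b • n‖ ^ 2 = a ^ 2 + b ^ 2 := by
  have hxx : inner ℝ x x = (1 : ℝ) := by rw [real_inner_self_eq_norm_sq, hx, one_pow]
  have hnn : inner ℝ n n = (1 : ℝ) := by rw [real_inner_self_eq_norm_sq, hn, one_pow]
  have ho' : inner ℝ n x = 0 := by rw [real_inner_comm]; exact ho
  rw [← real_inner_self_eq_norm_sq, inner_add_left, inner_add_right, inner_add_right,
    real_inner_smul_left, real_inner_smul_left, real_inner_smul_left, real_inner_smul_left,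
    real_inner_smul_right, real_inner_smul_right, real_inner_smul_right, real_inner_smul_right,
    hxx, hnn, ho, ho']
  ring

theorem a4a_upper [Nontrivial ι] {g : Field ι} {M : ℝ} (hM : 0 < M)
    (h : ∀ x v : E ι, ‖x‖ = 1 → inner ℝ x v = 0 → g x v v ≤ M ^ 2 * ‖v‖ ^ 2)
    {x y : E ι} (hx : ‖x‖ = 1) (hy : ‖y‖ = 1) :
    ∃ c, IsCurve c x y ∧ length g c ≤ 2 * M * ‖x - y‖ := by
  obtain ⟨n, w, hn, ho, hw0, hwp, hyw⟩ := a4a_polar x y hx hy
  set c : ℝ → E ι := fun t => Real.cos (w * t) • x + Real.sin (w * t) • n with hcdef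
  have hnorm : ∀ t, ‖c t‖ = 1 := by
    intro t
    have h1 := a4a_norm hx hn ho (Real.cos (w * t)) (Real.sin (w * t))
    rw [Real.cos_sq_add_sin_sq] at h1
    exact (pow_eq_one_iff_of_nonneg (norm_nonneg _) two_ne_zero).mp h1
  have hder : ∀ t, HasDerivAt c ((-Real.sin (w * t) * w) • x + (Real.cos (w * t) * w) • n) t := by
    intro t
    have hl : HasDerivAt (fun s : ℝ => w * s) w t := by
      simpa using (hasDerivAt_id t).const_mul w
    have h1 : HasDerivAt (fun s : ℝ => Real.cos (w * s)) (-Real.sin (w * t) * w) t := hl.cos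
    have h2 : HasDerivAt (fun s : ℝ => Real.sin (w * s)) (Real.cos (w * t) * w) t := hl.sin
    exact (h1.smul_const x).add (h2.smul_const n)
  have hsm : ContDiff ℝ 1 c := by
    apply ContDiff.add
    · exact (Real.contDiff_cos.comp (contDiff_const.mul contDiff_id)).smul contDiff_const
    · exact (Real.contDiff_sin.comp (contDiff_const.mul contDiff_id)).smul contDiff_const
  have hcurve : IsCurve c x y := by
    refine ⟨hsm, hnorm, ?_, ?_⟩
    · simp [hcdef]
    · simp [hcdef, ← hyw]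
  refine ⟨c, hcurve, ?_⟩
  have hdn : ∀ t, ‖deriv c t‖ = w := by
    intro t
    rw [(hder t).deriv]
    have h1 := a4a_norm hx hn ho (-Real.sin (w * t) * w) (Real.cos (w * t) * w)
    have h2 : (-Real.sin (w * t) * w) ^ 2 + (Real.cos (w * t) * w) ^ 2 = w ^ 2 := by
      have := Real.sin_sq_add_cos_sq (w * t)
      linear_combination w ^ 2 * this
    rw [h2] at h1
    exact (sq_eq_sq₀ (norm_nonneg _) hw0).mp h1
  have hlen : length g c ≤ M * w := by
    have h1 := intervalIntegral.norm_integral_le_of_norm_le_const (a := (0 : ℝ)) (b := 1)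
      (f := fun t => Real.sqrt (g (c t) (deriv c t) (deriv c t))) (C := M * w) (by
        intro t _
        rw [Real.norm_of_nonneg (Real.sqrt_nonneg _)]
        apply Real.sqrt_le_iff.mpr
        refine ⟨by positivity, ?_⟩
        have h2 := h (c t) (deriv c t) (hnorm t)
          (a4a_orth (hsm.differentiable one_ne_zero) hnorm t)
        rw [hdn t] at h2
        rw [mul_pow]
        exact h2)
    rw [sub_zero, abs_one, mul_one] at h1
    exact (Real.le_norm_self _).trans h1
  have hw : w ≤ 2 * ‖x - y‖ := by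
    have h1 : ‖x - y‖ ^ 2 = (2 * Real.sin (w / 2)) ^ 2 := by
      have h2 : x - y = (1 - Real.cos w) • x + (-Real.sin w) • n := by
        rw [hyw]
        module
      rw [h2, a4a_norm hx hn ho]
      have h3 : Real.cos w = 1 - 2 * Real.sin (w / 2) ^ 2 := by
        have := Real.cos_two_mul (w / 2)
        rw [mul_div_cancel₀ w two_ne_zero] at this
        have h4 := Real.sin_sq_add_cos_sq (w / 2)
        rw [this]
        linear_combination 2 * h4
      have h5 := Real.sin_sq_add_cos_sq w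
      have h6 : (1 - Real.cos w) ^ 2 + (-Real.sin w) ^ 2 = 2 * (1 - Real.cos w) := by
        linear_combination h5
      rw [h6, h3]
      ring
    have h7 : 0 ≤ Real.sin (w / 2) :=
      Real.sin_nonneg_of_nonneg_of_le_pi (by linarith) (by linarith)
    have h8 : ‖x - y‖ = 2 * Real.sin (w / 2) := (sq_eq_sq₀ (norm_nonneg _) (by linarith)).mp h1
    have h9 := Real.mul_le_sin (x := w / 2) (by linarith) (by linarith)
    have h10 : 1 / 2 * (w / 2) ≤ 2 / Real.pi * (w / 2) := by
      apply mul_le_mul_of_nonneg_right _ (by linarith)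
      rw [div_le_div_iff₀ two_pos Real.pi_pos]
      linarith [Real.pi_le_four]
    rw [h8]
    linarith
  calc length g c ≤ M * w := hlen
    _ ≤ M * (2 * ‖x - y‖) := mul_le_mul_of_nonneg_left hw hM.le
    _ = 2 * M * ‖x - y‖ := by ring

theorem itemA4a (h1 : claimA1) : claimA4a := by
  intro ι _ _ g hg
  obtain ⟨m, M, hm, hM, h⟩ := h1 ι g hg
  refine ⟨m, 2 * M, hm, by positivity, ?_⟩
  intro x y hx hy
  obtain ⟨c, hc, hl⟩ := a4a_upper hM (fun x v hx hv => (h x v hx hv).2) hx hy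
  have hlow : ∀ l ∈ {l | ∃ c, IsCurve c x y ∧ length g c = l}, m * ‖x - y‖ ≤ l := by
    rintro l ⟨c', hc', rfl⟩
    exact a4a_lower hg hm (fun x v hx hv => (h x v hx hv).1) hc'
  refine ⟨⟨c, hc⟩, ?_, ?_⟩
  · exact le_csInf ⟨_, c, hc, rfl⟩ hlow
  · exact (csInf_le ⟨_, hlow⟩ ⟨c, hc, rfl⟩).trans hl

end Pool.Agent.Work.MP_02f065_gt.RPn

end
end

section

/-!
MP_02f065_gt, all dimensions, item A4b: basic properties of the Riemannian distance.
-/

open MeasureTheory Set Filter Topology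

noncomputable section

namespace Pool.Agent.Work.MP_02f065_gt.RPn

variable {ι : Type} [Fintype ι]

private theorem a4b_neg_neg {g : Field ι} (hg : IsMetric g) (x v : E ι) :
    g x (-v) (-v) = g x v v := by
  have h := iA1_smul_smul hg x v (-1)
  rw [neg_one_smul] at h
  rw [h]
  ring

private theorem a4b_len_nonneg (g : Field ι) (c : ℝ → E ι) : 0 ≤ length g c :=
  intervalIntegral.integral_nonneg (by norm_num) fun _ _ => Real.sqrt_nonneg _

private theorem a4b_bdd (g : Field ι) (x y : E ι) :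
    BddBelow {l | ∃ c, IsCurve c x y ∧ length g c = l} := by
  refine ⟨0, ?_⟩
  rintro l ⟨c, -, rfl⟩
  exact a4b_len_nonneg g c

private theorem a4b_le (g : Field ι) {x y : E ι} {c : ℝ → E ι} (hc : IsCurve c x y) :
    rdist g x y ≤ length g c :=
  csInf_le (a4b_bdd g x y) ⟨c, hc, rfl⟩

private theorem a4b_tangent {c : ℝ → E ι} {x y : E ι} (hc : IsCurve c x y) (t : ℝ) :
    inner ℝ (c t) (deriv c t) = 0 := by
  have hd : HasDerivAt c (deriv c t) t :=
    (hc.smooth.differentiable (by norm_num)).differentiableAt.hasDerivAt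
  have h1 : HasDerivAt (fun s => inner ℝ (c s) (c s))
      (inner ℝ (c t) (deriv c t) + inner ℝ (deriv c t) (c t)) t := hd.inner ℝ hd
  have h2 : (fun s => inner ℝ (c s) (c s)) = fun _ => (1 : ℝ) := by
    funext s
    rw [real_inner_self_eq_norm_sq, hc.sphere s, one_pow]
  rw [h2] at h1
  have h3 := h1.unique (hasDerivAt_const t (1 : ℝ))
  rw [real_inner_comm (c t) (deriv c t)] at h3
  linarith

private theorem a4b_rev {g : Field ι} (hg : IsMetric g) {c : ℝ → E ι} {x y : E ι} (hc : IsCurve c x y) :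
    ∃ k, IsCurve k y x ∧ length g k = length g c := by
  refine ⟨fun t => c (1 - t), ⟨?_, fun t => hc.sphere _, ?_, ?_⟩, ?_⟩
  · exact hc.smooth.comp (contDiff_const.sub contDiff_id)
  · simpa using hc.right
  · simpa using hc.left
  · have h1 : ∀ t : ℝ, deriv (fun t => c (1 - t)) t = -deriv c (1 - t) := by
      intro t
      exact deriv_comp_const_sub (f := c) 1 t
    unfold length
    have h2 : (fun t : ℝ => Real.sqrt (g (c (1 - t)) (deriv (fun t => c (1 - t)) t)
        (deriv (fun t => c (1 - t)) t))) =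
        fun t : ℝ => (fun s => Real.sqrt (g (c s) (deriv c s) (deriv c s))) (1 - t) := by
      funext t
      rw [h1 t, a4b_neg_neg hg]
    rw [h2, intervalIntegral.integral_comp_sub_left
      (fun s => Real.sqrt (g (c s) (deriv c s) (deriv c s))) 1]
    norm_num

private theorem a4b_neg {g : Field ι} (hg : IsMetric g) {c : ℝ → E ι} {x y : E ι}
    (hc : IsCurve c x y) :
    ∃ k, IsCurve k (-x) (-y) ∧ length g k = length g c := by
  refine ⟨fun t => -c t, ⟨hc.smooth.neg, fun t => ?_, ?_, ?_⟩, ?_⟩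
  · rw [norm_neg]; exact hc.sphere t
  · simp [hc.left]
  · simp [hc.right]
  · unfold length
    congr 1
    funext t
    have h1 : deriv (fun t => -c t) t = -deriv c t := deriv.fun_neg
    have h2 := a4b_tangent hc t
    have h3 := hg.even (c t) (deriv c t) (deriv c t) (hc.sphere t) h2 h2
    rw [h1, a4b_neg_neg hg]
    rw [h3]

theorem itemA4b (hA3 : claimA3) (hA4a : claimA4a) : claimA4b := by
  intro ι _ _ g hg
  refine ⟨fun x y c hc => a4b_le g hc, ?_⟩
  intro x y z hx hy hz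
  obtain ⟨m, M, hm, hM, hex⟩ := hA4a ι g hg
  have hne : ∀ x y : E ι, ‖x‖ = 1 → ‖y‖ = 1 →
      {l | ∃ c, IsCurve c x y ∧ length g c = l}.Nonempty := by
    intro x y hx hy
    obtain ⟨⟨c, hc⟩, -⟩ := hex x y hx hy
    exact ⟨_, c, hc, rfl⟩
  refine ⟨?_, ?_, ?_⟩
  · unfold rdist
    congr 1
    ext l
    constructor
    · rintro ⟨c, hc, rfl⟩
      exact a4b_rev hg hc
    · rintro ⟨c, hc, rfl⟩
      exact a4b_rev hg hc
  · unfold rdist
    congr 1
    ext l
    constructor
    · rintro ⟨c, hc, rfl⟩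
      obtain ⟨k, hk, hl⟩ := a4b_neg hg hc
      rw [neg_neg, neg_neg] at hk
      exact ⟨k, hk, hl⟩
    · rintro ⟨c, hc, rfl⟩
      exact a4b_neg hg hc
  · refine le_of_forall_pos_le_add ?_
    intro ε hε
    obtain ⟨_, ⟨c, hc, rfl⟩, hc2⟩ := exists_lt_of_csInf_lt (hne x y hx hy)
      (show sInf {l | ∃ c, IsCurve c x y ∧ length g c = l} < rdist g x y + ε / 2 by
        change rdist g x y < _; linarith)
    obtain ⟨_, ⟨d, hd, rfl⟩, hd2⟩ := exists_lt_of_csInf_lt (hne y z hy hz)
      (show sInf {l | ∃ c, IsCurve c y z ∧ length g c = l} < rdist g y z + ε / 2 by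
        change rdist g y z < _; linarith)
    obtain ⟨k, hk, hkl⟩ := hA3 ι g c d x y z hg hc hd
    have := a4b_le g hk
    linarith

end Pool.Agent.Work.MP_02f065_gt.RPn

end
end

section

/-! Item Z0: elementary properties of the polar coordinates on the great 2-sphere. -/

open MeasureTheory Set Filter Topology

noncomputable section

namespace Pool.Agent.Work.MP_02f065_gt.RPn

/-- The vector `(c; a, b, 0, ...)`. -/
def iZ0_v {Q : ℕ} (c a b : ℝ) : E (Ix 1 Q) := WithLp.toLp 2
  (Sum.elim (fun _ => c) (fun j => if j.val = 0 then a else if j.val = 1 then b else 0))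

theorem iZ0_inner {Q : ℕ} (hQ : 2 ≤ Q) (c a b c' a' b' : ℝ) :
    inner ℝ (iZ0_v c a b : E (Ix 1 Q)) (iZ0_v c' a' b') = c * c' + a * a' + b * b' := by
  obtain ⟨q, rfl⟩ := Nat.exists_eq_add_of_le hQ
  rw [show 2 + q = q + 1 + 1 by ring]
  simp only [iZ0_v, PiLp.inner_apply, Fintype.sum_sum_type, Sum.elim_inl, Sum.elim_inr,
    Fin.sum_univ_succ, Fin.sum_univ_zero]
  simp
  ring

theorem iZ0_norm {Q : ℕ} (hQ : 2 ≤ Q) (c a b : ℝ) :
    ‖(iZ0_v c a b : E (Ix 1 Q))‖ ^ 2 = c ^ 2 + a ^ 2 + b ^ 2 := by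
  rw [← real_inner_self_eq_norm_sq, iZ0_inner hQ]
  ring

theorem iZ0_neg {Q : ℕ} (c a b : ℝ) : -(iZ0_v c a b : E (Ix 1 Q)) = iZ0_v (-c) (-a) (-b) := by
  ext k
  rcases k with i | j
  · simp [iZ0_v]
  · simp only [iZ0_v, PiLp.neg_apply, Sum.elim_inr]
    split_ifs <;> simp

theorem iZ0_w {Q : ℕ} (s θ : ℝ) : (w s θ : E (Ix 1 Q)) =
    iZ0_v (Real.cos s) (Real.sin s * Real.cos θ) (Real.sin s * Real.sin θ) := rfl

theorem iZ0_ws {Q : ℕ} (s θ : ℝ) : (ws s θ : E (Ix 1 Q)) =
    iZ0_v (-Real.sin s) (Real.cos s * Real.cos θ) (Real.cos s * Real.sin θ) := rfl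

theorem iZ0_wt {Q : ℕ} (s θ : ℝ) : (wt s θ : E (Ix 1 Q)) =
    iZ0_v 0 (-(Real.sin s * Real.sin θ)) (Real.sin s * Real.cos θ) := rfl

theorem iZ0_one {x : ℝ} (hx : 0 ≤ x) (h : x ^ 2 = 1) : x = 1 := by nlinarith

theorem itemZ0 : claimZ0 := by
  intro Q hQ
  refine ⟨fun s θ => ?_, fun θ => ?_⟩
  · have h1 := Real.cos_sq_add_sin_sq s
    have h2 := Real.cos_sq_add_sin_sq θ
    have h3 : (Real.sin s * Real.cos θ) ^ 2 + (Real.sin s * Real.sin θ) ^ 2 = Real.sin s ^ 2 := by
      calc _ = Real.sin s ^ 2 * (Real.cos θ ^ 2 + Real.sin θ ^ 2) := by ring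
        _ = _ := by rw [h2, mul_one]
    have h4 : (Real.cos s * Real.cos θ) ^ 2 + (Real.cos s * Real.sin θ) ^ 2 = Real.cos s ^ 2 := by
      calc _ = Real.cos s ^ 2 * (Real.cos θ ^ 2 + Real.sin θ ^ 2) := by ring
        _ = _ := by rw [h2, mul_one]
    have h5 : Real.sin s * Real.cos θ * (Real.cos s * Real.cos θ) +
        Real.sin s * Real.sin θ * (Real.cos s * Real.sin θ) = Real.sin s * Real.cos s := by
      calc _ = Real.sin s * Real.cos s * (Real.cos θ ^ 2 + Real.sin θ ^ 2) := by ring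
        _ = _ := by rw [h2, mul_one]
    refine ⟨?_, ?_, ?_, ?_, ?_, ?_, ?_, ?_, ?_⟩
    · apply iZ0_one (norm_nonneg _)
      rw [iZ0_w, iZ0_norm hQ]
      linarith
    · rw [iZ0_w, iZ0_ws, iZ0_inner hQ]
      linarith
    · rw [iZ0_w, iZ0_wt, iZ0_inner hQ]
      ring
    · apply iZ0_one (norm_nonneg _)
      rw [iZ0_ws, iZ0_norm hQ, neg_sq]
      linarith
    · rw [iZ0_ws, iZ0_wt, iZ0_inner hQ]
      ring
    · rw [iZ0_wt, iZ0_norm hQ, neg_sq]
      linarith
    · rw [iZ0_w, iZ0_w, iZ0_neg, Real.cos_pi_sub, Real.sin_pi_sub, Real.cos_add_pi,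
        Real.sin_add_pi]
      congr 1 <;> ring
    · rw [iZ0_ws, iZ0_ws, Real.cos_pi_sub, Real.sin_pi_sub, Real.cos_add_pi, Real.sin_add_pi]
      congr 1 <;> ring
    · rw [iZ0_wt, iZ0_wt, iZ0_neg, Real.sin_pi_sub, Real.cos_add_pi, Real.sin_add_pi]
      congr 1 <;> ring
  · obtain ⟨q, rfl⟩ := Nat.exists_eq_add_of_le hQ
    obtain ⟨B, hB, hB2⟩ := iS1_rot q θ
    refine ⟨B, hB, ?_⟩
    have key : ∀ c a b : ℝ, blk (1 : Matrix (Fin 1) (Fin 1) ℝ) B (iZ0_v c a b : E (Ix 1 (2 + q))) =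
        iZ0_v c (Real.cos θ * a - Real.sin θ * b) (Real.sin θ * a + Real.cos θ * b) := by
      intro c a b
      unfold blk
      have h1 : blkC (1 : Matrix (Fin 1) (Fin 1) ℝ) B (iZ0_v c a b : E (Ix 1 (2 + q))) =
          Sum.elim (fun _ => c) (fun j => if j.val = 0 then Real.cos θ * a - Real.sin θ * b
            else if j.val = 1 then Real.sin θ * a + Real.cos θ * b else 0) := by
        funext k
        rcases k with i | j
        · show ((1 : Matrix (Fin 1) (Fin 1) ℝ).mulVec fun _ => c) i = c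
          rw [Matrix.one_mulVec]
        · show B.mulVec (fun i : Fin (2 + q) => if i.val = 0 then a else if i.val = 1 then b
            else 0) j = _
          rw [hB2]
          rfl
      rw [h1]
      rfl
    intro s φ
    refine ⟨?_, ?_, ?_⟩
    · rw [iZ0_w, iZ0_w, key, Real.cos_add, Real.sin_add]
      congr 1 <;> ring
    · rw [iZ0_ws, iZ0_ws, key, Real.cos_add, Real.sin_add]
      congr 1 <;> ring
    · rw [iZ0_wt, iZ0_wt, key, Real.cos_add, Real.sin_add]
      congr 1 <;> ring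

end Pool.Agent.Work.MP_02f065_gt.RPn

end
end

section

/-!
MP_02f065_gt, item Z1: invariance of the coefficients of an SO(Q)-invariant metric.
-/

open MeasureTheory Set Filter Topology

noncomputable section

namespace Pool.Agent.Work.MP_02f065_gt.RPn

theorem iZ1_neg {ι : Type} [Fintype ι] {g : Field ι} (hg : IsMetric g) (x v w : E ι) :
    g x v (-w) = -g x v w := by
  have h := hg.smul x w v (-1)
  rw [hg.symm x v (-w), hg.symm x v w]
  simpa using h

theorem itemZ1 (_hR : claimR) (hZ : claimZ0) : claimZ1 := by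
  intro Q hQ g hg hinv
  obtain ⟨h1, h2⟩ := hZ Q hQ
  have part1 : ∀ s θ : ℝ, g (w s θ) (ws s θ) (ws s θ) = cA g s ∧
      g (w s θ) (ws s θ) (wt s θ) = cB g s ∧ g (w s θ) (wt s θ) (wt s θ) = cG g s := by
    intro s θ
    obtain ⟨B, hB, hrot⟩ := h2 θ
    obtain ⟨r1, r2, r3⟩ := hrot s 0
    rw [zero_add] at r1 r2 r3
    obtain ⟨n1, n2, n3, -⟩ := h1 s 0
    have key := hinv 1 (one_mem _) B hB
    refine ⟨?_, ?_, ?_⟩
    · have := key (w s 0) (ws s 0) (ws s 0) n1 n2 n2
      rw [r1, r2] at this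
      exact this
    · have := key (w s 0) (ws s 0) (wt s 0) n1 n2 n3
      rw [r1, r2, r3] at this
      exact this
    · have := key (w s 0) (wt s 0) (wt s 0) n1 n3 n3
      rw [r1, r3] at this
      exact this
  refine ⟨part1, ?_⟩
  intro s
  obtain ⟨-, -, -, -, -, -, e1, e2, e3⟩ := h1 s 0
  rw [zero_add] at e1 e2 e3
  obtain ⟨n1, n2, n3, -⟩ := h1 s Real.pi
  obtain ⟨p1, p2, p3⟩ := part1 s Real.pi
  have hneg1 : ∀ x v u : E (Ix 1 Q), g x (-v) u = -g x v u := by
    intro x v u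
    rw [hg.symm, iZ1_neg hg, hg.symm]
  refine ⟨?_, ?_, ?_⟩
  · unfold cA
    rw [e1, e2, hg.even _ _ _ n1 n2 n2, p1]
    rfl
  · unfold cB
    rw [e1, e2, e3, iZ1_neg hg, hg.even _ _ _ n1 n2 n3, p2]
    rfl
  · unfold cG
    rw [e1, e3, iZ1_neg hg, hneg1, neg_neg, hg.even _ _ _ n1 n3 n3, p3]
    rfl

end Pool.Agent.Work.MP_02f065_gt.RPn

end
end

section

namespace Pool.Agent.Work.MP_02f065_gt.RPn

theorem iZ10_tang {ι : Type} [Fintype ι] [DecidableEq ι] (x v : E ι) : tang (-x) v = tang x v := by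
  unfold tang
  rw [inner_neg_left, neg_smul_neg]

theorem iZ10_orth {ι : Type} [Fintype ι] [DecidableEq ι] (x v : E ι) (hx : ‖x‖ = 1) :
    inner ℝ x (tang x v) = 0 := by
  unfold tang
  rw [inner_sub_right, inner_smul_right, real_inner_self_eq_norm_sq, hx]
  ring

theorem itemZ10 : claimZ10 := by
  intro ι _ _ g hg x hx
  have h : gram g (-x) = gram g x := by
    funext i j
    unfold gram
    rw [iZ10_tang, iZ10_tang, hg.even x _ _ hx (iZ10_orth x _ hx) (iZ10_orth x _ hx)]
    have e1 : (-x) i = - (x i) := rfl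
    have e2 : (-x) j = - (x j) := rfl
    rw [e1, e2]
    ring
  unfold volDensity
  rw [h]

end Pool.Agent.Work.MP_02f065_gt.RPn

end

section

/-!
MP_02f065_gt, item Z11: the volume of a rotationally symmetric metric and of the round metric.
-/

set_option autoImplicit false

open MeasureTheory Set

namespace Pool.Agent.Work.MP_02f065_gt.RPn

theorem iZ11_gram {ι : Type} [Fintype ι] [DecidableEq ι] (x : E ι) (hx : ‖x‖ = 1) (i j : ι) :
    gram (round : Field ι) x i j = if i = j then 1 else 0 := by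
  have hxx : inner ℝ x x = 1 := by
    rw [real_inner_self_eq_norm_sq, hx]; norm_num
  have hxi : ∀ k : ι, inner ℝ x (ei k) = x k := by
    intro k
    rw [ei, EuclideanSpace.inner_single_right]
    simp
  have hix : ∀ k : ι, inner ℝ (ei k) x = x k := by
    intro k
    rw [real_inner_comm, hxi]
  have hij : inner ℝ (ei i : E ι) (ei j) = if i = j then 1 else 0 := by
    rw [ei, ei, EuclideanSpace.inner_single_right]
    simp [eq_comm]
  unfold gram round tang
  simp only [inner_sub_left, inner_sub_right, inner_smul_left, inner_smul_right, hxx, hxi, hix,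
    hij, RCLike.conj_to_real]
  ring

theorem iZ11_round {ι : Type} [Fintype ι] [DecidableEq ι] (x : E ι) (hx : ‖x‖ = 1) :
    volDensity (round : Field ι) x = 1 := by
  have h : Matrix.of (gram (round : Field ι) x) = 1 := by
    ext i j
    rw [Matrix.of_apply, iZ11_gram x hx, Matrix.one_apply]
  rw [volDensity, h, Matrix.det_one, Real.sqrt_one]

theorem itemZ11 (hBD2 : claimBD2) (hBD3 : claimBD3) (hZ8 : claimZ8) (hZ9 : claimZ9)
    (hZ10 : claimZ10) : claimZ11 := by
  intro Q hQ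
  obtain ⟨c, hc, h1⟩ := hZ8 Q hQ
  refine ⟨c / 2, by positivity, ?_, ?_⟩
  · intro g hg hinv
    unfold vol
    rw [h1 (volDensity g) (hBD3 _ g hg)
      (fun A hA B hB x hx => hBD2 1 Q g hg hinv A hA B hB x hx)
      (fun x hx => hZ10 _ g hg x hx)]
    have hpi : (0 : ℝ) ≤ Real.pi / 2 := by positivity
    have key : ∫ s in (0 : ℝ)..(Real.pi / 2),
          volDensity g (w s 0) * Real.sin s ^ (Q - 1) =
        ∫ s in (0 : ℝ)..(Real.pi / 2), ca g s * Real.sqrt (cG g s) ^ (Q - 1) := by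
      rw [intervalIntegral.integral_of_le hpi, intervalIntegral.integral_of_le hpi,
        integral_Ioc_eq_integral_Ioo, integral_Ioc_eq_integral_Ioo]
      exact setIntegral_congr_fun measurableSet_Ioo fun s hs => hZ9 Q hQ g hg hinv s hs
    rw [key]
    ring
  · have h2 := h1 (fun _ => 1) continuousOn_const (fun _ _ _ _ _ _ => rfl) (fun _ _ => rfl)
    have h3 : ∫ x : Metric.sphere (0 : E (Ix 1 Q)) 1, volDensity (round : Field (Ix 1 Q)) x
          ∂((volume : Measure (E (Ix 1 Q))).toSphere) =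
        ∫ x : Metric.sphere (0 : E (Ix 1 Q)) 1, (1 : ℝ)
          ∂((volume : Measure (E (Ix 1 Q))).toSphere) := by
      refine integral_congr_ae (Filter.Eventually.of_forall fun x => ?_)
      exact iZ11_round x.1 (by simp)
    unfold vol Wc
    rw [h3, h2]
    simp only [one_mul, pow_zero]
    ring

end Pool.Agent.Work.MP_02f065_gt.RPn

end

section

/-!
MP_02f065_gt, item Z2: the data of the one-dimensional problem.
-/

set_option autoImplicit false

open MeasureTheory Set

namespace Pool.Agent.Work.MP_02f065_gt.RPn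

theorem itemZ2 (h2a : claimZ2a) : claimZ2 := by
  intro Q hQ g hg
  obtain ⟨hA, hB, hG, hpos⟩ := h2a Q hQ g hg
  have hpi := Real.pi_pos
  have hsub : ∀ s ∈ Ioc (0 : ℝ) (Real.pi / 2), s ∈ Ioo 0 Real.pi := fun s hs =>
    ⟨hs.1, by linarith [hs.2]⟩
  have hca : ContinuousOn (ca g) (Ioc 0 (Real.pi / 2)) := by
    unfold ca
    refine ContinuousOn.sqrt (hA.continuousOn.sub ?_)
    exact (hB.pow 2).continuousOn.div hG.continuousOn fun s hs => (hpos s (hsub s hs)).1.ne'
  obtain ⟨M, hM⟩ := (isCompact_Icc (a := (0 : ℝ)) (b := Real.pi / 2)).bddAbove_image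
    hA.continuousOn
  refine ⟨by positivity, hca, hG.continuousOn, ?_, fun s hs => (hpos s (hsub s hs)).1, ?_, ?_⟩
  · intro s hs
    exact Real.sqrt_pos.mpr (hpos s (hsub s hs)).2
  · rw [intervalIntegrable_iff_integrableOn_Ioc_of_le (by positivity)]
    refine Integrable.of_bound (hca.aestronglyMeasurable measurableSet_Ioc) (Real.sqrt M) ?_
    · rw [ae_restrict_iff' measurableSet_Ioc]
      refine Filter.Eventually.of_forall fun s hs => ?_
      rw [Real.norm_eq_abs, ca, abs_of_nonneg (Real.sqrt_nonneg _)]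
      refine Real.sqrt_le_sqrt ?_
      have h1 : cA g s ≤ M := hM ⟨s, ⟨hs.1.le, hs.2⟩, rfl⟩
      have h3 : 0 ≤ cB g s ^ 2 / cG g s :=
        div_nonneg (sq_nonneg _) (hpos s (hsub s hs)).1.le
      linarith
  · have h1 : (wt 0 0 : E (Ix 1 Q)) = (0 : ℝ) • (wt 0 0 : E (Ix 1 Q)) := by
      rw [zero_smul]
      ext i
      rcases i with i | i
      · rfl
      · change (if i.val = 0 then -(Real.sin 0 * Real.sin 0) else if i.val = 1 then
          Real.sin 0 * Real.cos 0 else 0) = (0 : ℝ)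
        simp
    unfold cG
    have h2 := hg.smul (w 0 0) (wt 0 0) (wt 0 0) 0
    rw [← h1, zero_mul] at h2
    exact h2

end Pool.Agent.Work.MP_02f065_gt.RPn

end

section

open MeasureTheory Set Filter Topology

noncomputable section

namespace Pool.Agent.Work.MP_02f065_gt.RPn

theorem iZ2a_ws (q : ℕ) (s : ℝ) : (ws s 0 : E (Ix 1 (q + 2))) =
    (-Real.sin s) • ei (Sum.inl 0) + Real.cos s • ei (Sum.inr 0) := by
  ext k
  rcases k with a | a
  · have : a = 0 := Subsingleton.elim _ _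
    subst this
    simp [ws, ei]
  · by_cases h0 : a = 0
    · subst h0
      simp [ws, ei]
    · have h1 : a.val ≠ 0 := fun h => h0 (Fin.ext (by simpa using h))
      simp [ws, ei, h0]

theorem iZ2a_wt (q : ℕ) (s : ℝ) : (wt s 0 : E (Ix 1 (q + 2))) =
    Real.sin s • ei (Sum.inr 1) := by
  ext k
  rcases k with a | a
  · simp [wt, ei]
  · by_cases h0 : a = 0
    · subst h0
      simp [wt, ei]
    · by_cases h1 : a = 1
      · subst h1
        simp [wt, ei]
      · have h1' : a.val ≠ 1 := fun h => h1 (Fin.ext (by simpa using h))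
        simp [wt, ei, h0, h1, h1']

theorem iZ2a_cont (Q : ℕ) : Continuous fun s : ℝ => (w s 0 : E (Ix 1 Q)) := by
  unfold w
  refine (PiLp.continuous_toLp 2 _).comp (continuous_pi fun k => ?_)
  rcases k with a | a
  · simpa using Real.continuous_cos
  · by_cases h0 : a.val = 0
    · simpa [h0] using Real.continuous_sin
    · by_cases h1 : a.val = 1
      · simp [h1]
        exact continuous_const
      · simp [h0, h1]
        exact continuous_const

theorem iZ2a_lin {Q : ℕ} {g : Field (Ix 1 Q)} (hg : IsMetric g) (x u v z : E (Ix 1 Q))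
    (a b : ℝ) : g x (a • u + b • v) z = a * g x u z + b * g x v z := by
  rw [hg.add, hg.smul, hg.smul]

theorem iZ2a_lin' {Q : ℕ} {g : Field (Ix 1 Q)} (hg : IsMetric g) (x u v z : E (Ix 1 Q))
    (a b : ℝ) : g x z (a • u + b • v) = a * g x z u + b * g x z v := by
  rw [hg.symm, iZ2a_lin hg, hg.symm x u z, hg.symm x v z]

theorem iZ2a_smul' {Q : ℕ} {g : Field (Ix 1 Q)} (hg : IsMetric g) (x u z : E (Ix 1 Q))
    (a : ℝ) : g x z (a • u) = a * g x z u := by
  rw [hg.symm, hg.smul, hg.symm x u z]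

theorem itemZ2a (h0 : claimZ0) : claimZ2a := by
  intro Q hQ g hg
  obtain ⟨hz, _⟩ := h0 Q hQ
  obtain ⟨q, rfl⟩ : ∃ q, Q = q + 2 := ⟨Q - 2, by omega⟩
  have hc : ∀ v v' : E (Ix 1 (q + 2)), Continuous fun s : ℝ => g (w s 0) v v' := by
    intro v v'
    refine (hg.cont v v').comp_continuous (iZ2a_cont _) fun s => ?_
    rw [mem_sphere_zero_iff_norm]
    exact (hz s 0).1
  refine ⟨?_, ?_, ?_, ?_⟩
  · have : cA g = fun s => (-Real.sin s) * ((-Real.sin s) * g (w s 0) (ei (Sum.inl 0))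
        (ei (Sum.inl 0)) + Real.cos s * g (w s 0) (ei (Sum.inl 0)) (ei (Sum.inr 0))) +
        Real.cos s * ((-Real.sin s) * g (w s 0) (ei (Sum.inr 0))
        (ei (Sum.inl 0)) + Real.cos s * g (w s 0) (ei (Sum.inr 0)) (ei (Sum.inr 0))) := by
      funext s
      unfold cA
      rw [iZ2a_ws, iZ2a_lin hg, iZ2a_lin' hg, iZ2a_lin' hg]
    rw [this]
    exact (Real.continuous_sin.neg.mul ((Real.continuous_sin.neg.mul (hc _ _)).add
      (Real.continuous_cos.mul (hc _ _)))).add (Real.continuous_cos.mul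
      ((Real.continuous_sin.neg.mul (hc _ _)).add (Real.continuous_cos.mul (hc _ _))))
  · have : cB g = fun s => (-Real.sin s) * (Real.sin s * g (w s 0) (ei (Sum.inl 0))
        (ei (Sum.inr 1))) + Real.cos s * (Real.sin s * g (w s 0) (ei (Sum.inr 0))
        (ei (Sum.inr 1))) := by
      funext s
      unfold cB
      rw [iZ2a_ws, iZ2a_wt, iZ2a_lin hg, iZ2a_smul' hg, iZ2a_smul' hg]
    rw [this]
    exact (Real.continuous_sin.neg.mul (Real.continuous_sin.mul (hc _ _))).add
      (Real.continuous_cos.mul (Real.continuous_sin.mul (hc _ _)))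
  · have : cG g = fun s => Real.sin s * (Real.sin s * g (w s 0) (ei (Sum.inr 1))
        (ei (Sum.inr 1))) := by
      funext s
      unfold cG
      rw [iZ2a_wt, hg.smul, iZ2a_smul' hg]
    rw [this]
    exact Real.continuous_sin.mul (Real.continuous_sin.mul (hc _ _))
  · intro s hs
    obtain ⟨hn, h1, h2, h3, h4, h5, _⟩ := hz s 0
    have hsin : 0 < Real.sin s := Real.sin_pos_of_mem_Ioo hs
    have hG : 0 < cG g s := by
      refine hg.pos _ _ hn h2 fun h => ?_
      rw [h] at h5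
      simp at h5
      have h6 : 0 < Real.sin s ^ 2 := pow_pos hsin 2
      linarith
    refine ⟨hG, ?_⟩
    set r := cB g s / cG g s with hr
    have hu0 : inner ℝ (w s 0 : E (Ix 1 (q + 2))) (ws s 0 + (-r) • wt s 0) = 0 := by
      rw [inner_add_right, inner_smul_right, h1, h2]
      ring
    have hune : (ws s 0 + (-r) • wt s 0 : E (Ix 1 (q + 2))) ≠ 0 := by
      intro h
      have h6 : inner ℝ (ws s 0 : E (Ix 1 (q + 2))) (ws s 0 + (-r) • wt s 0) = 1 := by
        rw [inner_add_right, inner_smul_right, h4, real_inner_self_eq_norm_sq, h3]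
        ring
      rw [h, inner_zero_right] at h6
      exact zero_ne_one h6
    have hp := hg.pos _ _ hn hu0 hune
    have e : g (w s 0) (ws s 0 + (-r) • wt s 0) (ws s 0 + (-r) • wt s 0) =
        cA g s + 2 * (-r) * cB g s + r ^ 2 * cG g s := by
      unfold cA cB cG
      have e1 : (ws s 0 + (-r) • wt s 0 : E (Ix 1 (q + 2))) =
          (1 : ℝ) • ws s 0 + (-r) • wt s 0 := by rw [one_smul]
      rw [e1, iZ2a_lin hg, iZ2a_lin' hg, iZ2a_lin' hg, hg.symm (w s 0) (wt s 0) (ws s 0)]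
      ring
    rw [e] at hp
    have e2 : cA g s + 2 * (-r) * cB g s + r ^ 2 * cG g s = cA g s - cB g s ^ 2 / cG g s := by
      rw [hr]
      field_simp
      ring
    rwa [e2] at hp

end Pool.Agent.Work.MP_02f065_gt.RPn

end
end

section

/-!
MP_02f065_gt: item Z3, symmetric paths have length at least L.
-/

open MeasureTheory Set Filter Topology

noncomputable section

namespace Pool.Agent.Work.MP_02f065_gt.RPn

/-- continuous extension -/
theorem iZ3_ext {a b : ℝ} (hab : a ≤ b) {f : ℝ → ℝ} (hf : ContinuousOn f (Icc a b)) :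
    ∃ F : ℝ → ℝ, Continuous F ∧ ∀ s ∈ Icc a b, F s = f s := by
  refine ⟨IccExtend hab ((Icc a b).domRestrict f),
    (continuousOn_iff_continuous_domRestrict.1 hf).Icc_extend', fun s hs => ?_⟩
  rw [IccExtend_of_mem hab _ hs]
  rfl

theorem iZ3_deriv_coord {ι : Type} [Fintype ι] (f : ℝ → E ι) (f' : E ι) (t : ℝ)
    (h : ∀ i, HasDerivAt (fun t => f t i) (f' i) t) : HasDerivAt f f' t := by
  have h1 : HasDerivAt (fun t => (WithLp.ofLp (f t) : ι → ℝ)) (WithLp.ofLp f') t :=
    hasDerivAt_pi.mpr h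
  exact ((PiLp.continuousLinearEquiv 2 ℝ (fun _ : ι => ℝ)).symm.hasFDerivAt
    (x := (WithLp.ofLp (f t) : ι → ℝ))).comp_hasDerivAt t h1

theorem iZ3_deriv {Q : ℕ} (θ : ℝ → ℝ) (θ' t : ℝ) (h : HasDerivAt θ θ' t) :
    HasDerivAt (fun t => (w t (θ t) : E (Ix 1 Q))) (ws t (θ t) + θ' • wt t (θ t)) t := by
  apply iZ3_deriv_coord
  rintro (i | i)
  · change HasDerivAt (fun t => Real.cos t) (-Real.sin t + θ' * 0) t
    simpa using Real.hasDerivAt_cos t
  · by_cases h0 : i.val = 0
    · have e1 : (fun t => (w t (θ t) : E (Ix 1 Q)) (Sum.inr i)) =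
          fun t => Real.sin t * Real.cos (θ t) := by
        funext t
        simp [w, h0]
      have e2 : (ws t (θ t) + θ' • wt t (θ t) : E (Ix 1 Q)) (Sum.inr i) =
          Real.cos t * Real.cos (θ t) + Real.sin t * (-Real.sin (θ t) * θ') := by
        simp [ws, wt, h0]
        ring
      rw [e1, e2]
      exact (Real.hasDerivAt_sin t).mul h.cos
    · by_cases h1 : i.val = 1
      · have e1 : (fun t => (w t (θ t) : E (Ix 1 Q)) (Sum.inr i)) =
            fun t => Real.sin t * Real.sin (θ t) := by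
          funext t
          simp [w, h1]
        have e2 : (ws t (θ t) + θ' • wt t (θ t) : E (Ix 1 Q)) (Sum.inr i) =
            Real.cos t * Real.sin (θ t) + Real.sin t * (Real.cos (θ t) * θ') := by
          simp [ws, wt, h1]
          ring
        rw [e1, e2]
        exact (Real.hasDerivAt_sin t).mul h.sin
      · have e1 : (fun t => (w t (θ t) : E (Ix 1 Q)) (Sum.inr i)) = fun _ => (0 : ℝ) := by
          funext t
          simp [w, h0, h1]
        have e2 : (ws t (θ t) + θ' • wt t (θ t) : E (Ix 1 Q)) (Sum.inr i) = 0 := by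
          simp [ws, wt, h0, h1]
        rw [e1, e2]
        exact hasDerivAt_const t 0

theorem iZ3_cont_coord {ι : Type} [Fintype ι] (f : ℝ → E ι) (h : ∀ i, Continuous fun t => f t i) :
    Continuous f := by
  have h1 : Continuous (fun t => (WithLp.ofLp (f t) : ι → ℝ)) := continuous_pi h
  exact (PiLp.continuous_toLp 2 _).comp h1

theorem iZ3_cont_ws {Q : ℕ} (θ : ℝ → ℝ) (h : Continuous θ) :
    Continuous (fun t => (ws t (θ t) : E (Ix 1 Q))) := by
  apply iZ3_cont_coord
  rintro (i | i)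
  · change Continuous (fun t => -Real.sin t)
    fun_prop
  · change Continuous (fun t => if i.val = 0 then Real.cos t * Real.cos (θ t)
      else if i.val = 1 then Real.cos t * Real.sin (θ t) else 0)
    split_ifs <;> fun_prop

theorem iZ3_cont_wt {Q : ℕ} (θ : ℝ → ℝ) (h : Continuous θ) :
    Continuous (fun t => (wt t (θ t) : E (Ix 1 Q))) := by
  apply iZ3_cont_coord
  rintro (i | i)
  · change Continuous (fun t => (0 : ℝ))
    fun_prop
  · change Continuous (fun t => if i.val = 0 then -(Real.sin t * Real.sin (θ t))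
      else if i.val = 1 then Real.sin t * Real.cos (θ t) else 0)
    split_ifs <;> fun_prop

theorem iZ3_w_two_pi {Q : ℕ} (s θ : ℝ) :
    (w s (θ + Real.pi + Real.pi) : E (Ix 1 Q)) = w s θ := by
  have e : θ + Real.pi + Real.pi = θ + 2 * Real.pi := by ring
  unfold w
  rw [e, Real.cos_add_two_pi, Real.sin_add_two_pi]

theorem itemZ3 (hA2 : claimA2) (hZ0 : claimZ0) (hZ1 : claimZ1) (hZ2a : claimZ2a) : claimZ3 := by
  intro Q hQ g L hg hinv hL s1 h0 h1 y hy hint
  obtain ⟨hZ0a, -⟩ := hZ0 Q hQ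
  obtain ⟨hZ1a, hZ1b⟩ := hZ1 Q hQ g hg hinv
  obtain ⟨cA', cB', cG', hpos⟩ := hZ2a Q hQ g hg
  have hpi := Real.pi_pos
  obtain ⟨F0, hF0, hF0'⟩ := iZ3_ext h1.le hy
  set Y : ℝ → ℝ := fun t => F0 (min t (Real.pi - t)) with hY
  have hYc : Continuous Y := hF0.comp (continuous_id.min (continuous_const.sub continuous_id))
  have hYy : ∀ t ∈ Icc s1 (Real.pi / 2), Y t = y t := by
    intro t ht
    have : min t (Real.pi - t) = t := min_eq_left (by linarith [ht.2])
    rw [hY]
    simp only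
    rw [this, hF0' t ht]
  have hYsym : ∀ t, Y (Real.pi - t) = Y t := by
    intro t
    rw [hY]
    simp only
    rw [show Real.pi - (Real.pi - t) = t by ring, min_comm]
  have hsub : Icc s1 (Real.pi - s1) ⊆ Ioo 0 Real.pi := fun s hs =>
    ⟨lt_of_lt_of_le h0 hs.1, by linarith [hs.2]⟩
  have hlt : s1 < Real.pi - s1 := by linarith
  have hbc : ContinuousOn (fun t => Y t - cB g t / cG g t) (Icc s1 (Real.pi - s1)) :=
    hYc.continuousOn.sub (cB'.continuousOn.div cG'.continuousOn
      (fun s hs => ((hpos s (hsub hs)).1).ne'))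
  obtain ⟨F, hF, hF'⟩ := iZ3_ext hlt.le hbc
  set θ : ℝ → ℝ := fun s => ∫ x in s1..s, F x with hθ
  have hdθ : ∀ s, HasDerivAt θ (F s) s := fun s =>
    intervalIntegral.integral_hasDerivAt_right (hF.intervalIntegrable _ _)
      hF.aestronglyMeasurable.stronglyMeasurableAtFilter hF.continuousAt
  have hcθ : Continuous θ := continuous_iff_continuousAt.2 fun s => (hdθ s).continuousAt
  have hmemsub : ∀ t ∈ Icc s1 (Real.pi / 2), t ∈ Icc s1 (Real.pi - s1) := fun t ht =>
    ⟨ht.1, by linarith [ht.2]⟩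
  have hmemsub' : ∀ t ∈ Icc s1 (Real.pi / 2), Real.pi - t ∈ Icc s1 (Real.pi - s1) := fun t ht =>
    ⟨by linarith [ht.2], by linarith [ht.1]⟩
  have hθend : θ (Real.pi - s1) = Real.pi := by
    rw [hθ]
    simp only
    rw [← intervalIntegral.integral_add_adjacent_intervals (b := Real.pi / 2)
      (hF.intervalIntegrable _ _) (hF.intervalIntegrable _ _)]
    have e1 : ∫ x in (Real.pi / 2)..(Real.pi - s1), F x =
        ∫ x in s1..(Real.pi / 2), F (Real.pi - x) := by
      rw [intervalIntegral.integral_comp_sub_left]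
      congr 1
      ring
    have hFr : Continuous (fun x => F (Real.pi - x)) :=
      hF.comp (continuous_const.sub continuous_id)
    rw [e1, ← intervalIntegral.integral_add (hF.intervalIntegrable _ _)
      (hFr.intervalIntegrable _ _)]
    refine Eq.trans ?_ hint
    rw [← intervalIntegral.integral_const_mul]
    apply intervalIntegral.integral_congr
    intro t ht
    rw [uIcc_of_le h1.le] at ht
    simp only
    rw [hF' t (hmemsub t ht), hF' _ (hmemsub' t ht), hYsym, (hZ1b t).2.1, (hZ1b t).2.2, hYy t ht]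
    ring
  set c : ℝ → E (Ix 1 Q) := fun t => w t (θ t) with hc
  set c' : ℝ → E (Ix 1 Q) := fun t => ws t (θ t) + F t • wt t (θ t) with hc'
  have harc : IsArc c c' s1 (Real.pi - s1) := by
    refine ⟨fun s _ => (iZ3_deriv θ (F s) s (hdθ s)).hasDerivWithinAt, ?_,
      fun s _ => (hZ0a s (θ s)).1⟩
    have e2 : Continuous (fun t => F t • (wt t (θ t) : E (Ix 1 Q))) :=
      hF.smul (iZ3_cont_wt θ hcθ)
    exact ((iZ3_cont_ws θ hcθ).add e2).continuousOn
  obtain ⟨k, hk, hlen⟩ := hA2 (Ix 1 Q) g c c' s1 (Real.pi - s1) hg hlt harc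
  have ec1 : c s1 = w s1 0 := by
    rw [hc, hθ]
    simp
  have ec2 : c (Real.pi - s1) = -w s1 0 := by
    rw [hc]
    simp only
    rw [hθend]
    have h5 := (hZ0a s1 Real.pi).2.2.2.2.2.2.1
    rw [h5]
    have h6 := iZ3_w_two_pi (Q := Q) s1 0
    rw [zero_add] at h6
    rw [h6]
  rw [ec1, ec2] at hk
  have hle := hL _ k (hZ0a s1 0).1 hk
  rw [hlen] at hle
  refine hle.trans (le_of_eq ?_)
  unfold arcLength
  -- the speed
  set h : ℝ → ℝ := fun t => Real.sqrt ((cA g t - cB g t ^ 2 / cG g t) + cG g t * Y t ^ 2) with hh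
  have hspeed : ∀ t ∈ Icc s1 (Real.pi - s1), Real.sqrt (g (c t) (c' t) (c' t)) = h t := by
    intro t ht
    rw [hh, hc, hc']
    simp only
    congr 1
    have hG := (hpos t (hsub ht)).1
    obtain ⟨q1, q2, q3⟩ := hZ1a t (θ t)
    have hsy := hg.symm (w t (θ t)) (wt t (θ t)) (ws t (θ t))
    have eadd : ∀ x v u u' : E (Ix 1 Q), g x v (u + u') = g x v u + g x v u' := by
      intro x v u u'
      rw [hg.symm, hg.add, hg.symm x u v, hg.symm x u' v]
    have esmul : ∀ (x v u : E (Ix 1 Q)) (r : ℝ), g x v (r • u) = r * g x v u := by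
      intro x v u r
      rw [hg.symm, hg.smul, hg.symm x u v]
    rw [hg.add, eadd, eadd, hg.smul, hg.smul, esmul, esmul, hsy, q1, q2, q3, hF' t ht]
    field_simp
    ring
  have hhc : ContinuousOn h (Icc s1 (Real.pi - s1)) := by
    rw [hh]
    refine Real.continuous_sqrt.comp_continuousOn ?_
    refine ContinuousOn.add (cA'.continuousOn.sub ((cB'.pow 2).continuousOn.div cG'.continuousOn
      (fun s hs => ((hpos s (hsub hs)).1).ne'))) ?_
    exact (cG'.mul (hYc.pow 2)).continuousOn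
  have hhsym : ∀ t, h (Real.pi - t) = h t := by
    intro t
    rw [hh]
    simp only
    rw [(hZ1b t).1, (hZ1b t).2.1, (hZ1b t).2.2, hYsym]
    congr 2
    ring
  have hi1 : IntervalIntegrable h volume s1 (Real.pi / 2) := by
    refine ContinuousOn.intervalIntegrable ?_
    rw [uIcc_of_le h1.le]
    exact hhc.mono hmemsub
  have hi2 : IntervalIntegrable h volume (Real.pi / 2) (Real.pi - s1) := by
    refine ContinuousOn.intervalIntegrable ?_
    rw [uIcc_of_le (by linarith)]
    exact hhc.mono fun t ht => ⟨by linarith [ht.1], ht.2⟩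
  have e3 : ∫ t in s1..(Real.pi - s1), Real.sqrt (g (c t) (c' t) (c' t)) =
      ∫ t in s1..(Real.pi - s1), h t := by
    apply intervalIntegral.integral_congr
    intro t ht
    rw [uIcc_of_le hlt.le] at ht
    exact hspeed t ht
  rw [e3, ← intervalIntegral.integral_add_adjacent_intervals hi1 hi2]
  have e4 : ∫ x in (Real.pi / 2)..(Real.pi - s1), h x = ∫ x in s1..(Real.pi / 2), h x := by
    have e5 : ∫ x in s1..(Real.pi / 2), h x = ∫ x in s1..(Real.pi / 2), h (Real.pi - x) := by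
      apply intervalIntegral.integral_congr
      intro t _
      exact (hhsym t).symm
    rw [e5, intervalIntegral.integral_comp_sub_left]
    congr 1
    ring
  rw [e4, ← two_mul]
  congr 1
  apply intervalIntegral.integral_congr
  intro t ht
  rw [uIcc_of_le h1.le] at ht
  simp only [hh]
  rw [hYy t ht, ca, Real.sq_sqrt (hpos t (hsub (hmemsub t ht))).2.le]

end Pool.Agent.Work.MP_02f065_gt.RPn

end
end

section

set_option autoImplicit false

open MeasureTheory Set Filter Topology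

noncomputable section

namespace Pool.Agent.Work.MP_02f065_gt.RPn

/-- the equator -/
def iZ4_c {Q : ℕ} (t : ℝ) : E (Ix 1 Q) := w (Real.pi / 2) (Real.pi * t)

lemma iZ4_contDiff {Q : ℕ} : ContDiff ℝ 1 (iZ4_c (Q := Q)) := by
  rw [contDiff_euclidean]
  rintro (i | j)
  · have : (fun t => (iZ4_c (Q := Q) t) (Sum.inl i)) = fun _ => Real.cos (Real.pi / 2) := rfl
    rw [this]
    exact contDiff_const
  · by_cases h0 : j.val = 0
    · have : (fun t => (iZ4_c (Q := Q) t) (Sum.inr j)) =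
        fun t => Real.sin (Real.pi / 2) * Real.cos (Real.pi * t) := by
        funext t
        simp [iZ4_c, w, h0]
      rw [this]
      fun_prop
    · by_cases h1 : j.val = 1
      · have : (fun t => (iZ4_c (Q := Q) t) (Sum.inr j)) =
          fun t => Real.sin (Real.pi / 2) * Real.sin (Real.pi * t) := by
          funext t
          simp [iZ4_c, w, h1]
        rw [this]
        fun_prop
      · have : (fun t => (iZ4_c (Q := Q) t) (Sum.inr j)) = fun _ => (0 : ℝ) := by
          funext t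
          simp [iZ4_c, w, h0, h1]
        rw [this]
        exact contDiff_const

lemma iZ4_deriv {Q : ℕ} (t : ℝ) :
    deriv (iZ4_c (Q := Q)) t = Real.pi • wt (Real.pi / 2) (Real.pi * t) := by
  have hd : DifferentiableAt ℝ (iZ4_c (Q := Q)) t :=
    iZ4_contDiff.differentiable (by simp) t
  have hc : ∀ i : Ix 1 Q, (deriv (iZ4_c (Q := Q)) t) i = deriv (fun t => (iZ4_c (Q := Q) t) i) t := by
    intro i
    have h := hd.hasDerivAt
    have h2 := (PiLp.proj 2 (fun _ : Ix 1 Q => ℝ) i : E (Ix 1 Q) →L[ℝ] ℝ).hasFDerivAt.comp_hasDerivAt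
      t h
    exact h2.deriv.symm
  have hlin : HasDerivAt (fun t : ℝ => Real.pi * t) Real.pi t := by
    simpa using (hasDerivAt_id t).const_mul Real.pi
  ext i
  rw [hc]
  rcases i with i | j
  · have : (fun t => (iZ4_c (Q := Q) t) (Sum.inl i)) = fun _ => Real.cos (Real.pi / 2) := rfl
    rw [this, deriv_const]
    simp [wt]
  · by_cases h0 : j.val = 0
    · have : (fun t => (iZ4_c (Q := Q) t) (Sum.inr j)) =
        fun t => Real.sin (Real.pi / 2) * Real.cos (Real.pi * t) := by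
        funext t
        simp [iZ4_c, w, h0]
      rw [this, (hlin.cos.const_mul (Real.sin (Real.pi / 2))).deriv]
      simp [wt, h0]
      ring
    · by_cases h1 : j.val = 1
      · have : (fun t => (iZ4_c (Q := Q) t) (Sum.inr j)) =
          fun t => Real.sin (Real.pi / 2) * Real.sin (Real.pi * t) := by
          funext t
          simp [iZ4_c, w, h1]
        rw [this, (hlin.sin.const_mul (Real.sin (Real.pi / 2))).deriv]
        simp [wt, h1]
        ring
      · have : (fun t => (iZ4_c (Q := Q) t) (Sum.inr j)) = fun _ => (0 : ℝ) := by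
          funext t
          simp [iZ4_c, w, h0, h1]
        rw [this, deriv_const]
        simp [wt, h0, h1]

theorem itemZ4 (hZ0 : claimZ0) (hZ1 : claimZ1) : claimZ4 := by
  intro Q hQ g L hg hinv hL
  have hcurve : IsCurve (iZ4_c (Q := Q)) (w (Real.pi / 2) 0) (-(w (Real.pi / 2) 0)) := by
    refine ⟨iZ4_contDiff, ?_, ?_, ?_⟩
    · intro t
      exact ((hZ0 Q hQ).1 _ _).1
    · simp [iZ4_c]
    · ext i
      rcases i with i | j
      · simp [iZ4_c, w]
      · by_cases h0 : j.val = 0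
        · simp [iZ4_c, w, h0]
        · by_cases h1 : j.val = 1
          · simp [iZ4_c, w, h1]
          · simp [iZ4_c, w, h0, h1]
  have h := hL (w (Real.pi / 2) 0) iZ4_c ((hZ0 Q hQ).1 _ _).1 hcurve
  refine h.trans_eq ?_
  unfold length
  have hint : ∀ t : ℝ, Real.sqrt (g (iZ4_c t) (deriv iZ4_c t) (deriv iZ4_c t)) =
      Real.pi * Real.sqrt (cG g (Real.pi / 2)) := by
    intro t
    rw [iZ4_deriv, hg.smul, hg.symm, hg.smul]
    have h1 := (((hZ1 Q hQ g hg hinv).1 (Real.pi / 2) (Real.pi * t)).2).2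
    have h2 : g (iZ4_c t) (wt (Real.pi / 2) (Real.pi * t)) (wt (Real.pi / 2) (Real.pi * t)) =
      cG g (Real.pi / 2) := h1
    rw [h2, ← mul_assoc, Real.sqrt_mul (by positivity), Real.sqrt_mul_self Real.pi_pos.le]
  simp only [hint]
  rw [intervalIntegral.integral_const]
  simp

end Pool.Agent.Work.MP_02f065_gt.RPn

end
end

section

/-!
Item Z5: the inequality for every momentum.
-/

open MeasureTheory Set Filter Topology

noncomputable section

namespace Pool.Agent.Work.MP_02f065_gt.RPn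

/-- a nonnegative continuous function with prescribed integral and prescribed last value -/
theorem iZ5_fill (s1 s2 v A : ℝ) (h : s1 < s2) (hv : 0 ≤ v) (hA : 0 < A) :
    ∃ y : ℝ → ℝ, Continuous y ∧ (∀ s ∈ Icc s1 s2, 0 ≤ y s) ∧ y s2 = v ∧
      ∫ s in s1..s2, y s = A := by
  obtain ⟨n, hn⟩ := exists_nat_gt (v * (s2 - s1) / A)
  have hh : 0 < s2 - s1 := by linarith
  have hn1 : (0 : ℝ) < (n : ℝ) + 1 := by positivity
  have hk : 0 ≤ (A - v * (s2 - s1) / (n + 1)) * 6 / (s2 - s1) ^ 3 := by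
    have h1 : v * (s2 - s1) / (n + 1) ≤ A := by
      rw [div_lt_iff₀ hA] at hn
      rw [div_le_iff₀ hn1]
      nlinarith
    apply div_nonneg _ (by positivity)
    linarith
  set κ := (A - v * (s2 - s1) / (n + 1)) * 6 / (s2 - s1) ^ 3 with hκ
  refine ⟨fun s => v * ((s - s1) / (s2 - s1)) ^ n + κ * ((s - s1) * (s2 - s)), by fun_prop,
    ?_, ?_, ?_⟩
  · intro s hs
    have h1 : 0 ≤ s - s1 := by linarith [hs.1]
    have h2 : 0 ≤ s2 - s := by linarith [hs.2]
    positivity
  · simp only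
    rw [div_self hh.ne', one_pow, sub_self]
    ring
  · have hder : ∀ s ∈ uIcc s1 s2, HasDerivAt (fun s => v * (s2 - s1) / (n + 1) *
        ((s - s1) / (s2 - s1)) ^ (n + 1) +
        κ * ((s - s1) ^ 2 * (s2 - s1) / 2 - (s - s1) ^ 3 / 3))
        (v * ((s - s1) / (s2 - s1)) ^ n + κ * ((s - s1) * (s2 - s))) s := by
      intro s _
      have d0 : HasDerivAt (fun s : ℝ => s - s1) 1 s := (hasDerivAt_id s).sub_const s1
      have d1 := ((d0.div_const (s2 - s1)).pow (n + 1)).const_mul (v * (s2 - s1) / (n + 1))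
      have d2 := (((d0.pow 2).mul_const (s2 - s1)).div_const 2).sub ((d0.pow 3).div_const 3)
      have d3 := d1.add (d2.const_mul κ)
      refine d3.congr_deriv ?_
      push_cast
      field_simp
      ring
    rw [intervalIntegral.integral_eq_sub_of_hasDerivAt hder
      (Continuous.intervalIntegrable (by fun_prop) _ _)]
    rw [div_self hh.ne', one_pow, sub_self, zero_div]
    rw [hκ]
    field_simp
    ring

theorem iZ5_alg (a G r q : ℝ) (ha : 0 < a) (hG : 0 < G) (hr : 0 < r) (h : G * r ^ 2 + q ^ 2 = G) :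
    Real.sqrt (a ^ 2 + G * (q * a / (G * r)) ^ 2) = a * r + q * (q * a / (G * r)) := by
  have h1 : a * r + q * (q * a / (G * r)) = a / r := by
    field_simp
    linear_combination h
  have h2 : a ^ 2 + G * (q * a / (G * r)) ^ 2 = (a / r) ^ 2 := by
    field_simp
    linear_combination h
  rw [h1, h2, Real.sqrt_sq (by positivity)]

/-- the integrand of the right side is integrable -/
theorem iZ5_int {σ : ℝ} {a G : ℝ → ℝ} (hd : CoreData1 σ a G) (q : ℝ) :
    IntervalIntegrable (fun s => a s * Real.sqrt (1 - q ^ 2 / G s)) volume 0 σ := by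
  rw [intervalIntegrable_iff_integrableOn_Ioc_of_le hd.σpos.le]
  have h1 := (intervalIntegrable_iff_integrableOn_Ioc_of_le hd.σpos.le).1 hd.int
  have hsub : Ioc (0 : ℝ) σ ⊆ Icc 0 σ := Ioc_subset_Icc_self
  have hc : ContinuousOn (fun s => a s * Real.sqrt (1 - q ^ 2 / G s)) (Ioc 0 σ) := by
    refine hd.ca.mul ((continuousOn_const.sub (continuousOn_const.div (hd.cG.mono hsub) ?_)).sqrt)
    intro s hs
    exact (hd.pos s hs).ne'
  refine Integrable.mono h1 (hc.aestronglyMeasurable measurableSet_Ioc) ?_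
  refine (ae_restrict_iff' measurableSet_Ioc).2 (Eventually.of_forall fun s hs => ?_)
  rw [norm_mul]
  refine mul_le_of_le_one_right (norm_nonneg _) ?_
  rw [Real.norm_eq_abs, abs_of_nonneg (Real.sqrt_nonneg _)]
  apply Real.sqrt_le_one.2
  have : 0 ≤ q ^ 2 / G s := div_nonneg (sq_nonneg _) (hd.pos s hs).le
  linarith

theorem itemZ5 : claimZ5 := by
  intro σ L a G hd hP hL q hq hqL
  have hσ := hd.σpos
  have hGσ : q ^ 2 < G σ := by
    have h1 : Real.pi * q < Real.pi * Real.sqrt (G σ) := hqL.trans_le hL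
    have h2 : q < Real.sqrt (G σ) := lt_of_mul_lt_mul_left h1 Real.pi_pos.le
    exact (Real.lt_sqrt hq.le).1 h2
  -- the last point with `G ≤ q ^ 2`
  have hZcl : IsClosed (Icc 0 σ ∩ G ⁻¹' Iic (q ^ 2)) :=
    hd.cG.preimage_isClosed_of_isClosed isClosed_Icc isClosed_Iic
  have hZc : IsCompact (Icc 0 σ ∩ G ⁻¹' Iic (q ^ 2)) :=
    isCompact_Icc.of_isClosed_subset hZcl inter_subset_left
  have hq2 : 0 < q ^ 2 := by positivity
  have hZne : (Icc 0 σ ∩ G ⁻¹' Iic (q ^ 2)).Nonempty :=
    ⟨0, ⟨le_rfl, hσ.le⟩, by simp only [mem_preimage, mem_Iic, hd.zero]; exact hq2.le⟩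
  obtain ⟨s1, ⟨⟨hs10, hs1σ⟩, hGs1⟩, hmax⟩ := hZc.exists_isGreatest hZne
  simp only [mem_preimage, mem_Iic] at hGs1
  have hs1σ' : s1 < σ := by
    rcases hs1σ.lt_or_eq with h | h
    · exact h
    · rw [h] at hGs1
      linarith
  have hgt : ∀ s ∈ Ioc s1 σ, q ^ 2 < G s := by
    intro s hs
    by_contra hcon
    have h1 := hmax ⟨⟨hs10.trans hs.1.le, hs.2⟩, not_lt.1 hcon⟩
    linarith [hs.1]
  have hs1pos : 0 < s1 := by
    rcases hs10.lt_or_eq with h | h
    · exact h
    · exfalso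
      have hc0 := hd.cG 0 ⟨le_rfl, hσ.le⟩
      obtain ⟨δ, hδ, hδ2⟩ := Metric.continuousWithinAt_iff.1 hc0 (q ^ 2) hq2
      have hm : 0 < min (δ / 2) σ := lt_min (by linarith) hσ
      have h2 := hδ2 (x := min (δ / 2) σ) ⟨hm.le, min_le_right _ _⟩ (by
        rw [Real.dist_eq, sub_zero, abs_of_pos hm]
        exact (min_le_left _ _).trans_lt (by linarith))
      rw [Real.dist_eq, hd.zero, sub_zero] at h2
      have h3 := hgt (min (δ / 2) σ) ⟨by rw [← h]; exact hm, min_le_right _ _⟩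
      linarith [le_abs_self (G (min (δ / 2) σ))]
  have hsub : Ioc s1 σ ⊆ Ioc 0 σ := Ioc_subset_Ioc_left hs10
  have hsubc : Ioc s1 σ ⊆ Icc 0 σ := hsub.trans Ioc_subset_Icc_self
  have hGc : ContinuousOn G (Ioc s1 σ) := hd.cG.mono hsubc
  have hac : ContinuousOn a (Ioc s1 σ) := hd.ca.mono hsub
  set r : ℝ → ℝ := fun s => Real.sqrt (1 - q ^ 2 / G s) with hrdef
  set yq : ℝ → ℝ := fun s => q * a s / (G s * r s) with hydef
  set f : ℝ → ℝ := fun s => a s * r s with hfdef
  have hGpos : ∀ s ∈ Ioc s1 σ, 0 < G s := fun s hs => hd.pos s (hsub hs)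
  have hapos : ∀ s ∈ Ioc s1 σ, 0 < a s := fun s hs => hd.apos s (hsub hs)
  have hr1 : ∀ s ∈ Ioc s1 σ, 0 < 1 - q ^ 2 / G s := by
    intro s hs
    rw [sub_pos, div_lt_one (hGpos s hs)]
    exact hgt s hs
  have hrpos : ∀ s ∈ Ioc s1 σ, 0 < r s := fun s hs => Real.sqrt_pos.2 (hr1 s hs)
  have hrG : ∀ s ∈ Ioc s1 σ, G s * r s ^ 2 + q ^ 2 = G s := by
    intro s hs
    have h1 : r s ^ 2 = 1 - q ^ 2 / G s := Real.sq_sqrt (hr1 s hs).le
    have h2 := (hGpos s hs).ne'
    rw [h1]
    field_simp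
    ring
  have hypos : ∀ s ∈ Ioc s1 σ, 0 < yq s := fun s hs =>
    div_pos (mul_pos hq (hapos s hs)) (mul_pos (hGpos s hs) (hrpos s hs))
  have hrc : ContinuousOn r (Ioc s1 σ) :=
    (continuousOn_const.sub (continuousOn_const.div hGc fun s hs => (hGpos s hs).ne')).sqrt
  have hyc : ContinuousOn yq (Ioc s1 σ) :=
    (continuousOn_const.mul hac).div (hGc.mul hrc) fun s hs =>
      (mul_pos (hGpos s hs) (hrpos s hs)).ne'
  have hfc : ContinuousOn f (Ioc s1 σ) := hac.mul hrc
  have hIcc : ∀ s3, s1 < s3 → Icc s3 σ ⊆ Ioc s1 σ := fun s3 h s hs =>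
    ⟨h.trans_le hs.1, hs.2⟩
  have hii : ∀ (u : ℝ → ℝ), ContinuousOn u (Ioc s1 σ) → ∀ s3, s1 < s3 → s3 ≤ σ →
      IntervalIntegrable u volume s3 σ := by
    intro u hu s3 h1 h2
    apply ContinuousOn.intervalIntegrable
    rw [uIcc_of_le h2]
    exact hu.mono (hIcc s3 h1)
  have hfint : IntervalIntegrable f volume 0 σ := iZ5_int hd q
  have hI : ∀ s3, s1 < s3 → s3 ≤ σ → ∫ s in s3..σ, f s ≤ ∫ s in (0 : ℝ)..σ, f s := by
    intro s3 h1 h2
    apply intervalIntegral.integral_mono_interval (by linarith) h2 le_rfl _ hfint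
    refine (ae_restrict_iff' measurableSet_Ioc).2 (Eventually.of_forall fun s hs => ?_)
    exact mul_nonneg (hd.apos s hs).le (Real.sqrt_nonneg _)
  have hseg : ∀ s3, s1 < s3 → s3 ≤ σ →
      ∫ s in s3..σ, Real.sqrt (a s ^ 2 + G s * yq s ^ 2) =
        (∫ s in s3..σ, f s) + q * ∫ s in s3..σ, yq s := by
    intro s3 h1 h2
    rw [← intervalIntegral.integral_const_mul, ← intervalIntegral.integral_add
      (hii f hfc s3 h1 h2) ((hii yq hyc s3 h1 h2).const_mul q)]
    apply intervalIntegral.integral_congr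
    intro s hs
    rw [uIcc_of_le h2] at hs
    have hs' := hIcc s3 h1 hs
    exact iZ5_alg (a s) (G s) (r s) q (hapos s hs') (hGpos s hs') (hrpos s hs') (hrG s hs')
  by_cases hcase : ∃ s2, s1 < s2 ∧ s2 ≤ σ ∧ Real.pi ≤ 2 * ∫ s in s2..σ, yq s
  · obtain ⟨s2, h1, h2, h3⟩ := hcase
    have hcont : ContinuousOn (fun x => 2 * ∫ s in x..σ, yq s) (Icc s2 σ) := by
      have h4 := intervalIntegral.continuousOn_primitive_interval_left (f := yq) (a := s2) (b := σ)
        (μ := volume) (by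
          rw [uIcc_of_le h2]
          exact (hyc.mono (hIcc s2 h1)).integrableOn_Icc)
      rw [uIcc_of_le h2] at h4
      exact continuousOn_const.mul h4
    obtain ⟨s3, hs3, hs3π⟩ := intermediate_value_Icc' h2 hcont (show Real.pi ∈
      Icc (2 * ∫ s in σ..σ, yq s) (2 * ∫ s in s2..σ, yq s) from
        ⟨by rw [intervalIntegral.integral_same, mul_zero]; exact Real.pi_pos.le, h3⟩)
    have h13 : s1 < s3 := h1.trans_le hs3.1
    have h3σ : s3 < σ := by
      rcases hs3.2.lt_or_eq with h | h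
      · exact h
      · exfalso
        rw [h] at hs3π
        simp only [intervalIntegral.integral_same, mul_zero] at hs3π
        exact Real.pi_pos.ne hs3π
    simp only at hs3π
    have h4 := hP s3 (hs1pos.trans h13) h3σ yq (hyc.mono (hIcc s3 h13)) hs3π
    rw [hseg s3 h13 h3σ.le] at h4
    have h5 := hI s3 h13 h3σ.le
    have h6 : q * (2 * ∫ s in s3..σ, yq s) = q * Real.pi := by rw [hs3π]
    linarith
  · push Not at hcase
    have hacc : ContinuousOn a (Icc s1 σ) := hd.ca.mono fun s hs => ⟨hs1pos.trans_le hs.1, hs.2⟩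
    have hGcc : ContinuousOn G (Icc s1 σ) := hd.cG.mono fun s hs => ⟨hs10.trans hs.1, hs.2⟩
    obtain ⟨M, hM⟩ := isCompact_Icc.exists_bound_of_continuousOn hacc
    apply le_of_forall_pos_le_add
    intro ε0 hε0
    obtain ⟨ε, hε, hεeq⟩ : ∃ ε : ℝ, 0 < ε ∧ 2 * ε + ε * Real.pi = ε0 := by
      have hπ := Real.pi_pos
      refine ⟨ε0 / (2 + Real.pi), by positivity, ?_⟩
      field_simp
    have hM' : 0 < |M| + 1 := by positivity
    have hgap : 0 < (q + ε) ^ 2 - q ^ 2 := by nlinarith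
    obtain ⟨δ, hδ, hδ2⟩ := Metric.continuousWithinAt_iff.1 (hd.cG s1 ⟨hs10, hs1σ⟩) _ hgap
    set η : ℝ := min (min (δ / 2) ((σ - s1) / 2)) (ε / (|M| + 1)) with hη
    have hη0 : 0 < η := lt_min (lt_min (by linarith) (by linarith)) (div_pos hε hM')
    have hη1 : η < δ := ((min_le_left _ _).trans (min_le_left _ _)).trans_lt (by linarith)
    have hη2 : η < σ - s1 := ((min_le_left _ _).trans (min_le_right _ _)).trans_lt (by linarith)
    have hη3 : (|M| + 1) * η ≤ ε := by
      have h1 : η ≤ ε / (|M| + 1) := min_le_right _ _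
      rw [le_div_iff₀ hM'] at h1
      linarith
    obtain ⟨s2, hs2⟩ : ∃ s2, s2 = s1 + η := ⟨_, rfl⟩
    have h12 : s1 < s2 := by linarith
    have h2σ : s2 < σ := by linarith
    have hG2 : ∀ s ∈ Icc s1 s2, G s ≤ (q + ε) ^ 2 := by
      intro s hs
      have h1 := hδ2 (x := s) ⟨hs10.trans hs.1, hs.2.trans h2σ.le⟩ (by
        rw [Real.dist_eq, abs_of_nonneg (by linarith [hs.1])]
        linarith [hs.2])
      rw [Real.dist_eq] at h1
      linarith [le_abs_self (G s - G s1)]
    have hJ := hcase s2 h12 h2σ.le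
    have hJ0 : 0 ≤ ∫ s in s2..σ, yq s := by
      apply intervalIntegral.integral_nonneg h2σ.le
      intro s hs
      exact (hypos s (hIcc s2 h12 hs)).le
    set J := ∫ s in s2..σ, yq s with hJdef
    obtain ⟨y1, hy1c, hy1n, hy1e, hy1i⟩ := iZ5_fill s1 s2 (yq s2) ((Real.pi - 2 * J) / 2) h12
      (hypos s2 ⟨h12, h2σ.le⟩).le (by linarith)
    set y : ℝ → ℝ := fun s => if s ≤ s2 then y1 s else yq s with hy
    have e1 : EqOn y y1 (Icc s1 s2) := fun s hs => if_pos hs.2
    have e2 : EqOn y yq (Icc s2 σ) := by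
      intro s hs
      rcases hs.1.lt_or_eq with h | h
      · exact if_neg (not_le.2 h)
      · rw [← h]
        simp only [hy, le_refl, if_true]
        exact hy1e
    have hycont : ContinuousOn y (Icc s1 σ) := by
      rw [← Icc_union_Icc_eq_Icc h12.le h2σ.le]
      apply ContinuousOn.union_of_isClosed _ _ isClosed_Icc isClosed_Icc
      · exact hy1c.continuousOn.congr e1
      · exact (hyc.mono (hIcc s2 h12)).congr e2
    have hsplit : ∀ u : ℝ → ℝ, ContinuousOn u (Icc s1 σ) →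
        ∫ s in s1..σ, u s = (∫ s in s1..s2, u s) + ∫ s in s2..σ, u s := by
      intro u hu
      symm
      apply intervalIntegral.integral_add_adjacent_intervals
      · apply ContinuousOn.intervalIntegrable
        rw [uIcc_of_le h12.le]
        exact hu.mono (Icc_subset_Icc_right h2σ.le)
      · apply ContinuousOn.intervalIntegrable
        rw [uIcc_of_le h2σ.le]
        exact hu.mono (Icc_subset_Icc_left h12.le)
    have hyint : 2 * (∫ s in s1..σ, y s) = Real.pi := by
      rw [hsplit y hycont]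
      have h1 : ∫ s in s1..s2, y s = ∫ s in s1..s2, y1 s := by
        apply intervalIntegral.integral_congr
        rw [uIcc_of_le h12.le]
        exact e1
      have h2 : ∫ s in s2..σ, y s = J := by
        apply intervalIntegral.integral_congr
        rw [uIcc_of_le h2σ.le]
        exact e2
      rw [h1, h2, hy1i]
      ring
    have h4 := hP s1 hs1pos hs1σ' y hycont hyint
    have hgc : ContinuousOn (fun s => Real.sqrt (a s ^ 2 + G s * y s ^ 2)) (Icc s1 σ) :=
      ((hacc.pow 2).add (hGcc.mul (hycont.pow 2))).sqrt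
    rw [hsplit _ hgc] at h4
    have h5 : ∫ s in s2..σ, Real.sqrt (a s ^ 2 + G s * y s ^ 2) =
        (∫ s in s2..σ, f s) + q * J := by
      rw [hJdef, ← hseg s2 h12 h2σ.le]
      apply intervalIntegral.integral_congr
      rw [uIcc_of_le h2σ.le]
      intro s hs
      simp only
      rw [e2 hs]
    have h6 : ∫ s in s1..s2, Real.sqrt (a s ^ 2 + G s * y s ^ 2) ≤
        ∫ s in s1..s2, ((|M| + 1) + (q + ε) * y1 s) := by
      apply intervalIntegral.integral_mono_on h12.le
      · apply ContinuousOn.intervalIntegrable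
        rw [uIcc_of_le h12.le]
        exact hgc.mono (Icc_subset_Icc_right h2σ.le)
      · exact Continuous.intervalIntegrable (by fun_prop) _ _
      · intro s hs
        have hs' : s ∈ Icc s1 σ := ⟨hs.1, hs.2.trans h2σ.le⟩
        have ha0 : 0 < a s := hd.apos s ⟨hs1pos.trans_le hs.1, hs'.2⟩
        have haM : a s ≤ |M| + 1 := by
          have h7 := hM s hs'
          rw [Real.norm_eq_abs] at h7
          linarith [le_abs_self (a s), le_abs_self M]
        have hyn := hy1n s hs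
        rw [e1 hs]
        have h8 : Real.sqrt (a s ^ 2 + G s * y1 s ^ 2) ≤ a s + (q + ε) * y1 s := by
          apply Real.sqrt_le_iff.2
          refine ⟨by positivity, ?_⟩
          have h9 : G s * y1 s ^ 2 ≤ (q + ε) ^ 2 * y1 s ^ 2 :=
            mul_le_mul_of_nonneg_right (hG2 s hs) (sq_nonneg _)
          have h10 : 0 ≤ a s * ((q + ε) * y1 s) := by positivity
          nlinarith
        linarith
    have h7 : ∫ s in s1..s2, ((|M| + 1) + (q + ε) * y1 s) =
        (|M| + 1) * η + (q + ε) * ((Real.pi - 2 * J) / 2) := by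
      rw [intervalIntegral.integral_add (Continuous.intervalIntegrable (by fun_prop) _ _)
        (Continuous.intervalIntegrable (by fun_prop) _ _), intervalIntegral.integral_const_mul,
        hy1i, intervalIntegral.integral_const, smul_eq_mul, hs2]
      ring
    have h8 := hI s2 h12 h2σ.le
    rw [h5] at h4
    rw [h7] at h6
    have h9 : 0 ≤ ε * (2 * J) := by positivity
    have h10 : L ≤ 2 * (((|M| + 1) * η + (q + ε) * ((Real.pi - 2 * J) / 2)) +
        ((∫ s in s2..σ, f s) + q * J)) := by linarith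
    have h11 : 2 * (((|M| + 1) * η + (q + ε) * ((Real.pi - 2 * J) / 2)) +
        ((∫ s in s2..σ, f s) + q * J)) = 2 * ((|M| + 1) * η) + Real.pi * q + ε * Real.pi -
          ε * (2 * J) + 2 * ∫ s in s2..σ, f s := by ring
    rw [h11] at h10
    linarith

end Pool.Agent.Work.MP_02f065_gt.RPn

end
end

section

open MeasureTheory Set Filter Topology

noncomputable section

namespace Pool.Agent.Work.MP_02f065_gt.RPn

theorem iZ6_tail (g : ℝ → ℝ) (hg : Continuous g) (R : ℝ) (hR : 0 ≤ R) (h : ∀ x, R < x → g x = 0) :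
    IntegrableOn g (Ioi 0) ∧ ∫ x in Ioi (0:ℝ), g x = ∫ x in (0:ℝ)..R, g x := by
  have e : Ioi (0:ℝ) = Ioc 0 R ∪ Ioi R := (Ioc_union_Ioi_eq_Ioi hR).symm
  have i1 : IntegrableOn g (Ioc 0 R) := hg.integrableOn_Ioc
  have i2 : IntegrableOn g (Ioi R) := by
    refine (integrableOn_congr_fun (g := fun _ => (0:ℝ)) (fun x hx => h x hx)
      measurableSet_Ioi).2 integrableOn_zero
  have z : ∫ x in Ioi R, g x = 0 := by
    rw [setIntegral_congr_fun (g := fun _ => (0:ℝ)) measurableSet_Ioi (fun x hx => h x hx)]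
    simp
  refine ⟨by rw [e]; exact i1.union i2, ?_⟩
  have hd : Disjoint (Ioc 0 R) (Ioi R) :=
    Set.disjoint_left.2 fun x hx hx' => absurd hx.2 (not_le.2 hx')
  rw [e, setIntegral_union hd measurableSet_Ioi i1 i2, z, add_zero,
    intervalIntegral.integral_of_le hR]

theorem iZ6_W (m : ℕ) : ∫ u in (0:ℝ)..1, u ^ m * Real.sqrt (1 - u ^ 2) = Wc 2 m := by
  have key := intervalIntegral.integral_comp_mul_deriv (a := 0) (b := Real.pi / 2)
    (f := Real.sin) (f' := Real.cos) (g := fun u => u ^ m * Real.sqrt (1 - u ^ 2))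
    (fun x _ => Real.hasDerivAt_sin x) Real.continuous_cos.continuousOn (by fun_prop)
  rw [Real.sin_zero, Real.sin_pi_div_two] at key
  rw [← key]
  unfold Wc
  refine intervalIntegral.integral_congr fun x hx => ?_
  have hpi := Real.pi_pos
  rw [uIcc_of_le (by positivity)] at hx
  have hc : 0 ≤ Real.cos x := Real.cos_nonneg_of_mem_Icc ⟨by linarith [hx.1], hx.2⟩
  simp only [Function.comp]
  rw [← Real.cos_sq', Real.sqrt_sq hc]
  ring

theorem iZ6_inner (m : ℕ) (G : ℝ) (hG : 0 < G) :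
    IntegrableOn (fun q : ℝ => q ^ m * Real.sqrt (1 - q ^ 2 / G)) (Ioi 0) ∧
    ∫ q in Ioi (0:ℝ), q ^ m * Real.sqrt (1 - q ^ 2 / G) = Real.sqrt G ^ (m + 1) * Wc 2 m := by
  have hs : 0 < Real.sqrt G := Real.sqrt_pos.2 hG
  have hsq : Real.sqrt G ^ 2 = G := Real.sq_sqrt hG.le
  have hcont : Continuous (fun q : ℝ => q ^ m * Real.sqrt (1 - q ^ 2 / G)) := by fun_prop
  have hz : ∀ x, Real.sqrt G < x → x ^ m * Real.sqrt (1 - x ^ 2 / G) = 0 := by
    intro x hx
    have : 1 - x ^ 2 / G ≤ 0 := by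
      rw [sub_nonpos, one_le_div hG, ← hsq]
      nlinarith
    rw [Real.sqrt_eq_zero_of_nonpos this, mul_zero]
  have h1 := iZ6_tail _ hcont _ hs.le hz
  refine ⟨h1.1, ?_⟩
  rw [h1.2]
  have h2 := intervalIntegral.integral_comp_mul_left (a := 0) (b := 1)
    (fun q : ℝ => q ^ m * Real.sqrt (1 - q ^ 2 / G)) hs.ne'
  rw [mul_zero, mul_one] at h2
  have h3 : ∫ x in (0:ℝ)..1, (Real.sqrt G * x) ^ m * Real.sqrt (1 - (Real.sqrt G * x) ^ 2 / G) =
      Real.sqrt G ^ m * Wc 2 m := by
    rw [← iZ6_W, ← intervalIntegral.integral_const_mul]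
    refine intervalIntegral.integral_congr fun x _ => ?_
    show (Real.sqrt G * x) ^ m * Real.sqrt (1 - (Real.sqrt G * x) ^ 2 / G) =
      Real.sqrt G ^ m * (x ^ m * Real.sqrt (1 - x ^ 2))
    rw [mul_pow, mul_pow, hsq, mul_div_cancel_left₀ _ hG.ne']
    ring
  rw [h3] at h2
  rw [pow_succ, mul_assoc, mul_comm (Real.sqrt G), ← mul_assoc, h2, smul_eq_mul]
  field_simp

theorem itemZ6 : claimZ6 := by
  intro m σ L a G hL hc hi
  have hσ := hc.σpos
  have hpi := Real.pi_pos
  set Q : Set ℝ := Ioi (0 : ℝ) with hQ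
  have hQm : MeasurableSet Q := measurableSet_Ioi
  set I : Set ℝ := Ioo 0 σ with hI
  have hIm : MeasurableSet I := measurableSet_Ioo
  have hIc : I ⊆ Ioc 0 σ := Ioo_subset_Ioc_self
  set F : ℝ × ℝ → ℝ := fun w => 2 * (a w.1 * (w.2 ^ m * Real.sqrt (1 - w.2 ^ 2 / G w.1)))
    with hF
  have hFc : ContinuousOn F (I ×ˢ (univ : Set ℝ)) := by
    have c1 : ContinuousOn (fun w : ℝ × ℝ => a w.1) (I ×ˢ (univ : Set ℝ)) :=
      hc.ca.comp continuousOn_fst (fun w hw => hIc hw.1)
    have c2 : ContinuousOn (fun w : ℝ × ℝ => G w.1) (I ×ˢ (univ : Set ℝ)) :=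
      hc.cG.comp continuousOn_fst (fun w hw => Ioo_subset_Icc_self hw.1)
    refine continuousOn_const.mul (c1.mul ((continuousOn_snd.pow m).mul (ContinuousOn.sqrt ?_)))
    refine continuousOn_const.sub ((continuousOn_snd.pow 2).div c2 fun w hw => ?_)
    exact (hc.pos _ (hIc hw.1)).ne'
  have hFn : ∀ s ∈ I, ∀ z ∈ Q, 0 ≤ F (s, z) := fun s hs z hz => by
    have h1 := hc.apos s (hIc hs)
    have h2 : 0 < z := hz
    simp only [hF]
    positivity
  set h : ℝ → ℝ := fun s => a s * Real.sqrt (G s) ^ (m + 1) with hh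
  have hz : ∀ s ∈ I, IntegrableOn (fun z => F (s, z)) Q ∧
      ∫ z in Q, F (s, z) = 2 * Wc 2 m * h s := by
    intro s hs
    obtain ⟨e1, e2⟩ := iZ6_inner m (G s) (hc.pos s (hIc hs))
    refine ⟨?_, ?_⟩
    · simp only [hF]
      exact (e1.const_mul _).const_mul _
    · simp only [hF]
      rw [integral_const_mul, integral_const_mul, e2]
      simp only [hh]
      ring
  have hhint' : IntervalIntegrable h volume 0 σ := by
    refine hc.int.mul_continuousOn ?_
    rw [uIcc_of_le hσ.le]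
    exact hc.cG.sqrt.pow _
  have hhint : IntegrableOn h I := by
    rw [intervalIntegrable_iff_integrableOn_Ioc_of_le hσ.le] at hhint'
    exact hhint'.mono_set Ioo_subset_Ioc_self
  have hint : Integrable F ((volume.restrict I).prod (volume.restrict Q)) := by
    rw [integrable_prod_iff]
    · constructor
      · exact (ae_restrict_iff' hIm).mpr (Eventually.of_forall fun s hs => (hz s hs).1)
      · have h1 : IntegrableOn (fun s => 2 * Wc 2 m * h s) I := hhint.const_mul _
        refine h1.congr ?_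
        refine (ae_restrict_iff' hIm).mpr (Eventually.of_forall fun s hs => ?_)
        simp only
        rw [← (hz s hs).2]
        exact setIntegral_congr_fun hQm fun z hzQ => (Real.norm_of_nonneg (hFn s hs z hzQ)).symm
    · rw [Measure.prod_restrict]
      apply ContinuousOn.aestronglyMeasurable _ (hIm.prod hQm)
      exact hFc.mono (prod_mono le_rfl (subset_univ _))
  have hswap : ∫ z in Q, ∫ s in I, F (s, z) = 2 * Wc 2 m * ∫ s in (0 : ℝ)..σ, h s := by
    rw [← integral_prod_symm _ hint, integral_prod _ hint, intervalIntegral.integral_of_le hσ.le,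
      ← integral_Ioc_eq_integral_Ioo.symm, ← integral_const_mul]
    exact setIntegral_congr_fun hIm fun s hs => (hz s hs).2
  have hintz : IntegrableOn (fun z => ∫ s in I, F (s, z)) Q := hint.integral_prod_right
  have hLp : 0 < L / Real.pi := by positivity
  set Δ : Set ℝ := Ioo 0 (L / Real.pi) with hΔ
  have hΔm : MeasurableSet Δ := measurableSet_Ioo
  have hΔQ : Δ ⊆ Q := fun z hz => hz.1
  have hpt : ∀ z ∈ Δ, (L - Real.pi * z) * z ^ m ≤ ∫ s in I, F (s, z) := by
    intro z hz'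
    have hz0 : 0 < z := hz'.1
    have hz1 : Real.pi * z < L := by
      have := hz'.2
      rw [lt_div_iff₀ hpi] at this
      linarith
    have h1 := hi z hz0 hz1
    have h3 : ∫ s in I, F (s, z) =
        2 * (∫ s in (0 : ℝ)..σ, a s * Real.sqrt (1 - z ^ 2 / G s)) * z ^ m := by
      rw [intervalIntegral.integral_of_le hσ.le, integral_Ioc_eq_integral_Ioo,
        ← integral_const_mul, ← integral_mul_const]
      refine setIntegral_congr_fun hIm fun s _ => ?_
      simp only [hF]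
      ring
    rw [h3]
    exact mul_le_mul_of_nonneg_right (by linarith) (by positivity)
  have hcl : Continuous fun z : ℝ => (L - Real.pi * z) * z ^ m := by fun_prop
  have hle1 : ∫ z in Δ, (L - Real.pi * z) * z ^ m ≤ ∫ z in Δ, ∫ s in I, F (s, z) := by
    refine setIntegral_mono_on ?_ (hintz.mono_set hΔQ) hΔm hpt
    exact (hcl.integrableOn_Icc (a := 0) (b := L / Real.pi)).mono_set Ioo_subset_Icc_self
  have hle2 : ∫ z in Δ, ∫ s in I, F (s, z) ≤ ∫ z in Q, ∫ s in I, F (s, z) := by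
    refine setIntegral_mono_set hintz ?_ (LE.le.eventuallyLE hΔQ)
    refine (ae_restrict_iff' hQm).mpr (Eventually.of_forall fun z hzQ => ?_)
    exact setIntegral_nonneg hIm fun s hs => hFn s hs z hzQ
  have hval : ∫ z in Δ, (L - Real.pi * z) * z ^ m =
      L ^ (m + 2) / Real.pi ^ (m + 1) / ((m + 1) * (m + 2)) := by
    rw [← integral_Ioc_eq_integral_Ioo, ← intervalIntegral.integral_of_le hLp.le]
    have e1 : ∀ z : ℝ, (L - Real.pi * z) * z ^ m = L * z ^ m - Real.pi * z ^ (m + 1) := by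
      intro z; ring
    simp only [e1]
    rw [intervalIntegral.integral_sub (by apply Continuous.intervalIntegrable; fun_prop)
      (by apply Continuous.intervalIntegrable; fun_prop),
      intervalIntegral.integral_const_mul, intervalIntegral.integral_const_mul, integral_pow,
      integral_pow]
    have hm1 : (m : ℝ) + 1 ≠ 0 := by positivity
    have hm2 : (m : ℝ) + 2 ≠ 0 := by positivity
    rw [zero_pow (by omega), zero_pow (by omega)]
    push_cast
    have hm3 : (m : ℝ) + 1 + 1 ≠ 0 := by positivity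
    rw [div_pow, div_pow]
    field_simp
    ring
  rw [← hval]
  exact (hle1.trans hle2).trans hswap.le

end Pool.Agent.Work.MP_02f065_gt.RPn

end
end

section

/-!
Z7: an identity for the integrals of `sin^m`.
-/

open MeasureTheory Set Filter Topology

namespace Pool.Agent.Work.MP_02f065_gt.RPn

theorem iZ7_base0 : Wc 0 0 = Real.pi / 2 := by
  unfold Wc
  simp

theorem iZ7_base1 : Wc 0 1 = 1 := by
  unfold Wc
  simp

theorem iZ7_step (m : ℕ) : ((m : ℝ) + 2) * Wc 0 (m + 2) = ((m : ℝ) + 1) * Wc 0 m := by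
  have h := iE4c_sin 0 m
  rw [h]
  push_cast
  have h2 : (m : ℝ) + 2 ≠ 0 := by positivity
  rw [zero_add]
  field_simp

theorem iZ7_prod (m : ℕ) : ((m : ℝ) + 1) * Wc 0 m * Wc 0 (m + 1) = Real.pi / 2 := by
  induction m with
  | zero =>
    rw [iZ7_base0, iZ7_base1]
    simp
  | succ m ih =>
    have h := iZ7_step m
    push_cast
    calc ((m : ℝ) + 1 + 1) * Wc 0 (m + 1) * Wc 0 (m + 1 + 1)
        = (((m : ℝ) + 2) * Wc 0 (m + 2)) * Wc 0 (m + 1) := by ring_nf
      _ = ((m : ℝ) + 1) * Wc 0 m * Wc 0 (m + 1) := by rw [h]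
      _ = Real.pi / 2 := ih

theorem itemZ7 : claimZ7 := by
  intro m
  have h := iE4c_cos 0 m
  have h1 := iZ7_prod m
  have h2 : (m : ℝ) + 2 ≠ 0 := by positivity
  have h3 : (m : ℝ) + 1 ≠ 0 := by positivity
  have h4 : Wc 2 m = 1 / ((m : ℝ) + 2) * Wc 0 m := by
    rw [show (2 : ℕ) = 0 + 2 from rfl, h]
    push_cast
    ring_nf
  rw [h4]
  have h5 : Real.pi = 2 * (((m : ℝ) + 1) * Wc 0 m * Wc 0 (m + 1)) := by linarith
  rw [h5]
  field_simp

end Pool.Agent.Work.MP_02f065_gt.RPn

end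

section

/-!
MP_02f065_gt, item Z8: integration of invariant even functions over the sphere.
-/

set_option autoImplicit false

open MeasureTheory Set Filter Topology

noncomputable section

namespace Pool.Agent.Work.MP_02f065_gt.RPn

theorem iZ8_norm {P Q : ℕ} (x : E (Ix P Q)) : ‖x‖ ^ 2 = n1 x ^ 2 + n2 x ^ 2 := by
  rw [n1, n2, Real.sq_sqrt (Finset.sum_nonneg fun i _ => sq_nonneg _),
    Real.sq_sqrt (Finset.sum_nonneg fun i _ => sq_nonneg _), EuclideanSpace.norm_sq_eq,
    Fintype.sum_sum_type]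
  simp

theorem iZ8_n1 {Q : ℕ} (x : E (Ix 1 Q)) : n1 x = |x (Sum.inl 0)| := by
  rw [n1, Fin.sum_univ_one, Real.sqrt_sq_eq_abs]

theorem iZ8_w_cont {Q : ℕ} : Continuous fun s : ℝ => (w s 0 : E (Ix 1 Q)) := by
  unfold w
  refine (PiLp.continuous_toLp 2 _).comp (continuous_pi fun i => ?_)
  rcases i with i | j
  · exact Real.continuous_cos
  · change Continuous fun s : ℝ => if j.val = 0 then Real.sin s * Real.cos 0
      else if j.val = 1 then Real.sin s * Real.sin 0 else 0
    split_ifs <;> fun_prop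

theorem iZ8_slice (hK : claimK) (hR : claimR) {Q : ℕ} (hQ : 2 ≤ Q) (x : E (Ix 1 Q))
    (hx : 0 < x (Sum.inl 0)) : ∃ B ∈ SO Q,
    blk (1 : Matrix (Fin 1) (Fin 1) ℝ) B (‖x‖⁻¹ • x) = w (Real.arctan (n2 x / n1 x)) 0 := by
  obtain ⟨B, hB, hB1⟩ := hK Q hQ (fun i => x (Sum.inr i))
  have h1mem : (1 : Matrix (Fin 1) (Fin 1) ℝ) ∈ SO 1 := Submonoid.one_mem _
  refine ⟨B, hB, ?_⟩
  rw [(hR 1 Q 1 h1mem B hB x 0 (‖x‖⁻¹)).2.1]
  have hn := iZ8_norm x
  have hn1 : n1 x = x (Sum.inl 0) := by rw [iZ8_n1, abs_of_pos hx]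
  have hn1p : 0 < n1 x := by rw [hn1]; exact hx
  set s := Real.arctan (n2 x / n1 x) with hs
  have hx0 : 0 < ‖x‖ := by
    rw [norm_pos_iff]
    rintro rfl
    simp at hx
  have hsq : ‖x‖ = n1 x * Real.sqrt (1 + (n2 x / n1 x) ^ 2) := by
    rw [← Real.sqrt_sq hx0.le, hn]
    have h1 : n1 x ^ 2 + n2 x ^ 2 = n1 x ^ 2 * (1 + (n2 x / n1 x) ^ 2) := by
      field_simp
    rw [h1, Real.sqrt_mul (sq_nonneg _), Real.sqrt_sq hn1p.le]
  have hr : Real.sqrt (1 + (n2 x / n1 x) ^ 2) ≠ 0 :=
    (Real.sqrt_pos.mpr (by positivity)).ne'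
  have hcos : ‖x‖⁻¹ * n1 x = Real.cos s := by
    rw [hs, Real.cos_arctan, hsq]
    field_simp
  have hsin : ‖x‖⁻¹ * n2 x = Real.sin s := by
    rw [hs, Real.sin_arctan, hsq]
    field_simp
  ext i
  rcases i with i | i
  · change ‖x‖⁻¹ * ((1 : Matrix (Fin 1) (Fin 1) ℝ).mulVec (fun i => x (Sum.inl i))) i =
      Real.cos s
    rw [Matrix.one_mulVec, ← hcos, hn1]
    have hi : i = 0 := Subsingleton.elim _ _
    rw [hi]
  · change ‖x‖⁻¹ * (B.mulVec (fun i => x (Sum.inr i))) i = _
    rw [hB1]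
    change _ = if i.val = 0 then Real.sin s * Real.cos 0 else if i.val = 1 then
      Real.sin s * Real.sin 0 else 0
    by_cases hi : i.val = 0
    · simp only [hi, if_true, Real.cos_zero, mul_one]
      exact hsin
    · simp [hi]

theorem iZ8_null {Q : ℕ} : ∀ᵐ x : E (Ix 1 Q), x (Sum.inl 0) ≠ 0 := by
  set f : E (Ix 1 Q) →ₗ[ℝ] ℝ := (EuclideanSpace.proj (Sum.inl 0 : Ix 1 Q) :
    E (Ix 1 Q) →L[ℝ] ℝ).toLinearMap with hf
  have hne : LinearMap.ker f ≠ ⊤ := by
    intro h
    have h1 : (EuclideanSpace.single (Sum.inl 0 : Ix 1 Q) (1 : ℝ)) ∈ LinearMap.ker f := by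
      rw [h]; trivial
    rw [LinearMap.mem_ker] at h1
    simp [hf] at h1
  have hz := Measure.addHaar_submodule (volume : Measure (E (Ix 1 Q))) (LinearMap.ker f) hne
  rw [ae_iff]
  refine measure_mono_null ?_ hz
  intro x hx
  have h1 : x (Sum.inl 0) = 0 := not_not.mp hx
  change f x = 0
  simpa [hf] using h1

theorem itemZ8 (ha : claimV1a) (hb : claimV1b) (hc : claimV1c) (hK : claimK) (hR : claimR)
    (hZ0 : claimZ0) : claimZ8 := by
  intro Q hQ
  have : Nonempty (Ix 1 Q) := ⟨Sum.inl 0⟩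
  obtain ⟨κa, ha0, ha1⟩ := ha (Ix 1 Q)
  obtain ⟨κb, hb0, hb1⟩ := hb 1 Q le_rfl (by omega)
  obtain ⟨κc, hc0, hc1⟩ := hc (1 - 1) (Q - 1)
  refine ⟨κb * κc / κa, by positivity, fun F hF hinv heven => ?_⟩
  have hnorm : ∀ s, ‖(w s 0 : E (Ix 1 Q))‖ = 1 := fun s => ((hZ0 Q hQ).1 s 0).1
  have hΦ : ContinuousOn (fun s => F (w s 0)) (Icc 0 (Real.pi / 2)) := by
    refine hF.comp iZ8_w_cont.continuousOn ?_
    intro s _
    rw [mem_sphere_zero_iff_norm]
    exact hnorm s
  have h1 := ha1 F hF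
  have h2 := hb1 _ hΦ
  have h3 := hc1 _ hΦ
  have h1mem : (1 : Matrix (Fin 1) (Fin 1) ℝ) ∈ SO 1 := Submonoid.one_mem _
  have hone : ∀ x : E (Ix 1 Q), x ≠ 0 → ‖‖x‖⁻¹ • x‖ = 1 := by
    intro x hx
    rw [norm_smul, norm_inv, norm_norm, inv_mul_cancel₀ (norm_ne_zero_iff.mpr hx)]
  have h4 : ∫ x : E (Ix 1 Q), F (‖x‖⁻¹ • x) * Real.exp (-‖x‖ ^ 2) =
      ∫ x : E (Ix 1 Q), F (w (Real.arctan (n2 x / n1 x)) 0) * Real.exp (-‖x‖ ^ 2) := by
    refine integral_congr_ae ?_
    filter_upwards [iZ8_null (Q := Q)] with x hx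
    congr 1
    have hx0 : x ≠ 0 := by
      rintro rfl
      simp at hx
    rcases lt_or_gt_of_ne hx with hneg | hpos
    · have hpos' : 0 < (-x) (Sum.inl 0) := by
        change 0 < -(x (Sum.inl 0))
        linarith
      obtain ⟨B, hB, hAB⟩ := iZ8_slice hK hR hQ (-x) hpos'
      have hn1 : n1 (-x) = n1 x := by simp [n1]
      have hn2 : n2 (-x) = n2 x := by simp [n2]
      rw [hn1, hn2, norm_neg] at hAB
      rw [← hAB, hinv 1 h1mem B hB, smul_neg, heven _ (hone x hx0)]
      rw [smul_neg, norm_neg]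
      exact hone x hx0
    · obtain ⟨B, hB, hAB⟩ := iZ8_slice hK hR hQ x hpos
      rw [← hAB, hinv 1 h1mem B hB]
      exact hone x hx0
  rw [h4, h2, h3] at h1
  simp only [Nat.sub_self, pow_zero, one_mul] at h1
  rw [div_mul_eq_mul_div, eq_div_iff ha0.ne', mul_comm, ← h1]
  ring

end Pool.Agent.Work.MP_02f065_gt.RPn

end
end

section

/-!
Item Z9: the volume density on the slice.
-/

open MeasureTheory Set Filter Topology

noncomputable section

namespace Pool.Agent.Work.MP_02f065_gt.RPn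

theorem iZ9_mat (n : ℕ) (σ : Equiv.Perm (Fin n)) (d : Fin n → ℝ) (hd : ∀ i, d i * d i = 1)
    (hdet : (∏ i, d i) * ((Equiv.Perm.sign σ : ℤ) : ℝ) = 1) :
    ∃ B ∈ SO n, ∀ u : Fin n → ℝ, B.mulVec u = fun i => d i * u (σ i) := by
  refine ⟨Matrix.diagonal d * σ.permMatrix ℝ, ?_, fun u => ?_⟩
  · rw [Matrix.mem_specialOrthogonalGroup_iff, Matrix.mem_orthogonalGroup_iff]
    constructor
    · have h1 : σ.permMatrix ℝ * (σ.permMatrix ℝ).transpose = 1 := by
        rw [Matrix.transpose_permMatrix, ← Matrix.permMatrix_mul, inv_mul_cancel,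
          Matrix.permMatrix_one]
      rw [Matrix.transpose_mul, Matrix.diagonal_transpose, Matrix.mul_assoc,
        ← Matrix.mul_assoc (σ.permMatrix ℝ), h1, Matrix.one_mul, Matrix.diagonal_mul_diagonal,
        ← Matrix.diagonal_one]
      congr 1
      ext i
      simp [hd]
    · rw [Matrix.det_mul, Matrix.det_diagonal, Matrix.det_permutation]
      exact hdet
  · rw [← Matrix.mulVec_mulVec, Matrix.permMatrix_mulVec]
    ext i
    rw [Matrix.mulVec_diagonal]
    rfl

theorem iZ9_blk {Q : ℕ} (B : Matrix (Fin Q) (Fin Q) ℝ) (σ : Equiv.Perm (Fin Q)) (d : Fin Q → ℝ)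
    (hB : ∀ u : Fin Q → ℝ, B.mulVec u = fun i => d i * u (σ i)) (v : E (Ix 1 Q)) :
    (∀ i, (blk 1 B v) (Sum.inl i) = v (Sum.inl i)) ∧
    ∀ i, (blk 1 B v) (Sum.inr i) = d i * v (Sum.inr (σ i)) := by
  constructor
  · intro i
    show blkC 1 B v (Sum.inl i) = _
    unfold blkC
    rw [Sum.elim_inl, Matrix.one_mulVec]
  · intro i
    show blkC 1 B v (Sum.inr i) = _
    unfold blkC
    rw [Sum.elim_inr, hB]

theorem iZ9_smul2 {ι : Type} [Fintype ι] {g : Field ι} (hg : IsMetric g) (x v u : E ι) (r : ℝ) :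
    g x v (r • u) = r * g x v u := by
  rw [hg.symm, hg.smul, hg.symm]

theorem iZ9_neg1 {ι : Type} [Fintype ι] {g : Field ι} (hg : IsMetric g) (x v u : E ι) :
    g x (-v) u = - g x v u := by
  have := hg.smul x v u (-1)
  rw [neg_one_smul] at this
  linarith

section slice

variable {Q : ℕ} (s : ℝ)

theorem iZ9_w_inl (i : Fin 1) : (w s 0 : E (Ix 1 Q)) (Sum.inl i) = Real.cos s := rfl

theorem iZ9_w_inr (j : Fin Q) : (w s 0 : E (Ix 1 Q)) (Sum.inr j) =
    if j.val = 0 then Real.sin s else 0 := by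
  show (if j.val = 0 then Real.sin s * Real.cos 0 else if j.val = 1 then Real.sin s * Real.sin 0
    else 0) = _
  rw [Real.cos_zero, Real.sin_zero, mul_one, mul_zero, ite_self]

theorem iZ9_ws_inl (i : Fin 1) : (ws s 0 : E (Ix 1 Q)) (Sum.inl i) = -Real.sin s := rfl

theorem iZ9_ws_inr (j : Fin Q) : (ws s 0 : E (Ix 1 Q)) (Sum.inr j) =
    if j.val = 0 then Real.cos s else 0 := by
  show (if j.val = 0 then Real.cos s * Real.cos 0 else if j.val = 1 then Real.cos s * Real.sin 0
    else 0) = _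
  rw [Real.cos_zero, Real.sin_zero, mul_one, mul_zero, ite_self]

theorem iZ9_wt_inl (i : Fin 1) : (wt s 0 : E (Ix 1 Q)) (Sum.inl i) = 0 := rfl

theorem iZ9_wt_inr (j : Fin Q) : (wt s 0 : E (Ix 1 Q)) (Sum.inr j) =
    if j.val = 1 then Real.sin s else 0 := by
  show (if j.val = 0 then -(Real.sin s * Real.sin 0) else if j.val = 1 then
    Real.sin s * Real.cos 0 else 0) = _
  rw [Real.cos_zero, Real.sin_zero, mul_one, mul_zero, neg_zero]
  by_cases h : j.val = 0
  · rw [if_pos h, if_neg (by omega)]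
  · rw [if_neg h]

theorem iZ9_ei (i j : Ix 1 Q) : (ei i : E (Ix 1 Q)) j = if j = i then 1 else 0 := by
  unfold ei
  rw [PiLp.single_apply]

theorem iZ9_tang (x : E (Ix 1 Q)) (i j : Ix 1 Q) :
    (tang x (ei i)) j = (if j = i then 1 else 0) - x i * x j := by
  unfold tang
  have h : inner ℝ x (ei i) = x i := by
    unfold ei
    rw [EuclideanSpace.inner_single_right]
    simp
  rw [h]
  show (ei i : E (Ix 1 Q)) j - x i * x j = _
  rw [iZ9_ei]

theorem iZ9_tang_inl (i : Fin 1) :
    tang (w s 0 : E (Ix 1 Q)) (ei (Sum.inl i)) = (-Real.sin s) • ws s 0 := by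
  have h := Real.sin_sq_add_cos_sq s
  ext j
  rw [iZ9_tang, iZ9_w_inl]
  show _ = -Real.sin s * (ws s 0 : E (Ix 1 Q)) j
  rcases j with j | j
  · rw [iZ9_w_inl, iZ9_ws_inl, Subsingleton.elim j i, if_pos rfl]
    linear_combination -h
  · rw [iZ9_w_inr, iZ9_ws_inr, if_neg (by simp)]
    split_ifs <;> ring

theorem iZ9_tang_zero (i : Fin Q) (hi : i.val = 0) :
    tang (w s 0 : E (Ix 1 Q)) (ei (Sum.inr i)) = (Real.cos s) • ws s 0 := by
  have h := Real.sin_sq_add_cos_sq s
  ext j
  rw [iZ9_tang, iZ9_w_inr, if_pos hi]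
  show _ = Real.cos s * (ws s 0 : E (Ix 1 Q)) j
  rcases j with j | j
  · rw [iZ9_w_inl, iZ9_ws_inl, if_neg (by simp)]
    ring
  · rw [iZ9_w_inr, iZ9_ws_inr]
    by_cases hj : j.val = 0
    · have : j = i := Fin.ext (by omega)
      rw [if_pos (by rw [this]), if_pos hj, if_pos hj]
      linear_combination -h
    · have : j ≠ i := fun h' => hj (by rw [h']; exact hi)
      rw [if_neg (fun h' => this (Sum.inr_injective h')), if_neg hj, if_neg hj]
      ring

theorem iZ9_tang_pos (i : Fin Q) (hi : i.val ≠ 0) :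
    tang (w s 0 : E (Ix 1 Q)) (ei (Sum.inr i)) = ei (Sum.inr i) := by
  ext j
  rw [iZ9_tang, iZ9_w_inr, if_neg hi, iZ9_ei]
  ring

theorem iZ9_wt (i : Fin Q) (hi : i.val = 1) :
    (wt s 0 : E (Ix 1 Q)) = Real.sin s • ei (Sum.inr i) := by
  ext j
  show (wt s 0 : E (Ix 1 Q)) j = Real.sin s * (ei (Sum.inr i) : E (Ix 1 Q)) j
  rcases j with j | j
  · rw [iZ9_wt_inl, iZ9_ei, if_neg (by simp), mul_zero]
  · rw [iZ9_wt_inr, iZ9_ei]
    by_cases hj : j.val = 1
    · have : j = i := Fin.ext (by omega)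
      rw [if_pos hj, if_pos (by rw [this]), mul_one]
    · have : j ≠ i := fun h' => hj (by rw [h']; exact hi)
      rw [if_neg hj, if_neg (fun h' => this (Sum.inr_injective h')), mul_zero]

end slice

/-- the image of the vectors in question under a signed permutation -/
theorem iZ9_fix {Q : ℕ} (B : Matrix (Fin Q) (Fin Q) ℝ) (σ : Equiv.Perm (Fin Q)) (d : Fin Q → ℝ)
    (hB : ∀ u : Fin Q → ℝ, B.mulVec u = fun i => d i * u (σ i)) (i0 : Fin Q) (h0 : i0.val = 0)
    (hσ : σ i0 = i0) (hd : d i0 = 1) (s : ℝ) :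
    blk 1 B (w s 0 : E (Ix 1 Q)) = w s 0 ∧ blk 1 B (ws s 0 : E (Ix 1 Q)) = ws s 0 := by
  have hs : ∀ i : Fin Q, i.val ≠ 0 → (σ i).val ≠ 0 := by
    intro i hi h
    have : σ i = i0 := Fin.ext (by omega)
    rw [← hσ] at this
    exact hi (by rw [σ.injective this]; exact h0)
  constructor
  · ext j
    rcases j with j | j
    · rw [(iZ9_blk B σ d hB _).1]
    · rw [(iZ9_blk B σ d hB _).2, iZ9_w_inr, iZ9_w_inr]
      by_cases hj : j.val = 0
      · have : j = i0 := Fin.ext (by omega)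
        rw [this, hσ, hd, one_mul]
      · rw [if_neg hj, if_neg (hs j hj), mul_zero]
  · ext j
    rcases j with j | j
    · rw [(iZ9_blk B σ d hB _).1]
    · rw [(iZ9_blk B σ d hB _).2, iZ9_ws_inr, iZ9_ws_inr]
      by_cases hj : j.val = 0
      · have : j = i0 := Fin.ext (by omega)
        rw [this, hσ, hd, one_mul]
      · rw [if_neg hj, if_neg (hs j hj), mul_zero]

theorem iZ9_blk_ei {Q : ℕ} (B : Matrix (Fin Q) (Fin Q) ℝ) (σ : Equiv.Perm (Fin Q)) (d : Fin Q → ℝ)
    (hB : ∀ u : Fin Q → ℝ, B.mulVec u = fun i => d i * u (σ i)) (j : Fin Q) :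
    blk 1 B (ei (Sum.inr j) : E (Ix 1 Q)) = d (σ.symm j) • ei (Sum.inr (σ.symm j)) := by
  ext i
  rcases i with i | i
  · rw [(iZ9_blk B σ d hB _).1]
    show (ei (Sum.inr j) : E (Ix 1 Q)) (Sum.inl i) =
      d (σ.symm j) * (ei (Sum.inr (σ.symm j)) : E (Ix 1 Q)) (Sum.inl i)
    rw [iZ9_ei, iZ9_ei, if_neg (by simp), if_neg (by simp), mul_zero]
  · rw [(iZ9_blk B σ d hB _).2]
    show d i * (ei (Sum.inr j) : E (Ix 1 Q)) (Sum.inr (σ i)) =
      d (σ.symm j) * (ei (Sum.inr (σ.symm j)) : E (Ix 1 Q)) (Sum.inr i)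
    rw [iZ9_ei, iZ9_ei]
    by_cases h : i = σ.symm j
    · rw [h, Equiv.apply_symm_apply, if_pos rfl, if_pos rfl]
    · rw [if_neg, if_neg, mul_zero, mul_zero]
      · exact fun h' => h (Sum.inr_injective h')
      · intro h'
        exact h ((Equiv.eq_symm_apply σ).2 (Sum.inr_injective h'))

theorem iZ9_inner_ei {Q : ℕ} (s : ℝ) (j : Fin Q) (hj : j.val ≠ 0) :
    inner ℝ (w s 0 : E (Ix 1 Q)) (ei (Sum.inr j)) = 0 := by
  unfold ei
  rw [EuclideanSpace.inner_single_right]
  simp only [one_mul]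
  rw [iZ9_w_inr, if_neg hj]
  simp

/-- the coordinates `a ≥ 2` are orthogonal to everything else -/
theorem iZ9_orth (hZ0 : claimZ0) {q : ℕ} {g : Field (Ix 1 (2 + q))} (hg : IsMetric g)
    (hi : IsInv g) (s : ℝ) (a : Fin (2 + q)) (ha : 2 ≤ a.val) :
    g (w s 0) (ws s 0) (ei (Sum.inr a)) = 0 ∧
    (∀ b : Fin (2 + q), 2 ≤ b.val → b ≠ a → g (w s 0) (ei (Sum.inr b)) (ei (Sum.inr a)) = 0) ∧
    (∀ i1 : Fin (2 + q), i1.val = 1 → g (w s 0) (ei (Sum.inr i1)) (ei (Sum.inr a)) = 0 ∧
      g (w s 0) (ei (Sum.inr a)) (ei (Sum.inr a)) =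
        g (w s 0) (ei (Sum.inr i1)) (ei (Sum.inr i1))) := by
  obtain ⟨hn, hin1, hin2, -⟩ := (hZ0 (2 + q) (by omega)).1 s 0
  let i0 : Fin (2 + q) := ⟨0, by omega⟩
  let i1 : Fin (2 + q) := ⟨1, by omega⟩
  have v0 : i0.val = 0 := rfl
  have v1 : i1.val = 1 := rfl
  have h1a : i1 ≠ a := fun h => by
    have := congrArg Fin.val h
    omega
  have h01 : i0 ≠ i1 := fun h => by
    have := congrArg Fin.val h
    omega
  have h0a : i0 ≠ a := fun h => by
    have := congrArg Fin.val h
    omega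
  have hina := iZ9_inner_ei s a (by omega)
  have hin1' := iZ9_inner_ei (Q := 2 + q) s i1 (by omega)
  -- the diagonal matrix
  let d : Fin (2 + q) → ℝ := fun i => (if i1 = i then -1 else 1) * (if a = i then -1 else 1)
  have hd : ∀ i, d i * d i = 1 := by
    intro i
    simp only [d]
    split_ifs <;> norm_num
  have hprod : ∏ i, d i = 1 := by
    simp only [d]
    rw [Finset.prod_mul_distrib, Finset.prod_ite_eq, Finset.prod_ite_eq]
    simp
  obtain ⟨B, hBm, hB⟩ := iZ9_mat (2 + q) 1 d hd (by rw [hprod]; simp)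
  have hd0 : d i0 = 1 := by
    simp only [d]
    rw [if_neg h01.symm, if_neg h0a.symm, one_mul]
  have hda : d a = -1 := by
    show (if i1 = a then (-1 : ℝ) else 1) * (if a = a then -1 else 1) = -1
    rw [if_neg h1a, if_pos rfl, one_mul]
  obtain ⟨f1, f2⟩ := iZ9_fix B 1 d hB i0 rfl rfl hd0 s
  have fa : blk 1 B (ei (Sum.inr a) : E (Ix 1 (2 + q))) = -ei (Sum.inr a) := by
    rw [iZ9_blk_ei B 1 d hB]
    show d a • ei (Sum.inr a) = _
    rw [hda, neg_one_smul]
  have zero_of : ∀ v : E (Ix 1 (2 + q)), inner ℝ (w s 0 : E (Ix 1 (2 + q))) v = 0 →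
      blk 1 B v = v → g (w s 0) v (ei (Sum.inr a)) = 0 := by
    intro v hv hf
    have h := hi 1 (one_mem _) B hBm (w s 0) v (ei (Sum.inr a)) hn hv hina
    rw [f1, hf, fa, hg.symm, iZ9_neg1 hg, hg.symm] at h
    linarith
  refine ⟨zero_of _ hin1 f2, fun b hb hba => zero_of _ (iZ9_inner_ei s b (by omega)) ?_, ?_⟩
  · rw [iZ9_blk_ei B 1 d hB]
    show d b • ei (Sum.inr b) = _
    have h1b : i1 ≠ b := fun h => by
      have := congrArg Fin.val h
      omega
    have : d b = 1 := by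
      simp only [d]
      rw [if_neg h1b, if_neg hba.symm, one_mul]
    rw [this, one_smul]
  · intro j1 hj1
    have hj : j1 = i1 := Fin.ext hj1
    rw [hj]
    -- the rotation
    let d' : Fin (2 + q) → ℝ := fun i => if i1 = i then -1 else 1
    have hd' : ∀ i, d' i * d' i = 1 := by
      intro i
      simp only [d']
      split_ifs <;> norm_num
    have hprod' : ∏ i, d' i = -1 := by
      simp only [d']
      rw [Finset.prod_ite_eq]
      simp
    obtain ⟨R, hRm, hR⟩ := iZ9_mat (2 + q) (Equiv.swap i1 a) d' hd' (by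
      rw [hprod', Equiv.Perm.sign_swap h1a]
      norm_num)
    obtain ⟨r1, -⟩ := iZ9_fix R (Equiv.swap i1 a) d' hR i0 rfl
      (Equiv.swap_apply_of_ne_of_ne h01 h0a) (by
        simp only [d']
        rw [if_neg h01.symm]) s
    have ra : blk 1 R (ei (Sum.inr a) : E (Ix 1 (2 + q))) = -ei (Sum.inr i1) := by
      rw [iZ9_blk_ei R _ d' hR, Equiv.symm_swap, Equiv.swap_apply_right]
      show (if i1 = i1 then (-1 : ℝ) else 1) • ei (Sum.inr i1) = _
      rw [if_pos rfl, neg_one_smul]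
    have rb : blk 1 R (ei (Sum.inr i1) : E (Ix 1 (2 + q))) = ei (Sum.inr a) := by
      rw [iZ9_blk_ei R _ d' hR, Equiv.symm_swap, Equiv.swap_apply_left]
      simp only [d']
      rw [if_neg h1a, one_smul]
    constructor
    · have h := hi 1 (one_mem _) R hRm (w s 0) (ei (Sum.inr i1)) (ei (Sum.inr a)) hn hin1' hina
      rw [r1, ra, rb, hg.symm, iZ9_neg1 hg] at h
      linarith
    · have h := hi 1 (one_mem _) R hRm (w s 0) (ei (Sum.inr i1)) (ei (Sum.inr i1)) hn hin1' hin1'
      rw [r1, rb] at h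
      exact h

theorem itemZ9 (hZ0 : claimZ0) : claimZ9 := by
  intro Q hQ g hg hi s hs
  obtain ⟨q, rfl⟩ := Nat.exists_eq_add_of_le hQ
  have hpi := Real.pi_pos
  have hsin : 0 < Real.sin s := Real.sin_pos_of_pos_of_lt_pi hs.1 (by linarith [hs.2])
  obtain ⟨hn, hin1, hin2, -⟩ := (hZ0 (2 + q) (by omega)).1 s 0
  set x : E (Ix 1 (2 + q)) := w s 0 with hx
  let j0 : Fin (2 + q) := ⟨0, by omega⟩
  let j1 : Fin (2 + q) := ⟨1, by omega⟩
  have hj1 : j1.val ≠ 0 := by
    have : j1.val = 1 := rfl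
    omega
  set A := g x (ws s 0) (ws s 0) with hA
  set T := g x (ws s 0) (ei (Sum.inr j1)) with hT
  set l := g x (ei (Sum.inr j1)) (ei (Sum.inr j1)) with hl
  have hlpos : 0 < l := by
    refine hg.pos x _ hn (iZ9_inner_ei s j1 hj1) ?_
    intro h
    have h2 := congrArg (fun v : E (Ix 1 (2 + q)) => v (Sum.inr j1)) h
    simp only [iZ9_ei, if_true] at h2
    exact one_ne_zero h2
  have ewt : (wt s 0 : E (Ix 1 (2 + q))) = Real.sin s • ei (Sum.inr j1) := iZ9_wt s j1 rfl
  have hcA : cA g s = A := rfl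
  have hcB : cB g s = Real.sin s * T := by
    unfold cB
    rw [ewt, iZ9_smul2 hg]
  have hcG : cG g s = Real.sin s ^ 2 * l := by
    unfold cG
    rw [ewt, iZ9_smul2 hg, hg.smul]
    ring
  -- the determinant
  have hdet : Matrix.det (Matrix.of (gram g x)) = (A * l - T ^ 2) * l ^ q := by
    let e : (Fin 1 ⊕ Fin 2) ⊕ Fin q ≃ Fin 1 ⊕ Fin (2 + q) :=
      (Equiv.sumAssoc (Fin 1) (Fin 2) (Fin q)).trans
        (Equiv.sumCongr (Equiv.refl _) finSumFinEquiv)
    have ea : ∀ a : Fin q, e (Sum.inr a) = Sum.inr (Fin.natAdd 2 a) := fun a => rfl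
    have e0 : ∀ i : Fin 1, e (Sum.inl (Sum.inl i)) = Sum.inl i := fun i => rfl
    have e1 : e (Sum.inl (Sum.inr 0)) = Sum.inr j0 := rfl
    have e2 : e (Sum.inl (Sum.inr 1)) = Sum.inr j1 := rfl
    have t0 : ∀ i : Fin 1, tang x (ei (Sum.inl i)) = (-Real.sin s) • ws s 0 :=
      fun i => iZ9_tang_inl s i
    have t1 : tang x (ei (Sum.inr j0)) = Real.cos s • ws s 0 := iZ9_tang_zero s j0 rfl
    have t2 : tang x (ei (Sum.inr j1)) = ei (Sum.inr j1) := iZ9_tang_pos s j1 hj1
    have ta : ∀ a : Fin q, tang x (ei (Sum.inr (Fin.natAdd 2 a))) =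
        ei (Sum.inr (Fin.natAdd 2 a)) := fun a => iZ9_tang_pos s _ (by simp)
    have x0 : ∀ i : Fin 1, x (Sum.inl i) = Real.cos s := fun i => rfl
    have x1 : x (Sum.inr j0) = Real.sin s := by rw [hx, iZ9_w_inr, if_pos rfl]
    have x2 : x (Sum.inr j1) = 0 := by rw [hx, iZ9_w_inr, if_neg hj1]
    have xa : ∀ a : Fin q, x (Sum.inr (Fin.natAdd 2 a)) = 0 := fun a => by
      rw [hx, iZ9_w_inr, if_neg (by simp)]
    have horth := fun a : Fin q => iZ9_orth hZ0 hg hi s (Fin.natAdd 2 a) (by simp)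
    rw [← hx] at horth
    let M3 : Matrix (Fin 1 ⊕ Fin 2) (Fin 1 ⊕ Fin 2) ℝ :=
      fun c c' => gram g x (e (Sum.inl c)) (e (Sum.inl c'))
    have hM : (Matrix.of (gram g x)).submatrix e e =
        Matrix.fromBlocks M3 0 0 (Matrix.diagonal fun _ : Fin q => l) := by
      have key : ∀ (c : Fin 1 ⊕ Fin 2) (a : Fin q),
          gram g x (e (Sum.inl c)) (e (Sum.inr a)) = 0 := by
        intro c a
        unfold gram
        rw [ea, ta, xa, mul_zero, add_zero]
        rcases c with c | c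
        · rw [e0, t0, hg.smul, (horth a).1, mul_zero]
        · fin_cases c
          · show g x (tang x (ei (Sum.inr j0))) _ = 0
            rw [t1, hg.smul, (horth a).1, mul_zero]
          · show g x (tang x (ei (Sum.inr j1))) _ = 0
            rw [t2]
            exact ((horth a).2.2 j1 rfl).1
      have sym : ∀ i j, gram g x i j = gram g x j i := by
        intro i j
        unfold gram
        rw [hg.symm, mul_comm]
      ext i j
      rcases i with i | i
      · rcases j with j | j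
        · rfl
        · exact key i j
      · rcases j with j | j
        · show gram g x (e (Sum.inr i)) (e (Sum.inl j)) = 0
          rw [sym]
          exact key j i
        · show gram g x (e (Sum.inr i)) (e (Sum.inr j)) =
            Matrix.diagonal (fun _ : Fin q => l) i j
          unfold gram
          rw [ea, ea, ta, ta, xa, xa, mul_zero, add_zero]
          by_cases hij : i = j
          · rw [hij, Matrix.diagonal_apply_eq]
            exact ((horth j).2.2 j1 rfl).2
          · rw [Matrix.diagonal_apply_ne _ hij]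
            refine (horth j).2.1 (Fin.natAdd 2 i) (by simp) ?_
            intro h
            exact hij (by
              have := congrArg Fin.val h
              simp only [Fin.val_natAdd] at this
              exact Fin.ext (by omega))
    have hM3 : M3.det = A * l - T ^ 2 := by
      rw [← Matrix.det_submatrix_equiv_self (finSumFinEquiv (m := 1) (n := 2)).symm M3]
      rw [Matrix.det_fin_three]
      have s0 : (finSumFinEquiv (m := 1) (n := 2)).symm 0 = Sum.inl 0 := by decide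
      have s1 : (finSumFinEquiv (m := 1) (n := 2)).symm 1 = Sum.inr 0 := by decide
      have s2 : (finSumFinEquiv (m := 1) (n := 2)).symm 2 = Sum.inr 1 := by decide
      simp only [Matrix.submatrix_apply]
      rw [s0, s1, s2]
      have g00 : M3 (Sum.inl 0) (Sum.inl 0) = Real.sin s ^ 2 * A + Real.cos s ^ 2 := by
        show gram g x (e (Sum.inl (Sum.inl 0))) (e (Sum.inl (Sum.inl 0))) = _
        unfold gram
        rw [e0, t0, x0, hg.smul, iZ9_smul2 hg]
        ring
      have g01 : M3 (Sum.inl 0) (Sum.inr 0) =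
          -(Real.sin s * Real.cos s * A) + Real.sin s * Real.cos s := by
        show gram g x (e (Sum.inl (Sum.inl 0))) (e (Sum.inl (Sum.inr 0))) = _
        unfold gram
        rw [e0, e1, t0, t1, x0, x1, hg.smul, iZ9_smul2 hg]
        ring
      have g10 : M3 (Sum.inr 0) (Sum.inl 0) =
          -(Real.sin s * Real.cos s * A) + Real.sin s * Real.cos s := by
        show gram g x (e (Sum.inl (Sum.inr 0))) (e (Sum.inl (Sum.inl 0))) = _
        unfold gram
        rw [e0, e1, t0, t1, x0, x1, hg.smul, iZ9_smul2 hg]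
        ring
      have g02 : M3 (Sum.inl 0) (Sum.inr 1) = -(Real.sin s * T) := by
        show gram g x (e (Sum.inl (Sum.inl 0))) (e (Sum.inl (Sum.inr 1))) = _
        unfold gram
        rw [e0, e2, t0, t2, x0, x2, hg.smul]
        ring
      have g20 : M3 (Sum.inr 1) (Sum.inl 0) = -(Real.sin s * T) := by
        show gram g x (e (Sum.inl (Sum.inr 1))) (e (Sum.inl (Sum.inl 0))) = _
        unfold gram
        rw [e0, e2, t0, t2, x0, x2, hg.symm, hg.smul]
        ring
      have g11 : M3 (Sum.inr 0) (Sum.inr 0) = Real.cos s ^ 2 * A + Real.sin s ^ 2 := by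
        show gram g x (e (Sum.inl (Sum.inr 0))) (e (Sum.inl (Sum.inr 0))) = _
        unfold gram
        rw [e1, t1, x1, hg.smul, iZ9_smul2 hg]
        ring
      have g12 : M3 (Sum.inr 0) (Sum.inr 1) = Real.cos s * T := by
        show gram g x (e (Sum.inl (Sum.inr 0))) (e (Sum.inl (Sum.inr 1))) = _
        unfold gram
        rw [e1, e2, t1, t2, x1, x2, hg.smul]
        ring
      have g21 : M3 (Sum.inr 1) (Sum.inr 0) = Real.cos s * T := by
        show gram g x (e (Sum.inl (Sum.inr 1))) (e (Sum.inl (Sum.inr 0))) = _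
        unfold gram
        rw [e1, e2, t1, t2, x1, x2, hg.symm, hg.smul]
        ring
      have g22 : M3 (Sum.inr 1) (Sum.inr 1) = l := by
        show gram g x (e (Sum.inl (Sum.inr 1))) (e (Sum.inl (Sum.inr 1))) = _
        unfold gram
        rw [e2, t2, x2]
        ring
      rw [g00, g01, g02, g10, g11, g12, g20, g21, g22]
      have h := Real.sin_sq_add_cos_sq s
      have h' : Real.cos s ^ 2 = 1 - Real.sin s ^ 2 := by linarith
      have e4 : Real.cos s ^ 4 = (1 - Real.sin s ^ 2) ^ 2 := by rw [← h']; ring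
      linear_combination (A * l * (Real.sin s ^ 2 + Real.cos s ^ 2 + 1) -
        T ^ 2 * (Real.sin s ^ 2 + Real.cos s ^ 2 + 1)) * h
    rw [← Matrix.det_submatrix_equiv_self e, hM, Matrix.det_fromBlocks_zero₂₁, hM3,
      Matrix.det_diagonal]
    simp
  have hX : (A * l - T ^ 2) * l ^ q = (A - T ^ 2 / l) * l ^ (q + 1) := by
    field_simp
    ring
  have hsq : Real.sqrt (l ^ (q + 1)) = Real.sqrt l ^ (q + 1) := by
    have : l ^ (q + 1) = (Real.sqrt l ^ (q + 1)) ^ 2 := by
      rw [← pow_mul, mul_comm, pow_mul, Real.sq_sqrt hlpos.le]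
    rw [this, Real.sqrt_sq (by positivity)]
  have hvd : volDensity g x = Real.sqrt (A - T ^ 2 / l) * Real.sqrt l ^ (q + 1) := by
    unfold volDensity
    rw [hdet, hX, Real.sqrt_mul' _ (by positivity), hsq]
  have hca : ca g s = Real.sqrt (A - T ^ 2 / l) := by
    unfold ca
    rw [hcA, hcB, hcG]
    congr 1
    field_simp
  have hG : Real.sqrt (cG g s) = Real.sin s * Real.sqrt l := by
    rw [hcG, Real.sqrt_mul (sq_nonneg _), Real.sqrt_sq hsin.le]
  have hexp : 2 + q - 1 = q + 1 := by omega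
  rw [hvd, hca, hG, hexp, mul_pow]
  ring

end Pool.Agent.Work.MP_02f065_gt.RPn

end
end

section

/-! The toric theorem: all items put together. -/

open MeasureTheory Set Filter Topology

noncomputable section

namespace Pool.Agent.Work.MP_02f065_gt.Toric

theorem sharp_of (hA6 : claimA6) (hB1 : claimB1) (hB2 : claimB2) (hB7 : claimB7)
    (hC1 : claimC1) (hC2 : claimC2) (hC3 : claimC3) (hC5 : claimC5) (hC6 : claimC6)
    (hD5 : claimD5) (hE3 : claimE3) (g : Form) (hg : IsMetric g) (hconf : ConformallyToric g) :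
    ∃ (γ : ℝ → E) (l : ℝ), IsClosedGeodesic g γ l ∧ (l / Real.pi) ^ 3 ≤ vol g / vol round := by
  obtain ⟨g₁, u, hg1, ht1, hu, hupos, hgu⟩ := hconf
  obtain ⟨L, hL, hlen, γ, hγ⟩ := hA6 g hg
  set lam : E → ℝ := fun x => Real.sqrt (u x) with hlam
  have hlc : ContinuousOn lam (Metric.sphere (0 : E) 1) := hu.sqrt
  have hlp : ∀ x, ‖x‖ = 1 → 0 < lam x := fun x hx => Real.sqrt_pos.mpr (hupos x hx)
  have hgl : ∀ x v w : E, ‖x‖ = 1 → inner ℝ x v = 0 → inner ℝ x w = 0 →
      g x v w = (lam x) ^ 2 * g₁ x v w := by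
    intro x v w hx hv hw
    rw [hlam]
    simp only
    rw [Real.sq_sqrt (hupos x hx).le]
    exact hgu x v w hx hv hw
  obtain ⟨h2m, h2t⟩ := hB1 g₁ lam hg1 ht1 hlc hlp
  have h2L := hB2 g g₁ lam L hg hg1 ht1 hlc hlp hgl hlen
  have h2v := hB7 g g₁ lam hg hg1 ht1 hlc hlp hgl
  set g₂ : Form := fun x => (avg lam x) ^ 2 • g₁ x with hg2
  have hcore := hC1 g₂ h2m
  obtain ⟨hp1, hp2⟩ := hC2 g₂ L h2m h2t h2L
  obtain ⟨hd1, hd2⟩ := hC3 g₂ L h2m h2t h2L
  have hi1 := hD5 _ L _ _ _ _ hcore hp1 hd1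
  have hi2 := hD5 _ L _ _ _ _ hcore.neg hp2 hd2
  have h3 := hE3 _ L _ _ _ _ hL hcore hi1 hi2
  have h4 := hC5 g₂ h2m h2t
  refine ⟨γ, L, hγ, ?_⟩
  have hpi : 0 < Real.pi := Real.pi_pos
  have h7 : L ^ 3 ≤ Real.pi * vol g₂ := by
    rw [h4]
    calc L ^ 3 ≤ _ := h3
      _ = _ := by ring
  have h8 : L ^ 3 ≤ Real.pi * vol g := by
    calc L ^ 3 ≤ Real.pi * vol g₂ := h7
      _ ≤ Real.pi * vol g := by gcongr
  rw [hC6, div_pow, div_le_div_iff₀ (by positivity) (by positivity)]
  calc L ^ 3 * Real.pi ^ 2 ≤ (Real.pi * vol g) * Real.pi ^ 2 := by gcongr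
    _ = vol g * Real.pi ^ 3 := by ring

theorem vol_round : vol round = Real.pi ^ 2 :=
  itemC6 itemR1 (itemC5 (itemB4 itemR1) (itemB5 itemR1 itemR2 itemB5a itemB5b itemB5c) itemB6
    (itemC4 itemC1a))

theorem sharp (g : Form) (hg : IsMetric g) (hconf : ConformallyToric g) :
    ∃ (γ : ℝ → E) (l : ℝ), IsClosedGeodesic g γ l ∧ (l / Real.pi) ^ 3 ≤ vol g / vol round := by
  have hA4a := itemA4a itemA1
  have hA4b := itemA4b itemA3 hA4a
  have hA5 := itemA5 itemA2 hA4a hA4b
  have hA6 := itemA6 hA4a hA4b hA5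
  have hB1 := itemB1 itemR1 itemR2
  have hB2 := itemB2 itemR1 itemR2
  have hB4 := itemB4 itemR1
  have hB5 := itemB5 itemR1 itemR2 itemB5a itemB5b itemB5c
  have hB7 := itemB7 itemR1 itemR2 hB1 itemB3 hB4 hB5 itemB6
  have hC1 := itemC1 itemA1 itemC1a
  have hC2a := itemC2a itemA2 itemR1 itemR2 itemR3 itemC1a
  have hC2b := itemC2b itemA2 itemR1 itemR2 itemR3 itemC1a
  have hC2 := itemC2 itemA3 itemR1 hC1 hC2a hC2b
  have hC3 := itemC3 itemA2 itemR1 itemR2 itemR3
  have hC4 := itemC4 itemC1a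
  have hC5 := itemC5 hB4 hB5 itemB6 hC4
  have hD1 := D1_of itemD1a itemD1b
  have hD2a := itemD2a itemD2c
  have hD3 := itemD3 itemD2b itemD2c
  have hD5 := itemD5 hD1 hD2a hD3 itemD4
  have hE1 := itemE1 (itemE1b itemE1a)
  have hE3 := itemE3 hE1 itemE2
  exact sharp_of hA6 hB1 hB2 hB7 hC1 hC2 hC3 hC5 vol_round hD5 hE3 g hg hconf

end Pool.Agent.Work.MP_02f065_gt.Toric

end
end
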